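import Mathlib

set_option autoImplicit false

namespace Pool.Agent.Work.MP_b5407d_gt

theorem chord_value (k m l X Y : ℝ) (hk : 1 < k) (hm : 0 < m) (hl : 0 < l) (hml : m + l = 1)
    (hX : 0 < X) (hY : 0 < Y) (hX2 : X ^ 2 = (m + l * k ^ 2) ^ 3)
    (hY2 : Y ^ 2 = (m * k ^ 2 + l) ^ 3) :
    0 < (k ^ 3 * Y - X) / (k ^ 6 - 1) ∧ 0 < (k ^ 3 * X - Y) / (k ^ 6 - 1) ∧
      1 < ((k ^ 3 * Y - X) / (k ^ 6 - 1)) ^ 2 + ((k ^ 3 * X - Y) / (k ^ 6 - 1)) ^ 2 +
        ((k ^ 3 * Y - X) / (k ^ 6 - 1)) * ((k ^ 3 * X - Y) / (k ^ 6 - 1)) *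
          ((1 + k ^ 2) ^ 3 / (4 * k ^ 3)) := by
  have hk0 : 0 < k := by linarith
  have hk2 : 1 < k ^ 2 := by nlinarith
  have hk4 : 1 < k ^ 4 := by nlinarith
  have hk6 : 1 < k ^ 6 := by
    have : k ^ 6 = k ^ 2 * k ^ 4 := by ring
    nlinarith
  have hden : 0 < k ^ 6 - 1 := by linarith
  have h1 : X < k ^ 3 * Y := by
    apply lt_of_pow_lt_pow_left₀ 2 (by positivity)
    rw [hX2, mul_pow, hY2]
    have e : (k ^ 3) ^ 2 * (m * k ^ 2 + l) ^ 3 = (k ^ 2 * (m * k ^ 2 + l)) ^ 3 := by ring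
    rw [e]
    apply pow_lt_pow_left₀ _ (by positivity) (by norm_num)
    nlinarith
  have h2 : Y < k ^ 3 * X := by
    apply lt_of_pow_lt_pow_left₀ 2 (by positivity)
    rw [hY2, mul_pow, hX2]
    have e : (k ^ 3) ^ 2 * (m + l * k ^ 2) ^ 3 = (k ^ 2 * (m + l * k ^ 2)) ^ 3 := by ring
    rw [e]
    apply pow_lt_pow_left₀ _ (by positivity) (by norm_num)
    nlinarith
  refine ⟨div_pos (by linarith) hden, div_pos (by linarith) hden, ?_⟩
  obtain ⟨P, hP⟩ : ∃ P : ℝ, P = k ^ 2 + m * l * (k ^ 2 - 1) ^ 2 := ⟨_, rfl⟩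
  have hl' : l = 1 - m := by linarith
  have hPab : P = (m + l * k ^ 2) * (m * k ^ 2 + l) := by
    rw [hP, hl']; ring
  have hPk : k ^ 2 < P := by
    rw [hP]
    have : 0 < k ^ 2 - 1 := by linarith
    have : 0 < m * l * (k ^ 2 - 1) ^ 2 := by positivity
    linarith
  have hw2 : (X * Y) ^ 2 = P ^ 3 := by rw [mul_pow, hX2, hY2, hPab]; ring
  have hw : k * (3 * P - k ^ 2) / 2 ≤ X * Y := by
    apply le_of_sq_le_sq _ (by positivity)
    rw [hw2, ← sub_nonneg]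
    have : P ^ 3 - (k * (3 * P - k ^ 2) / 2) ^ 2 = (P - k ^ 2) ^ 2 * (4 * P - k ^ 2) / 4 := by ring
    rw [this]
    have : 0 < 4 * P - k ^ 2 := by nlinarith
    positivity
  have hs : X ^ 2 + Y ^ 2 = (1 + k ^ 2) ^ 3 - 3 * P * (1 + k ^ 2) := by
    rw [hX2, hY2, hPab, hl']; ring
  have e1 : ((k ^ 3 * Y - X) / (k ^ 6 - 1)) ^ 2 + ((k ^ 3 * X - Y) / (k ^ 6 - 1)) ^ 2 +
        ((k ^ 3 * Y - X) / (k ^ 6 - 1)) * ((k ^ 3 * X - Y) / (k ^ 6 - 1)) *
          ((1 + k ^ 2) ^ 3 / (4 * k ^ 3)) =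
      ((k ^ 6 + 1) * (X ^ 2 + Y ^ 2) - 4 * k ^ 3 * (X * Y) +
        ((1 + k ^ 2) ^ 3 / (4 * k ^ 3)) * ((k ^ 6 + 1) * (X * Y) - k ^ 3 * (X ^ 2 + Y ^ 2))) /
        (k ^ 6 - 1) ^ 2 := by
    field_simp
    ring
  rw [e1, lt_div_iff₀ (by positivity), hs]
  -- coefficient of XY
  have hV : 2 ≤ (1 + k ^ 2) ^ 3 / (4 * k ^ 3) := by
    rw [le_div_iff₀ (by positivity)]
    have h3 : 2 * k ≤ 1 + k ^ 2 := by nlinarith [sq_nonneg (k - 1)]
    have h4 : (2 * k) ^ 3 ≤ (1 + k ^ 2) ^ 3 := pow_le_pow_left₀ (by positivity) h3 3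
    nlinarith
  have hcoef : 0 ≤ (1 + k ^ 2) ^ 3 / (4 * k ^ 3) * (k ^ 6 + 1) - 4 * k ^ 3 := by
    have : 2 * (k ^ 6 + 1) ≤ (1 + k ^ 2) ^ 3 / (4 * k ^ 3) * (k ^ 6 + 1) := by gcongr
    nlinarith [sq_nonneg (k ^ 3 - 1)]
  have hlin : ((1 + k ^ 2) ^ 3 / (4 * k ^ 3) * (k ^ 6 + 1) - 4 * k ^ 3) *
      (k * (3 * P - k ^ 2) / 2) ≤
      ((1 + k ^ 2) ^ 3 / (4 * k ^ 3) * (k ^ 6 + 1) - 4 * k ^ 3) * (X * Y) := by gcongr
  have hfin : 1 * (k ^ 6 - 1) ^ 2 <
      (k ^ 6 + 1) * ((1 + k ^ 2) ^ 3 - 3 * P * (1 + k ^ 2)) -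
        (1 + k ^ 2) ^ 3 / (4 * k ^ 3) * (k ^ 3 * ((1 + k ^ 2) ^ 3 - 3 * P * (1 + k ^ 2))) +
      ((1 + k ^ 2) ^ 3 / (4 * k ^ 3) * (k ^ 6 + 1) - 4 * k ^ 3) *
      (k * (3 * P - k ^ 2) / 2) := by
    rw [← sub_pos]
    have f1 : (1 + k ^ 2) ^ 3 / (4 * k ^ 3) * (k ^ 3 * ((1 + k ^ 2) ^ 3 - 3 * P * (1 + k ^ 2))) =
        (1 + k ^ 2) ^ 3 / 4 * ((1 + k ^ 2) ^ 3 - 3 * P * (1 + k ^ 2)) := by
      field_simp
    have f2 : ((1 + k ^ 2) ^ 3 / (4 * k ^ 3) * (k ^ 6 + 1) - 4 * k ^ 3) *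
        (k * (3 * P - k ^ 2) / 2) =
        ((1 + k ^ 2) ^ 3 * (k ^ 6 + 1) - 16 * k ^ 6) * (3 * P - k ^ 2) / (8 * k ^ 2) := by
      field_simp
      ring
    have e2 : (k ^ 6 + 1) * ((1 + k ^ 2) ^ 3 - 3 * P * (1 + k ^ 2)) -
        (1 + k ^ 2) ^ 3 / (4 * k ^ 3) * (k ^ 3 * ((1 + k ^ 2) ^ 3 - 3 * P * (1 + k ^ 2))) +
      ((1 + k ^ 2) ^ 3 / (4 * k ^ 3) * (k ^ 6 + 1) - 4 * k ^ 3) *
      (k * (3 * P - k ^ 2) / 2) - 1 * (k ^ 6 - 1) ^ 2 =
      3 * (P - k ^ 2) * (k ^ 2 - 1) ^ 4 * (k ^ 4 + k ^ 2 + 1) / (8 * k ^ 2) := by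
      rw [f1, f2, eq_div_iff (by positivity), sub_mul, add_mul, div_mul_cancel₀ _ (by positivity)]
      ring
    rw [e2]
    have : 0 < P - k ^ 2 := by linarith
    have : 0 < k ^ 2 - 1 := by linarith
    positivity
  linarith

/-- Reverse Minkowski inequality for the weighted two-point `L_p` mean, `0 < p ≤ 1`. -/
theorem rev_mink (p m l : ℝ) (hp : 0 < p) (hp1 : p ≤ 1) (hm : 0 < m) (hl : 0 < l)
    (a b a' b' s t : ℝ) (ha : 0 < a) (hb : 0 < b) (ha' : 0 < a') (hb' : 0 < b')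
    (hs : 0 ≤ s) (ht : 0 ≤ t) (hst : 0 < s + t) :
    s * (m * a ^ p + l * b ^ p) ^ (1 / p) + t * (m * a' ^ p + l * b' ^ p) ^ (1 / p) ≤
      (m * (s * a + t * a') ^ p + l * (s * b + t * b') ^ p) ^ (1 / p) := by
  have hn1 : 0 < m * a ^ p + l * b ^ p := by positivity
  have hn2 : 0 < m * a' ^ p + l * b' ^ p := by positivity
  set n1 : ℝ := (m * a ^ p + l * b ^ p) ^ (1 / p) with hn1d
  set n2 : ℝ := (m * a' ^ p + l * b' ^ p) ^ (1 / p) with hn2d
  have hn1p : 0 < n1 := by positivity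
  have hn2p : 0 < n2 := by positivity
  have e1 : n1 ^ p = m * a ^ p + l * b ^ p := by
    rw [hn1d, ← Real.rpow_mul hn1.le, one_div, inv_mul_cancel₀ hp.ne', Real.rpow_one]
  have e2 : n2 ^ p = m * a' ^ p + l * b' ^ p := by
    rw [hn2d, ← Real.rpow_mul hn2.le, one_div, inv_mul_cancel₀ hp.ne', Real.rpow_one]
  set D : ℝ := s * n1 + t * n2 with hD
  have hDpos : 0 < D := by
    rcases lt_or_eq_of_le hs with h | h
    · have : 0 < s * n1 := by positivity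
      have : 0 ≤ t * n2 := by positivity
      linarith
    · have : 0 < t := by linarith
      have : 0 < t * n2 := by positivity
      have : 0 ≤ s * n1 := by positivity
      linarith
  have hconc := Real.concaveOn_rpow hp.le hp1
  have hθ : s * n1 / D + t * n2 / D = 1 := by
    rw [← add_div]; exact div_self hDpos.ne'
  have key : ∀ x x' : ℝ, 0 < x → 0 < x' →
      (s * n1 / D) * (x / n1) ^ p + (t * n2 / D) * (x' / n2) ^ p ≤
        ((s * x + t * x') / D) ^ p := by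
    intro x x' hx hx'
    have h := hconc.2 (show x / n1 ∈ Set.Ici (0 : ℝ) from by simp; positivity)
      (show x' / n2 ∈ Set.Ici (0 : ℝ) from by simp; positivity)
      (show 0 ≤ s * n1 / D by positivity) (show 0 ≤ t * n2 / D by positivity) hθ
    simp only [smul_eq_mul] at h
    have e : s * n1 / D * (x / n1) + t * n2 / D * (x' / n2) = (s * x + t * x') / D := by
      field_simp
    rw [e] at h
    exact h
  have k1 := key a a' ha ha'
  have k2 := key b b' hb hb'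
  have hsum : 1 ≤ m * ((s * a + t * a') / D) ^ p + l * ((s * b + t * b') / D) ^ p := by
    have h1 : (s * n1 / D) * (m * (a / n1) ^ p + l * (b / n1) ^ p) +
        (t * n2 / D) * (m * (a' / n2) ^ p + l * (b' / n2) ^ p) = 1 := by
      rw [Real.div_rpow ha.le hn1p.le, Real.div_rpow hb.le hn1p.le, Real.div_rpow ha'.le hn2p.le,
        Real.div_rpow hb'.le hn2p.le]
      have h11 : m * (a ^ p / n1 ^ p) + l * (b ^ p / n1 ^ p) = 1 := by
        rw [e1]; field_simp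
      have h12 : m * (a' ^ p / n2 ^ p) + l * (b' ^ p / n2 ^ p) = 1 := by
        rw [e2]; field_simp
      rw [h11, h12, mul_one, mul_one]; exact hθ
    nlinarith [mul_le_mul_of_nonneg_left k1 hm.le, mul_le_mul_of_nonneg_left k2 hl.le]
  have hA : 0 < s * a + t * a' := by
    rcases lt_or_eq_of_le hs with h | h
    · have : 0 < s * a := by positivity
      have : 0 ≤ t * a' := by positivity
      linarith
    · have : 0 < t := by linarith
      have : 0 < t * a' := by positivity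
      have : 0 ≤ s * a := by positivity
      linarith
  have hB : 0 < s * b + t * b' := by
    rcases lt_or_eq_of_le hs with h | h
    · have : 0 < s * b := by positivity
      have : 0 ≤ t * b' := by positivity
      linarith
    · have : 0 < t := by linarith
      have : 0 < t * b' := by positivity
      have : 0 ≤ s * b := by positivity
      linarith
  rw [Real.div_rpow hA.le hDpos.le, Real.div_rpow hB.le hDpos.le] at hsum
  have hDp : 0 < D ^ p := by positivity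
  have hfin : D ^ p ≤ m * (s * a + t * a') ^ p + l * (s * b + t * b') ^ p := by
    have h3 : m * ((s * a + t * a') ^ p / D ^ p) + l * ((s * b + t * b') ^ p / D ^ p) =
        (m * (s * a + t * a') ^ p + l * (s * b + t * b') ^ p) / D ^ p := by ring
    rw [h3, le_div_iff₀ hDp, one_mul] at hsum
    exact hsum
  calc D = (D ^ p) ^ (1 / p) := by
        rw [← Real.rpow_mul hDpos.le, mul_one_div, div_self hp.ne', Real.rpow_one]
    _ ≤ _ := Real.rpow_le_rpow hDp.le hfin (by positivity)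

/-- Power mean monotonicity in the exponent. -/
theorem power_mean (p q m l a b : ℝ) (hp : 0 < p) (hpq : p ≤ q) (hm : 0 < m) (hl : 0 < l)
    (hml : m + l = 1) (ha : 0 < a) (hb : 0 < b) :
    (m * a ^ p + l * b ^ p) ^ (1 / p) ≤ (m * a ^ q + l * b ^ q) ^ (1 / q) := by
  have hq : 0 < q := lt_of_lt_of_le hp hpq
  have h := (convexOn_rpow ((one_le_div hp).2 hpq)).2
    (show a ^ p ∈ Set.Ici (0 : ℝ) from by simp only [Set.mem_Ici]; positivity)
    (show b ^ p ∈ Set.Ici (0 : ℝ) from by simp only [Set.mem_Ici]; positivity) hm.le hl.le hml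
  simp only [smul_eq_mul] at h
  rw [← Real.rpow_mul ha.le, ← Real.rpow_mul hb.le, mul_div_cancel₀ _ hp.ne'] at h
  have h2 := Real.rpow_le_rpow (by positivity) h (show 0 ≤ 1 / q by positivity)
  rw [← Real.rpow_mul (by positivity)] at h2
  have e : q / p * (1 / q) = 1 / p := by field_simp
  rw [e] at h2
  exact h2

/-- The chord containment in numerical form. -/
theorem chord (k m l p : ℝ) (hk : 1 < k) (hm : 0 < m) (hl : 0 < l) (hml : m + l = 1)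
    (hp : 2 / 3 ≤ p) :
    ∃ c1 c2 : ℝ, 0 < c1 ∧ 0 < c2 ∧ 1 < c1 ^ 2 + c2 ^ 2 + c1 * c2 * ((1 + k ^ 2) ^ 3 / (4 * k ^ 3)) ∧
      ∀ a b : ℝ, 0 < a → 0 < b → a ≤ k ^ 3 * b → b ≤ k ^ 3 * a →
        c1 * a + c2 * b ≤ (m * a ^ p + l * b ^ p) ^ (1 / p) := by
  have hk0 : 0 < k := by linarith
  set X : ℝ := (m + l * k ^ 2) ^ ((3 : ℝ) / 2) with hXd
  set Y : ℝ := (m * k ^ 2 + l) ^ ((3 : ℝ) / 2) with hYd
  have hX : 0 < X := by positivity
  have hY : 0 < Y := by positivity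
  have hX2 : X ^ 2 = (m + l * k ^ 2) ^ 3 := by
    rw [hXd, ← Real.rpow_natCast, ← Real.rpow_mul (by positivity), ← Real.rpow_natCast]
    norm_num
  have hY2 : Y ^ 2 = (m * k ^ 2 + l) ^ 3 := by
    rw [hYd, ← Real.rpow_natCast, ← Real.rpow_mul (by positivity), ← Real.rpow_natCast]
    norm_num
  obtain ⟨h1, h2, h3⟩ := chord_value k m l X Y hk hm hl hml hX hY hX2 hY2
  refine ⟨_, _, h1, h2, h3, ?_⟩
  intro a b ha hb hab hba
  have hk6 : 1 < k ^ 6 := one_lt_pow₀ hk (by norm_num)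
  have hk3 : 1 < k ^ 3 := one_lt_pow₀ hk (by norm_num)
  have hden : 0 < k ^ 6 - 1 := by linarith
  have hpow : ((k : ℝ) ^ 3) ^ ((2 : ℝ) / 3) = k ^ 2 := by
    rw [← Real.rpow_natCast, ← Real.rpow_mul hk0.le, ← Real.rpow_natCast]
    norm_num
  have h4 := rev_mink (2 / 3) m l (by norm_num) (by norm_num) hm hl 1 (k ^ 3) (k ^ 3) 1
    ((k ^ 3 * b - a) / (k ^ 6 - 1)) ((k ^ 3 * a - b) / (k ^ 6 - 1)) one_pos (by positivity)
    (by positivity) one_pos (div_nonneg (by linarith) hden.le) (div_nonneg (by linarith) hden.le)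
    (by
      rw [← add_div]
      apply div_pos _ hden
      nlinarith)
  rw [Real.one_rpow, hpow, mul_one, mul_one, mul_one, mul_one] at h4
  have e1 : (k ^ 3 * b - a) / (k ^ 6 - 1) + (k ^ 3 * a - b) / (k ^ 6 - 1) * k ^ 3 = a := by
    field_simp
    ring
  have e2 : (k ^ 3 * b - a) / (k ^ 6 - 1) * k ^ 3 + (k ^ 3 * a - b) / (k ^ 6 - 1) = b := by
    field_simp
    ring
  rw [e1, e2] at h4
  have e3 : (1 : ℝ) / (2 / 3) = 3 / 2 := by norm_num
  have h5 := power_mean (2 / 3) p m l a b (by norm_num) hp hm hl hml ha hb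
  refine le_trans (le_of_eq ?_) (h4.trans h5)
  rw [e3, ← hXd, ← hYd]
  ring

end Pool.Agent.Work.MP_b5407d_gt
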