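import Mathlib

set_option autoImplicit false

namespace Pool.Agent.Work.MP_b5407d_gt

/-- The algebraic heart: optimal Moebius parameter. -/
theorem alg_mobius (a0 b0 a1 b1 k : ℝ) (ha0 : 0 < a0) (hb0 : 0 < b0) (ha1 : 0 < a1)
    (hk : 1 ≤ k) (hb1 : b1 = k ^ 3 * b0) :
    ∃ l : ℝ, 0 < l ∧ (1 + k ^ 2) ^ 3 / (4 * k ^ 3) ≤
      (a0 + b0) * (a1 + b1) * (l / (b0 + l * a0) ^ 2) +
      (a0 + b0) * (a1 + b1) * (l / (a1 + l * b1) ^ 2) := by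
  have hk0 : 0 < k := by linarith
  have hD : 0 < 2 * k ^ 2 * b0 + a0 * (k ^ 2 - 1) := by
    have : 0 ≤ k ^ 2 - 1 := by nlinarith
    have := mul_nonneg ha0.le this
    positivity
  set D : ℝ := 2 * k ^ 2 * b0 + a0 * (k ^ 2 - 1) with hDdef
  refine ⟨(1 + k ^ 2) * b0 / D, by positivity, ?_⟩
  set W : ℝ := b0 * (a0 + b0) with hW
  have hWpos : 0 < W := by positivity
  set Z : ℝ := a1 * D + (1 + k ^ 2) * k ^ 3 * b0 ^ 2 with hZ
  have hZpos : 0 < Z := by positivity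
  have h1 : b0 + (1 + k ^ 2) * b0 / D * a0 = 2 * k ^ 2 * W / D := by
    rw [hW]; field_simp; rw [hDdef]; ring
  have h2 : a1 + (1 + k ^ 2) * b0 / D * b1 = Z / D := by
    rw [hb1, hZ]; field_simp
  have h3 : (a1 + b1) = (Z + k ^ 3 * (k ^ 2 - 1) * W) / D := by
    rw [hb1, hZ, hW]; field_simp; rw [hDdef]; ring
  rw [h1, h2, h3]
  have e1 : (a0 + b0) = W / b0 := by rw [hW]; field_simp
  rw [e1]
  have key : W / b0 * ((Z + k ^ 3 * (k ^ 2 - 1) * W) / D) *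
        ((1 + k ^ 2) * b0 / D / (2 * k ^ 2 * W / D) ^ 2) +
      W / b0 * ((Z + k ^ 3 * (k ^ 2 - 1) * W) / D) * ((1 + k ^ 2) * b0 / D / (Z / D) ^ 2) -
      (1 + k ^ 2) ^ 3 / (4 * k ^ 3) =
      (1 + k ^ 2) * (Z - 2 * k ^ 3 * W) ^ 2 * (Z + k * (k ^ 2 - 1) * W) /
        (4 * k ^ 4 * W * Z ^ 2) := by
    field_simp
    ring
  have hpos : 0 ≤ (1 + k ^ 2) * (Z - 2 * k ^ 3 * W) ^ 2 * (Z + k * (k ^ 2 - 1) * W) /
        (4 * k ^ 4 * W * Z ^ 2) := by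
    have : 0 ≤ k ^ 2 - 1 := by nlinarith
    positivity
  linarith

end Pool.Agent.Work.MP_b5407d_gt
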