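import Mathlib

set_option autoImplicit false
open MeasureTheory Set
open scoped ENNReal Pointwise

namespace Pool.Agent.Work.MP_b5407d_gt

/-- One dimensional Brunn-Minkowski for compact sets. -/
theorem one_dim (X Y : Set ℝ) (hX : IsCompact X) (hXn : X.Nonempty)
    (hY : IsCompact Y) (hYn : Y.Nonempty) : volume X + volume Y ≤ volume (X + Y) := by
  obtain ⟨m, hm, hmax⟩ := hX.exists_isGreatest hXn
  obtain ⟨n, hn, hmin⟩ := hY.exists_isLeast hYn
  have h1 : (fun x => x + n) '' X ⊆ X + Y := by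
    rintro _ ⟨x, hx, rfl⟩
    exact add_mem_add hx hn
  have h2 : (fun y => m + y) '' Y ⊆ X + Y := by
    rintro _ ⟨y, hy, rfl⟩
    exact add_mem_add hm hy
  have h3 : ((fun x => x + n) '' X) ∩ ((fun y => m + y) '' Y) ⊆ {m + n} := by
    rintro z ⟨⟨x, hx, rfl⟩, ⟨y, hy, hxy⟩⟩
    have hxm : x ≤ m := hmax hx
    have hny : n ≤ y := hmin hy
    simp only at hxy
    simp only [mem_singleton_iff]
    linarith
  have h4 : AEDisjoint volume ((fun x => x + n) '' X) ((fun y => m + y) '' Y) := by
    refine measure_mono_null h3 ?_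
    simp
  have hm2 : MeasurableSet ((fun y => m + y) '' Y) :=
    (hY.image (by fun_prop)).measurableSet
  calc volume X + volume Y = volume ((fun x => x + n) '' X) + volume ((fun y => m + y) '' Y) := by
        congr 1
        · rw [image_add_right, measure_preimage_add_right]
        · rw [image_add_left, measure_preimage_add]
    _ = volume (((fun x => x + n) '' X) ∪ ((fun y => m + y) '' Y)) :=
        (measure_union₀ hm2.nullMeasurableSet h4).symm
    _ ≤ volume (X + Y) := measure_mono (union_subset h1 h2)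

/-- Fubini for a weight depending on the first coordinate. -/
theorem fubini_weight (A : Set (ℝ × ℝ)) (hA : MeasurableSet A) (w : ℝ → ℝ≥0∞)
    (hw : Measurable w) :
    ∫⁻ p in A, w p.1 = ∫⁻ x, w x * volume (Prod.mk x ⁻¹' A) := by
  rw [← lintegral_indicator hA, Measure.volume_eq_prod, lintegral_prod]
  · refine lintegral_congr fun x => ?_
    have : (fun y => A.indicator (fun p : ℝ × ℝ => w p.1) (x, y)) =
        (Prod.mk x ⁻¹' A).indicator (fun _ => w x) := by
      funext y
      by_cases h : (x, y) ∈ A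
      · rw [indicator_of_mem h, indicator_of_mem (show y ∈ Prod.mk x ⁻¹' A from h)]
      · rw [indicator_of_notMem h, indicator_of_notMem (show y ∉ Prod.mk x ⁻¹' A from h)]
    rw [this, lintegral_indicator (measurable_prodMk_left hA)]
    simp
  · exact ((hw.comp measurable_fst).indicator hA).aemeasurable

/-- The slicing inequality with an arbitrary increasing change of variable. -/
theorem slicing (A B : Set (ℝ × ℝ)) (hA : IsCompact A) (hB : IsCompact B)
    (a b a' b' : ℝ)
    (hAs : ∀ p ∈ A, p.1 ∈ Icc a b) (hAn : ∀ x ∈ Icc a b, (Prod.mk x ⁻¹' A).Nonempty)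
    (hBs : ∀ p ∈ B, p.1 ∈ Icc a' b') (hBn : ∀ x ∈ Icc a' b', (Prod.mk x ⁻¹' B).Nonempty)
    (T T' r : ℝ → ℝ) (hT : ∀ x ∈ Icc a b, HasDerivWithinAt T (T' x) (Icc a b) x)
    (hT'm : Measurable T') (hrm : Measurable r)
    (hT' : ∀ x ∈ Icc a b, 0 < T' x) (hTim : T '' Icc a b = Icc a' b')
    (hr : ∀ x ∈ Icc a b, r (T x) * T' x = 1) (hTmono : StrictMonoOn T (Icc a b))
    (c1 c2 : ℝ) (hc1 : 0 < c1) (hc2 : 0 < c2) :
    (∫⁻ p in A, ENNReal.ofReal (c1 * (c1 + c2 * T' p.1))) +
      (∫⁻ q in B, ENNReal.ofReal (c2 * (c1 * r q.1 + c2))) ≤ volume (c1 • A + c2 • B) := by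
  have hAm := hA.measurableSet
  have hBm := hB.measurableSet
  have hCcomp : IsCompact (c1 • A + c2 • B) := (hA.smul c1).add (hB.smul c2)
  have hCm := hCcomp.measurableSet
  -- the substitution
  set S : ℝ → ℝ := fun x => c1 * x + c2 * T x with hS
  have hSd : ∀ x ∈ Icc a b, HasDerivWithinAt S (c1 + c2 * T' x) (Icc a b) x := by
    intro x hx
    have h1 : HasDerivWithinAt (fun x : ℝ => c1 * x) (c1 * 1) (Icc a b) x :=
      (hasDerivWithinAt_id x _).const_mul c1
    have h2 := (hT x hx).const_mul c2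
    have := h1.add h2
    rw [mul_one] at this
    exact this
  have hSinj : InjOn S (Icc a b) := by
    apply StrictMonoOn.injOn
    intro x hx y hy hxy
    have := hTmono hx hy hxy
    simp only [hS]
    nlinarith
  have hTinj : InjOn T (Icc a b) := hTmono.injOn
  -- fibre inequality
  have hfib : ∀ x ∈ Icc a b,
      ENNReal.ofReal c1 * volume (Prod.mk x ⁻¹' A) + ENNReal.ofReal c2 * volume (Prod.mk (T x) ⁻¹' B)
        ≤ volume (Prod.mk (S x) ⁻¹' (c1 • A + c2 • B)) := by
    intro x hx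
    have hTx : T x ∈ Icc a' b' := by rw [← hTim]; exact mem_image_of_mem _ hx
    have hcA : IsCompact (Prod.mk x ⁻¹' A) := by
      have hcl : IsClosed (Prod.mk x ⁻¹' A) := hA.isClosed.preimage (by fun_prop)
      have : Prod.mk x ⁻¹' A ⊆ Prod.snd '' A := fun y hy => ⟨(x, y), hy, rfl⟩
      exact (hA.image continuous_snd).of_isClosed_subset hcl this
    have hcB : IsCompact (Prod.mk (T x) ⁻¹' B) := by
      have hcl : IsClosed (Prod.mk (T x) ⁻¹' B) := hB.isClosed.preimage (by fun_prop)
      have : Prod.mk (T x) ⁻¹' B ⊆ Prod.snd '' B := fun y hy => ⟨(T x, y), hy, rfl⟩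
      exact (hB.image continuous_snd).of_isClosed_subset hcl this
    have h1 := one_dim (c1 • (Prod.mk x ⁻¹' A)) (c2 • (Prod.mk (T x) ⁻¹' B)) (hcA.smul c1)
      ((hAn x hx).smul_set) (hcB.smul c2) ((hBn _ hTx).smul_set)
    rw [Measure.addHaar_smul, Measure.addHaar_smul] at h1
    simp only [Module.finrank_self, pow_one, abs_of_pos hc1, abs_of_pos hc2] at h1
    refine h1.trans (measure_mono ?_)
    rintro z ⟨u, ⟨y, hy, rfl⟩, v, ⟨y', hy', rfl⟩, rfl⟩
    refine ⟨c1 • (x, y), smul_mem_smul_set hy, c2 • (T x, y'), smul_mem_smul_set hy', ?_⟩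
    ext
    · simp [hS]
    · simp
  have hfA : ∀ x, x ∉ Icc a b → volume (Prod.mk x ⁻¹' A) = 0 := by
    intro x hx
    have : Prod.mk x ⁻¹' A = ∅ := by
      ext y; simp only [mem_preimage, mem_empty_iff_false, iff_false]
      intro h; exact hx (hAs _ h)
    rw [this]; simp
  have hfB : ∀ x, x ∉ Icc a' b' → volume (Prod.mk x ⁻¹' B) = 0 := by
    intro x hx
    have : Prod.mk x ⁻¹' B = ∅ := by
      ext y; simp only [mem_preimage, mem_empty_iff_false, iff_false]
      intro h; exact hx (hBs _ h)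
    rw [this]; simp
  have hmfA : Measurable fun x => volume (Prod.mk x ⁻¹' A) := measurable_measure_prodMk_left hAm
  have hmfB : Measurable fun x => volume (Prod.mk x ⁻¹' B) := measurable_measure_prodMk_left hBm
  -- rewrite both integrals as one dimensional ones
  have hL1 : ∫⁻ p in A, ENNReal.ofReal (c1 * (c1 + c2 * T' p.1)) =
      ∫⁻ x in Icc a b, ENNReal.ofReal (c1 * (c1 + c2 * T' x)) * volume (Prod.mk x ⁻¹' A) := by
    rw [fubini_weight A hAm (fun x => ENNReal.ofReal (c1 * (c1 + c2 * T' x))) (by fun_prop)]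
    rw [← lintegral_indicator measurableSet_Icc]
    refine lintegral_congr fun x => ?_
    by_cases hx : x ∈ Icc a b
    · rw [indicator_of_mem hx]
    · rw [indicator_of_notMem hx, hfA x hx, mul_zero]
  have hL2 : ∫⁻ q in B, ENNReal.ofReal (c2 * (c1 * r q.1 + c2)) =
      ∫⁻ x in Icc a b, ENNReal.ofReal (c2 * (c1 + c2 * T' x)) * volume (Prod.mk (T x) ⁻¹' B) := by
    rw [fubini_weight B hBm (fun x => ENNReal.ofReal (c2 * (c1 * r x + c2))) (by fun_prop)]
    have : ∫⁻ x, ENNReal.ofReal (c2 * (c1 * r x + c2)) * volume (Prod.mk x ⁻¹' B) =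
        ∫⁻ x in T '' Icc a b, ENNReal.ofReal (c2 * (c1 * r x + c2)) * volume (Prod.mk x ⁻¹' B) := by
      rw [hTim, ← lintegral_indicator measurableSet_Icc]
      refine lintegral_congr fun x => ?_
      by_cases hx : x ∈ Icc a' b'
      · rw [indicator_of_mem hx]
      · rw [indicator_of_notMem hx, hfB x hx, mul_zero]
    rw [this, lintegral_image_eq_lintegral_abs_deriv_mul measurableSet_Icc hT hTinj]
    refine setLIntegral_congr_fun measurableSet_Icc fun x hx => ?_
    rw [← mul_assoc, ← ENNReal.ofReal_mul (abs_nonneg _), abs_of_pos (hT' x hx)]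
    congr 2
    have := hr x hx
    linear_combination c2 * c1 * this
  rw [hL1, hL2, ← lintegral_add_left (by fun_prop)]
  calc ∫⁻ x in Icc a b, (ENNReal.ofReal (c1 * (c1 + c2 * T' x)) * volume (Prod.mk x ⁻¹' A) +
        ENNReal.ofReal (c2 * (c1 + c2 * T' x)) * volume (Prod.mk (T x) ⁻¹' B))
      ≤ ∫⁻ x in Icc a b, ENNReal.ofReal |c1 + c2 * T' x| *
          volume (Prod.mk (S x) ⁻¹' (c1 • A + c2 • B)) := by
        refine setLIntegral_mono' measurableSet_Icc fun x hx => ?_
        have hpos : 0 < c1 + c2 * T' x := by have := hT' x hx; positivity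
        rw [abs_of_pos hpos]
        calc _ = ENNReal.ofReal (c1 + c2 * T' x) * (ENNReal.ofReal c1 * volume (Prod.mk x ⁻¹' A) +
              ENNReal.ofReal c2 * volume (Prod.mk (T x) ⁻¹' B)) := by
              rw [ENNReal.ofReal_mul hc1.le, ENNReal.ofReal_mul hc2.le]
              ring
          _ ≤ _ := by gcongr; exact hfib x hx
    _ = ∫⁻ z in S '' Icc a b, volume (Prod.mk z ⁻¹' (c1 • A + c2 • B)) :=
        (lintegral_image_eq_lintegral_abs_deriv_mul measurableSet_Icc hSd hSinj
          (fun z => volume (Prod.mk z ⁻¹' (c1 • A + c2 • B)))).symm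
    _ ≤ ∫⁻ z, volume (Prod.mk z ⁻¹' (c1 • A + c2 • B)) := setLIntegral_le_lintegral _ _
    _ = volume (c1 • A + c2 • B) := by
        rw [Measure.volume_eq_prod, Measure.prod_apply hCm]

theorem ofReal_integral_le {α : Type*} [MeasurableSpace α] (μ : Measure α) (f : α → ℝ)
    (hf : Integrable f μ) : ENNReal.ofReal (∫ x, f x ∂μ) ≤ ∫⁻ x, ENNReal.ofReal (f x) ∂μ := by
  rw [integral_eq_lintegral_pos_part_sub_lintegral_neg_part hf]
  refine le_trans (ENNReal.ofReal_le_ofReal (sub_le_self _ ENNReal.toReal_nonneg)) ?_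
  exact ENNReal.ofReal_toReal_le

theorem tangent_sq (N0 N : ℝ) (hN0 : 0 < N0) (hN : 0 < N) :
    (3 - 2 * N / N0) / N0 ^ 2 ≤ 1 / N ^ 2 := by
  rw [← sub_nonneg]
  have : 1 / N ^ 2 - (3 - 2 * N / N0) / N0 ^ 2 = (N0 - N) ^ 2 * (N0 + 2 * N) / (N ^ 2 * N0 ^ 3) := by
    field_simp
    ring
  rw [this]
  positivity

/-- Lower bound of a weighted integral over a planar compact set whose first moment vanishes. -/
theorem weighted_ge (A : Set (ℝ × ℝ)) (hA : IsCompact A) (hm : ∫ p in A, p.1 = 0)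
    (w : ℝ → ℝ) (c d : ℝ) (hw : ∀ p ∈ A, c + d * p.1 ≤ w p.1) :
    ENNReal.ofReal (c * (volume A).toReal) ≤ ∫⁻ p in A, ENNReal.ofReal (w p.1) := by
  have hi1 : IntegrableOn (fun p : ℝ × ℝ => p.1) A := by
    exact (continuous_fst.continuousOn).integrableOn_compact hA
  have hi0 : IntegrableOn (fun _ : ℝ × ℝ => c) A := by
    exact (continuous_const.continuousOn).integrableOn_compact hA
  have hi2 : IntegrableOn (fun p : ℝ × ℝ => c + d * p.1) A := hi0.add (hi1.const_mul d)
  have h1 : ∫ p in A, (c + d * p.1) = c * (volume A).toReal := by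
    rw [integral_add hi0 (hi1.const_mul d), integral_const_mul, hm, mul_zero, add_zero]
    simp [Measure.real, mul_comm]
  rw [← h1]
  refine (ofReal_integral_le _ _ hi2).trans ?_
  exact setLIntegral_mono' hA.measurableSet fun p hp => ENNReal.ofReal_le_ofReal (hw p hp)

/-- The slicing inequality with the Moebius change of variable and Jensen at the centroid. -/
theorem slicing_mobius (A B : Set (ℝ × ℝ)) (hA : IsCompact A) (hB : IsCompact B)
    (a0 b0 a1 b1 l : ℝ) (ha0 : 0 < a0) (hb0 : 0 < b0) (ha1 : 0 < a1) (hb1 : 0 < b1) (hl : 0 < l)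
    (hAs : ∀ p ∈ A, p.1 ∈ Icc (-a0) b0) (hAn : ∀ x ∈ Icc (-a0) b0, (Prod.mk x ⁻¹' A).Nonempty)
    (hBs : ∀ p ∈ B, p.1 ∈ Icc (-a1) b1) (hBn : ∀ x ∈ Icc (-a1) b1, (Prod.mk x ⁻¹' B).Nonempty)
    (hmA : ∫ p in A, p.1 = 0) (hmB : ∫ p in B, p.1 = 0)
    (c1 c2 : ℝ) (hc1 : 0 < c1) (hc2 : 0 < c2) :
    c1 ^ 2 * (volume A).toReal + c2 ^ 2 * (volume B).toReal +
      c1 * c2 * ((a0 + b0) * (a1 + b1) * (l / (b0 + l * a0) ^ 2) * (volume A).toReal +
        (a0 + b0) * (a1 + b1) * (l / (a1 + l * b1) ^ 2) * (volume B).toReal) ≤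
      (volume (c1 • A + c2 • B)).toReal := by
  set N : ℝ → ℝ := fun x => (b0 - x) + l * (x + a0) with hN
  set M : ℝ → ℝ := fun y => l * (b1 - y) + (y + a1) with hM
  set q : ℝ := (a0 + b0) * (a1 + b1) * l with hq
  have hqpos : 0 < q := by positivity
  set T : ℝ → ℝ := fun x => -a1 + (a1 + b1) * l * ((x + a0) / N x) with hT
  set T' : ℝ → ℝ := fun x => q / (N x) ^ 2 with hT'
  set r : ℝ → ℝ := fun y => q / (M y) ^ 2 with hr
  have hNpos : ∀ x ∈ Icc (-a0) b0, 0 < N x := by
    intro x hx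
    obtain ⟨h1, h2⟩ := hx
    simp only [hN]
    rcases lt_or_ge x b0 with h | h
    · have : 0 ≤ l * (x + a0) := by apply mul_nonneg hl.le; linarith
      linarith
    · have : 0 < l * (x + a0) := by apply mul_pos hl; linarith
      linarith
  have hMpos : ∀ x ∈ Icc (-a1) b1, 0 < M x := by
    intro x hx
    obtain ⟨h1, h2⟩ := hx
    simp only [hM]
    rcases lt_or_ge x b1 with h | h
    · have : 0 < l * (b1 - x) := by apply mul_pos hl; linarith
      linarith
    · have : 0 ≤ l * (b1 - x) := by apply mul_nonneg hl.le; linarith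
      linarith
  have hder : ∀ x ∈ Icc (-a0) b0, HasDerivWithinAt T (T' x) (Icc (-a0) b0) x := by
    intro x hx
    have hNx := (hNpos x hx).ne'
    have h1 : HasDerivAt (fun x : ℝ => x + a0) 1 x := (hasDerivAt_id x).add_const a0
    have h2 : HasDerivAt N (-1 + l * 1) x :=
      ((hasDerivAt_id x).const_sub b0).add (h1.const_mul l)
    have h3 := ((h1.div h2 hNx).const_mul ((a1 + b1) * l)).const_add (-a1)
    have h4 : (a1 + b1) * l * ((1 * N x - (x + a0) * (-1 + l * 1)) / N x ^ 2) = T' x := by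
      simp only [hT', hq]
      field_simp
      simp only [hN]
      ring
    rw [h4] at h3
    exact h3.hasDerivWithinAt
  have hdiff : ∀ x ∈ Icc (-a0) b0, ∀ y ∈ Icc (-a0) b0, T y - T x = q * (y - x) / (N x * N y) := by
    intro x hx y hy
    have hNx := (hNpos x hx).ne'
    have hNy := (hNpos y hy).ne'
    simp only [hT, hq]
    field_simp
    simp only [hN]
    ring
  have hmono : StrictMonoOn T (Icc (-a0) b0) := by
    intro x hx y hy hxy
    have h1 := hdiff x hx y hy
    have h2 : 0 < q * (y - x) / (N x * N y) := by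
      have := hNpos x hx
      have := hNpos y hy
      have : 0 < y - x := by linarith
      positivity
    linarith
  have hle : -a0 ≤ b0 := by linarith
  have hTa : T (-a0) = -a1 := by simp [hT]
  have hTb : T b0 = b1 := by
    simp only [hT, hN]
    have : l * (b0 + a0) ≠ 0 := by positivity
    field_simp
    ring
  have him : T '' Icc (-a0) b0 = Icc (-a1) b1 := by
    apply Subset.antisymm
    · rintro _ ⟨x, hx, rfl⟩
      constructor
      · rw [← hTa]; exact hmono.monotoneOn (left_mem_Icc.2 hle) hx hx.1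
      · rw [← hTb]; exact hmono.monotoneOn hx (right_mem_Icc.2 hle) hx.2
    · have hc : ContinuousOn T (Icc (-a0) b0) := fun x hx => (hder x hx).continuousWithinAt
      have := intermediate_value_Icc hle hc
      rw [hTa, hTb] at this
      exact this
  have hrT : ∀ x ∈ Icc (-a0) b0, r (T x) * T' x = 1 := by
    intro x hx
    have hNx := (hNpos x hx).ne'
    have h1 : M (T x) = q / N x := by
      simp only [hM, hT, hq]
      field_simp
      simp only [hN]
      ring
    simp only [hr, hT']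
    rw [h1]
    field_simp
  have hNm : Measurable N := by fun_prop
  have hMm : Measurable M := by fun_prop
  have hT'm : Measurable T' := by simp only [hT']; fun_prop
  have hrm : Measurable r := by simp only [hr]; fun_prop
  have hslice := slicing A B hA hB (-a0) b0 (-a1) b1 hAs hAn hBs hBn T T' r hder hT'm hrm
    (fun x hx => by have := hNpos x hx; simp only [hT']; positivity) him hrT hmono c1 c2 hc1 hc2
  have hN0 : 0 < b0 + l * a0 := by positivity
  have hM0 : 0 < a1 + l * b1 := by positivity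
  have hA1 := weighted_ge A hA hmA (fun x => c1 * (c1 + c2 * T' x))
    (c1 ^ 2 + c1 * c2 * (q / (b0 + l * a0) ^ 2))
    (- c1 * c2 * (q / (b0 + l * a0) ^ 2) * (2 * (l - 1) / (b0 + l * a0))) (by
      intro p hp
      have h1 := tangent_sq (b0 + l * a0) (N p.1) hN0 (hNpos _ (hAs p hp))
      have h2 : c1 * (c1 + c2 * T' p.1) = c1 ^ 2 + c1 * c2 * q * (1 / (N p.1) ^ 2) := by
        simp only [hT']; ring
      have h3 : (c1 ^ 2 + c1 * c2 * (q / (b0 + l * a0) ^ 2)) +
          (- c1 * c2 * (q / (b0 + l * a0) ^ 2) * (2 * (l - 1) / (b0 + l * a0))) * p.1 =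
          c1 ^ 2 + c1 * c2 * q * ((3 - 2 * N p.1 / (b0 + l * a0)) / (b0 + l * a0) ^ 2) := by
        simp only [hN]
        field_simp
        ring
      rw [h2, h3]
      gcongr)
  have hB1 := weighted_ge B hB hmB (fun x => c2 * (c1 * r x + c2))
    (c2 ^ 2 + c1 * c2 * (q / (a1 + l * b1) ^ 2))
    (- c1 * c2 * (q / (a1 + l * b1) ^ 2) * (2 * (1 - l) / (a1 + l * b1))) (by
      intro p hp
      have h1 := tangent_sq (a1 + l * b1) (M p.1) hM0 (hMpos _ (hBs p hp))
      have h2 : c2 * (c1 * r p.1 + c2) = c2 ^ 2 + c1 * c2 * q * (1 / (M p.1) ^ 2) := by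
        simp only [hr]; ring
      have h3 : (c2 ^ 2 + c1 * c2 * (q / (a1 + l * b1) ^ 2)) +
          (- c1 * c2 * (q / (a1 + l * b1) ^ 2) * (2 * (1 - l) / (a1 + l * b1))) * p.1 =
          c2 ^ 2 + c1 * c2 * q * ((3 - 2 * M p.1 / (a1 + l * b1)) / (a1 + l * b1) ^ 2) := by
        simp only [hM]
        field_simp
        ring
      rw [h2, h3]
      gcongr)
  have hfin : volume (c1 • A + c2 • B) ≠ ∞ := ((hA.smul c1).add (hB.smul c2)).measure_lt_top.ne
  have htot := (ENNReal.ofReal_add_le.trans (add_le_add hA1 hB1)).trans hslice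
  have := (ENNReal.ofReal_le_iff_le_toReal hfin).1 htot
  refine le_trans (le_of_eq ?_) this
  simp only [hq]
  ring

end Pool.Agent.Work.MP_b5407d_gt
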