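import Mathlib
import Pool.Agent.Work.MP_b5407d_gt.Slice
import Pool.Agent.Work.MP_b5407d_gt.Alg

set_option autoImplicit false
open MeasureTheory Set
open scoped ENNReal Pointwise

namespace Pool.Agent.Work.MP_b5407d_gt

/-- The plane. -/
abbrev E2 : Type := EuclideanSpace ℝ (Fin 2)

/-- Support function (auxiliary, only used in proofs). -/
noncomputable def hh (K : Set E2) (u : E2) : ℝ := sSup ((fun y : E2 => inner ℝ y u) '' K)

theorem exists_coord (u : E2) (hu : ‖u‖ = 1) :
    ∃ φ : E2 →ₗ[ℝ] ℝ × ℝ, (∀ x, (φ x).1 = inner ℝ x u) ∧ Continuous φ ∧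
      Function.Injective φ ∧ MeasurePreserving φ volume volume := by
  have hon : Orthonormal ℝ (({0} : Set (Fin 2)).domRestrict (fun _ : Fin 2 => u)) := by
    constructor
    · intro i; exact hu
    · intro i j hij
      exfalso
      apply hij
      have h1 := i.2
      have h2 := j.2
      simp only [mem_singleton_iff] at h1 h2
      exact Subtype.ext (h1.trans h2.symm)
  obtain ⟨b, hb⟩ := hon.exists_orthonormalBasis_extension_of_card_eq (by simp)
  have hb0 : b 0 = u := hb 0 (by simp)
  let φ : E2 →ₗ[ℝ] ℝ × ℝ :=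
    { toFun := fun x => (inner ℝ x (b 0), inner ℝ x (b 1))
      map_add' := fun x y => by simp [inner_add_left]
      map_smul' := fun c x => by simp [inner_smul_left] }
  have hφ : ∀ x, φ x = (inner ℝ x (b 0), inner ℝ x (b 1)) := fun x => rfl
  have hcomp : (φ : E2 → ℝ × ℝ) =
      (MeasurableEquiv.finTwoArrow ∘ (@WithLp.ofLp 2 (Fin 2 → ℝ))) ∘ b.repr := by
    funext x
    rw [hφ]
    simp only [Function.comp]
    have h1 : (inner ℝ x (b 0) : ℝ) = b.repr x 0 := by
      rw [b.repr_apply_apply]; exact real_inner_comm _ _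
    have h2 : (inner ℝ x (b 1) : ℝ) = b.repr x 1 := by
      rw [b.repr_apply_apply]; exact real_inner_comm _ _
    rw [h1, h2]
    rfl
  refine ⟨φ, fun x => by rw [hφ, hb0], ?_, ?_, ?_⟩
  · have : (φ : E2 → ℝ × ℝ) = fun x => (inner ℝ x (b 0), inner ℝ x (b 1)) := rfl
    rw [this]
    fun_prop
  · rw [hcomp]
    refine (MeasurableEquiv.finTwoArrow.injective.comp ?_).comp b.repr.injective
    exact WithLp.ofLp_injective 2
  · rw [hcomp]
    exact ((volume_preserving_finTwoArrow ℝ).comp (PiLp.volume_preserving_ofLp (Fin 2))).comp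
      b.measurePreserving_repr

theorem hh_neg (K : Set E2) (u : E2) :
    hh K (-u) = - sInf ((fun y : E2 => inner ℝ y u) '' K) := by
  unfold hh
  have : (fun y : E2 => inner ℝ y (-u)) '' K = - ((fun y : E2 => inner ℝ y u) '' K) := by
    ext z
    simp only [mem_image, Set.mem_neg, inner_neg_right]
    constructor
    · rintro ⟨x, hx, rfl⟩; exact ⟨x, hx, by ring⟩
    · rintro ⟨x, hx, h⟩; exact ⟨x, hx, by rw [h]; ring⟩
  rw [this, Real.sInf_def, neg_neg]

/-- The range of a linear functional on a compact convex set. -/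
theorem image_inner_eq (K : Set E2) (hKc : Convex ℝ K) (hKk : IsCompact K) (hKn : K.Nonempty)
    (u : E2) : (fun y : E2 => inner ℝ y u) '' K = Icc (-(hh K (-u))) (hh K u) := by
  have hcont : Continuous (fun y : E2 => (inner ℝ y u : ℝ)) := by fun_prop
  have h1 : IsCompact ((fun y : E2 => (inner ℝ y u : ℝ)) '' K) := hKk.image hcont
  have h2 : IsConnected ((fun y : E2 => (inner ℝ y u : ℝ)) '' K) :=
    (hKc.isConnected hKn).image _ hcont.continuousOn
  have h3 := eq_Icc_of_connected_compact h2 h1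
  rw [hh_neg, neg_neg]
  exact h3

theorem integral_inner_zero (K : Set E2) (hKk : IsCompact K) (h0 : (∫ x in K, x) = 0) (u : E2) :
    ∫ x in K, (inner ℝ x u : ℝ) = 0 := by
  have hi : IntegrableOn (fun x : E2 => x) K := continuous_id.continuousOn.integrableOn_compact hKk
  have h1 : ∫ x in K, (inner ℝ u x : ℝ) = inner ℝ u (∫ x in K, x) := by
    exact integral_inner hi u
  rw [h0, inner_zero_right] at h1
  rw [← h1]
  refine integral_congr_ae (Filter.Eventually.of_forall fun x => ?_)
  exact real_inner_comm _ _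

theorem hh_pos (K : Set E2) (hKk : IsCompact K) (hKi : (interior K).Nonempty)
    (h0 : (∫ x in K, x) = 0) (u : E2) (hu : ‖u‖ = 1) : 0 < hh K u := by
  by_contra hneg
  push Not at hneg
  obtain ⟨z, hz⟩ := hKi
  have hbdd : BddAbove ((fun y : E2 => (inner ℝ y u : ℝ)) '' K) :=
    (hKk.image (by fun_prop)).bddAbove
  have hle : ∀ x ∈ K, (inner ℝ x u : ℝ) ≤ 0 := fun x hx =>
    (le_csSup hbdd (mem_image_of_mem _ hx)).trans hneg
  obtain ⟨ε, hε, hball⟩ := Metric.isOpen_iff.1 isOpen_interior z hz
  -- the functional is negative at z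
  have hzK : z + (ε / 2) • u ∈ K := by
    apply interior_subset
    apply hball
    rw [Metric.mem_ball, dist_eq_norm, add_sub_cancel_left, norm_smul, hu, mul_one,
      Real.norm_of_nonneg (by positivity)]
    linarith
  have hzneg : (inner ℝ z u : ℝ) < 0 := by
    have := hle _ hzK
    rw [inner_add_left, inner_smul_left, real_inner_self_eq_norm_sq, hu] at this
    simp at this
    linarith
  have hzero := integral_inner_zero K hKk h0 u
  have hi : IntegrableOn (fun x : E2 => -(inner ℝ x u : ℝ)) K :=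
    (by fun_prop : Continuous (fun x : E2 => -(inner ℝ x u : ℝ))).continuousOn.integrableOn_compact hKk
  have hnn : 0 ≤ᵐ[volume.restrict K] (fun x : E2 => -(inner ℝ x u : ℝ)) := by
    rw [Filter.EventuallyLE, ae_restrict_iff' hKk.measurableSet]
    exact Filter.Eventually.of_forall fun x hx => by
      simp only [Pi.zero_apply]; linarith [hle x hx]
  have hpos : 0 < ∫ x in K, -(inner ℝ x u : ℝ) := by
    rw [setIntegral_pos_iff_support_of_nonneg_ae hnn hi]
    have hopen : IsOpen (interior K ∩ {x : E2 | (inner ℝ x u : ℝ) < 0}) :=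
      isOpen_interior.inter (isOpen_lt (by fun_prop) continuous_const)
    have hne : (interior K ∩ {x : E2 | (inner ℝ x u : ℝ) < 0}).Nonempty := ⟨z, hz, hzneg⟩
    refine lt_of_lt_of_le (hopen.measure_pos volume hne) (measure_mono ?_)
    rintro x ⟨hx1, hx2⟩
    refine ⟨?_, interior_subset hx1⟩
    simp only [Function.mem_support, ne_eq, neg_eq_zero]
    exact ne_of_lt hx2
  rw [integral_neg, hzero] at hpos
  simp at hpos

/-- Slicing in an arbitrary direction of the plane. -/
theorem plane_slice (K C : Set E2) (hKc : Convex ℝ K) (hKk : IsCompact K)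
    (hKi : (interior K).Nonempty) (hCc : Convex ℝ C) (hCk : IsCompact C)
    (hCi : (interior C).Nonempty) (hK0 : (∫ x in K, x) = 0) (hC0 : (∫ x in C, x) = 0)
    (u : E2) (hu : ‖u‖ = 1) (c1 c2 l : ℝ) (hc1 : 0 < c1) (hc2 : 0 < c2) (hl : 0 < l) :
    c1 ^ 2 * (volume K).toReal + c2 ^ 2 * (volume C).toReal +
      c1 * c2 * ((hh K (-u) + hh K u) * (hh C (-u) + hh C u) * (l / (hh K u + l * hh K (-u)) ^ 2) *
          (volume K).toReal +
        (hh K (-u) + hh K u) * (hh C (-u) + hh C u) * (l / (hh C (-u) + l * hh C u) ^ 2) *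
          (volume C).toReal) ≤
      (volume (c1 • K + c2 • C)).toReal := by
  obtain ⟨φ, hφ1, hφc, hφi, hφm⟩ := exists_coord u hu
  have hemb : MeasurableEmbedding φ := hφc.measurableEmbedding hφi
  have hvol : ∀ S : Set E2, IsCompact S → volume (φ '' S) = volume S := by
    intro S hS
    have := hφm.measure_preimage ((hS.image hφc).measurableSet.nullMeasurableSet)
    rw [preimage_image_eq _ hφi] at this
    exact this.symm
  have hmom : ∀ S : Set E2, IsCompact S → (∫ x in S, x) = 0 → ∫ p in φ '' S, p.1 = 0 := by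
    intro S hS h0
    rw [← hφm.setIntegral_preimage_emb hemb (fun p : ℝ × ℝ => p.1) (φ '' S),
      preimage_image_eq _ hφi]
    rw [← integral_inner_zero S hS h0 u]
    refine integral_congr_ae (Filter.Eventually.of_forall fun x => hφ1 x)
  have hrange : ∀ S : Set E2, Convex ℝ S → IsCompact S → S.Nonempty →
      (∀ p ∈ φ '' S, p.1 ∈ Icc (-(hh S (-u))) (hh S u)) ∧
      (∀ x ∈ Icc (-(hh S (-u))) (hh S u), (Prod.mk x ⁻¹' (φ '' S)).Nonempty) := by
    intro S h1 h2 h3
    have him := image_inner_eq S h1 h2 h3 u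
    constructor
    · rintro _ ⟨x, hx, rfl⟩
      rw [hφ1, ← him]
      exact mem_image_of_mem _ hx
    · intro x hx
      rw [← him] at hx
      obtain ⟨y, hy, rfl⟩ := hx
      refine ⟨(φ y).2, y, hy, ?_⟩
      ext
      · rw [hφ1]
      · rfl
  have hKn : K.Nonempty := hKi.mono interior_subset
  have hCn : C.Nonempty := hCi.mono interior_subset
  have hu' : ‖-u‖ = 1 := by rw [norm_neg, hu]
  have hsum : φ '' (c1 • K + c2 • C) = c1 • (φ '' K) + c2 • (φ '' C) := by
    rw [Set.image_add, image_smul_comm φ c1 K (fun b => map_smul φ c1 b),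
      image_smul_comm φ c2 C (fun b => map_smul φ c2 b)]
  have := slicing_mobius (φ '' K) (φ '' C) (hKk.image hφc) (hCk.image hφc)
    (hh K (-u)) (hh K u) (hh C (-u)) (hh C u) l (hh_pos K hKk hKi hK0 _ hu')
    (hh_pos K hKk hKi hK0 _ hu) (hh_pos C hCk hCi hC0 _ hu') (hh_pos C hCk hCi hC0 _ hu) hl
    (hrange K hKc hKk hKn).1 (hrange K hKc hKk hKn).2 (hrange C hCc hCk hCn).1
    (hrange C hCc hCk hCn).2 (hmom K hKk hK0) (hmom C hCk hC0) c1 c2 hc1 hc2
  rw [← hsum, hvol K hKk, hvol C hCk, hvol _ ((hKk.smul c1).add (hCk.smul c2))] at this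
  exact this

end Pool.Agent.Work.MP_b5407d_gt
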