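import Mathlib
import Pool.Agent.Work.MP_b5407d_gt.Plane
import Pool.Agent.Work.MP_b5407d_gt.Chord

set_option autoImplicit false
open MeasureTheory Set
open scoped ENNReal Pointwise

namespace Pool.Agent.Work.MP_b5407d_gt

/-- Wulff shape of a function on the sphere (auxiliary). -/
def wulff (F : E2 → ℝ) : Set E2 :=
  {x : E2 | ∀ u ∈ Metric.sphere (0 : E2) 1, inner ℝ x u ≤ F u}

theorem le_hh (K : Set E2) (hKk : IsCompact K) (x : E2) (hx : x ∈ K) (u : E2) :
    (inner ℝ x u : ℝ) ≤ hh K u :=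
  le_csSup (hKk.image (by fun_prop)).bddAbove (mem_image_of_mem (fun y : E2 => (inner ℝ y u : ℝ)) hx)

/-- A compact convex set is the Wulff shape of its support function. -/
theorem wulff_hh (K : Set E2) (hKc : Convex ℝ K) (hKk : IsCompact K) (hKn : K.Nonempty) :
    wulff (hh K) = K := by
  apply Subset.antisymm
  · intro x hx
    by_contra hxK
    obtain ⟨f, s, hf1, hf2⟩ := geometric_hahn_banach_closed_point hKc hKk.isClosed hxK
    set v : E2 := (InnerProductSpace.toDual ℝ E2).symm f with hv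
    have hfv : ∀ y : E2, f y = inner ℝ y v := by
      intro y
      rw [real_inner_comm, hv, InnerProductSpace.toDual_symm_apply]
    have hvn : v ≠ 0 := by
      intro h0
      obtain ⟨y, hy⟩ := hKn
      have h1 := hf1 y hy
      rw [hfv, h0, inner_zero_right] at h1 hf2
      · linarith
    have hvpos : 0 < ‖v‖ := norm_pos_iff.2 hvn
    have hu : ‖v‖⁻¹ • v ∈ Metric.sphere (0 : E2) 1 := by
      rw [mem_sphere_zero_iff_norm, norm_smul, norm_inv, norm_norm, inv_mul_cancel₀ hvpos.ne']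
    have h1 := hx _ hu
    have h2 : hh K (‖v‖⁻¹ • v) ≤ ‖v‖⁻¹ * s := by
      apply csSup_le (hKn.image _)
      rintro _ ⟨y, hy, rfl⟩
      have := hf1 y hy
      rw [hfv] at this
      simp only
      rw [inner_smul_right]
      gcongr
    rw [inner_smul_right, ← hfv] at h1
    have h3 : ‖v‖⁻¹ * s < ‖v‖⁻¹ * f x := by gcongr
    linarith
  · intro x hx u _
    exact le_hh K hKk x hx u

theorem wulff_smul (F : E2 → ℝ) (c : ℝ) (hc : 0 < c) :
    wulff (fun u => c * F u) = c • wulff F := by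
  ext x
  rw [mem_smul_set_iff_inv_smul_mem₀ hc.ne']
  simp only [wulff, Set.mem_ofPred_eq]
  refine forall₂_congr fun u _ => ?_
  rw [inner_smul_left]
  simp only [conj_trivial]
  rw [inv_mul_le_iff₀ hc]

theorem wulff_congr (F G : E2 → ℝ) (h : ∀ u ∈ Metric.sphere (0 : E2) 1, F u = G u) :
    wulff F = wulff G := by
  ext x
  simp only [wulff, Set.mem_ofPred_eq]
  refine forall₂_congr fun u hu => ?_
  rw [h u hu]

theorem wulff_finite (F : E2 → ℝ) (R : ℝ) (hR : 0 ≤ R)
    (h : ∀ u ∈ Metric.sphere (0 : E2) 1, F u ≤ R) : volume (wulff F) ≠ ∞ := by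
  have hsub : wulff F ⊆ Metric.closedBall (0 : E2) R := by
    intro x hx
    rw [mem_closedBall_zero_iff]
    by_cases hx0 : x = 0
    · rw [hx0, norm_zero]; exact hR
    have hxp : 0 < ‖x‖ := norm_pos_iff.2 hx0
    have hu : ‖x‖⁻¹ • x ∈ Metric.sphere (0 : E2) 1 := by
      rw [mem_sphere_zero_iff_norm, norm_smul, norm_inv, norm_norm, inv_mul_cancel₀ hxp.ne']
    have h1 := (hx _ hu).trans (h _ hu)
    rw [inner_smul_right, real_inner_self_eq_norm_sq] at h1
    have : ‖x‖⁻¹ * ‖x‖ ^ 2 = ‖x‖ := by field_simp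
    rw [this] at h1
    exact h1
  exact ne_top_of_le_ne_top (isCompact_closedBall _ _).measure_lt_top.ne (measure_mono hsub)

theorem hh_continuous (K : Set E2) (hKk : IsCompact K) : Continuous (hh K) := by
  have := hKk.continuous_sSup (f := fun (u : E2) (y : E2) => (inner ℝ y u : ℝ)) (by fun_prop)
  exact this

theorem hh_bound (K : Set E2) (hKk : IsCompact K) :
    ∃ R : ℝ, 0 ≤ R ∧ ∀ u ∈ Metric.sphere (0 : E2) 1, hh K u ≤ R := by
  have hc : IsCompact (Metric.sphere (0 : E2) 1) := isCompact_sphere _ _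
  obtain ⟨R, hR⟩ := (hc.image (hh_continuous K hKk)).bddAbove
  exact ⟨max R 0, le_max_right _ _, fun u hu => (hR (mem_image_of_mem _ hu)).trans (le_max_left _ _)⟩

/-- The key inequality `|c1 K + c2 C| ≥ c1^2 + c2^2 + 2 c1 c2 cosh^3(τ/3)`. -/
theorem key_ineq (K C : Set E2) (hKc : Convex ℝ K) (hKk : IsCompact K)
    (hKi : (interior K).Nonempty) (hCc : Convex ℝ C) (hCk : IsCompact C)
    (hCi : (interior C).Nonempty) (hK0 : (∫ x in K, x) = 0) (hC0 : (∫ x in C, x) = 0)
    (hK1 : (volume K).toReal = 1) (hC1 : (volume C).toReal = 1)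
    (u : E2) (hu : ‖u‖ = 1) (k : ℝ) (hk : 1 ≤ k)
    (h : hh C u = k ^ 3 * hh K u ∨ hh K u = k ^ 3 * hh C u)
    (c1 c2 : ℝ) (hc1 : 0 < c1) (hc2 : 0 < c2) :
    c1 ^ 2 + c2 ^ 2 + c1 * c2 * ((1 + k ^ 2) ^ 3 / (4 * k ^ 3)) ≤
      (volume (c1 • K + c2 • C)).toReal := by
  have hu' : ‖-u‖ = 1 := by rw [norm_neg, hu]
  rcases h with h | h
  · obtain ⟨l, hl, hle⟩ := alg_mobius (hh K (-u)) (hh K u) (hh C (-u)) (hh C u) k
      (hh_pos K hKk hKi hK0 _ hu') (hh_pos K hKk hKi hK0 _ hu) (hh_pos C hCk hCi hC0 _ hu') hk h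
    have := plane_slice K C hKc hKk hKi hCc hCk hCi hK0 hC0 u hu c1 c2 l hc1 hc2 hl
    rw [hK1, hC1, mul_one, mul_one, mul_one, mul_one] at this
    refine le_trans ?_ this
    gcongr
  · obtain ⟨l, hl, hle⟩ := alg_mobius (hh C (-u)) (hh C u) (hh K (-u)) (hh K u) k
      (hh_pos C hCk hCi hC0 _ hu') (hh_pos C hCk hCi hC0 _ hu) (hh_pos K hKk hKi hK0 _ hu') hk h
    have := plane_slice C K hCc hCk hCi hKc hKk hKi hC0 hK0 u hu c2 c1 l hc2 hc1 hl
    rw [hK1, hC1, mul_one, mul_one, mul_one, mul_one, add_comm (c2 • C)] at this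
    refine le_trans ?_ this
    have e : c1 ^ 2 + c2 ^ 2 + c1 * c2 * ((1 + k ^ 2) ^ 3 / (4 * k ^ 3)) =
        c2 ^ 2 + c1 ^ 2 + c2 * c1 * ((1 + k ^ 2) ^ 3 / (4 * k ^ 3)) := by ring
    rw [e]
    gcongr

/-- Existence of an extremal direction. -/
theorem exists_extremal (K C : Set E2) (hKk : IsCompact K)
    (hKi : (interior K).Nonempty) (hCk : IsCompact C)
    (hCi : (interior C).Nonempty) (hK0 : (∫ x in K, x) = 0) (hC0 : (∫ x in C, x) = 0) :
    ∃ (u : E2) (k : ℝ), ‖u‖ = 1 ∧ 1 ≤ k ∧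
      (hh C u = k ^ 3 * hh K u ∨ hh K u = k ^ 3 * hh C u) ∧
      ∀ v ∈ Metric.sphere (0 : E2) 1, hh C v ≤ k ^ 3 * hh K v ∧ hh K v ≤ k ^ 3 * hh C v := by
  have hKp : ∀ v ∈ Metric.sphere (0 : E2) 1, 0 < hh K v := fun v hv =>
    hh_pos K hKk hKi hK0 v (mem_sphere_zero_iff_norm.1 hv)
  have hCp : ∀ v ∈ Metric.sphere (0 : E2) 1, 0 < hh C v := fun v hv =>
    hh_pos C hCk hCi hC0 v (mem_sphere_zero_iff_norm.1 hv)
  have hcK := hh_continuous K hKk
  have hcC := hh_continuous C hCk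
  have hcont : ContinuousOn (fun v => max (hh C v / hh K v) (hh K v / hh C v))
      (Metric.sphere (0 : E2) 1) := by
    have h1 : ContinuousOn (fun v => hh C v / hh K v) (Metric.sphere (0 : E2) 1) :=
      hcC.continuousOn.div hcK.continuousOn fun v hv => (hKp v hv).ne'
    have h2 : ContinuousOn (fun v => hh K v / hh C v) (Metric.sphere (0 : E2) 1) :=
      hcK.continuousOn.div hcC.continuousOn fun v hv => (hCp v hv).ne'
    exact h1.sup h2
  have hne : (Metric.sphere (0 : E2) 1).Nonempty := NormedSpace.sphere_nonempty.2 zero_le_one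
  obtain ⟨u, hu, hmax⟩ := (isCompact_sphere (0 : E2) 1).exists_isMaxOn hne hcont
  set m : ℝ := max (hh C u / hh K u) (hh K u / hh C u) with hm
  have hm1 : 1 ≤ m := by
    rcases le_total (hh C u) (hh K u) with h | h
    · exact le_trans ((one_le_div (hCp u hu)).2 h) (le_max_right _ _)
    · exact le_trans ((one_le_div (hKp u hu)).2 h) (le_max_left _ _)
  have hk3 : (m ^ ((1 : ℝ) / 3)) ^ 3 = m := by
    rw [← Real.rpow_natCast, ← Real.rpow_mul (by linarith)]
    norm_num
  refine ⟨u, m ^ ((1 : ℝ) / 3), mem_sphere_zero_iff_norm.1 hu,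
    Real.one_le_rpow hm1 (by norm_num), ?_, ?_⟩
  · rw [hk3]
    rcases max_choice (hh C u / hh K u) (hh K u / hh C u) with h | h
    · left
      rw [hm, h, div_mul_cancel₀ _ (hKp u hu).ne']
    · right
      rw [hm, h, div_mul_cancel₀ _ (hCp u hu).ne']
  · intro v hv
    rw [hk3]
    have h1 : max (hh C v / hh K v) (hh K v / hh C v) ≤ m := hmax hv
    constructor
    · rw [← div_le_iff₀ (hKp v hv)]
      exact (le_max_left _ _).trans h1
    · rw [← div_le_iff₀ (hCp v hv)]
      exact (le_max_right _ _).trans h1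

/-- The theorem for normalised bodies. -/
theorem normalised (K C : Set E2) (hKc : Convex ℝ K) (hKk : IsCompact K)
    (hKi : (interior K).Nonempty) (hCc : Convex ℝ C) (hCk : IsCompact C)
    (hCi : (interior C).Nonempty) (hK0 : (∫ x in K, x) = 0) (hC0 : (∫ x in C, x) = 0)
    (hK1 : (volume K).toReal = 1) (hC1 : (volume C).toReal = 1)
    (m l p : ℝ) (hm : 0 < m) (hl : 0 < l) (hml : m + l = 1) (hp : 2 / 3 ≤ p) :
    1 ≤ (volume (wulff fun u => (m * hh K u ^ p + l * hh C u ^ p) ^ (1 / p))).toReal ∧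
      ((volume (wulff fun u => (m * hh K u ^ p + l * hh C u ^ p) ^ (1 / p))).toReal = 1 →
        K = C) := by
  have hp0 : 0 < p := by linarith
  have hKp : ∀ v ∈ Metric.sphere (0 : E2) 1, 0 < hh K v := fun v hv =>
    hh_pos K hKk hKi hK0 v (mem_sphere_zero_iff_norm.1 hv)
  have hCp : ∀ v ∈ Metric.sphere (0 : E2) 1, 0 < hh C v := fun v hv =>
    hh_pos C hCk hCi hC0 v (mem_sphere_zero_iff_norm.1 hv)
  have hKn : K.Nonempty := hKi.mono interior_subset
  have hCn : C.Nonempty := hCi.mono interior_subset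
  obtain ⟨u, k, hu, hk, hext, hall⟩ := exists_extremal K C hKk hKi hCk hCi hK0 hC0
  rcases eq_or_lt_of_le hk with hk1 | hk1
  · -- the two support functions agree
    have heq : ∀ v ∈ Metric.sphere (0 : E2) 1, hh K v = hh C v := by
      intro v hv
      have := hall v hv
      rw [← hk1] at this
      apply le_antisymm <;> [have := this.2; have := this.1] <;> linarith
    have hKC : K = C := by
      rw [← wulff_hh K hKc hKk hKn, ← wulff_hh C hCc hCk hCn]
      exact wulff_congr _ _ heq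
    have hW : wulff (fun u => (m * hh K u ^ p + l * hh C u ^ p) ^ (1 / p)) = K := by
      conv_rhs => rw [← wulff_hh K hKc hKk hKn]
      apply wulff_congr
      intro v hv
      rw [← heq v hv, ← add_mul, hml, one_mul, ← Real.rpow_mul (hKp v hv).le, mul_one_div,
        div_self hp0.ne', Real.rpow_one]
    rw [hW, hK1]
    exact ⟨le_rfl, fun _ => hKC⟩
  · obtain ⟨c1, c2, hc1, hc2, hval, hchord⟩ := chord k m l p hk1 hm hl hml hp
    have hsub : c1 • K + c2 • C ⊆ wulff fun u => (m * hh K u ^ p + l * hh C u ^ p) ^ (1 / p) := by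
      rintro _ ⟨_, ⟨x, hx, rfl⟩, _, ⟨y, hy, rfl⟩, rfl⟩ v hv
      simp only
      rw [inner_add_left, inner_smul_left, inner_smul_left]
      simp only [conj_trivial]
      have h1 := le_hh K hKk x hx v
      have h2 := le_hh C hCk y hy v
      have h3 := hchord (hh K v) (hh C v) (hKp v hv) (hCp v hv) (hall v hv).2 (hall v hv).1
      have h4 : c1 * (inner ℝ x v : ℝ) ≤ c1 * hh K v := by gcongr
      have h5 : c2 * (inner ℝ y v : ℝ) ≤ c2 * hh C v := by gcongr
      linarith
    obtain ⟨R1, hR1, hR1'⟩ := hh_bound K hKk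
    obtain ⟨R2, hR2, hR2'⟩ := hh_bound C hCk
    have hfin : volume (wulff fun u => (m * hh K u ^ p + l * hh C u ^ p) ^ (1 / p)) ≠ ∞ := by
      apply wulff_finite _ ((m * R1 ^ p + l * R2 ^ p) ^ (1 / p)) (by positivity)
      intro v hv
      have h1 := hR1' v hv
      have h2 := hR2' v hv
      have h3 := hKp v hv
      have h4 := hCp v hv
      gcongr
    have h1 := ENNReal.toReal_mono hfin (measure_mono hsub)
    have h2 := key_ineq K C hKc hKk hKi hCc hCk hCi hK0 hC0 hK1 hC1 u hu k hk hext c1 c2 hc1 hc2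
    constructor
    · linarith
    · intro h; exfalso; linarith

end Pool.Agent.Work.MP_b5407d_gt
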