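import Mathlib
import Pool.Agent.Work.MP_b5407d_gt.Main

set_option autoImplicit false
open MeasureTheory Set
open scoped ENNReal Pointwise

namespace Pool.Agent.Work.MP_b5407d_gt

theorem hh_smul (K : Set E2) (c : ℝ) (hc : 0 ≤ c) (u : E2) :
    hh (c • K) u = c * hh K u := by
  unfold hh
  have : (fun y : E2 => (inner ℝ y u : ℝ)) '' (c • K) =
      c • ((fun y : E2 => (inner ℝ y u : ℝ)) '' K) := by
    apply image_smul_comm
    intro b
    simp [inner_smul_left]
  rw [this, Real.sSup_smul_of_nonneg hc, smul_eq_mul]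

theorem vol_smul (K : Set E2) (c : ℝ) (_ : 0 ≤ c) :
    (volume (c • K)).toReal = c ^ 2 * (volume K).toReal := by
  rw [Measure.addHaar_smul, ENNReal.toReal_mul, finrank_euclideanSpace_fin,
    ENNReal.toReal_ofReal (abs_nonneg _), abs_of_nonneg (by positivity)]

theorem centroid_smul (K : Set E2) (c : ℝ) (hc : 0 < c) (h : (∫ x in K, x) = 0) :
    (∫ x in c • K, x) = 0 := by
  have h1 := Measure.setIntegral_comp_smul_of_pos (volume : Measure E2) (fun x : E2 => x) K hc
  have h2 : ∫ x in K, c • x = 0 := by rw [integral_smul, h, smul_zero]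
  rw [h2] at h1
  have h3 : (c ^ Module.finrank ℝ E2)⁻¹ ≠ 0 := by positivity
  exact (smul_eq_zero.1 h1.symm).resolve_left h3

theorem vol_pos (K : Set E2) (hKk : IsCompact K) (hKi : (interior K).Nonempty) :
    0 < (volume K).toReal := by
  apply ENNReal.toReal_pos _ hKk.measure_lt_top.ne
  exact (Measure.measure_pos_of_nonempty_interior _ hKi).ne'

/-- From the normalised statement to the general one. -/
theorem general (p : ℝ) (hp0 : 0 < p)
    (hnorm : ∀ K C : Set E2, Convex ℝ K → IsCompact K → (interior K).Nonempty → Convex ℝ C →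
      IsCompact C → (interior C).Nonempty → (∫ x in K, x) = 0 → (∫ x in C, x) = 0 →
      (volume K).toReal = 1 → (volume C).toReal = 1 → ∀ m l : ℝ, 0 < m → 0 < l → m + l = 1 →
      1 ≤ (volume (wulff fun u => (m * hh K u ^ p + l * hh C u ^ p) ^ (1 / p))).toReal ∧
      ((volume (wulff fun u => (m * hh K u ^ p + l * hh C u ^ p) ^ (1 / p))).toReal = 1 →
        K = C))
    (K C : Set E2) (hKc : Convex ℝ K) (hKk : IsCompact K)
    (hKi : (interior K).Nonempty) (hCc : Convex ℝ C) (hCk : IsCompact C)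
    (hCi : (interior C).Nonempty) (hK0 : (∫ x in K, x) = 0) (hC0 : (∫ x in C, x) = 0)
    (α β : ℝ) (hα : 0 < α) (hβ : 0 < β) :
    (α * (volume K).toReal ^ (p / 2) + β * (volume C).toReal ^ (p / 2) ≤
      (volume (wulff fun u => (α * hh K u ^ p + β * hh C u ^ p) ^ (1 / p))).toReal ^ (p / 2)) ∧
    ((volume (wulff fun u => (α * hh K u ^ p + β * hh C u ^ p) ^ (1 / p))).toReal ^ (p / 2) =
      α * (volume K).toReal ^ (p / 2) + β * (volume C).toReal ^ (p / 2) ↔
      ∃ t : ℝ, 0 < t ∧ C = (fun x : E2 => t • x) '' K) := by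
  have hKp : ∀ v ∈ Metric.sphere (0 : E2) 1, 0 < hh K v := fun v hv =>
    hh_pos K hKk hKi hK0 v (mem_sphere_zero_iff_norm.1 hv)
  have hCp : ∀ v ∈ Metric.sphere (0 : E2) 1, 0 < hh C v := fun v hv =>
    hh_pos C hCk hCi hC0 v (mem_sphere_zero_iff_norm.1 hv)
  have hKv := vol_pos K hKk hKi
  have hCv := vol_pos C hCk hCi
  set a : ℝ := Real.sqrt (volume K).toReal with ha
  set b : ℝ := Real.sqrt (volume C).toReal with hb
  have hap : 0 < a := Real.sqrt_pos.2 hKv
  have hbp : 0 < b := Real.sqrt_pos.2 hCv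
  have ha2 : a ^ 2 = (volume K).toReal := Real.sq_sqrt hKv.le
  have hb2 : b ^ 2 = (volume C).toReal := Real.sq_sqrt hCv.le
  have hpw : ∀ x : ℝ, 0 < x → (x ^ 2) ^ (p / 2) = x ^ p := by
    intro x hx
    rw [← Real.rpow_natCast, ← Real.rpow_mul hx.le]
    congr 1
    push_cast
    ring
  rw [← ha2, ← hb2, hpw a hap, hpw b hbp]
  set K' : Set E2 := a⁻¹ • K with hK'
  set C' : Set E2 := b⁻¹ • C with hC'
  have hai : 0 < a⁻¹ := by positivity
  have hbi : 0 < b⁻¹ := by positivity
  have hK'i : (interior K').Nonempty := by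
    rw [hK', interior_smul₀ hai.ne']; exact hKi.smul_set
  have hC'i : (interior C').Nonempty := by
    rw [hC', interior_smul₀ hbi.ne']; exact hCi.smul_set
  have hK'v : (volume K').toReal = 1 := by
    rw [hK', vol_smul K _ hai.le, ← ha2]; field_simp
  have hC'v : (volume C').toReal = 1 := by
    rw [hC', vol_smul C _ hbi.le, ← hb2]; field_simp
  set S : ℝ := α * a ^ p + β * b ^ p with hS
  have hSp : 0 < S := by positivity
  have hm : 0 < α * a ^ p / S := by positivity
  have hl : 0 < β * b ^ p / S := by positivity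
  have hml : α * a ^ p / S + β * b ^ p / S = 1 := by rw [← add_div]; exact div_self hSp.ne'
  obtain ⟨h1, h2⟩ := hnorm K' C' (hKc.smul _) (hKk.smul _) hK'i (hCc.smul _) (hCk.smul _) hC'i
    (centroid_smul K _ hai hK0) (centroid_smul C _ hbi hC0) hK'v hC'v _ _ hm hl hml
  set W' : Set E2 := wulff fun u => (α * a ^ p / S * hh K' u ^ p + β * b ^ p / S * hh C' u ^ p) ^ (1 / p)
    with hW'
  -- the Wulff shape scales
  have hW : wulff (fun u => (α * hh K u ^ p + β * hh C u ^ p) ^ (1 / p)) = (S ^ (1 / p)) • W' := by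
    rw [hW', ← wulff_smul _ _ (by positivity)]
    apply wulff_congr
    intro u hu
    have hk := hKp u hu
    have hc := hCp u hu
    rw [hK', hC', hh_smul K _ hai.le, hh_smul C _ hbi.le]
    rw [← Real.mul_rpow hSp.le (by positivity)]
    congr 1
    rw [Real.mul_rpow hai.le hk.le, Real.mul_rpow hbi.le hc.le, Real.inv_rpow hap.le,
      Real.inv_rpow hbp.le]
    field_simp
  have hvW : (volume (wulff fun u => (α * hh K u ^ p + β * hh C u ^ p) ^ (1 / p))).toReal ^ (p / 2) =
      S * (volume W').toReal ^ (p / 2) := by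
    rw [hW, vol_smul _ _ (by positivity), Real.mul_rpow (by positivity) ENNReal.toReal_nonneg,
      hpw _ (by positivity), ← Real.rpow_mul hSp.le, one_div, inv_mul_cancel₀ hp0.ne', Real.rpow_one]
  have hge : 1 ≤ (volume W').toReal ^ (p / 2) := Real.one_le_rpow h1 (by positivity)
  rw [hvW]
  refine ⟨le_mul_of_one_le_right hSp.le hge, ?_, ?_⟩
  · intro heq
    have h3 : (volume W').toReal ^ (p / 2) = 1 := by
      have : S * (volume W').toReal ^ (p / 2) = S * 1 := by rw [heq, mul_one]
      exact mul_left_cancel₀ hSp.ne' this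
    have h4 : (volume W').toReal = 1 := by
      by_contra hne
      have : 1 < (volume W').toReal := lt_of_le_of_ne h1 (Ne.symm hne)
      have := Real.one_lt_rpow this (show 0 < p / 2 by positivity)
      linarith
    have h5 := h2 h4
    refine ⟨b * a⁻¹, by positivity, ?_⟩
    have h6 : C = b • C' := by rw [hC', smul_smul, mul_inv_cancel₀ hbp.ne', one_smul]
    rw [h6, ← h5, hK', smul_smul]
    rfl
  · rintro ⟨t, ht, hC⟩
    have hC2 : C = t • K := hC
    have hbt : b = t * a := by
      rw [hb, hC2, vol_smul K t ht.le, ← ha2, ← mul_pow, Real.sqrt_sq (by positivity)]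
    have hCK : C' = K' := by
      rw [hC', hK', hC2, smul_smul, hbt]
      congr 1
      field_simp
    have hWK : W' = K' := by
      have hK'n : K'.Nonempty := hK'i.mono interior_subset
      rw [hW', hCK]
      conv_rhs => rw [← wulff_hh K' (hKc.smul _) (hKk.smul _) hK'n]
      apply wulff_congr
      intro v hv
      have hk : 0 < hh K' v := by rw [hK', hh_smul K _ hai.le]; have := hKp v hv; positivity
      rw [← add_mul, hml, one_mul, ← Real.rpow_mul hk.le, mul_one_div, div_self hp0.ne',
        Real.rpow_one]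
    rw [hWK, hK'v, Real.one_rpow, mul_one]

end Pool.Agent.Work.MP_b5407d_gt
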