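import Pool.Agent.Work.MP_b5407d_gt.OneVar3

/-!
# MP_b5407d_gt: the numerical inequality at the end of section 3 of note 1887; section 5 (c)
(helper13)
-/

namespace Pool.Agent.MPb5407d

open Real

theorem exp_up (y : ℝ) (h0 : 0 ≤ y) (h1 : y ≤ 1) : Real.exp y ≤
    1 + y + y ^ 2 / 2 + y ^ 3 / 6 + y ^ 4 / 24 + y ^ 5 / 120 + y ^ 6 / 720 + y ^ 7 / 5040
      + y ^ 8 * 9 / (40320 * 8) := by
  have h := Real.exp_bound' h0 h1 (n := 8) (by norm_num)
  simp only [Finset.sum_range_succ, Finset.sum_range_zero] at h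
  norm_num [Nat.factorial] at h
  linarith

theorem exp_low (y : ℝ) (h0 : 0 ≤ y) :
    1 + y + y ^ 2 / 2 + y ^ 3 / 6 + y ^ 4 / 24 + y ^ 5 / 120 + y ^ 6 / 720 + y ^ 7 / 5040
      + y ^ 8 / 40320 + y ^ 9 / 362880 ≤ Real.exp y := by
  have h := Real.sum_le_exp_of_nonneg h0 10
  simp only [Finset.sum_range_succ, Finset.sum_range_zero] at h
  norm_num [Nat.factorial] at h
  linarith

/-- `exp (4y) ≤ T(y)^4`. -/
theorem exp_up4 (y u : ℝ) (h0 : 0 ≤ y) (h1 : y ≤ 1)
    (hu : 1 + y + y ^ 2 / 2 + y ^ 3 / 6 + y ^ 4 / 24 + y ^ 5 / 120 + y ^ 6 / 720 + y ^ 7 / 5040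
      + y ^ 8 * 9 / (40320 * 8) ≤ u) : Real.exp (4 * y) ≤ u ^ 4 := by
  have e : Real.exp (4 * y) = Real.exp y ^ 4 := by
    rw [← Real.exp_nat_mul]; norm_num
  rw [e]
  exact pow_le_pow_left₀ (Real.exp_pos y).le ((exp_up y h0 h1).trans hu) 4

theorem g_bound {x : ℝ} (hx : 0 < x) : vt x * (x + th x) ≤ 3 * x + x ^ 2 + x ^ 3 / 5 := by
  have h1 := vt_lt hx
  have h2 := vt_mul_th hx
  nlinarith

/-- the inequality (B) of section 3. -/
def IneqB (R η : ℝ) : Prop :=
  η * (Real.exp (3 - R) - Real.exp η) + η ^ 2 * Real.exp (2 * (3 - R - η)) / (30 * R) < 10 * R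

theorem B_case {R R0 η η0 E A Q : ℝ} (hR0 : 0 < R0) (hR : R0 ≤ R) (hη0 : 1 ≤ η0) (hη : η0 ≤ η)
    (hE : Real.exp (3 - R0) ≤ E) (hA0 : 0 ≤ A) (hA : A ≤ Real.exp η0)
    (hQ : Real.exp (2 * (3 - R0 - η0)) ≤ Q)
    (hEA : E ≤ (1 + η0) * A) (hfin : η0 * (E - A) + η0 ^ 2 * Q / (30 * R0) < 10 * R0) :
    IneqB R η := by
  unfold IneqB
  have hRpos : 0 < R := by linarith
  have hηpos : 0 < η := by linarith
  have e1 : Real.exp (3 - R) ≤ E := (Real.exp_le_exp.mpr (by linarith)).trans hE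
  have e2 : A * (1 + (η - η0)) ≤ Real.exp η := by
    have h1 : Real.exp η = Real.exp η0 * Real.exp (η - η0) := by rw [← Real.exp_add]; ring_nf
    have h2 := Real.add_one_le_exp (η - η0)
    rw [h1]
    apply mul_le_mul hA (by linarith) (by linarith) (Real.exp_pos _).le
  have t1 : η * (Real.exp (3 - R) - Real.exp η) ≤ η0 * (E - A) := by
    have h1 : η * (Real.exp (3 - R) - Real.exp η) ≤ η * (E - A * (1 + (η - η0))) := by
      apply mul_le_mul_of_nonneg_left (by linarith) hηpos.le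
    have h2 : η * (E - A * (1 + (η - η0))) ≤ η0 * (E - A) := by
      have h3 : E ≤ (1 + η) * A := by nlinarith
      nlinarith [mul_nonneg (sub_nonneg.mpr hη) (sub_nonneg.mpr h3)]
    linarith
  have t2 : η ^ 2 * Real.exp (2 * (3 - R - η)) ≤ η0 ^ 2 * Q := by
    have h1 : η ≤ η0 * Real.exp (η - η0) := by
      have h2 := Real.add_one_le_exp (η - η0)
      nlinarith [mul_nonneg (sub_nonneg.mpr hη0) (sub_nonneg.mpr hη)]
    have h2 : η ^ 2 ≤ (η0 * Real.exp (η - η0)) ^ 2 := pow_le_pow_left₀ hηpos.le h1 2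
    have h3 : Real.exp (2 * (3 - R - η)) ≤ Real.exp (2 * (3 - R0 - η)) :=
      Real.exp_le_exp.mpr (by linarith)
    calc η ^ 2 * Real.exp (2 * (3 - R - η))
        ≤ (η0 * Real.exp (η - η0)) ^ 2 * Real.exp (2 * (3 - R0 - η)) :=
          mul_le_mul h2 h3 (Real.exp_pos _).le (by positivity)
      _ = η0 ^ 2 * Real.exp (2 * (3 - R0 - η0)) := by
          have : Real.exp (η - η0) ^ 2 * Real.exp (2 * (3 - R0 - η))
              = Real.exp (2 * (3 - R0 - η0)) := by
            rw [← Real.exp_nat_mul, ← Real.exp_add]; push_cast; ring_nf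
          rw [mul_pow, mul_assoc, this]
      _ ≤ η0 ^ 2 * Q := mul_le_mul_of_nonneg_left hQ (by positivity)
  have t3 : η ^ 2 * Real.exp (2 * (3 - R - η)) / (30 * R) ≤ η0 ^ 2 * Q / (30 * R0) := by
    apply div_le_div₀ _ t2 (by positivity) (by linarith)
    have : 0 ≤ η ^ 2 * Real.exp (2 * (3 - R - η)) := by positivity
    linarith
  linarith

theorem B_case0 {R η : ℝ} (hR : 39 / 50 ≤ R) (hη : 0 < η) : IneqB R η := by
  unfold IneqB
  have hRpos : 0 < R := by linarith
  -- exp 2.22 ≤ 9.208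
  have b1 : Real.exp (3 - R) ≤ 9.208 := by
    have h1 : Real.exp (3 - R) ≤ Real.exp (4 * 0.555) := Real.exp_le_exp.mpr (by linarith)
    have h2 := exp_up4 0.555 1.74197 (by norm_num) (by norm_num) (by norm_num)
    have h3 : (1.74197:ℝ) ^ 4 ≤ 9.208 := by norm_num
    linarith
  have b2 : (3.896:ℝ) ≤ Real.exp 1.36 := by
    have h2 := exp_low 1.36 (by norm_num)
    refine le_trans ?_ h2
    norm_num
  have b3 : Real.exp 2.44 ≤ 11.48 := by
    have h2 := exp_up4 0.61 1.84044 (by norm_num) (by norm_num) (by norm_num)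
    have h3 : (1.84044:ℝ) ^ 4 ≤ 11.48 := by norm_num
    have h4 : (4 * 0.61 : ℝ) = 2.44 := by norm_num
    rw [h4] at h2
    linarith
  have t1 : η * (Real.exp (3 - R) - Real.exp η) ≤ 7.225 := by
    have e2 : 3.896 * (1 + (η - 1.36)) ≤ Real.exp η := by
      have h1 : Real.exp η = Real.exp 1.36 * Real.exp (η - 1.36) := by
        rw [← Real.exp_add]; ring_nf
      have h2 := Real.add_one_le_exp (η - 1.36)
      rcases le_or_gt 0 (1 + (η - 1.36)) with h3 | h3
      · rw [h1]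
        apply mul_le_mul b2 (by linarith) h3 (Real.exp_pos _).le
      · have := Real.exp_pos η
        nlinarith
    have h1 : η * (Real.exp (3 - R) - Real.exp η) ≤ η * (9.208 - 3.896 * (1 + (η - 1.36))) := by
      apply mul_le_mul_of_nonneg_left (by linarith) hη.le
    nlinarith [sq_nonneg (η - 1.3617)]
  have t2 : η ^ 2 * Real.exp (2 * (3 - R - η)) ≤ 11.48 := by
    have h1 : η ≤ Real.exp (η - 1) := by
      have := Real.add_one_le_exp (η - 1); linarith
    have h2 : η ^ 2 ≤ (Real.exp (η - 1)) ^ 2 := pow_le_pow_left₀ hη.le h1 2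
    have h3 : Real.exp (2 * (3 - R - η)) ≤ Real.exp (2 * (2.22 - η)) :=
      Real.exp_le_exp.mpr (by linarith)
    calc η ^ 2 * Real.exp (2 * (3 - R - η))
        ≤ (Real.exp (η - 1)) ^ 2 * Real.exp (2 * (2.22 - η)) :=
          mul_le_mul h2 h3 (Real.exp_pos _).le (by positivity)
      _ = Real.exp 2.44 := by
            rw [← Real.exp_nat_mul, ← Real.exp_add]; push_cast; ring_nf
      _ ≤ 11.48 := b3
  have t3 : η ^ 2 * Real.exp (2 * (3 - R - η)) / (30 * R) ≤ 0.5 := by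
    rw [div_le_iff₀ (by positivity)]
    linarith
  linarith

/-- (B) under the constraint. -/
theorem ineqB {R x : ℝ} (hx : 0 < x) (hRlow : 13 / 20 ≤ R)
    (hR : 1 - R ≤ (3 * x + x ^ 2 + x ^ 3 / 5) / 15) : IneqB R (2 * x) := by
  have hmono : ∀ y : ℝ, x ≤ y → 3 * x + x ^ 2 + x ^ 3 / 5 ≤ 3 * y + y ^ 2 + y ^ 3 / 5 := by
    intro y hy
    have h2 : x ^ 2 ≤ y ^ 2 := pow_le_pow_left₀ hx.le hy 2
    have h3 : x ^ 3 ≤ y ^ 3 := pow_le_pow_left₀ hx.le hy 3
    linarith
  rcases le_or_gt (39 / 50) R with h0 | h0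
  · exact B_case0 h0 (by linarith)
  rcases le_or_gt (3 / 4) R with h1 | h1
  · have hx' : 0.83 ≤ x := by
      by_contra hc
      push Not at hc
      have := hmono 0.83 hc.le
      norm_num at this
      linarith
    refine B_case (R0 := 0.75) (η0 := 1.66) (E := 9.49) (A := 5.25) (Q := 3.26)
      (by norm_num) (by linarith) (by norm_num) (by linarith) ?_ (by norm_num) ?_ ?_
      (by norm_num) (by norm_num)
    · have h2 := exp_up4 0.5625 1.7551 (by norm_num) (by norm_num) (by norm_num)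
      have h3 : (1.7551:ℝ) ^ 4 ≤ 9.49 := by norm_num
      have h4 : (4 * 0.5625 : ℝ) = 3 - 0.75 := by norm_num
      rw [h4] at h2; linarith
    · have h2 := exp_low 1.66 (by norm_num)
      refine le_trans ?_ h2
      norm_num
    · have h2 := exp_up4 0.295 1.3432 (by norm_num) (by norm_num) (by norm_num)
      have h3 : (1.3432:ℝ) ^ 4 ≤ 3.26 := by norm_num
      have h4 : (4 * 0.295 : ℝ) = 2 * (3 - 0.75 - 1.66) := by norm_num
      rw [h4] at h2; linarith
  rcases le_or_gt (18 / 25) R with h2 | h2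
  · have hx' : 0.91 ≤ x := by
      by_contra hc
      push Not at hc
      have := hmono 0.91 hc.le
      norm_num at this
      linarith
    refine B_case (R0 := 0.72) (η0 := 1.82) (E := 9.78) (A := 6.16) (Q := 2.52)
      (by norm_num) (by linarith) (by norm_num) (by linarith) ?_ (by norm_num) ?_ ?_
      (by norm_num) (by norm_num)
    · have h2 := exp_up4 0.57 1.7683 (by norm_num) (by norm_num) (by norm_num)
      have h3 : (1.7683:ℝ) ^ 4 ≤ 9.78 := by norm_num
      have h4 : (4 * 0.57 : ℝ) = 3 - 0.72 := by norm_num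
      rw [h4] at h2; linarith
    · have h2 := exp_low 1.82 (by norm_num)
      refine le_trans ?_ h2
      norm_num
    · have h2 := exp_up4 0.23 1.2587 (by norm_num) (by norm_num) (by norm_num)
      have h3 : (1.2587:ℝ) ^ 4 ≤ 2.52 := by norm_num
      have h4 : (4 * 0.23 : ℝ) = 2 * (3 - 0.72 - 1.82) := by norm_num
      rw [h4] at h2; linarith
  rcases le_or_gt (17 / 25) R with h3 | h3
  · have hx' : 1 ≤ x := by
      by_contra hc
      push Not at hc
      have := hmono 1 hc.le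
      norm_num at this
      linarith
    refine B_case (R0 := 0.68) (η0 := 2) (E := 10.18) (A := 7.38) (Q := 1.9)
      (by norm_num) (by linarith) (by norm_num) (by linarith) ?_ (by norm_num) ?_ ?_
      (by norm_num) (by norm_num)
    · have h2 := exp_up4 0.58 1.7861 (by norm_num) (by norm_num) (by norm_num)
      have h3 : (1.7861:ℝ) ^ 4 ≤ 10.18 := by norm_num
      have h4 : (4 * 0.58 : ℝ) = 3 - 0.68 := by norm_num
      rw [h4] at h2; linarith
    · have h2 := exp_low 2 (by norm_num)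
      refine le_trans ?_ h2
      norm_num
    · have h2 := exp_up4 0.16 1.1736 (by norm_num) (by norm_num) (by norm_num)
      have h3 : (1.1736:ℝ) ^ 4 ≤ 1.9 := by norm_num
      have h4 : (4 * 0.16 : ℝ) = 2 * (3 - 0.68 - 2) := by norm_num
      rw [h4] at h2; linarith
  · have hx' : 1.1 ≤ x := by
      by_contra hc
      push Not at hc
      have := hmono 1.1 hc.le
      norm_num at this
      linarith
    refine B_case (R0 := 0.65) (η0 := 2.2) (E := 10.5) (A := 9) (Q := 1.36)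
      (by norm_num) (by linarith) (by norm_num) (by linarith) ?_ (by norm_num) ?_ ?_
      (by norm_num) (by norm_num)
    · have h2 := exp_up4 0.5875 1.8 (by norm_num) (by norm_num) (by norm_num)
      have h3 : (1.8:ℝ) ^ 4 ≤ 10.5 := by norm_num
      have h4 : (4 * 0.5875 : ℝ) = 3 - 0.65 := by norm_num
      rw [h4] at h2; linarith
    · have h2 := exp_low 2.2 (by norm_num)
      refine le_trans ?_ h2
      norm_num
    · have h2 := exp_up4 0.075 1.078 (by norm_num) (by norm_num) (by norm_num)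
      have h3 : (1.078:ℝ) ^ 4 ≤ 1.36 := by norm_num
      have h4 : (4 * 0.075 : ℝ) = 2 * (3 - 0.65 - 2.2) := by norm_num
      rw [h4] at h2; linarith

theorem R_low {R x : ℝ} (hx : 0 < x) (hR0 : 0 < R) (hsum : 2 * x ≤ 3 - R)
    (hR : 1 - R ≤ (3 * x + x ^ 2 + x ^ 3 / 5) / 15) : 13 / 20 ≤ R := by
  by_contra hc
  push Not at hc
  set t := 1 - R with ht
  have ht1 : t < 1 := by linarith
  have ht2 : 7 / 20 < t := by linarith
  set y := 1 + t / 2 with hy
  have hxy : x ≤ y := by linarith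
  have h2 : x ^ 2 ≤ y ^ 2 := pow_le_pow_left₀ hx.le hxy 2
  have h3 : x ^ 3 ≤ y ^ 3 := pow_le_pow_left₀ hx.le hxy 3
  have h4 : 15 * t ≤ 3 * y + y ^ 2 + y ^ 3 / 5 := by linarith
  have h5 : 15 * t - (3 * y + y ^ 2 + y ^ 3 / 5)
      = 12.2 * t - 4.2 - 0.4 * t ^ 2 - 0.025 * t ^ 3 := by rw [hy]; ring
  have h6 : t ^ 2 ≤ 1.35 * t - 0.35 := by nlinarith
  have h7 : t ^ 3 ≤ t ^ 2 := by nlinarith [sq_nonneg t]
  nlinarith

/-- The final contradiction of section 3 of note 1887. -/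
theorem Rfinal {R η₁ η₂ β : ℝ} (hR0 : 0 < R) (hR1 : R < 1) (h1 : 0 < η₁) (h2 : 0 ≤ η₂)
    (hβ : 0 < β) (hsum : η₁ + η₂ ≤ 3 - R)
    (hR : 1 - R ≤ vt (η₁ / 2) * (η₁ / 2 + th (η₁ / 2)) / 15) :
    (R + β) * Real.exp η₁ * (Real.exp η₂ - 1) + Real.exp (2 * η₂) * (β * η₁ / (30 * R))
      < 10 * R * (1 + β / η₁) := by
  set x := η₁ / 2 with hx
  have hxp : 0 < x := by positivity
  have hη : η₁ = 2 * x := by rw [hx]; ring
  have hg := g_bound hxp
  have hR' : 1 - R ≤ (3 * x + x ^ 2 + x ^ 3 / 5) / 15 := by linarith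
  have hlow := R_low hxp hR0 (by linarith) hR'
  have hB := ineqB hxp hlow hR'
  rw [← hη] at hB
  unfold IneqB at hB
  have e1 : Real.exp η₁ * Real.exp η₂ ≤ Real.exp (3 - R) := by
    rw [← Real.exp_add]; exact Real.exp_le_exp.mpr hsum
  have e2 : Real.exp (2 * η₂) ≤ Real.exp (2 * (3 - R - η₁)) :=
    Real.exp_le_exp.mpr (by linarith)
  have e3 : 1 < Real.exp η₁ := Real.one_lt_exp_iff.mpr h1
  have e4 : Real.exp (3 - R) ≤ 10.5 := by
    have h2 := exp_up4 0.5875 1.8 (by norm_num) (by norm_num) (by norm_num)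
    have h3 : (1.8:ℝ) ^ 4 ≤ 10.5 := by norm_num
    have h4 : Real.exp (3 - R) ≤ Real.exp (4 * 0.5875) := Real.exp_le_exp.mpr (by linarith)
    linarith
  -- R-part
  have a1 : R * (Real.exp η₁ * (Real.exp η₂ - 1)) < 10 * R := by
    have : Real.exp η₁ * (Real.exp η₂ - 1) < 10 := by nlinarith
    nlinarith
  -- β-part
  have a2 : Real.exp η₁ * (Real.exp η₂ - 1) + Real.exp (2 * η₂) * (η₁ / (30 * R))
      < 10 * R / η₁ := by
    have b1 : Real.exp η₁ * (Real.exp η₂ - 1) ≤ Real.exp (3 - R) - Real.exp η₁ := by nlinarith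
    have b2 : Real.exp (2 * η₂) * (η₁ / (30 * R))
        ≤ Real.exp (2 * (3 - R - η₁)) * (η₁ / (30 * R)) :=
      mul_le_mul_of_nonneg_right e2 (by positivity)
    have b3 : (Real.exp (3 - R) - Real.exp η₁) + Real.exp (2 * (3 - R - η₁)) * (η₁ / (30 * R))
        < 10 * R / η₁ := by
      rw [lt_div_iff₀ h1]
      have : ((Real.exp (3 - R) - Real.exp η₁)
          + Real.exp (2 * (3 - R - η₁)) * (η₁ / (30 * R))) * η₁
          = η₁ * (Real.exp (3 - R) - Real.exp η₁)
            + η₁ ^ 2 * Real.exp (2 * (3 - R - η₁)) / (30 * R) := by ring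
      rw [this]; exact hB
    linarith
  have a3 := mul_lt_mul_of_pos_left a2 hβ
  have e5 : β * (Real.exp η₁ * (Real.exp η₂ - 1) + Real.exp (2 * η₂) * (η₁ / (30 * R)))
      = β * Real.exp η₁ * (Real.exp η₂ - 1) + Real.exp (2 * η₂) * (β * η₁ / (30 * R)) := by ring
  have e6 : 10 * R * (1 + β / η₁) = 10 * R + β * (10 * R / η₁) := by ring
  rw [e6]
  rw [e5] at a3
  nlinarith

/-- `sinh x / x`, `1` at `0`. -/
noncomputable def shc (x : ℝ) : ℝ := if x = 0 then 1 else Real.sinh x / x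

/-- section 5 (c), first case: `β > η/(e^η-1) * e^{η-2}` (from `R_S ≥ e^{η-2}` and `φ_S < 0`);
`x = η/2`. -/
theorem five_c1 {x β : ℝ} (hx : 0 < x)
    (hβ : Real.exp (2 * x - 2) * (2 * x) / (Real.exp (2 * x) - 1) ≤ β) :
    Real.exp x ≤ β * Real.exp 2 * shc x := by
  have hs := sinh_pos' hx
  have he := Real.exp_pos x
  unfold shc
  simp only [hx.ne', if_false]
  have h1 : 0 < Real.exp (2 * x) - 1 := by
    have := Real.one_lt_exp_iff.mpr (show 0 < 2 * x by linarith)
    linarith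
  have h2 : Real.exp (2 * x - 2) * (2 * x) / (Real.exp (2 * x) - 1)
      * Real.exp 2 * (Real.sinh x / x) = Real.exp x := by
    have e0 : Real.exp (2 * x) = Real.exp x ^ 2 := by
      rw [← Real.exp_nat_mul]; norm_num
    have e1 : Real.exp (2 * x - 2) = Real.exp x ^ 2 / Real.exp 2 := by
      rw [Real.exp_sub, e0]
    rw [e1, Real.sinh_eq, Real.exp_neg]
    rw [e0] at h1 ⊢
    field_simp
  calc Real.exp x = _ := h2.symm
    _ ≤ β * Real.exp 2 * (Real.sinh x / x) := by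
        apply mul_le_mul_of_nonneg_right _ (by positivity)
        apply mul_le_mul_of_nonneg_right hβ (Real.exp_pos _).le

/-- section 5 (c), second case: `β ≥ 1`, `0 ≤ x ≤ 1`. -/
theorem five_c2 {x β : ℝ} (hx : 0 ≤ x) (hx1 : x ≤ 1) (hβ : 1 ≤ β) :
    Real.exp x ≤ β * Real.exp 2 * shc x := by
  have he2 := Real.exp_pos 2
  have hsh : 1 ≤ shc x := by
    unfold shc
    split_ifs with h
    · exact le_rfl
    · have hxp : 0 < x := lt_of_le_of_ne hx (Ne.symm h)
      rw [le_div_iff₀ hxp, one_mul]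
      exact (Real.self_lt_sinh_iff.mpr hxp).le
  have h1 : Real.exp x ≤ Real.exp 2 := Real.exp_le_exp.mpr (by linarith)
  have h2 : Real.exp 2 ≤ β * Real.exp 2 := by nlinarith
  nlinarith [mul_pos (lt_of_lt_of_le one_pos hβ) he2]

end Pool.Agent.MPb5407d
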