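import Pool.Agent.Work.MP_b5407d_gt.Edge2
import Pool.Agent.Work.MP_b5407d_gt.OneVar4

/-!
# MP_b5407d_gt: sections 2 and 3 of note 1887 in abstract form (helper13)

A near chain with `m` edges; edge `i` (`i < m`) joins vertex `i` to vertex `i+1`;
`a i = Δx > 0`, `b i = |Δy| > 0`, `η i = v a i - w b i`.
-/

namespace Pool.Agent.MPb5407d

open Real intervalIntegral

/-- `r(1)` from `r(t)`. -/
theorem eR_shift (b η r0 t : ℝ) :
    eR b η r0 1 = eR b η r0 t * Real.exp (η * (1 - t)) + b * ((1 - t) * kE (-(η * (1 - t)))) := by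
  by_cases h : η = 0
  · subst h; simp [eR, kE]; ring
  · rw [eR_ne h, eR_ne h]
    have h' : -η ≠ 0 := neg_ne_zero.mpr h
    have h2 := mul_kE (1 - t) (-η) h'
    rw [show -η * (1 - t) = -(η * (1 - t)) by ring] at h2
    rw [h2, neg_neg]
    have e1 : Real.exp (η * 1) = Real.exp (η * t) * Real.exp (η * (1 - t)) := by
      rw [← Real.exp_add]; ring_nf
    rw [e1]
    field_simp
    ring

theorem eP_shift (a η p1 t : ℝ) :
    eP a η p1 0 = eP a η p1 t * Real.exp (-(η * t)) + a * (t * kE (η * t)) := by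
  by_cases h : η = 0
  · subst h; simp [eP, kE]; ring
  · rw [eP_ne h, eP_ne h]
    have h2 := mul_kE t η h
    rw [h2]
    have e1 : Real.exp (-(η * (1 - 0))) = Real.exp (-(η * (1 - t))) * Real.exp (-(η * t)) := by
      rw [← Real.exp_add]; ring_nf
    rw [e1]
    field_simp
    ring

theorem kE_pos (η : ℝ) : 0 < kE η := by
  unfold kE
  split_ifs with h
  · norm_num
  · rcases lt_or_gt_of_ne h with hn | hp
    · apply div_pos_of_neg_of_neg _ hn
      have := Real.one_lt_exp_iff.mpr (show 0 < -η by linarith)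
      linarith
    · apply div_pos _ hp
      have := Real.exp_lt_one_iff.mpr (show -η < 0 by linarith)
      linarith

section mono
variable {a b η p1 r0 : ℝ}

theorem eR_nonneg_of (hb : 0 < b) (h0 : 0 ≤ r0) {t : ℝ} (ht : 0 ≤ t) : 0 ≤ eR b η r0 t := by
  unfold eR
  have := kE_pos (-(η * t))
  positivity

theorem eR_one_pos_of (hb : 0 < b) (h0 : 0 ≤ r0) : 0 < eR b η r0 1 := by
  rw [eR_one]
  have := kE_pos (-η)
  positivity

theorem eP_nonneg_of (ha : 0 < a) (h0 : 0 ≤ p1) {t : ℝ} (ht : t ≤ 1) : 0 ≤ eP a η p1 t := by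
  unfold eP
  have := kE_pos (η * (1 - t))
  have h1 : 0 ≤ 1 - t := by linarith
  positivity

theorem eP_zero_pos_of (ha : 0 < a) (h0 : 0 ≤ p1) : 0 < eP a η p1 0 := by
  rw [eP_at_zero]
  have := kE_pos η
  positivity

theorem eR_nonpos_of (hb : 0 < b) (h1 : eR b η r0 1 ≤ 0) {t : ℝ} (ht : t ≤ 1) :
    eR b η r0 t ≤ 0 := by
  have h2 := eR_shift b η r0 t
  have h3 := kE_pos (-(η * (1 - t)))
  have h4 : 0 ≤ 1 - t := by linarith
  have h5 : 0 ≤ b * ((1 - t) * kE (-(η * (1 - t)))) := by positivity
  have h6 := Real.exp_pos (η * (1 - t))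
  by_contra hc
  push Not at hc
  have := mul_pos hc h6
  linarith

theorem eP_nonpos_of (ha : 0 < a) (h1 : eP a η p1 0 ≤ 0) {t : ℝ} (ht : 0 ≤ t) :
    eP a η p1 t ≤ 0 := by
  have h2 := eP_shift a η p1 t
  have h3 := kE_pos (η * t)
  have h5 : 0 ≤ a * (t * kE (η * t)) := by positivity
  have h6 := Real.exp_pos (-(η * t))
  by_contra hc
  push Not at hc
  have := mul_pos hc h6
  linarith

theorem int_eR_nonneg (hb : 0 < b) (h0 : 0 ≤ r0) : 0 ≤ ∫ s in (0:ℝ)..1, eR b η r0 s :=
  intervalIntegral.integral_nonneg (by norm_num) fun _ ht => eR_nonneg_of hb h0 ht.1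

theorem int_eP_nonneg (ha : 0 < a) (h0 : 0 ≤ p1) : 0 ≤ ∫ s in (0:ℝ)..1, eP a η p1 s :=
  intervalIntegral.integral_nonneg (by norm_num) fun _ ht => eP_nonneg_of ha h0 ht.2

theorem int_eR_nonpos (hb : 0 < b) (h1 : eR b η r0 1 ≤ 0) :
    ∫ s in (0:ℝ)..1, eR b η r0 s ≤ 0 := by
  have h : 0 ≤ ∫ s in (0:ℝ)..1, -eR b η r0 s :=
    intervalIntegral.integral_nonneg (by norm_num) fun t ht => by
      have := eR_nonpos_of hb h1 ht.2 (η := η) (r0 := r0)
      linarith
  rw [intervalIntegral.integral_neg] at h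
  linarith

theorem int_eP_nonpos (ha : 0 < a) (h1 : eP a η p1 0 ≤ 0) :
    ∫ s in (0:ℝ)..1, eP a η p1 s ≤ 0 := by
  have h : 0 ≤ ∫ s in (0:ℝ)..1, -eP a η p1 s :=
    intervalIntegral.integral_nonneg (by norm_num) fun t ht => by
      have := eP_nonpos_of ha h1 ht.1 (η := η) (p1 := p1)
      linarith
  rw [intervalIntegral.integral_neg] at h
  linarith

end mono

/-- A near chain with all its first order relations. -/
structure NearChain (m : ℕ) (v w : ℝ) (a b p r A B : ℕ → ℝ) : Prop where
  ha : ∀ i < m, 0 < a i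
  hb : ∀ i < m, 0 < b i
  hs : ∀ i, i + 1 < m → b (i + 1) * a i < b i * a (i + 1)
  hp : ∀ i < m, p i = eP (a i) (v * a i - w * b i) (p (i + 1)) 0
  hr : ∀ i < m, r (i + 1) = eR (b i) (v * a i - w * b i) (r i) 1
  hA0 : A 0 = 0
  hA : ∀ i < m, A (i + 1) = A i + a i * ∫ s in (0:ℝ)..1, eR (b i) (v * a i - w * b i) (r i) s
  hBm : B m = 0
  hB : ∀ i < m, B i = B (i + 1) + b i * ∫ s in (0:ℝ)..1, eP (a i) (v * a i - w * b i) (p (i + 1)) s
  hE : ∀ i < m, EdgeConcl (a i) (b i) (v * a i - w * b i) (p (i + 1)) (r i) (A i) (B (i + 1))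

namespace NearChain

variable {m : ℕ} {v w : ℝ} {a b p r A B : ℕ → ℝ} (N : NearChain m v w a b p r A B)
include N

theorem phi_left {i : ℕ} (hi : i < m) : p i * r i - A i - B i < 0 := by
  have h1 := (N.hE i hi).phi_zero
  have h2 := nuE_pos (-(v * a i - w * b i))
  have ha := N.ha i hi
  have hb := N.hb i hi
  unfold ePhi at h1
  rw [eR_at_zero, integral_same, ← N.hp i hi, ← N.hB i hi] at h1
  have : 0 < a i * b i * nuE (-(v * a i - w * b i)) := by positivity
  linarith

theorem phi_right_eq {i : ℕ} (hi : i < m) : p (i + 1) * r (i + 1) - A (i + 1) - B (i + 1)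
    = -(a i * b i) * nuE (v * a i - w * b i) := by
  have h1 := (N.hE i hi).phi_one
  unfold ePhi at h1
  rw [eP_one, integral_same, ← N.hr i hi, ← N.hA i hi] at h1
  linarith

theorem phi_right {i : ℕ} (hi : i < m) : p (i + 1) * r (i + 1) - A (i + 1) - B (i + 1) < 0 := by
  rw [N.phi_right_eq hi]
  have h2 := nuE_pos (v * a i - w * b i)
  have ha := N.ha i hi
  have hb := N.hb i hi
  have : 0 < a i * b i * nuE (v * a i - w * b i) := by positivity
  linarith

theorem phi_neg {i : ℕ} (hi : i ≤ m) (hm : 0 < m) : p i * r i - A i - B i < 0 := by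
  rcases hi.lt_or_eq with h | h
  · exact N.phi_left h
  · obtain ⟨k, hk⟩ : ∃ k, m = k + 1 := ⟨m - 1, by omega⟩
    have := N.phi_right (i := k) (by omega)
    rw [h, hk]; exact this

/-- vertex conditions at an interior vertex. -/
theorem vertex {i : ℕ} (hi : i + 1 < m) :
    p (i + 1) * (1 - w * r (i + 1)) < 0 ∧ r (i + 1) * (1 - v * p (i + 1)) < 0 := by
  have h1 := (N.hE i (by omega)).slope_one
  have h2 := (N.hE (i + 1) hi).slope_zero
  rw [← N.hr i (by omega)] at h1
  rw [← N.hp (i + 1) hi] at h2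
  have ha := N.ha i (by omega)
  have hb := N.hb i (by omega)
  have ha' := N.ha (i + 1) hi
  have hb' := N.hb (i + 1) hi
  have hs := N.hs i hi
  set X := p (i + 1) * (1 - w * r (i + 1)) with hX
  set Y := r (i + 1) * (1 - v * p (i + 1)) with hY
  have e1 : b i * X < a i * Y := by rw [hX, hY]; nlinarith
  have e2 : a (i + 1) * Y < b (i + 1) * X := by rw [hX, hY]; nlinarith
  have hXneg : X < 0 := by
    by_contra hc
    push Not at hc
    have h3 : b i * a (i + 1) * X < b (i + 1) * a i * X := by
      have h4 := mul_lt_mul_of_pos_right e1 ha'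
      have h5 := mul_lt_mul_of_pos_right e2 ha
      nlinarith
    nlinarith [mul_le_mul_of_nonneg_right hs.le hc]
  refine ⟨hXneg, ?_⟩
  by_contra hc
  push Not at hc
  have := mul_pos hb' (neg_pos.mpr hXneg)
  have := mul_nonneg ha'.le hc
  nlinarith

theorem p_pos_step {i : ℕ} (hi : i < m) (h : 0 ≤ p (i + 1)) : 0 < p i := by
  rw [N.hp i hi]; exact eP_zero_pos_of (N.ha i hi) h

theorem r_pos_step {i : ℕ} (hi : i < m) (h : 0 ≤ r i) : 0 < r (i + 1) := by
  rw [N.hr i hi]; exact eR_one_pos_of (N.hb i hi) h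

/-- if `p m > 0` then all `p i > 0`. -/
theorem p_all_pos (h : 0 < p m) : ∀ i ≤ m, 0 < p i := by
  intro i hi
  induction hd : m - i generalizing i with
  | zero => have : i = m := by omega
            rw [this]; exact h
  | succ d ih =>
    exact N.p_pos_step (by omega) (ih (i + 1) (by omega) (by omega)).le

theorem r_all_pos (h : 0 < r 0) : ∀ i ≤ m, 0 < r i := by
  intro i
  induction i with
  | zero => intro _; exact h
  | succ d ih =>
    intro hi
    exact N.r_pos_step (by omega) (ih (by omega)).le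

/-- `p i ≤ 0 → p j ≤ 0` for `j ≥ i`. -/
theorem p_nonpos_mono {i j : ℕ} (hij : i ≤ j) (hj : j ≤ m) (h : p i ≤ 0) : p j ≤ 0 := by
  induction j, hij using Nat.le_induction with
  | base => exact h
  | succ k hk ih =>
    have h1 := ih (by omega)
    by_contra hc
    push Not at hc
    have := N.p_pos_step (i := k) (by omega) hc.le
    linarith

/-- `r j ≤ 0 → r i ≤ 0` for `i ≤ j`. -/
theorem r_nonpos_mono {i j : ℕ} (hij : i ≤ j) (hj : j ≤ m) (h : r j ≤ 0) : r i ≤ 0 := by
  by_contra hc
  push Not at hc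
  have : 0 < r j := by
    clear h
    induction j, hij using Nat.le_induction with
    | base => exact hc
    | succ k hk ih => exact N.r_pos_step (by omega) (ih (by omega)).le
  linarith

/-- `A i ≤ 0` if `r i ≤ 0`. -/
theorem A_nonpos {i : ℕ} (hi : i ≤ m) (h : r i ≤ 0) : A i ≤ 0 := by
  induction i with
  | zero => rw [N.hA0]
  | succ k ih =>
    have h1 := N.r_nonpos_mono (i := k) (j := k + 1) (by omega) hi h
    have h2 := ih (by omega) h1
    rw [N.hA k (by omega)]
    rw [N.hr k (by omega)] at h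
    have h3 := int_eR_nonpos (N.hb k (by omega)) h
    have h4 := N.ha k (by omega)
    nlinarith

theorem B_nonpos {i : ℕ} (hi : i ≤ m) (h : p i ≤ 0) : B i ≤ 0 := by
  induction hd : m - i generalizing i with
  | zero => have : i = m := by omega
            rw [this, N.hBm]
  | succ d ih =>
    have h1 := N.p_nonpos_mono (i := i) (j := i + 1) (by omega) (by omega) h
    have h2 := ih (i := i + 1) (by omega) h1 (by omega)
    rw [N.hB i (by omega)]
    rw [N.hp i (by omega)] at h
    have h3 := int_eP_nonpos (N.ha i (by omega)) h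
    have h4 := N.hb i (by omega)
    nlinarith

/-- `A` is nondecreasing where `r ≥ 0`. -/
theorem A_step_nonneg {i : ℕ} (hi : i < m) (h : 0 ≤ r i) : A i ≤ A (i + 1) := by
  rw [N.hA i hi]
  have h3 := int_eR_nonneg (η := v * a i - w * b i) (N.hb i hi) h
  have h4 := N.ha i hi
  nlinarith

theorem B_step_nonneg {i : ℕ} (hi : i < m) (h : 0 ≤ p (i + 1)) : B (i + 1) ≤ B i := by
  rw [N.hB i hi]
  have h3 := int_eP_nonneg (η := v * a i - w * b i) (N.ha i hi) h
  have h4 := N.hb i hi
  nlinarith

/-- (I): `p_{i+1} r_i = a b ψ + A_i + B_{i+1}`. -/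
theorem I_eq {i : ℕ} (hi : i < m) :
    p (i + 1) * r i = a i * b i * PsiE (v * a i - w * b i) + A i + B (i + 1) := by
  have h := (N.hE i hi).prod
  have ha := N.ha i hi
  have hb := N.hb i hi
  generalize PsiE (v * a i - w * b i) = ψ at h ⊢
  field_simp at h
  linarith

theorem A_nonneg_of (h : 0 ≤ r 0) : ∀ i ≤ m, 0 ≤ A i := by
  intro i
  induction i with
  | zero => intro _; rw [N.hA0]
  | succ d ih =>
    intro hi
    have h1 : 0 ≤ r d := by
      rcases Nat.eq_zero_or_pos d with h2 | h2
      · rw [h2]; exact h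
      · obtain ⟨k, rfl⟩ : ∃ k, d = k + 1 := ⟨d - 1, by omega⟩
        have : ∀ j, j ≤ m → 0 ≤ r j := by
          intro j
          induction j with
          | zero => intro _; exact h
          | succ l ihl => intro hl; exact (N.r_pos_step (by omega) (ihl (by omega))).le
        exact this _ (by omega)
    exact (ih (by omega)).trans (N.A_step_nonneg (by omega) h1)

theorem B_nonneg_of (h : 0 < p m) : ∀ i ≤ m, 0 ≤ B i := by
  intro i hi
  induction hd : m - i generalizing i with
  | zero => have : i = m := by omega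
            rw [this, N.hBm]
  | succ d ih =>
    exact (ih (i + 1) (by omega) (by omega)).trans
      (N.B_step_nonneg (by omega) (N.p_all_pos h (i + 1) (by omega)).le)

/-- Section 2: for `m ≥ 2`, `p` and `r` are positive on the near chain. -/
theorem all_pos (hm : 2 ≤ m) : 0 < p m ∧ 0 < r 0 := by
  have hψ : ∀ i < m, 0 < a i * b i * PsiE (v * a i - w * b i) := fun i hi => by
    have := PsiE_pos (v * a i - w * b i)
    have := N.ha i hi
    have := N.hb i hi
    positivity
  by_contra hcon
  -- both are nonpositive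
  have hpm : p m ≤ 0 := by
    by_contra hc
    push Not at hc
    apply hcon
    refine ⟨hc, ?_⟩
    have h1 := N.I_eq (i := 0) (by omega)
    have h2 := hψ 0 (by omega)
    have h3 := N.B_nonneg_of hc 1 (by omega)
    rw [N.hA0] at h1
    have h4 := N.p_all_pos hc 1 (by omega)
    by_contra h5
    push Not at h5
    have h6 : p (0 + 1) * r 0 ≤ 0 := mul_nonpos_of_nonneg_of_nonpos h4.le h5
    have h7 : B (0 + 1) = B 1 := rfl
    linarith
  have hr0 : r 0 ≤ 0 := by
    by_contra hc
    push Not at hc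
    apply hcon
    refine ⟨?_, hc⟩
    obtain ⟨k, hk⟩ : ∃ k, m = k + 1 := ⟨m - 1, by omega⟩
    have h1 := N.I_eq (i := k) (by omega)
    have h2 := hψ k (by omega)
    have h3 := N.A_nonneg_of hc.le k (by omega)
    have hBm := N.hBm
    rw [hk] at hBm
    rw [hBm] at h1
    have h4 := N.r_all_pos hc k (by omega)
    by_contra h5
    push Not at h5
    rw [hk] at h5
    have h6 : p (k + 1) * r k ≤ 0 := mul_nonpos_of_nonpos_of_nonneg h5 h4.le
    linarith
  -- no vertex has both nonpositive
  have hnn : ∀ i ≤ m, ¬ (p i ≤ 0 ∧ r i ≤ 0) := by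
    rintro i hi ⟨h1, h2⟩
    have h3 := N.phi_neg hi (by omega)
    have h4 := N.A_nonpos hi h2
    have h5 := N.B_nonpos hi h1
    nlinarith [mul_nonneg_of_nonpos_of_nonpos h1 h2]
  by_cases hpp : ∃ i, 0 < i ∧ i < m ∧ 0 < p i ∧ 0 < r i
  · obtain ⟨i, hi0, him, hpi, hri⟩ := hpp
    obtain ⟨k, rfl⟩ : ∃ k, i = k + 1 := ⟨i - 1, by omega⟩
    have hv := N.vertex him
    have hw : 0 < w := by
      have : 1 - w * r (k + 1) < 0 := by
        by_contra hc; push Not at hc; nlinarith [hv.1, mul_nonneg hpi.le hc]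
      by_contra hc; push Not at hc; nlinarith
    have hvv : 0 < v := by
      have : 1 - v * p (k + 1) < 0 := by
        by_contra hc; push Not at hc; nlinarith [hv.2, mul_nonneg hri.le hc]
      by_contra hc; push Not at hc; nlinarith
    -- all interior vertices are (+,+)
    have hall : ∀ j, 0 < j → j < m → 0 < p j ∧ 0 < r j := by
      intro j hj0 hjm
      obtain ⟨l, rfl⟩ : ∃ l, j = l + 1 := ⟨j - 1, by omega⟩
      have hvj := N.vertex hjm
      constructor
      · by_contra hc
        push Not at hc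
        have hr : 0 < r (l + 1) := by
          by_contra h2; push Not at h2; exact hnn _ hjm.le ⟨hc, h2⟩
        have : v * p (l + 1) ≤ 0 := mul_nonpos_of_nonneg_of_nonpos hvv.le hc
        nlinarith [hvj.2, mul_pos hr (show 0 < 1 - v * p (l + 1) by linarith)]
      · by_contra hc
        push Not at hc
        have hp : 0 < p (l + 1) := by
          by_contra h2; push Not at h2; exact hnn _ hjm.le ⟨h2, hc⟩
        have : w * r (l + 1) ≤ 0 := mul_nonpos_of_nonneg_of_nonpos hw.le hc
        nlinarith [hvj.1, mul_pos hp (show 0 < 1 - w * r (l + 1) by linarith)]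
    -- B 1 < 0, A 1 > 0
    have h1 := N.I_eq (i := 0) (by omega)
    rw [N.hA0] at h1
    have hp1 := hall 1 (by omega) (by omega)
    have hB1 : B 1 < 0 := by
      have h2 := hψ 0 (by omega)
      have h3 : p (0 + 1) * r 0 ≤ 0 := mul_nonpos_of_nonneg_of_nonpos hp1.1.le hr0
      have h4 : B (0 + 1) = B 1 := rfl
      linarith
    have hA1 : 0 < A 1 := by
      have h3 := N.phi_neg (i := 1) (by omega) (by omega)
      nlinarith [mul_pos hp1.1 hp1.2]
    -- A (m-1) ≥ A 1
    have hAm : ∀ j, 1 ≤ j → j < m → 0 < A j := by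
      intro j hj
      induction j, hj using Nat.le_induction with
      | base => intro _; exact hA1
      | succ l hl ih =>
        intro h5
        exact lt_of_lt_of_le (ih (by omega))
          (N.A_step_nonneg (by omega) (hall l (by omega) (by omega)).2.le)
    obtain ⟨l, hl⟩ : ∃ l, m = l + 1 := ⟨m - 1, by omega⟩
    have h6 := N.I_eq (i := l) (by omega)
    have hBm := N.hBm
    rw [hl] at hBm hpm
    rw [hBm] at h6
    have h7 := hAm l (by omega) (by omega)
    have h8 := hψ l (by omega)
    have h9 : p (l + 1) * r l ≤ 0 :=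
      mul_nonpos_of_nonpos_of_nonneg hpm (hall l (by omega) (by omega)).2.le
    linarith
  · push Not at hpp
    -- middle edge
    -- let i be the least index with p (i+1) ≤ 0
    have hex : ∃ i, p (i + 1) ≤ 0 ∧ i < m := ⟨m - 1, by
      rw [show m - 1 + 1 = m by omega]; exact ⟨hpm, by omega⟩⟩
    classical
    let i := Nat.find hex
    have hi := Nat.find_spec hex
    have himin : ∀ j < i, ¬ (p (j + 1) ≤ 0 ∧ j < m) := fun j hj => Nat.find_min hex hj
    change p (i + 1) ≤ 0 ∧ i < m at hi
    obtain ⟨hpi1, him⟩ := hi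
    -- p i > 0
    have hpi : 0 < p i := by
      rcases Nat.eq_zero_or_pos i with h0 | h0
      · rw [h0]
        by_contra hc; push Not at hc; exact hnn 0 (by omega) ⟨hc, hr0⟩
      · obtain ⟨k, hk⟩ : ∃ k, i = k + 1 := ⟨i - 1, by omega⟩
        have := himin k (by omega)
        rw [hk]
        by_contra hc; push Not at hc; exact this ⟨hc, by omega⟩
    -- r i ≤ 0
    have hri : r i ≤ 0 := by
      rcases Nat.eq_zero_or_pos i with h0 | h0
      · rw [h0]; exact hr0
      · exact hpp i h0 him hpi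
    have hAi := N.A_nonpos him.le hri
    have hBi := N.B_nonpos (i := i + 1) him hpi1
    have ha := N.ha i him
    have hb := N.hb i him
    have hab : 0 < a i * b i := mul_pos ha hb
    have hE := N.hE i him
    have hc0 : (A i + B (i + 1)) / (a i * b i) ≤ 0 :=
      div_nonpos_of_nonpos_of_nonneg (by linarith) hab.le
    have hux : p (i + 1) / a i ≤ 0 := div_nonpos_of_nonpos_of_nonneg hpi1 ha.le
    have huy : r i / b i ≤ 0 := div_nonpos_of_nonpos_of_nonneg hri hb.le
    have hSp := SE_p hux huy hc0 hE.prod hE.diff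
    have hSr := SE_r hux huy hc0 hE.prod hE.diff
    -- B i ≥ -A i, A (i+1) ≥ -B (i+1)
    have hBi' : -A i ≤ B i := by
      rw [N.hB i him, int_eP_full]
      have h1 := mul_le_mul_of_nonneg_left hSp hab.le
      have h2 : a i * b i * -((A i + B (i + 1)) / (a i * b i)) = -(A i + B (i + 1)) := by
        field_simp
      have h3 : a i * b i * (k2E (v * a i - w * b i) + kE (v * a i - w * b i) * (p (i + 1) / a i))
          = b i * (a i * k2E (v * a i - w * b i) + kE (v * a i - w * b i) * p (i + 1)) := by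
        field_simp
      rw [h2, h3] at h1
      linarith
    have hAi' : -B (i + 1) ≤ A (i + 1) := by
      rw [N.hA i him, int_eR_full]
      have h1 := mul_le_mul_of_nonneg_left hSr hab.le
      have h2 : a i * b i * -((A i + B (i + 1)) / (a i * b i)) = -(A i + B (i + 1)) := by
        field_simp
      have h3 : a i * b i * (k2E (-(v * a i - w * b i)) + kE (-(v * a i - w * b i)) * (r i / b i))
          = a i * (b i * k2E (-(v * a i - w * b i)) + kE (-(v * a i - w * b i)) * r i) := by
        field_simp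
      rw [h2, h3] at h1
      linarith
    rcases Nat.eq_zero_or_pos i with h0 | h0
    · -- i = 0 < m - 1, use edge i+1
      have hi2 : i + 1 < m := by omega
      have h6 := N.I_eq (i := i + 1) hi2
      have h7 := hψ (i + 1) hi2
      have hrr : 0 < r (i + 1) := by
        by_contra hc; push Not at hc; exact hnn (i + 1) (by omega) ⟨hpi1, hc⟩
      have hp2 : p (i + 1 + 1) ≤ 0 :=
        N.p_nonpos_mono (i := i + 1) (j := i + 1 + 1) (by omega) (by omega) hpi1
      have h8 : p (i + 1 + 1) * r (i + 1) ≤ 0 := mul_nonpos_of_nonpos_of_nonneg hp2 hrr.le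
      have h9 : B (i + 1) ≤ B (i + 1 + 1) := by
        rw [N.hB (i + 1) hi2]
        have h10 := hpi1
        rw [N.hp (i + 1) hi2] at h10
        have h11 := int_eP_nonpos (N.ha (i + 1) hi2) h10
        have h12 := N.hb (i + 1) hi2
        nlinarith
      linarith
    · obtain ⟨k, hk⟩ : ∃ k, i = k + 1 := ⟨i - 1, by omega⟩
      have hkm : k < m := by omega
      have h6 := N.I_eq (i := k) hkm
      have h7 := hψ k hkm
      rw [hk] at hpi hri hBi'
      have hrk : r k ≤ 0 := N.r_nonpos_mono (i := k) (j := k + 1) (by omega) (by omega) hri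
      have h8 : p (k + 1) * r k ≤ 0 := mul_nonpos_of_nonneg_of_nonpos hpi.le hrk
      have h9 : A (k + 1) ≤ A k := by
        rw [N.hA k hkm]
        have h10 := hri
        rw [N.hr k hkm] at h10
        have h11 := int_eR_nonpos (N.hb k hkm) h10
        have h12 := N.ha k hkm
        nlinarith
      linarith

end NearChain

end Pool.Agent.MPb5407d
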