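import Pool.Agent.Work.MP_b5407d_gt.Chain

/-!
# MP_b5407d_gt: section 3 of note 1887 in abstract form (helper13)
-/

namespace Pool.Agent.MPb5407d

open Real intervalIntegral

theorem eta_kE (η : ℝ) : η * kE η = 1 - Real.exp (-η) := by
  by_cases h : η = 0
  · subst h; simp
  · unfold kE; simp only [h, if_false]; field_simp

theorem eta_k2E (η : ℝ) : η * k2E η = 1 - kE η := by
  by_cases h : η = 0
  · subst h; simp [kE]
  · unfold k2E; simp only [h, if_false]; field_simp

/-- `r(1) - r(0) = b + η ∫ r`. -/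
theorem eR_diff (b η r0 : ℝ) :
    eR b η r0 1 - r0 = b + η * ∫ s in (0:ℝ)..1, eR b η r0 s := by
  have h1 := eta_kE (-η)
  have h2 := eta_k2E (-η)
  rw [neg_neg] at h1
  rw [eR_one, int_eR_full]
  linear_combination b * h2 + r0 * h1

/-- `p(0) - p(1) = a - η ∫ p`. -/
theorem eP_diff (a η p1 : ℝ) :
    eP a η p1 0 - p1 = a - η * ∫ s in (0:ℝ)..1, eP a η p1 s := by
  have h1 := eta_kE η
  have h2 := eta_k2E η
  rw [eP_at_zero, int_eP_full]
  linear_combination a * h2 + p1 * h1

theorem kE_neg_le_exp {η : ℝ} (h : 0 < η) : kE (-η) ≤ Real.exp η := by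
  have h1 := eta_kE (-η)
  rw [neg_neg] at h1
  have h2 := Real.add_one_le_exp (-η)
  have h3 := Real.exp_pos η
  have h4 : Real.exp (-η) * Real.exp η = 1 := by rw [← Real.exp_add]; simp
  have h5 : η * kE (-η) ≤ η * Real.exp η := by nlinarith
  exact le_of_mul_le_mul_left h5 h

theorem exp_neg_le_kE {η : ℝ} (h : 0 < η) : Real.exp (-η) ≤ kE η := by
  have h1 := eta_kE η
  have h2 := Real.add_one_le_exp η
  have h3 := Real.exp_pos (-η)
  have h4 : Real.exp (-η) * Real.exp η = 1 := by rw [← Real.exp_add]; simp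
  have h5 : η * Real.exp (-η) ≤ η * kE η := by nlinarith
  exact le_of_mul_le_mul_left h5 h

/-- the bound on `1 - R_0` of section 3. -/
theorem R0_bound {η ux uy c R0 : ℝ} (hη : 0 < η) (hux : 0 < ux) (huy : 0 < uy) (hc : 0 ≤ c)
    (hprod : ux * uy = PsiE η + c) (hdiff : uy - ux = η * ((PsiE η + OmE η) / 2 + c))
    (hR : R0 < 1) (h : ux * (1 - R0) < η * ((PsiE η - OmE η) / 2)) :
    1 - R0 ≤ vt (η / 2) * (η / 2 + th (η / 2)) / 15 := by
  have hx : 0 < η / 2 := by positivity
  obtain ⟨x, hxdef⟩ : ∃ x, x = η / 2 := ⟨_, rfl⟩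
  rw [← hxdef] at hx ⊢
  have hη2x : η = 2 * x := by rw [hxdef]; ring
  have habs : |η| / 2 = x := by rw [abs_of_pos hη, hxdef]
  have hψ := sq_PsiE hη.ne'
  have hΛ := LamE_eq hη.ne'
  rw [habs] at hψ hΛ
  have hrel : (1 - η * ux) * (1 + η * uy) = Lam x := by
    rw [← hΛ]; unfold LamE
    linear_combination η * hdiff - η ^ 2 * hprod
  have hUx := Ux_pos hx
  have hUy := Uy_pos hx
  have hUx1 := Ux_lt_one hx
  have hUU := Ux_mul_Uy hx
  have hrelU := one_sub_Ux_mul hx
  have g1 : Ux x ≤ η * ux := by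
    by_contra hcc
    push Not at hcc
    have h1 : η * uy < Uy x := by
      by_contra h2
      push Not at h2
      have h3 : (1 - Ux x) * (1 + Uy x) < (1 - η * ux) * (1 + η * uy) :=
        mul_lt_mul (by linarith) (by linarith) (by linarith) (by linarith)
      rw [hrelU, hrel] at h3
      exact lt_irrefl _ h3
    have h4 : (η * ux) * (η * uy) < Ux x * Uy x :=
      mul_lt_mul'' hcc h1 (by positivity) (by positivity)
    rw [hUU, ← hψ] at h4
    have h5 : (η * ux) * (η * uy) = η ^ 2 * (PsiE η + c) := by rw [← hprod]; ring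
    rw [h5] at h4
    have h6 := mul_nonneg (sq_nonneg η) hc
    linarith
  have g3 : η ^ 2 * ((PsiE η - OmE η) / 2) ≤ 2 * x ^ 2 / 15 := by
    have hχle := chiE_le η
    have h1 : η ^ 2 * ((PsiE η - OmE η) / 2) ≤ η ^ 2 * (1 / 30) :=
      mul_le_mul_of_nonneg_left hχle (sq_nonneg η)
    have h2 : η ^ 2 = 4 * x ^ 2 := by rw [hη2x]; ring
    rw [h2] at h1 ⊢
    linarith
  have hth := th_pos hx
  have g4 := two_th_lt hx
  have hvt := vt_mul_th hx
  have h1R : 0 < 1 - R0 := by linarith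
  have g5 : (1 - R0) * (2 * th x) ≤ 2 * x ^ 2 / 15 * (x + th x) := by
    have s1 : (1 - R0) * (2 * th x) ≤ (1 - R0) * (Ux x * (x + th x)) :=
      mul_le_mul_of_nonneg_left g4.le h1R.le
    have s2 : (1 - R0) * Ux x ≤ 2 * x ^ 2 / 15 := by
      have t1 : (1 - R0) * Ux x ≤ (1 - R0) * (η * ux) :=
        mul_le_mul_of_nonneg_left g1 h1R.le
      have t2 : (1 - R0) * (η * ux) ≤ η ^ 2 * ((PsiE η - OmE η) / 2) := by
        have := mul_le_mul_of_nonneg_left h.le hη.le
        calc (1 - R0) * (η * ux) = η * (ux * (1 - R0)) := by ring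
          _ ≤ η * (η * ((PsiE η - OmE η) / 2)) := this
          _ = _ := by ring
      linarith
    have s3 : (1 - R0) * (Ux x * (x + th x)) ≤ 2 * x ^ 2 / 15 * (x + th x) := by
      have : (1 - R0) * (Ux x * (x + th x)) = ((1 - R0) * Ux x) * (x + th x) := by ring
      rw [this]
      exact mul_le_mul_of_nonneg_right s2 (by positivity)
    linarith
  have g6 : 2 * x ^ 2 / 15 * (x + th x) = (vt x * (x + th x) / 15) * (2 * th x) := by
    rw [← hvt]; ring
  rw [g6] at g5
  exact le_of_mul_le_mul_right g5 (by positivity)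

theorem alg_l6 {al0 be0 P D R0 η0 χ0 : ℝ} (hη0 : 0 < η0) (hbe : 0 < be0) (hR : 0 < R0)
    (hD : 0 < D) (hal : al0 = η0 + be0) (hχ : χ0 ≤ 1 / 30)
    (l5 : al0 * be0 / 3 < P * D) (f1 : P * R0 < be0 * (η0 * χ0)) :
    10 * R0 * (1 + be0 / η0) < D := by
  have f1' : P * R0 < be0 * η0 / 30 := by
    have h1 : 0 < be0 * η0 := by positivity
    have h2 : be0 * (η0 * χ0) ≤ be0 * η0 / 30 := by
      have := mul_le_mul_of_nonneg_left hχ h1.le
      linarith
    linarith
  have h1 : al0 * be0 / 3 * R0 < be0 * η0 / 30 * D := by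
    have h2 := mul_lt_mul_of_pos_right l5 hR
    have h3 := mul_lt_mul_of_pos_right f1' hD
    linarith
  rw [hal] at h1
  have h3 : be0 * (10 * R0 * (η0 + be0)) < be0 * (η0 * D) := by linarith
  have h4 := lt_of_mul_lt_mul_left h3 hbe.le
  have h5 : 10 * R0 * (1 + be0 / η0) = 10 * R0 * (η0 + be0) / η0 := by field_simp
  rw [h5, div_lt_iff₀ hη0]
  linarith

theorem alg_l5 {v w a0 b0 a1 b1 p1 dr dA I ψ1 ν0 η1 : ℝ} (hv : 0 < v) (hw : 0 < w)
    (ha0 : 0 < a0) (hb0 : 0 < b0) (ha1 : 0 < a1) (hb1 : 0 < b1) (hη1 : η1 = v * a1 - w * b1)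
    (l1 : p1 * dr = a1 * b1 * ψ1 + dA + a0 * b0 * ν0) (l2 : dA = a1 * I)
    (l3 : dr = b1 + η1 * I) (hψ : 0 < ψ1) (hν : 1 / 3 ≤ ν0) (hI : 1 < w * I) :
    v * a0 * (w * b0) / 3 < (v * p1 - 1) * (w * dr) := by
  have e1 : (v * p1 - 1) * (w * dr) = v * a1 * (w * b1) * ψ1 + w * b1 * (w * I - 1)
      + v * a0 * (w * b0) * ν0 := by
    rw [l2] at l1
    rw [hη1] at l3
    linear_combination v * w * l1 - w * l3
  rw [e1]
  have h1 : 0 < v * a1 * (w * b1) * ψ1 := by positivity
  have h2 : 0 < w * b1 * (w * I - 1) := mul_pos (by positivity) (by linarith)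
  have h3 : v * a0 * (w * b0) / 3 ≤ v * a0 * (w * b0) * ν0 := by
    have hab : 0 < v * a0 * (w * b0) := by positivity
    have := mul_le_mul_of_nonneg_left hν hab.le
    linarith
  linarith

theorem alg_ub {R0 R1 R2 be0 be1 E0 E1 P1 η0 k1 : ℝ} (hE1 : 1 < E1) (hbe1 : 0 < be1)
    (u1 : R1 ≤ (R0 + be0) * E0) (h2 : R2 = R1 * E1 + be1 * k1) (hk : k1 ≤ E1)
    (u3 : be1 ≤ E1 * (P1 - 1)) (f1 : (P1 - 1) * R0 ≤ be0 * η0 / 30) (hR0 : 0 < R0) :
    R2 - R1 ≤ (R0 + be0) * E0 * (E1 - 1) + E1 * E1 * (be0 * η0 / (30 * R0)) := by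
  have u2 : R2 - R1 ≤ R1 * (E1 - 1) + be1 * E1 := by
    rw [h2]
    have := mul_le_mul_of_nonneg_left hk hbe1.le
    linarith
  have h1 : R1 * (E1 - 1) ≤ (R0 + be0) * E0 * (E1 - 1) :=
    mul_le_mul_of_nonneg_right u1 (by linarith)
  have h3 : P1 - 1 ≤ be0 * η0 / (30 * R0) := by
    rw [le_div_iff₀ (by positivity)]
    linarith
  have hE1pos : 0 < E1 := by linarith
  have h4 : be1 * E1 ≤ E1 * E1 * (be0 * η0 / (30 * R0)) := by
    calc be1 * E1 ≤ (E1 * (P1 - 1)) * E1 := mul_le_mul_of_nonneg_right u3 hE1pos.le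
      _ = E1 * E1 * (P1 - 1) := by ring
      _ ≤ E1 * E1 * (be0 * η0 / (30 * R0)) := mul_le_mul_of_nonneg_left h3 (by positivity)
  linarith

namespace NearChain

variable {m : ℕ} {v w : ℝ} {a b p r A B : ℕ → ℝ} (N : NearChain m v w a b p r A B)
include N

/-- (E), multiplied by `a b`. -/
theorem E_eq {i : ℕ} (hi : i < m) :
    a i * r i * (v * p (i + 1) - 1) - b i * p (i + 1) * (w * r i - 1)
      = a i * b i * ((v * a i - w * b i) * ((PsiE (v * a i - w * b i) - OmE (v * a i - w * b i)) / 2))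
      := by
  have h1 := (N.hE i hi).prod
  have h2 := (N.hE i hi).diff
  have ha := N.ha i hi
  have hb := N.hb i hi
  generalize PsiE (v * a i - w * b i) = ψ at h1 h2 ⊢
  generalize OmE (v * a i - w * b i) = ω at h1 h2 ⊢
  generalize (A i + B (i + 1)) / (a i * b i) = c at h1 h2
  set ux := p (i + 1) / a i with hux
  set uy := r i / b i with huy
  have hp : p (i + 1) = a i * ux := by rw [hux]; field_simp
  have hr : r i = b i * uy := by rw [huy]; field_simp
  rw [hp, hr]
  linear_combination (a i * b i * (v * a i - w * b i)) * h1 - (a i * b i) * h2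

/-- positivity of `v`, `w`, and `P_j, R_j > 1` at interior vertices. -/
theorem interior (hm : 2 ≤ m) {i : ℕ} (hi : i + 1 < m) :
    1 < v * p (i + 1) ∧ 1 < w * r (i + 1) := by
  obtain ⟨hp, hr⟩ := N.all_pos hm
  have hpi := N.p_all_pos hp (i + 1) (by omega)
  have hri := N.r_all_pos hr (i + 1) (by omega)
  have hv := N.vertex hi
  constructor
  · by_contra hc; push Not at hc
    nlinarith [hv.2, mul_nonneg hri.le (show 0 ≤ 1 - v * p (i + 1) by linarith)]
  · by_contra hc; push Not at hc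
    nlinarith [hv.1, mul_nonneg hpi.le (show 0 ≤ 1 - w * r (i + 1) by linarith)]

theorem vw_pos (hm : 2 ≤ m) : 0 < v ∧ 0 < w := by
  obtain ⟨hp, hr⟩ := N.all_pos hm
  have h1 := N.interior hm (i := 0) (by omega)
  have hpi := N.p_all_pos hp (0 + 1) (by omega)
  have hri := N.r_all_pos hr (0 + 1) (by omega)
  constructor
  · by_contra hc; push Not at hc; nlinarith [h1.1]
  · by_contra hc; push Not at hc; nlinarith [h1.2]

/-- `κ` is increasing: `η_i ≥ 0 → η_{i+1} > 0`. -/
theorem eta_step (hw : 0 < w) {i : ℕ} (hi : i + 1 < m) (h : 0 ≤ v * a i - w * b i) :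
    0 < v * a (i + 1) - w * b (i + 1) := by
  have ha := N.ha i (by omega)
  have ha' := N.ha (i + 1) hi
  have hs := N.hs i hi
  have h1 : 0 < a i * (v * a (i + 1) - w * b (i + 1)) := by
    nlinarith [mul_le_mul_of_nonneg_right h ha'.le, mul_lt_mul_of_pos_left hs hw]
  exact pos_of_mul_pos_right h1 ha.le

/-- if `η_j > 0` fails at the last edge then the sum is negative. -/
theorem eta_last (hm : 2 ≤ m) (hsum : 0 ≤ ∑ i ∈ Finset.range m, (v * a i - w * b i)) :
    ∀ k, m = k + 1 → 0 < v * a k - w * b k := by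
  intro k hk
  obtain ⟨hv, hw⟩ := N.vw_pos hm
  by_contra hc
  push Not at hc
  -- all earlier η are negative
  have hneg : ∀ i, i < k → v * a i - w * b i < 0 := by
    intro i hi
    by_contra h2
    push Not at h2
    have : ∀ j, i ≤ j → j < k → 0 < v * a (j + 1) - w * b (j + 1) := by
      intro j hj
      induction j, hj using Nat.le_induction with
      | base => intro _; exact N.eta_step hw (by omega) h2
      | succ l hl ih => intro h3; exact N.eta_step hw (by omega) (ih (by omega)).le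
    have h3 := this (k - 1) (by omega) (by omega)
    rw [show k - 1 + 1 = k by omega] at h3
    linarith
  rw [hk, Finset.sum_range_succ] at hsum
  have : ∑ i ∈ Finset.range k, (v * a i - w * b i) < 0 := by
    apply Finset.sum_neg
    · intro i hi; exact hneg i (Finset.mem_range.mp hi)
    · exact ⟨0, Finset.mem_range.mpr (by omega)⟩
  linarith

/-- `P_T > 1`. -/
theorem PT_gt (hm : 2 ≤ m) (hsum : 0 ≤ ∑ i ∈ Finset.range m, (v * a i - w * b i)) :
    1 < v * p m := by
  obtain ⟨k, hk⟩ : ∃ k, m = k + 1 := ⟨m - 1, by omega⟩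
  obtain ⟨l, hl⟩ : ∃ l, k = l + 1 := ⟨k - 1, by omega⟩
  have hη := N.eta_last hm hsum k hk
  have hE := N.E_eq (i := k) (by omega)
  have hR : 1 < w * r k := by
    have := (N.interior hm (i := l) (by omega)).2
    rwa [← hl] at this
  obtain ⟨hp, hr⟩ := N.all_pos hm
  have hpk : 0 < p (k + 1) := by rw [← hk]; exact hp
  have hrk := N.r_all_pos hr k (by omega)
  have ha := N.ha k (by omega)
  have hb := N.hb k (by omega)
  have hχ := OmE_lt_PsiE (v * a k - w * b k)
  rw [hk]
  have h1 : 0 < a k * b k * ((v * a k - w * b k)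
      * ((PsiE (v * a k - w * b k) - OmE (v * a k - w * b k)) / 2)) := by
    have : 0 < (PsiE (v * a k - w * b k) - OmE (v * a k - w * b k)) / 2 := by linarith
    positivity
  have h2 : 0 < b k * p (k + 1) * (w * r k - 1) := by
    have : 0 < w * r k - 1 := by linarith
    positivity
  have h3 : 0 < a k * r k * (v * p (k + 1) - 1) := by linarith
  have h4 := pos_of_mul_pos_right h3 (by positivity)
  linarith

/-- Section 3. -/
theorem RS_alt (hm : 2 ≤ m) (hsum : 0 ≤ ∑ i ∈ Finset.range m, (v * a i - w * b i)) :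
    1 ≤ w * r 0 ∨ 4 < (∑ i ∈ Finset.range m, (v * a i - w * b i)) + v * p m + w * r 0 := by
  obtain ⟨hv, hw⟩ := N.vw_pos hm
  obtain ⟨hp, hr⟩ := N.all_pos hm
  have hPT := N.PT_gt hm hsum
  by_contra hcon
  push Not at hcon
  obtain ⟨hR0, hsum4⟩ := hcon
  have hp1 := N.p_all_pos hp 1 (by omega)
  have hr1 := N.r_all_pos hr 1 (by omega)
  have ha0 := N.ha 0 (by omega)
  have hb0 := N.hb 0 (by omega)
  have ha1 := N.ha 1 (by omega)
  have hb1 := N.hb 1 (by omega)
  obtain ⟨hP1, hR1⟩ := N.interior hm (i := 0) (by omega)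
  simp only [zero_add] at hP1 hR1
  have hE0 := N.E_eq (i := 0) (by omega)
  simp only [zero_add] at hE0
  set η0 := v * a 0 - w * b 0 with hη0
  set χ0 := (PsiE η0 - OmE η0) / 2 with hχ0
  have hχpos : 0 < χ0 := by
    have := OmE_lt_PsiE η0
    rw [hχ0]; linarith
  have hχle : χ0 ≤ 1 / 30 := chiE_le η0
  -- η0 > 0
  have hη0pos : 0 < η0 := by
    by_contra hc
    push Not at hc
    have h1 : a 0 * b 0 * (η0 * χ0) ≤ 0 := by
      have : η0 * χ0 ≤ 0 := mul_nonpos_of_nonpos_of_nonneg hc hχpos.le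
      have hab : 0 < a 0 * b 0 := by positivity
      nlinarith
    have h2 : 0 < a 0 * r 0 * (v * p 1 - 1) := by
      have : 0 < v * p 1 - 1 := by linarith
      positivity
    have h3 : b 0 * p 1 * (w * r 0 - 1) < 0 := by
      have : w * r 0 - 1 < 0 := by linarith
      have : 0 < b 0 * p 1 := by positivity
      nlinarith
    linarith
  have hR0pos : 0 < w * r 0 := by positivity
  have hbe0pos : 0 < w * b 0 := by positivity
  -- (P1 - 1) R0 < be0 η0 χ0
  have f1 : (v * p 1 - 1) * (w * r 0) < w * b 0 * (η0 * χ0) := by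
    have h1 : a 0 * ((v * p 1 - 1) * r 0) = a 0 * (b 0 * (η0 * χ0)) - b 0 * p 1 * (1 - w * r 0) := by
      linear_combination hE0
    have h2 : 0 < b 0 * p 1 * (1 - w * r 0) := by
      have : 0 < 1 - w * r 0 := by linarith
      positivity
    have h3 : a 0 * ((v * p 1 - 1) * r 0) < a 0 * (b 0 * (η0 * χ0)) := by linarith
    have h4 := lt_of_mul_lt_mul_left h3 ha0.le
    have h5 := mul_lt_mul_of_pos_left h4 hw
    have e1 : w * ((v * p 1 - 1) * r 0) = (v * p 1 - 1) * (w * r 0) := by ring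
    have e2 : w * (b 0 * (η0 * χ0)) = w * b 0 * (η0 * χ0) := by ring
    rw [e1, e2] at h5
    exact h5
  -- p1 (1 - R0) < a0 η0 χ0
  have f2 : p 1 * (1 - w * r 0) < a 0 * (η0 * χ0) := by
    have h1 : b 0 * (p 1 * (1 - w * r 0)) = b 0 * (a 0 * (η0 * χ0)) - a 0 * ((v * p 1 - 1) * r 0) := by
      linear_combination hE0
    have h2 : 0 < a 0 * ((v * p 1 - 1) * r 0) := by
      have : 0 < v * p 1 - 1 := by linarith
      positivity
    have h3 : b 0 * (p 1 * (1 - w * r 0)) < b 0 * (a 0 * (η0 * χ0)) := by linarith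
    exact lt_of_mul_lt_mul_left h3 hb0.le
  have hr2 : r 2 = r 1 * Real.exp (v * a 1 - w * b 1) + b 1 * kE (-(v * a 1 - w * b 1)) := by
    have := N.hr 1 (by omega)
    rw [eR_one] at this
    exact this
  have hr1' : r 1 = r 0 * Real.exp η0 + b 0 * kE (-η0) := by
    have := N.hr 0 (by omega)
    rw [eR_one] at this
    exact this
  have hp1' : p 1 = p 2 * Real.exp (-(v * a 1 - w * b 1)) + a 1 * kE (v * a 1 - w * b 1) := by
    have := N.hp 1 (by omega)
    rw [eP_at_zero] at this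
    exact this
  have hη1pos : 0 < v * a 1 - w * b 1 := N.eta_step hw (i := 0) (by omega) hη0pos.le
  have l1 : p 1 * (r 2 - r 1) = a 1 * b 1 * PsiE (v * a 1 - w * b 1) + (A 2 - A 1)
      + a 0 * b 0 * nuE η0 := by
    have h1 := N.phi_right_eq (i := 0) (by omega)
    have h2 := (N.hE 1 (by omega)).cross
    rw [← N.hp 1 (by omega), ← N.hr 1 (by omega), ← N.hA 1 (by omega), ← N.hB 1 (by omega)] at h2
    simp only [zero_add] at h1
    have h3 : p 1 * r 2 = a 1 * b 1 * PsiE (v * a 1 - w * b 1) + A 2 + B 1 := h2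
    linear_combination h3 - h1
  have l2 : A 2 - A 1 = a 1 * ∫ s in (0:ℝ)..1, eR (b 1) (v * a 1 - w * b 1) (r 1) s := by
    have h2 : A 2 = A 1 + a 1 * ∫ s in (0:ℝ)..1, eR (b 1) (v * a 1 - w * b 1) (r 1) s :=
      N.hA 1 (by omega)
    linarith
  have l3 : r 2 - r 1 = b 1 + (v * a 1 - w * b 1)
      * ∫ s in (0:ℝ)..1, eR (b 1) (v * a 1 - w * b 1) (r 1) s := by
    have := eR_diff (b 1) (v * a 1 - w * b 1) (r 1)
    rw [← N.hr 1 (by omega)] at this
    exact this
  have l4 : r 1 ≤ ∫ s in (0:ℝ)..1, eR (b 1) (v * a 1 - w * b 1) (r 1) s := by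
    have h1 : ∫ s in (0:ℝ)..1, r 1 ≤ ∫ s in (0:ℝ)..1, eR (b 1) (v * a 1 - w * b 1) (r 1) s := by
      apply intervalIntegral.integral_mono_on (by norm_num)
      · simp
      · have hc : Continuous fun s => eR (b 1) (v * a 1 - w * b 1) (r 1) s := by
          have : (fun s => eR (b 1) (v * a 1 - w * b 1) (r 1) s)
              = fun s => -(b 1 / (v * a 1 - w * b 1))
                + (r 1 + b 1 / (v * a 1 - w * b 1)) * Real.exp ((v * a 1 - w * b 1) * s) := by
            funext s; exact eR_ne hη1pos.ne' s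
          rw [this]; fun_prop
        exact hc.intervalIntegrable _ _
      · intro s hs
        unfold eR
        have h2 : 1 ≤ Real.exp ((v * a 1 - w * b 1) * s) :=
          Real.one_le_exp (mul_nonneg hη1pos.le hs.1)
        have h3 := kE_pos (-((v * a 1 - w * b 1) * s))
        have h4 : 0 ≤ b 1 * (s * kE (-((v * a 1 - w * b 1) * s))) := by
          have := hs.1
          positivity
        have h5 := mul_le_mul_of_nonneg_left h2 hr1.le
        linarith
    simpa using h1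
  have hP2 : 1 < v * p 2 := by
    rcases Nat.lt_or_ge 2 m with h | h
    · exact (N.interior hm (i := 1) (by omega)).1
    · have : m = 2 := by omega
      rw [this] at hPT; exact hPT
  -- η0 + η1 ≤ 3 - R0
  have hs2 : η0 + (v * a 1 - w * b 1) ≤ 3 - w * r 0 := by
    have h1 : η0 + (v * a 1 - w * b 1) ≤ ∑ i ∈ Finset.range m, (v * a i - w * b i) := by
      have hpos : ∀ i, i < m → 0 < v * a i - w * b i := by
        intro i
        induction i with
        | zero => intro _; exact hη0pos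
        | succ j ih => intro hj; exact N.eta_step hw hj (ih (by omega)).le
      have h2 : ∑ i ∈ Finset.range 2, (v * a i - w * b i)
          ≤ ∑ i ∈ Finset.range m, (v * a i - w * b i) := by
        apply Finset.sum_le_sum_of_subset_of_nonneg
        · exact Finset.range_mono hm
        · intro i hi _; exact (hpos i (Finset.mem_range.mp hi)).le
      rw [Finset.sum_range_succ, Finset.sum_range_succ, Finset.sum_range_zero] at h2
      linarith
    linarith
  have hprod := (N.hE 0 (by omega)).prod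
  have hdiff := (N.hE 0 (by omega)).diff
  simp only [zero_add] at hprod hdiff
  have hc : 0 ≤ (A 0 + B 1) / (a 0 * b 0) := by
    rw [N.hA0]
    have := N.B_nonneg_of hp 1 (by omega)
    positivity
  have g2 : p 1 / a 0 * (1 - w * r 0) < η0 * ((PsiE η0 - OmE η0) / 2) := by
    rw [div_mul_eq_mul_div, div_lt_iff₀ ha0]
    rw [hχ0] at f2
    linarith
  have hRb : 1 - w * r 0 ≤ vt (η0 / 2) * (η0 / 2 + th (η0 / 2)) / 15 :=
    R0_bound hη0pos (by positivity) (by positivity) hc hprod hdiff hR0 g2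
  have hfin := Rfinal hR0pos hR0 hη0pos hη1pos.le hbe0pos hs2 hRb
  clear g2 hc hprod hdiff hRb hs2 hsum hsum4 f2
  generalize hIdef : (∫ s in (0:ℝ)..1, eR (b 1) (v * a 1 - w * b 1) (r 1) s) = I at l2 l3 l4
  have hwI : 1 < w * I := by
    have := mul_le_mul_of_nonneg_left l4 hw.le
    linarith
  have l5 := alg_l5 hv hw ha0 hb0 ha1 hb1 rfl l1 l2 l3 (PsiE_pos _) (nuE_ge hη0pos.le) hwI
  have hDpos : 0 < w * (r 2 - r 1) := by
    have h1 : 0 < v * a 0 * (w * b 0) / 3 := by positivity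
    have h2 : 0 < (v * p 1 - 1) * (w * (r 2 - r 1)) := by linarith
    exact pos_of_mul_pos_right h2 (by linarith)
  have l6 := alg_l6 hη0pos hbe0pos hR0pos hDpos (by rw [hη0]; ring) hχle l5 f1
  -- upper bound
  have hk0 := kE_neg_le_exp hη0pos
  have hk1 := kE_neg_le_exp hη1pos
  have hk1' := exp_neg_le_kE hη1pos
  have hexp1' : 1 < Real.exp (v * a 1 - w * b 1) := Real.one_lt_exp_iff.mpr hη1pos
  have hee1 : Real.exp (-(v * a 1 - w * b 1)) * Real.exp (v * a 1 - w * b 1) = 1 := by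
    rw [← Real.exp_add]; simp
  have hek := eta_kE (v * a 1 - w * b 1)
  have hbe1pos : 0 < w * b 1 := by positivity
  have u1 : w * r 1 ≤ (w * r 0 + w * b 0) * Real.exp η0 := by
    rw [hr1']
    have h1 := mul_le_mul_of_nonneg_left hk0 hbe0pos.le
    linarith
  have u3 : w * b 1 ≤ Real.exp (v * a 1 - w * b 1) * (v * p 1 - 1) := by
    have h2 : v * p 1 - 1 = (v * p 2 - 1) * Real.exp (-(v * a 1 - w * b 1))
        + w * b 1 * kE (v * a 1 - w * b 1) := by
      rw [hp1']
      linear_combination hek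
    have h3 : w * b 1 * Real.exp (-(v * a 1 - w * b 1)) ≤ v * p 1 - 1 := by
      rw [h2]
      have h4 : 0 ≤ (v * p 2 - 1) * Real.exp (-(v * a 1 - w * b 1)) :=
        mul_nonneg (by linarith) (Real.exp_pos _).le
      have h5 := mul_le_mul_of_nonneg_left hk1' hbe1pos.le
      linarith
    have h5 := mul_le_mul_of_nonneg_right h3 (Real.exp_pos (v * a 1 - w * b 1)).le
    rw [mul_assoc, hee1, mul_one] at h5
    linarith
  have f1' : (v * p 1 - 1) * (w * r 0) ≤ w * b 0 * η0 / 30 := by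
    have h1 : 0 < w * b 0 * η0 := by positivity
    have h2 := mul_le_mul_of_nonneg_left hχle h1.le
    linarith
  have hub := alg_ub (R0 := w * r 0) (R1 := w * r 1) (R2 := w * r 2) (be0 := w * b 0)
    (be1 := w * b 1) (E0 := Real.exp η0) (E1 := Real.exp (v * a 1 - w * b 1)) (P1 := v * p 1)
    (η0 := η0) (k1 := kE (-(v * a 1 - w * b 1)))
    hexp1' hbe1pos u1 (by rw [hr2]; ring) hk1 u3 f1' hR0pos
  have hE2 : Real.exp (2 * (v * a 1 - w * b 1))
      = Real.exp (v * a 1 - w * b 1) * Real.exp (v * a 1 - w * b 1) := by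
    rw [← Real.exp_add]; ring_nf
  rw [hE2] at hfin
  linarith

/-- Summary of sections 2 and 3 for `m ≥ 2`. -/
theorem section23 (hm : 2 ≤ m) (hsum : 0 ≤ ∑ i ∈ Finset.range m, (v * a i - w * b i)) :
    0 < v ∧ 0 < w ∧ 0 < p m ∧ 0 < r 0 ∧ 1 < v * p m ∧
    (1 ≤ w * r 0 ∨ 4 < (∑ i ∈ Finset.range m, (v * a i - w * b i)) + v * p m + w * r 0) :=
  ⟨(N.vw_pos hm).1, (N.vw_pos hm).2, (N.all_pos hm).1, (N.all_pos hm).2, N.PT_gt hm hsum,
    N.RS_alt hm hsum⟩

end NearChain

end Pool.Agent.MPb5407d
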