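import Pool.Agent.Work.MP_b5407d_gt.OneVar3

/-!
# MP_b5407d_gt: the edge identities (section 1 of note 1887) (helper13)

One edge, parameter `t ∈ [0,1]`, `x' = a > 0`, `y' = -b < 0`, weight `e(t) = e0 exp(-η t)`.
`eP t = p(t) = F(t)/e(t)` with `F(t) = F(1) + a ∫_t^1 e`, `eR t = r(t) = G(t)/e(t)` with
`G(t) = G(0) + b ∫_0^t e`, `ePhi = p r - A - B`, `A(t) = A0 + a ∫_0^t r`, `B(t) = B1 + b ∫_t^1 p`.
-/

namespace Pool.Agent.MPb5407d

open Real intervalIntegral

noncomputable def eP (a η p1 : ℝ) (t : ℝ) : ℝ :=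
  p1 * Real.exp (-(η * (1 - t))) + a * ((1 - t) * kE (η * (1 - t)))
noncomputable def eR (b η r0 : ℝ) (t : ℝ) : ℝ :=
  r0 * Real.exp (η * t) + b * (t * kE (-(η * t)))
noncomputable def ePhi (a b η p1 r0 A0 B1 : ℝ) (t : ℝ) : ℝ :=
  eP a η p1 t * eR b η r0 t - (A0 + a * ∫ s in (0:ℝ)..t, eR b η r0 s)
    - (B1 + b * ∫ s in t..(1:ℝ), eP a η p1 s)

theorem mul_kE (s η : ℝ) (h : η ≠ 0) : s * kE (η * s) = (1 - Real.exp (-(η * s))) / η := by
  unfold kE
  by_cases hs : s = 0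
  · subst hs; simp
  · have : η * s ≠ 0 := mul_ne_zero h hs
    simp only [this, if_false]
    field_simp

theorem eP_ne {a η p1 : ℝ} (h : η ≠ 0) (t : ℝ) :
    eP a η p1 t = a / η + (p1 - a / η) * Real.exp (-(η * (1 - t))) := by
  unfold eP
  rw [mul_kE _ _ h]; field_simp; ring

theorem eR_ne {b η r0 : ℝ} (h : η ≠ 0) (t : ℝ) :
    eR b η r0 t = -(b / η) + (r0 + b / η) * Real.exp (η * t) := by
  unfold eR
  have h' : -η ≠ 0 := neg_ne_zero.mpr h
  have := mul_kE t (-η) h'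
  rw [show -η * t = -(η * t) by ring] at this
  rw [this, neg_neg]; field_simp; ring

theorem eP_zero (a p1 t : ℝ) : eP a 0 p1 t = p1 + a * (1 - t) := by
  unfold eP kE; simp

theorem eR_zero (b r0 t : ℝ) : eR b 0 r0 t = r0 + b * t := by
  unfold eR kE; simp

theorem eP_one (a η p1 : ℝ) : eP a η p1 1 = p1 := by
  unfold eP; simp

theorem eR_at_zero (b η r0 : ℝ) : eR b η r0 0 = r0 := by
  unfold eR; simp

theorem int_exp_lin (c d κ u v : ℝ) (h : κ ≠ 0) :
    ∫ s in u..v, (c + d * Real.exp (κ * s)) =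
      c * (v - u) + d * (Real.exp (κ * v) - Real.exp (κ * u)) / κ := by
  have hd : ∀ s ∈ Set.uIcc u v, HasDerivAt (fun s : ℝ => c * s + d * Real.exp (κ * s) / κ)
      (c + d * Real.exp (κ * s)) s := by
    intro s _
    have h1 : HasDerivAt (fun s : ℝ => κ * s) κ s := by
      simpa using (hasDerivAt_id s).const_mul κ
    have h2 := (h1.exp.const_mul d).div_const κ
    have h3 : HasDerivAt (fun s : ℝ => c * s) c s := by
      simpa using (hasDerivAt_id s).const_mul c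
    have h4 := h3.fun_add h2
    refine HasDerivAt.congr_deriv h4 ?_
    field_simp
  rw [integral_eq_sub_of_hasDerivAt hd (by
    apply Continuous.intervalIntegrable; fun_prop)]
  ring

theorem int_eR_ne {b η r0 : ℝ} (h : η ≠ 0) (t : ℝ) :
    ∫ s in (0:ℝ)..t, eR b η r0 s = -(b / η) * t + (r0 + b / η) * (Real.exp (η * t) - 1) / η := by
  have : ∀ s, eR b η r0 s = -(b / η) + (r0 + b / η) * Real.exp (η * s) := eR_ne h
  simp_rw [this]
  rw [int_exp_lin _ _ _ _ _ h]; simp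

theorem int_eP_ne {a η p1 : ℝ} (h : η ≠ 0) (t : ℝ) :
    ∫ s in t..(1:ℝ), eP a η p1 s
      = a / η * (1 - t) + (p1 - a / η) * (1 - Real.exp (-(η * (1 - t)))) / η := by
  have e : ∀ s, eP a η p1 s = a / η + ((p1 - a / η) * Real.exp (-η)) * Real.exp (η * s) := by
    intro s
    rw [eP_ne h, mul_assoc, ← Real.exp_add]
    ring_nf
  simp_rw [e]
  rw [int_exp_lin _ _ _ _ _ h]
  have e1 : Real.exp (-η) * Real.exp (η * 1) = 1 := by rw [← Real.exp_add]; simp
  have e2 : Real.exp (-η) * Real.exp (η * t) = Real.exp (-(η * (1 - t))) := by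
    rw [← Real.exp_add]; ring_nf
  rw [← e2]
  simp only [mul_one] at e1 ⊢
  field_simp
  linear_combination (p1 * η - a) * e1

/-- closed form of `φ` on an edge (`η ≠ 0`), `K = ux uy - c`, `L = (1 - η ux)(1 + η uy)`. -/
theorem ePhi_ne {a b η p1 r0 A0 B1 : ℝ} (ha : a ≠ 0) (hb : b ≠ 0) (h : η ≠ 0) (t : ℝ) :
    ePhi a b η p1 r0 A0 B1 t = a * b * ((p1 / a * (r0 / b) - (A0 + B1) / (a * b))
      + ((1 - η * (p1 / a)) * (1 + η * (r0 / b)) * (1 - Real.exp (η * (2 * t - 1)))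
        + η * (2 * t - 1)) / η ^ 2) := by
  unfold ePhi
  rw [eP_ne h, eR_ne h, int_eR_ne h, int_eP_ne h]
  have e1 : Real.exp (η * (2 * t - 1)) = Real.exp (η * t) * Real.exp (-(η * (1 - t))) := by
    rw [← Real.exp_add]; ring_nf
  rw [e1]
  field_simp
  ring

theorem ePhi_zero {a b p1 r0 A0 B1 : ℝ} (ha : a ≠ 0) (hb : b ≠ 0) (t : ℝ) :
    ePhi a b 0 p1 r0 A0 B1 t = a * b * ((p1 / a * (r0 / b) - (A0 + B1) / (a * b))
      + (p1 / a - r0 / b) * (2 * t - 1) - (2 * t - 1) ^ 2 / 2) := by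
  unfold ePhi
  have i1 : ∫ s in (0:ℝ)..t, eR b 0 r0 s = r0 * t + b * t ^ 2 / 2 := by
    simp_rw [eR_zero]
    have : ∀ s ∈ Set.uIcc 0 t, HasDerivAt (fun s : ℝ => r0 * s + b * s ^ 2 / 2)
        (r0 + b * s) s := by
      intro s _
      have h2 := (((hasDerivAt_id' s).fun_pow 2).const_mul b).div_const 2
      have h3 : HasDerivAt (fun s : ℝ => r0 * s) r0 s := by
        simpa using (hasDerivAt_id s).const_mul r0
      refine HasDerivAt.congr_deriv (h3.fun_add h2) ?_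
      push_cast; ring
    rw [integral_eq_sub_of_hasDerivAt this (by apply Continuous.intervalIntegrable; fun_prop)]
    ring
  have i2 : ∫ s in t..(1:ℝ), eP a 0 p1 s = p1 * (1 - t) + a * (1 - t) ^ 2 / 2 := by
    simp_rw [eP_zero]
    have : ∀ s ∈ Set.uIcc t 1, HasDerivAt (fun s : ℝ => p1 * s - a * (1 - s) ^ 2 / 2)
        (p1 + a * (1 - s)) s := by
      intro s _
      have h1 : HasDerivAt (fun s : ℝ => 1 - s) (-1) s := by
        simpa using (hasDerivAt_id s).const_sub 1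
      have h2 := ((h1.fun_pow 2).const_mul a).div_const 2
      have h3 : HasDerivAt (fun s : ℝ => p1 * s) p1 s := by
        simpa using (hasDerivAt_id s).const_mul p1
      refine HasDerivAt.congr_deriv (h3.fun_sub h2) ?_
      push_cast; ring
    rw [integral_eq_sub_of_hasDerivAt this (by apply Continuous.intervalIntegrable; fun_prop)]
    ring
  rw [i1, i2, eP_zero, eR_zero]
  field_simp
  ring

/-- `th` in exponential form. -/
theorem th_exp {η : ℝ} (h : η ≠ 0) :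
    th (|η| / 2) = η / 2 * (1 + Real.exp (-η)) / (1 - Real.exp (-η)) - 1 := by
  have hev : th (|η| / 2) = th (η / 2) := by
    rcases abs_choice η with h1 | h1 <;> rw [h1]
    unfold th
    rw [show -η / 2 = -(η / 2) by ring, Real.cosh_neg, Real.sinh_neg]
    rw [neg_mul, neg_div_neg_eq]
  rw [hev]
  unfold th
  have hE : Real.exp (-η) = Real.exp (-(η / 2)) ^ 2 := by
    rw [← Real.exp_nat_mul]; ring_nf
  have hne : Real.exp (-η) ≠ 1 := by
    intro hh
    have := (Real.exp_eq_one_iff _).mp hh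
    exact h (by linarith)
  have hne2 : 1 - Real.exp (-η) ≠ 0 := sub_ne_zero.mpr (Ne.symm hne)
  have hex := Real.exp_pos (-(η / 2))
  have hi : Real.exp (η / 2) = 1 / Real.exp (-(η / 2)) := by
    rw [Real.exp_neg]; field_simp
  rw [Real.cosh_eq, Real.sinh_eq, hi]
  rw [hE] at hne2 ⊢
  have : (1 / Real.exp (-(η / 2)) - Real.exp (-(η / 2))) / 2
      = (1 - Real.exp (-(η / 2)) ^ 2) / (2 * Real.exp (-(η / 2))) := by field_simp
  rw [this]
  field_simp

theorem PsiE_exp {η : ℝ} (h : η ≠ 0) :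
    PsiE η * (η ^ 2 * (1 - Real.exp (-η)))
      = η * (1 + Real.exp (-η)) - 2 * (1 - Real.exp (-η)) := by
  have h1 := sq_PsiE h
  have hne : Real.exp (-η) ≠ 1 := by
    intro hh
    have := (Real.exp_eq_one_iff _).mp hh
    exact h (by linarith)
  have hne2 : 1 - Real.exp (-η) ≠ 0 := sub_ne_zero.mpr (Ne.symm hne)
  rw [th_exp h] at h1
  have : PsiE η * (η ^ 2 * (1 - Real.exp (-η))) = (η ^ 2 * PsiE η) * (1 - Real.exp (-η)) := by ring
  rw [this, h1]
  field_simp

/-- `Λ ψ = 1/2 - η²ψ²/2 - 2ψ`. -/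
theorem LamE_PsiE (η : ℝ) (h : η ≠ 0) :
    LamE η * PsiE η = 1 / 2 - η ^ 2 * PsiE η ^ 2 / 2 - 2 * PsiE η := by
  have hx := half_abs_pos h
  have h1 := sq_PsiE h
  have h2 := Lam_mul_th hx
  rw [← LamE_eq h] at h2
  have h3 : (|η| / 2) ^ 2 = η ^ 2 / 4 := by rw [div_pow, sq_abs]; norm_num
  have h4 : th (|η| / 2) = η ^ 2 * PsiE η / 2 := by linarith
  rw [h4, h3] at h2
  have h5 : η ^ 2 ≠ 0 := by positivity
  have h6 : η ^ 2 * (LamE η * PsiE η)
      = η ^ 2 * (1 / 2 - η ^ 2 * PsiE η ^ 2 / 2 - 2 * PsiE η) := by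
    linear_combination 2 * h2
  exact mul_left_cancel₀ h5 h6

/-- the two orthogonality relations, solved. -/
theorem orth_ne {K L η : ℝ} (h : η ≠ 0)
    (h1 : ∫ t in (0:ℝ)..1, Real.exp (-(η * t)) *
      (K + (L * (1 - Real.exp (η * (2 * t - 1))) + η * (2 * t - 1)) / η ^ 2) = 0)
    (h2 : ∫ t in (0:ℝ)..1, Real.exp (-(η * t)) * (t *
      (K + (L * (1 - Real.exp (η * (2 * t - 1))) + η * (2 * t - 1)) / η ^ 2)) = 0) :
    K = PsiE η ∧ L = LamE η := by
  have hlin : ∀ κ t : ℝ, HasDerivAt (fun t : ℝ => κ * t) κ t := fun κ t => by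
    simpa using (hasDerivAt_id t).const_mul κ
  have hexp : ∀ t : ℝ, HasDerivAt (fun t : ℝ => Real.exp (-(η * t)))
      (Real.exp (-(η * t)) * (-η)) t := fun t => (hlin η t).fun_neg.exp
  have hexp2 : ∀ t : ℝ, HasDerivAt (fun t : ℝ => Real.exp (η * t - η))
      (Real.exp (η * t - η) * η) t := fun t => ((hlin η t).sub_const η).exp
  have hee : ∀ t : ℝ, Real.exp (-(η * t)) * Real.exp (η * (2 * t - 1)) = Real.exp (η * t - η) := by
    intro t; rw [← Real.exp_add]; ring_nf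
  have hid : ∀ t : ℝ, HasDerivAt (fun t : ℝ => t) 1 t := fun t => hasDerivAt_id t
  -- first integral
  have I1 : ∫ t in (0:ℝ)..1, Real.exp (-(η * t)) *
      (K + (L * (1 - Real.exp (η * (2 * t - 1))) + η * (2 * t - 1)) / η ^ 2)
      = (K * (1 - Real.exp (-η)) * η ^ 2 - (η * (1 + Real.exp (-η)) - 2 * (1 - Real.exp (-η))))
        / η ^ 3 := by
    have hd : ∀ t ∈ Set.uIcc (0:ℝ) 1, HasDerivAt (fun t : ℝ =>
        (K + (L - η) / η ^ 2) * (-(1 / η)) * Real.exp (-(η * t))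
        - L / η ^ 3 * Real.exp (η * t - η)
        + (-(2 / η ^ 2)) * (t * Real.exp (-(η * t))) + (-(2 / η ^ 3)) * Real.exp (-(η * t)))
        (Real.exp (-(η * t)) *
      (K + (L * (1 - Real.exp (η * (2 * t - 1))) + η * (2 * t - 1)) / η ^ 2)) t := by
      intro t _
      have d1 := (hexp t).const_mul ((K + (L - η) / η ^ 2) * (-(1 / η)))
      have d2 := (hexp2 t).const_mul (L / η ^ 3)
      have d3 := ((hid t).fun_mul (hexp t)).const_mul (-(2 / η ^ 2))
      have d4 := (hexp t).const_mul (-(2 / η ^ 3))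
      refine HasDerivAt.congr_deriv (((d1.fun_sub d2).fun_add d3).fun_add d4) ?_
      have e := hee t
      rw [← e]
      field_simp
      ring
    rw [integral_eq_sub_of_hasDerivAt hd (by apply Continuous.intervalIntegrable; fun_prop)]
    have e0 : Real.exp (-(η * 0)) = 1 := by simp
    have e1 : Real.exp (η * 1 - η) = 1 := by simp
    have e2 : Real.exp (η * 0 - η) = Real.exp (-η) := by ring_nf
    have e3 : Real.exp (-(η * 1)) = Real.exp (-η) := by ring_nf
    rw [e0, e1, e2, e3]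
    field_simp
    ring
  have I2 : ∫ t in (0:ℝ)..1, Real.exp (-(η * t)) * (t *
      (K + (L * (1 - Real.exp (η * (2 * t - 1))) + η * (2 * t - 1)) / η ^ 2))
      = ((K + (L - η) / η ^ 2) * (1 - (η + 1) * Real.exp (-η)) / η ^ 2)
        - L / η ^ 4 * (η - 1 + Real.exp (-η))
        + 2 / η ^ 4 * (2 - (η ^ 2 + 2 * η + 2) * Real.exp (-η)) := by
    have hd : ∀ t ∈ Set.uIcc (0:ℝ) 1, HasDerivAt (fun t : ℝ =>
        (K + (L - η) / η ^ 2) * (-(1 / η)) * (t * Real.exp (-(η * t)))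
        + (K + (L - η) / η ^ 2) * (-(1 / η ^ 2)) * Real.exp (-(η * t))
        - L / η ^ 3 * (t * Real.exp (η * t - η)) + L / η ^ 4 * Real.exp (η * t - η)
        + (-(2 / η ^ 2)) * (t ^ 2 * Real.exp (-(η * t)))
        + (-(4 / η ^ 3)) * (t * Real.exp (-(η * t))) + (-(4 / η ^ 4)) * Real.exp (-(η * t)))
        (Real.exp (-(η * t)) * (t *
      (K + (L * (1 - Real.exp (η * (2 * t - 1))) + η * (2 * t - 1)) / η ^ 2))) t := by
      intro t _
      have d1 := ((hid t).fun_mul (hexp t)).const_mul ((K + (L - η) / η ^ 2) * (-(1 / η)))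
      have d2 := (hexp t).const_mul ((K + (L - η) / η ^ 2) * (-(1 / η ^ 2)))
      have d3 := ((hid t).fun_mul (hexp2 t)).const_mul (L / η ^ 3)
      have d4 := (hexp2 t).const_mul (L / η ^ 4)
      have d5 := (((hid t).fun_pow 2).fun_mul (hexp t)).const_mul (-(2 / η ^ 2))
      have d6 := ((hid t).fun_mul (hexp t)).const_mul (-(4 / η ^ 3))
      have d7 := (hexp t).const_mul (-(4 / η ^ 4))
      refine HasDerivAt.congr_deriv
        ((((((d1.fun_add d2).fun_sub d3).fun_add d4).fun_add d5).fun_add d6).fun_add d7) ?_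
      have e := hee t
      rw [← e]
      push_cast
      field_simp
      ring
    rw [integral_eq_sub_of_hasDerivAt hd (by apply Continuous.intervalIntegrable; fun_prop)]
    have e0 : Real.exp (-(η * 0)) = 1 := by simp
    have e1 : Real.exp (η * 1 - η) = 1 := by simp
    have e2 : Real.exp (η * 0 - η) = Real.exp (-η) := by ring_nf
    have e3 : Real.exp (-(η * 1)) = Real.exp (-η) := by ring_nf
    rw [e0, e1, e2, e3]
    field_simp
    ring
  have hne : Real.exp (-η) ≠ 1 := by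
    intro hh
    have := (Real.exp_eq_one_iff _).mp hh
    exact h (by linarith)
  have hne2 : 1 - Real.exp (-η) ≠ 0 := sub_ne_zero.mpr (Ne.symm hne)
  rw [I1] at h1
  rw [I2] at h2
  have hη2 : η ^ 2 ≠ 0 := by positivity
  have hK0 : K * (1 - Real.exp (-η)) * η ^ 2
      = η * (1 + Real.exp (-η)) - 2 * (1 - Real.exp (-η)) := by
    have : η ^ 3 ≠ 0 := pow_ne_zero 3 h
    rw [div_eq_zero_iff] at h1
    rcases h1 with h1 | h1
    · linarith
    · exact absurd h1 this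
  have hψ := PsiE_exp h
  have hK : K = PsiE η := by
    have : (η ^ 2 * (1 - Real.exp (-η))) ≠ 0 := mul_ne_zero hη2 hne2
    apply mul_right_cancel₀ this
    rw [hψ, ← hK0]; ring
  refine ⟨hK, ?_⟩
  have hψpos := PsiE_pos η
  have hLψ := LamE_PsiE η h
  -- L K (1 - Ei) η² = ...
  rw [hK] at h2
  have h3 : L * (PsiE η * (η ^ 2 * (1 - Real.exp (-η))))
      = η ^ 2 * (PsiE η - 1 / η) * (1 - (η + 1) * Real.exp (-η))
        + 2 * (2 - (η ^ 2 + 2 * η + 2) * Real.exp (-η)) := by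
    rw [hψ]
    field_simp at h2 ⊢
    linear_combination (-1) * h2
  have h4 : LamE η * (PsiE η * (η ^ 2 * (1 - Real.exp (-η))))
      = η ^ 2 * (PsiE η - 1 / η) * (1 - (η + 1) * Real.exp (-η))
        + 2 * (2 - (η ^ 2 + 2 * η + 2) * Real.exp (-η)) := by
    have e1 : LamE η * (PsiE η * (η ^ 2 * (1 - Real.exp (-η))))
      = (LamE η * PsiE η) * (η ^ 2 * (1 - Real.exp (-η))) := by ring
    rw [e1, hLψ]
    -- multiply by (1 - Ei)
    apply mul_right_cancel₀ hne2
    have e2 : η ^ 2 * (PsiE η - 1 / η) = η ^ 2 * PsiE η - η := by field_simp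
    rw [e2]
    have hψ' : η ^ 2 * PsiE η * (1 - Real.exp (-η))
      = η * (1 + Real.exp (-η)) - 2 * (1 - Real.exp (-η)) := by rw [← hψ]; ring
    have e3 : (1 / 2 - η ^ 2 * PsiE η ^ 2 / 2 - 2 * PsiE η) * (η ^ 2 * (1 - Real.exp (-η)))
        * (1 - Real.exp (-η))
        = η ^ 2 * (1 - Real.exp (-η)) ^ 2 / 2
          - (η ^ 2 * PsiE η * (1 - Real.exp (-η))) ^ 2 / 2
          - 2 * (1 - Real.exp (-η)) * (η ^ 2 * PsiE η * (1 - Real.exp (-η))) := by ring
    have e4 : ((η ^ 2 * PsiE η - η) * (1 - (η + 1) * Real.exp (-η))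
        + 2 * (2 - (η ^ 2 + 2 * η + 2) * Real.exp (-η))) * (1 - Real.exp (-η))
        = (η ^ 2 * PsiE η * (1 - Real.exp (-η))) * (1 - (η + 1) * Real.exp (-η))
          + (- η * (1 - (η + 1) * Real.exp (-η))
        + 2 * (2 - (η ^ 2 + 2 * η + 2) * Real.exp (-η))) * (1 - Real.exp (-η)) := by ring
    rw [e3, e4, hψ']
    ring
  have hne3 : PsiE η * (η ^ 2 * (1 - Real.exp (-η))) ≠ 0 :=
    mul_ne_zero hψpos.ne' (mul_ne_zero hη2 hne2)
  exact mul_right_cancel₀ hne3 (by rw [h3, h4])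

end Pool.Agent.MPb5407d
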