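import Pool.Agent.Work.MP_b5407d_gt.Edge

/-!
# MP_b5407d_gt: the edge identities, all `η` (section 1 of note 1887) (helper13)
-/

namespace Pool.Agent.MPb5407d

open Real intervalIntegral

theorem eP_at_zero (a η p1 : ℝ) : eP a η p1 0 = p1 * Real.exp (-η) + a * kE η := by
  unfold eP; simp

theorem eR_one (b η r0 : ℝ) : eR b η r0 1 = r0 * Real.exp η + b * kE (-η) := by
  unfold eR; simp

/-- `∫₀¹ p dt = a k2E η + kE η p1`. -/
theorem int_eP_full (a η p1 : ℝ) :
    ∫ s in (0:ℝ)..1, eP a η p1 s = a * k2E η + kE η * p1 := by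
  by_cases h : η = 0
  · subst h
    simp_rw [eP_zero]
    have : ∀ s ∈ Set.uIcc (0:ℝ) 1, HasDerivAt (fun s : ℝ => p1 * s - a * (1 - s) ^ 2 / 2)
        (p1 + a * (1 - s)) s := by
      intro s _
      have h1 : HasDerivAt (fun s : ℝ => 1 - s) (-1) s := by
        simpa using (hasDerivAt_id s).const_sub 1
      have h2 := ((h1.fun_pow 2).const_mul a).div_const 2
      have h3 : HasDerivAt (fun s : ℝ => p1 * s) p1 s := by
        simpa using (hasDerivAt_id s).const_mul p1
      refine HasDerivAt.congr_deriv (h3.fun_sub h2) ?_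
      push_cast; ring
    rw [integral_eq_sub_of_hasDerivAt this (by apply Continuous.intervalIntegrable; fun_prop)]
    have e1 : k2E 0 = 1 / 2 := by simp [k2E]
    have e2 : kE 0 = 1 := by simp [kE]
    rw [e1, e2]; ring
  · rw [int_eP_ne h]
    have e2 : kE η = (1 - Real.exp (-η)) / η := by unfold kE; simp [h]
    have e1 : k2E η = (1 - kE η) / η := by unfold k2E; simp [h]
    rw [e1, e2]
    have : Real.exp (-(η * (1 - 0))) = Real.exp (-η) := by ring_nf
    rw [this]
    field_simp
    ring

theorem int_eR_full (b η r0 : ℝ) :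
    ∫ s in (0:ℝ)..1, eR b η r0 s = b * k2E (-η) + kE (-η) * r0 := by
  have h1 : ∫ s in (0:ℝ)..1, eR b η r0 s = ∫ s in (0:ℝ)..1, eP b (-η) r0 s := by
    have h2 := intervalIntegral.integral_comp_sub_left (a := 0) (b := 1)
      (fun s => eP b (-η) r0 s) (1:ℝ)
    simp only [sub_self, sub_zero] at h2
    rw [← h2]
    congr 1
    funext s
    unfold eP eR
    have : 1 - (1 - s) = s := by ring
    rw [this]
    ring_nf
  rw [h1, int_eP_full]

/-- Everything the two orthogonality relations on an edge give. -/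
structure EdgeConcl (a b η p1 r0 A0 B1 : ℝ) : Prop where
  prod : p1 / a * (r0 / b) = PsiE η + (A0 + B1) / (a * b)
  diff : r0 / b - p1 / a = η * ((PsiE η + OmE η) / 2 + (A0 + B1) / (a * b))
  phi_one : ePhi a b η p1 r0 A0 B1 1 = -(a * b) * nuE η
  phi_zero : ePhi a b η p1 r0 A0 B1 0 = -(a * b) * nuE (-η)
  slope_one : 0 < a * eR b η r0 1 - b * p1 - η * p1 * eR b η r0 1
  slope_zero : a * r0 - b * eP a η p1 0 - η * eP a η p1 0 * r0 < 0
  cross : eP a η p1 0 * eR b η r0 1 = a * b * PsiE η + (A0 + a * ∫ s in (0:ℝ)..1, eR b η r0 s)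
    + (B1 + b * ∫ s in (0:ℝ)..1, eP a η p1 s)

theorem one_sub_LamE_lt {η : ℝ} (h : 0 < η) : 1 - LamE η < η := by
  have h1 := LamE_pos η
  rcases le_or_gt 1 η with h2 | h2
  · linarith
  · have h3 := chiE_le η
    have h4 := OmE_lt_PsiE η
    unfold LamE
    nlinarith [mul_pos h h]

theorem LamE_exp_gt {η : ℝ} (h : 0 < η) : 1 < LamE η * Real.exp η := by
  have h1 := nuE_pos η
  have h2 := one_sub_LamE_lt h
  have h3 := PsiE_pos η
  unfold nuE at h1
  simp only [h.ne', if_false] at h1
  have h4 : 0 < ((Real.exp η - 1) / η * LamE η - 1) / η := by linarith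
  have h5 : 0 < (Real.exp η - 1) / η * LamE η - 1 := by
    by_contra hc
    push Not at hc
    have := div_nonpos_of_nonpos_of_nonneg hc h.le
    linarith
  have h6 : η < (Real.exp η - 1) * LamE η := by
    have : (Real.exp η - 1) / η * LamE η = ((Real.exp η - 1) * LamE η) / η := by ring
    rw [this] at h5
    have h7 : 1 < ((Real.exp η - 1) * LamE η) / η := by linarith
    rwa [lt_div_iff₀ h, one_mul] at h7
  nlinarith

theorem LamE_exp_neg_lt {η : ℝ} (h : 0 < η) : LamE η * Real.exp (-η) < 1 := by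
  have h1 := LamE_pos η
  have h2 := LamE_le_one η
  have h3 := Real.exp_lt_one_iff.mpr (show -η < 0 by linarith)
  have h4 := Real.exp_pos (-η)
  nlinarith

theorem Lam_slope {η : ℝ} (h : η ≠ 0) : 0 < (LamE η * Real.exp η - 1) / η := by
  rcases lt_or_gt_of_ne h with hn | hp
  · have h1 := LamE_exp_neg_lt (show 0 < -η by linarith)
    rw [LamE_neg, neg_neg] at h1
    exact div_pos_of_neg_of_neg (by linarith) hn
  · have h1 := LamE_exp_gt hp
    exact div_pos (by linarith) hp

theorem edge_main {a b η p1 r0 A0 B1 : ℝ} (ha : 0 < a) (hb : 0 < b)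
    (h1 : ∫ t in (0:ℝ)..1, Real.exp (-(η * t)) * ePhi a b η p1 r0 A0 B1 t = 0)
    (h2 : ∫ t in (0:ℝ)..1, Real.exp (-(η * t)) * (t * ePhi a b η p1 r0 A0 B1 t) = 0) :
    EdgeConcl a b η p1 r0 A0 B1 := by
  have hab : a * b ≠ 0 := by positivity
  by_cases h : η = 0
  · subst h
    set K := p1 / a * (r0 / b) - (A0 + B1) / (a * b) with hK
    set D := p1 / a - r0 / b with hD
    have hφ : ∀ t, ePhi a b 0 p1 r0 A0 B1 t
        = a * b * (K + D * (2 * t - 1) - (2 * t - 1) ^ 2 / 2) := by
      intro t; rw [ePhi_zero ha.ne' hb.ne']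
    have hid : ∀ t : ℝ, HasDerivAt (fun t : ℝ => t) 1 t := fun t => hasDerivAt_id t
    have I1 : ∫ t in (0:ℝ)..1, Real.exp (-(0 * t)) * ePhi a b 0 p1 r0 A0 B1 t
        = a * b * (K - 1 / 6) := by
      have hd : ∀ t ∈ Set.uIcc (0:ℝ) 1, HasDerivAt (fun t : ℝ =>
          (a * b * (K - D - 1 / 2)) * t + (a * b * (D + 1)) * t ^ 2 + (a * b * (-2 / 3)) * t ^ 3)
          (Real.exp (-(0 * t)) * ePhi a b 0 p1 r0 A0 B1 t) t := by
        intro t _
        rw [hφ]
        refine HasDerivAt.congr_deriv ((((hid t).const_mul _).fun_add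
          (((hid t).fun_pow 2).const_mul _)).fun_add (((hid t).fun_pow 3).const_mul _)) ?_
        push_cast
        simp only [zero_mul, neg_zero, Real.exp_zero]
        ring
      rw [integral_eq_sub_of_hasDerivAt hd (by
        apply Continuous.intervalIntegrable
        simp_rw [hφ]; fun_prop)]
      ring
    have I2 : ∫ t in (0:ℝ)..1, Real.exp (-(0 * t)) * (t * ePhi a b 0 p1 r0 A0 B1 t)
        = a * b * (K / 2 + D / 6 - 1 / 12) := by
      have hd : ∀ t ∈ Set.uIcc (0:ℝ) 1, HasDerivAt (fun t : ℝ =>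
          (a * b * (K - D - 1 / 2) / 2) * t ^ 2 + (a * b * (2 * (D + 1)) / 3) * t ^ 3
            + (a * b * (-1 / 2)) * t ^ 4)
          (Real.exp (-(0 * t)) * (t * ePhi a b 0 p1 r0 A0 B1 t)) t := by
        intro t _
        rw [hφ]
        refine HasDerivAt.congr_deriv (((((hid t).fun_pow 2).const_mul _).fun_add
          (((hid t).fun_pow 3).const_mul _)).fun_add (((hid t).fun_pow 4).const_mul _)) ?_
        push_cast
        simp only [zero_mul, neg_zero, Real.exp_zero]
        ring
      rw [integral_eq_sub_of_hasDerivAt hd (by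
        apply Continuous.intervalIntegrable
        simp_rw [hφ]; fun_prop)]
      ring
    rw [I1] at h1
    rw [I2] at h2
    have hK6 : K = 1 / 6 := by
      rcases mul_eq_zero.mp h1 with h3 | h3
      · exact absurd h3 hab
      · linarith
    have hD0 : D = 0 := by
      rcases mul_eq_zero.mp h2 with h3 | h3
      · exact absurd h3 hab
      · linarith
    have hψ0 : PsiE 0 = 1 / 6 := by simp [PsiE]
    have hν0 : nuE 0 = 1 / 3 := by simp [nuE]
    have hp : p1 / a = r0 / b := by linarith
    have hpr : b * p1 = a * r0 := by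
      field_simp at hp; linarith
    refine ⟨?_, ?_, ?_, ?_, ?_, ?_, ?_⟩
    · rw [hψ0]; linarith
    · rw [hp]; ring
    · rw [hφ, hK6, hD0, hν0]; ring
    · rw [hφ, hK6, hD0, neg_zero, hν0]; ring
    · rw [eR_zero]
      have : a * (r0 + b * 1) - b * p1 - 0 * p1 * (r0 + b * 1) = a * b := by rw [hpr]; ring
      rw [this]; positivity
    · rw [eP_zero]
      have : a * r0 - b * (p1 + a * (1 - 0)) - 0 * (p1 + a * (1 - 0)) * r0 = -(a * b) := by
        linear_combination (-1) * hpr
      rw [this]
      have : 0 < a * b := by positivity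
      linarith
    · rw [int_eP_full, int_eR_full, eP_zero, eR_zero, hψ0]
      have e1 : k2E (-0) = 1 / 2 := by simp [k2E]
      have e2 : kE (-0) = 1 := by simp [kE]
      have e1' : k2E 0 = 1 / 2 := by simp [k2E]
      have e2' : kE 0 = 1 := by simp [kE]
      rw [e1, e2, e1', e2']
      have hK' : p1 * r0 - (A0 + B1) = a * b / 6 := by
        rw [hK] at hK6
        field_simp at hK6 ⊢
        linarith
      linear_combination hK'
  · set ux := p1 / a with hux
    set uy := r0 / b with huy
    set c := (A0 + B1) / (a * b) with hc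
    have hp1 : p1 = a * ux := by rw [hux]; field_simp
    have hr0 : r0 = b * uy := by rw [huy]; field_simp
    have hφ : ∀ t, ePhi a b η p1 r0 A0 B1 t = a * b * ((ux * uy - c)
      + ((1 - η * ux) * (1 + η * uy) * (1 - Real.exp (η * (2 * t - 1)))
        + η * (2 * t - 1)) / η ^ 2) := fun t => ePhi_ne ha.ne' hb.ne' h t
    have h1' : ∫ t in (0:ℝ)..1, Real.exp (-(η * t)) * ((ux * uy - c)
      + ((1 - η * ux) * (1 + η * uy) * (1 - Real.exp (η * (2 * t - 1)))
        + η * (2 * t - 1)) / η ^ 2) = 0 := by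
      have e : ∀ t : ℝ, Real.exp (-(η * t)) * ePhi a b η p1 r0 A0 B1 t
          = (a * b) * (Real.exp (-(η * t)) * ((ux * uy - c)
      + ((1 - η * ux) * (1 + η * uy) * (1 - Real.exp (η * (2 * t - 1)))
        + η * (2 * t - 1)) / η ^ 2)) := by
        intro t; rw [hφ]; ring
      simp_rw [e] at h1
      rw [intervalIntegral.integral_const_mul] at h1
      exact (mul_eq_zero.mp h1).resolve_left hab
    have h2' : ∫ t in (0:ℝ)..1, Real.exp (-(η * t)) * (t * ((ux * uy - c)
      + ((1 - η * ux) * (1 + η * uy) * (1 - Real.exp (η * (2 * t - 1)))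
        + η * (2 * t - 1)) / η ^ 2)) = 0 := by
      have e : ∀ t : ℝ, Real.exp (-(η * t)) * (t * ePhi a b η p1 r0 A0 B1 t)
          = (a * b) * (Real.exp (-(η * t)) * (t * ((ux * uy - c)
      + ((1 - η * ux) * (1 + η * uy) * (1 - Real.exp (η * (2 * t - 1)))
        + η * (2 * t - 1)) / η ^ 2))) := by
        intro t; rw [hφ]; ring
      simp_rw [e] at h2
      rw [intervalIntegral.integral_const_mul] at h2
      exact (mul_eq_zero.mp h2).resolve_left hab
    obtain ⟨hK, hL⟩ := orth_ne h h1' h2'
    have hprod : ux * uy = PsiE η + c := by linarith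
    have hdiff : uy - ux = η * ((PsiE η + OmE η) / 2 + c) := by
      apply mul_left_cancel₀ h
      have e1 : LamE η = 1 - η ^ 2 * (PsiE η - OmE η) / 2 := rfl
      rw [e1] at hL
      linear_combination hL + η ^ 2 * hprod
    have hr1 : eR b η r0 1 = b * (((1 + η * uy) * Real.exp η - 1) / η) := by
      rw [eR_ne h, hr0, mul_one]; field_simp; ring
    have hp0 : eP a η p1 0 = a * ((1 - (1 - η * ux) * Real.exp (-η)) / η) := by
      rw [eP_ne h, hp1]
      have : Real.exp (-(η * (1 - 0))) = Real.exp (-η) := by ring_nf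
      rw [this]; field_simp; ring
    have hslope := Lam_slope h
    have hslope' : 0 < (1 - LamE η * Real.exp (-η)) / η := by
      have := Lam_slope (neg_ne_zero.mpr h)
      rw [LamE_neg] at this
      have e : (LamE η * Real.exp (-η) - 1) / -η = (1 - LamE η * Real.exp (-η)) / η := by
        rw [div_neg, ← neg_div]; ring
      rwa [e] at this
    refine ⟨hprod, hdiff, ?_, ?_, ?_, ?_, ?_⟩
    · rw [hφ, hK, hL]
      unfold nuE; simp only [h, if_false]
      have : Real.exp (η * (2 * 1 - 1)) = Real.exp η := by ring_nf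
      rw [this]; field_simp; ring
    · rw [hφ, hK, hL]
      unfold nuE
      have h' : -η ≠ 0 := neg_ne_zero.mpr h
      simp only [h', if_false]
      rw [LamE_neg, PsiE_neg]
      have : Real.exp (η * (2 * 0 - 1)) = Real.exp (-η) := by ring_nf
      rw [this]; field_simp; ring
    · have e : a * eR b η r0 1 - b * p1 - η * p1 * eR b η r0 1
          = a * b * ((LamE η * Real.exp η - 1) / η) := by
        rw [hr1, hp1, ← hL]; field_simp; ring
      rw [e]; positivity
    · have e : a * r0 - b * eP a η p1 0 - η * eP a η p1 0 * r0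
          = -(a * b * ((1 - LamE η * Real.exp (-η)) / η)) := by
        rw [hp0, hr0, ← hL]; field_simp; ring
      rw [e]
      have : 0 < a * b * ((1 - LamE η * Real.exp (-η)) / η) := by positivity
      linarith
    · -- cross: combine φ(t) at both ends
      have hψ : PsiE η = ux * uy - c := hK.symm
      rw [hψ, int_eR_ne h, int_eP_ne h, hr1, hp0, hp1, hr0, hc]
      have e1 : Real.exp (-(η * (1 - 0))) = Real.exp (-η) := by ring_nf
      have e2 : Real.exp (η * 1) = Real.exp η := by ring_nf
      have e3 : Real.exp η * Real.exp (-η) = 1 := by rw [← Real.exp_add]; simp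
      rw [e1, e2]
      field_simp
      linear_combination (-(a * b * (1 - η * ux) * (1 + η * uy))) * e3

end Pool.Agent.MPb5407d
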