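import Pool.Agent.Work.MP_b5407d_gt.OneVar0

/-!
# MP_b5407d_gt: one-variable facts (note 1887 section 1) (helper13)

`x > 0`, `η = 2x`.  `th = x coth x - 1`, `vt = x²/th`, `Lam = vt - th - 2`,
`psi = 2 th/η²`, `om = (vt-3)/(2x²)`, `chi = (psi-om)/2`, `om1 = η dom/dη`.
-/

namespace Pool.Agent.MPb5407d

open Real

noncomputable def th (x : ℝ) : ℝ := x * Real.cosh x / Real.sinh x - 1
noncomputable def vt (x : ℝ) : ℝ := x ^ 2 / th x
noncomputable def Lam (x : ℝ) : ℝ := vt x - th x - 2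
noncomputable def psi (x : ℝ) : ℝ := th x / (2 * x ^ 2)
noncomputable def om (x : ℝ) : ℝ := (vt x - 3) / (2 * x ^ 2)
noncomputable def chi (x : ℝ) : ℝ := (psi x - om x) / 2
/-- `om1 x = x * (d om / dx) = η * (d om / dη)`. -/
noncomputable def om1 (x : ℝ) : ℝ := (x ^ 2 - (vt x - 3) * (vt x + 2)) / (2 * x ^ 2)

section basic
variable {x : ℝ} (hx : 0 < x)
include hx

theorem sinh_pos' : 0 < Real.sinh x := Real.sinh_pos_iff.mpr hx

theorem th_mul_sinh : th x * Real.sinh x = x * Real.cosh x - Real.sinh x := by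
  have hs := sinh_pos' hx
  unfold th; field_simp

theorem th_pos : 0 < th x := by
  have hs := sinh_pos' hx
  have h := ch_th x hx
  have h2 := th_mul_sinh hx
  have : 0 < th x * Real.sinh x := by rw [h2]; nlinarith [h]
  exact pos_of_mul_pos_left this hs.le

/-- `x² = s² ((t+1)² - x²)`. -/
theorem sq_rel : x ^ 2 = Real.sinh x ^ 2 * ((th x + 1) ^ 2 - x ^ 2) := by
  have h2 := th_mul_sinh hx
  have hc := Real.cosh_sq x
  have h3 : (th x + 1) * Real.sinh x = x * Real.cosh x := by linarith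
  have h4 : ((th x + 1) * Real.sinh x) ^ 2 = x ^ 2 * (Real.sinh x ^ 2 + 1) := by
    rw [h3, mul_pow, hc]
  nlinarith [h4]

theorem xcs_rel : x * Real.sinh x * Real.cosh x = (th x + 1) * Real.sinh x ^ 2 := by
  have h2 := th_mul_sinh hx
  linear_combination (-Real.sinh x) * h2

/-- `x < th x + 1`. -/
theorem lt_th_add_one : x < th x + 1 := by
  have hs := sinh_pos' hx
  have h2 := th_mul_sinh hx
  have h3 : Real.sinh x < Real.cosh x := Real.sinh_lt_cosh x
  have h4 : x * Real.sinh x < (th x + 1) * Real.sinh x := by nlinarith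
  exact lt_of_mul_lt_mul_right h4 hs.le

/-- `th² + 2 th < x²`. -/
theorem th_upper : th x ^ 2 + 2 * th x < x ^ 2 := by
  have hs := sinh_pos' hx
  have h1 := sq_rel hx
  have h2 : x < Real.sinh x := Real.self_lt_sinh_iff.mpr hx
  have h3 : x ^ 2 < Real.sinh x ^ 2 := by nlinarith
  have h4 : Real.sinh x ^ 2 * ((th x + 1) ^ 2 - x ^ 2) < Real.sinh x ^ 2 * 1 := by
    rw [← h1]; linarith
  have h5 := lt_of_mul_lt_mul_left h4 (by positivity)
  nlinarith

/-- `x² < th² + 3 th`. -/
theorem th_lower : x ^ 2 < th x ^ 2 + 3 * th x := by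
  have hs := sinh_pos' hx
  have h1 := sq_rel hx
  have h0 := xcs_rel hx
  have h := ch_lam (2 * x) (by linarith)
  rw [Real.cosh_two_mul, Real.sinh_two_mul, Real.cosh_sq] at h
  have h6 : 0 < Real.sinh x ^ 2 * (th x ^ 2 + 3 * th x - x ^ 2) := by
    nlinarith [h, h1, h0]
  have h7 := pos_of_mul_pos_right h6 (by positivity)
  linarith

/-- `3 th < x²`. -/
theorem three_th_lt : 3 * th x < x ^ 2 := by
  have hs := sinh_pos' hx
  have h2 := th_mul_sinh hx
  have h := ch_vt x hx
  have h6 : 0 < Real.sinh x * (x ^ 2 - 3 * th x) := by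
    nlinarith [h, h2]
  have h7 := pos_of_mul_pos_right h6 hs.le
  linarith

/-- `5x² < 15 th + x² th`. -/
theorem om_aux : 5 * x ^ 2 < 15 * th x + x ^ 2 * th x := by
  have hs := sinh_pos' hx
  have h2 := th_mul_sinh hx
  have h := ch_om x hx
  have h3 : x ^ 2 * (th x * Real.sinh x) = x ^ 2 * (x * Real.cosh x - Real.sinh x) := by rw [h2]
  have h6 : 0 < Real.sinh x * (15 * th x + x ^ 2 * th x - 5 * x ^ 2) := by
    nlinarith [h, h2, h3]
  have h7 := pos_of_mul_pos_right h6 hs.le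
  linarith

/-- `6 th² < x² (x² - th - th²)`. -/
theorem om1_aux : 6 * th x ^ 2 < x ^ 2 * (x ^ 2 - th x - th x ^ 2) := by
  have hs := sinh_pos' hx
  have h1 := sq_rel hx
  have h0 := xcs_rel hx
  have h := ch_omp (2 * x) (by linarith)
  rw [Real.cosh_two_mul, Real.sinh_two_mul, Real.cosh_sq] at h
  have hA : x ^ 2 * x ^ 2 = x ^ 2 * (Real.sinh x ^ 2 * ((th x + 1) ^ 2 - x ^ 2)) := by
    rw [← h1]
  have hB : x ^ 2 * (x * Real.sinh x * Real.cosh x) = x ^ 2 * ((th x + 1) * Real.sinh x ^ 2) := by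
    rw [h0]
  have h6 : 0 < Real.sinh x ^ 2 * (x ^ 2 * (x ^ 2 - th x - th x ^ 2) - 6 * th x ^ 2) := by
    nlinarith [h, h1, h0, hA, hB]
  have h7 := pos_of_mul_pos_right h6 (by positivity)
  linarith

/-- `15 (th² + 3 th - x²) < 2 x² th`. -/
theorem chi_aux : 15 * (th x ^ 2 + 3 * th x - x ^ 2) < 2 * x ^ 2 * th x := by
  have hs := sinh_pos' hx
  have h1 := sq_rel hx
  have h0 := xcs_rel hx
  have h := ch_chi (2 * x) (by linarith)
  rw [Real.cosh_two_mul, Real.sinh_two_mul, Real.cosh_sq] at h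
  have hB : x ^ 2 * (x * Real.sinh x * Real.cosh x) = x ^ 2 * ((th x + 1) * Real.sinh x ^ 2) := by
    rw [h0]
  have h6 : 0 < Real.sinh x ^ 2 *
      (2 * x ^ 2 * th x - 15 * (th x ^ 2 + 3 * th x - x ^ 2)) := by
    nlinarith [h, h1, h0, hB]
  have h7 := pos_of_mul_pos_right h6 (by positivity)
  linarith

/-- `x (th² + 3 th - x²) < th²`. -/
theorem xD_aux : x * (th x ^ 2 + 3 * th x - x ^ 2) < th x ^ 2 := by
  have hs := sinh_pos' hx
  have h2 := th_mul_sinh hx
  have h := ch_xD (2 * x) (by linarith)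
  have hE : Real.exp (2 * x) = Real.exp x ^ 2 := by
    rw [← Real.exp_nat_mul]; norm_num
  rw [hE] at h
  have he := Real.exp_pos x
  have hsE : Real.sinh x = (Real.exp x ^ 2 - 1) / (2 * Real.exp x) := by
    rw [Real.sinh_eq, Real.exp_neg]; field_simp
  have hcE : Real.cosh x = (Real.exp x ^ 2 + 1) / (2 * Real.exp x) := by
    rw [Real.cosh_eq, Real.exp_neg]; field_simp
  have h4 : (th x * Real.sinh x) ^ 2 - x * ((th x * Real.sinh x) ^ 2
      + 3 * Real.sinh x * (th x * Real.sinh x) - x ^ 2 * Real.sinh x ^ 2)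
      = (2 * (Real.exp x ^ 2) ^ 2 + 4 * x ^ 2 + 8 * x + 2
        - (8 * x ^ 3 - 4 * x ^ 2 + 8 * x + 4) * Real.exp x ^ 2) / (8 * Real.exp x ^ 2) := by
    rw [h2, hsE, hcE]; field_simp; ring
  have h5 : 0 < (th x * Real.sinh x) ^ 2 - x * ((th x * Real.sinh x) ^ 2
      + 3 * Real.sinh x * (th x * Real.sinh x) - x ^ 2 * Real.sinh x ^ 2) := by
    rw [h4]
    apply div_pos _ (by positivity)
    nlinarith [h]
  have h6 : 0 < Real.sinh x ^ 2 * (th x ^ 2 - x * (th x ^ 2 + 3 * th x - x ^ 2)) := by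
    nlinarith [h5]
  have h7 := pos_of_mul_pos_right h6 (by positivity)
  linarith

/-- `x (1+x) (x cosh x - sinh x) < e^x (sinh² x - x²)`. -/
theorem nu_aux : x * (1 + x) * (x * Real.cosh x - Real.sinh x)
    < Real.exp x * (Real.sinh x ^ 2 - x ^ 2) := by
  have h := ch_nu (2 * x) (by linarith)
  have hE : Real.exp (2 * x) = Real.exp x ^ 2 := by
    rw [← Real.exp_nat_mul]; norm_num
  rw [hE] at h
  have he := Real.exp_pos x
  have hsE : Real.sinh x = (Real.exp x ^ 2 - 1) / (2 * Real.exp x) := by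
    rw [Real.sinh_eq, Real.exp_neg]; field_simp
  have hcE : Real.cosh x = (Real.exp x ^ 2 + 1) / (2 * Real.exp x) := by
    rw [Real.cosh_eq, Real.exp_neg]; field_simp
  have h4 : Real.exp x * (Real.sinh x ^ 2 - x ^ 2) - x * (1 + x) * (x * Real.cosh x - Real.sinh x)
      = ((Real.exp x ^ 2) ^ 2 - (2 * x ^ 3 + 4 * x ^ 2 - 2 * x + 2) * Real.exp x ^ 2
        + 1 - 2 * x - 4 * x ^ 2 - 2 * x ^ 3) / (4 * Real.exp x) := by
    rw [hsE, hcE]; field_simp; ring
  have h5 : 0 < Real.exp x * (Real.sinh x ^ 2 - x ^ 2)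
      - x * (1 + x) * (x * Real.cosh x - Real.sinh x) := by
    rw [h4]
    apply div_pos _ (by positivity)
    nlinarith [h]
  linarith

theorem vt_mul_th : vt x * th x = x ^ 2 := by
  have := th_pos hx
  unfold vt; field_simp

theorem vt_gt : 3 < vt x := by
  have h1 := th_pos hx
  have h2 := vt_mul_th hx
  have h3 := three_th_lt hx
  by_contra h
  push Not at h
  nlinarith

theorem vt_lt : vt x < 3 + x ^ 2 / 5 := by
  have h1 := th_pos hx
  have h2 := vt_mul_th hx
  have h3 := om_aux hx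
  by_contra h
  push Not at h
  nlinarith

theorem Lam_mul_th : Lam x * th x = x ^ 2 - th x ^ 2 - 2 * th x := by
  have h2 := vt_mul_th hx
  unfold Lam; nlinarith

theorem Lam_pos : 0 < Lam x := by
  have h1 := th_pos hx
  have h2 := Lam_mul_th hx
  have h3 := th_upper hx
  by_contra h
  push Not at h
  nlinarith

theorem Lam_lt_one : Lam x < 1 := by
  have h1 := th_pos hx
  have h2 := Lam_mul_th hx
  have h3 := th_lower hx
  by_contra h
  push Not at h
  nlinarith

theorem x_mul_one_sub_Lam_lt : x * (1 - Lam x) < th x := by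
  have h1 := th_pos hx
  have h2 := Lam_mul_th hx
  have h3 := xD_aux hx
  by_contra h
  push Not at h
  nlinarith [mul_le_mul_of_nonneg_right h h1.le]

theorem four_sq_chi : 4 * x ^ 2 * chi x = 1 - Lam x := by
  unfold chi psi om Lam; field_simp; ring

theorem two_sq_psi : 2 * x ^ 2 * psi x = th x := by
  unfold psi; field_simp

theorem two_sq_om : 2 * x ^ 2 * om x = vt x - 3 := by
  unfold om; field_simp

theorem two_sq_om1 : 2 * x ^ 2 * om1 x = x ^ 2 - (vt x - 3) * (vt x + 2) := by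
  unfold om1; field_simp

theorem psi_pos : 0 < psi x := by
  have := th_pos hx
  unfold psi; positivity

theorem psi_lt : psi x < 1 / 6 := by
  have h2 := two_sq_psi hx
  have h3 := three_th_lt hx
  have h4 : 0 < x ^ 2 := by positivity
  by_contra h
  push Not at h
  nlinarith

theorem om_pos : 0 < om x := by
  have h2 := two_sq_om hx
  have h3 := vt_gt hx
  have h4 : 0 < x ^ 2 := by positivity
  by_contra h
  push Not at h
  nlinarith

theorem om_lt : om x < 1 / 10 := by
  have h2 := two_sq_om hx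
  have h3 := vt_lt hx
  have h4 : 0 < x ^ 2 := by positivity
  by_contra h
  push Not at h
  nlinarith

theorem chi_pos : 0 < chi x := by
  have h2 := four_sq_chi hx
  have h3 := Lam_lt_one hx
  have h4 : 0 < x ^ 2 := by positivity
  by_contra h
  push Not at h
  nlinarith

theorem chi_lt : chi x < 1 / 30 := by
  have h1 := th_pos hx
  have h2 := four_sq_chi hx
  have h3 := Lam_mul_th hx
  have h4 := chi_aux hx
  have h5 : 0 < x ^ 2 := by positivity
  have h6 : 4 * x ^ 2 * chi x * th x = th x ^ 2 + 3 * th x - x ^ 2 := by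
    rw [h2]; linarith
  by_contra h
  push Not at h
  have h7 : 4 * x ^ 2 * th x * (1 / 30) ≤ 4 * x ^ 2 * th x * chi x :=
    mul_le_mul_of_nonneg_left h (by positivity)
  nlinarith

theorem om_lt_psi : om x < psi x := by
  have := chi_pos hx
  unfold chi at this; linarith

theorem om1_neg : om1 x < 0 := by
  have h1 := th_pos hx
  have h2 := two_sq_om1 hx
  have h3 := vt_mul_th hx
  have h4 := om1_aux hx
  have h5 : 0 < x ^ 2 := by positivity
  have h6 : 0 < th x ^ 2 * ((vt x - 3) * (vt x + 2) - x ^ 2) := by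
    have : th x ^ 2 * ((vt x - 3) * (vt x + 2) - x ^ 2)
        = (vt x * th x) ^ 2 - th x * (vt x * th x) - 6 * th x ^ 2 - x ^ 2 * th x ^ 2 := by ring
    rw [this, h3]; nlinarith
  have h7 := pos_of_mul_pos_right h6 (by positivity)
  by_contra h
  push Not at h
  nlinarith

theorem psi_om_om1_pos : 0 < psi x + om x + om1 x := by
  have h1 := th_pos hx
  have h2 := two_sq_om1 hx
  have h2' := two_sq_om hx
  have h2'' := two_sq_psi hx
  have h3 := vt_mul_th hx
  have h5 : 0 < x ^ 2 := by positivity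
  have hL := Lam_lt_one hx
  have hl := th_lower hx
  have hLt := Lam_mul_th hx
  have h6 : 0 < th x ^ 2 * (th x + 2 * vt x + 3 + x ^ 2 - vt x ^ 2) := by
    have e1 : th x ^ 2 * (th x + 2 * vt x + 3 + x ^ 2 - vt x ^ 2)
        = th x ^ 3 + 2 * th x * (vt x * th x) + 3 * th x ^ 2 + x ^ 2 * th x ^ 2
          - (vt x * th x) ^ 2 := by ring
    have e2 : th x ^ 2 * (th x + 2 * vt x + 3 + x ^ 2 - vt x ^ 2)
        = th x * (th x * (th x + 3) - x ^ 2 * Lam x) := by
      rw [e1, h3]
      linear_combination (x ^ 2) * hLt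
    rw [e2]
    apply mul_pos h1
    nlinarith [mul_lt_mul_of_pos_left hL h5]
  have h7 := pos_of_mul_pos_right h6 (by positivity)
  have h8 : 2 * x ^ 2 * (psi x + om x + om1 x) = th x + 2 * vt x + 3 + x ^ 2 - vt x ^ 2 := by
    nlinarith
  by_contra h
  push Not at h
  nlinarith

end basic

end Pool.Agent.MPb5407d
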