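import Mathlib

/-!
# MP_b5407d_gt: one-variable facts, chains of derivatives (helper13)
-/

namespace Pool.Agent.MPb5407d

/-- if `0 ≤ f 0` and `0 < f'` on `(0,∞)` then `0 < f` on `(0,∞)`. -/
theorem chainPos {f f' : ℝ → ℝ} (hd : ∀ x, HasDerivAt f (f' x) x) (h0 : 0 ≤ f 0)
    (h : ∀ x, 0 < x → 0 < f' x) : ∀ x, 0 < x → 0 < f x := by
  intro x hx
  have hm : StrictMonoOn f (Set.Ici 0) := by
    apply strictMonoOn_of_deriv_pos (convex_Ici 0)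
    · exact fun y _ => (hd y).continuousAt.continuousWithinAt
    · intro y hy
      rw [interior_Ici] at hy
      rw [(hd y).deriv]
      exact h y hy
  have := hm (Set.mem_Ici.mpr le_rfl) (Set.mem_Ici.mpr hx.le) hx
  linarith

theorem ch_th : ∀ y : ℝ, 0 < y → 0 < (1:ℝ) * y^1 * Real.cosh y + (-1:ℝ) * y^0 * Real.sinh y := by
  have h1 : ∀ y : ℝ, 0 < y → 0 < (1:ℝ) * y^1 * Real.sinh y := by
    intro y hy
    have hs : 0 < Real.sinh y := Real.sinh_pos_iff.mpr hy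
    have hc : 0 < Real.cosh y := Real.cosh_pos y
    positivity
  have h0 : ∀ y : ℝ, 0 < y → 0 < (1:ℝ) * y^1 * Real.cosh y + (-1:ℝ) * y^0 * Real.sinh y := by
    refine chainPos (f := fun y : ℝ => (1:ℝ) * y^1 * Real.cosh y + (-1:ℝ) * y^0 * Real.sinh y) (f' := fun y : ℝ => (1:ℝ) * y^1 * Real.sinh y) ?_ ?_ h1
    · intro y
      exact HasDerivAt.congr_deriv ((((hasDerivAt_pow 1 y).const_mul (1:ℝ)).fun_mul (Real.hasDerivAt_cosh y)).fun_add (((hasDerivAt_pow 0 y).const_mul (-1:ℝ)).fun_mul (Real.hasDerivAt_sinh y))) (by push_cast; ring)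
    · norm_num
  exact h0

theorem ch_lam : ∀ y : ℝ, 0 < y → 0 < (4:ℝ) * y^0 * 1 + (1:ℝ) * y^2 * 1 + (-4:ℝ) * y^0 * Real.cosh y + (1:ℝ) * y^1 * Real.sinh y := by
  have h4 : ∀ y : ℝ, 0 < y → 0 < (1:ℝ) * y^1 * Real.sinh y := by
    intro y hy
    have hs : 0 < Real.sinh y := Real.sinh_pos_iff.mpr hy
    have hc : 0 < Real.cosh y := Real.cosh_pos y
    positivity
  have h3 : ∀ y : ℝ, 0 < y → 0 < (1:ℝ) * y^1 * Real.cosh y + (-1:ℝ) * y^0 * Real.sinh y := by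
    refine chainPos (f := fun y : ℝ => (1:ℝ) * y^1 * Real.cosh y + (-1:ℝ) * y^0 * Real.sinh y) (f' := fun y : ℝ => (1:ℝ) * y^1 * Real.sinh y) ?_ ?_ h4
    · intro y
      exact HasDerivAt.congr_deriv ((((hasDerivAt_pow 1 y).const_mul (1:ℝ)).fun_mul (Real.hasDerivAt_cosh y)).fun_add (((hasDerivAt_pow 0 y).const_mul (-1:ℝ)).fun_mul (Real.hasDerivAt_sinh y))) (by push_cast; ring)
    · norm_num
  have h2 : ∀ y : ℝ, 0 < y → 0 < (2:ℝ) * y^0 * 1 + (-2:ℝ) * y^0 * Real.cosh y + (1:ℝ) * y^1 * Real.sinh y := by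
    refine chainPos (f := fun y : ℝ => (2:ℝ) * y^0 * 1 + (-2:ℝ) * y^0 * Real.cosh y + (1:ℝ) * y^1 * Real.sinh y) (f' := fun y : ℝ => (1:ℝ) * y^1 * Real.cosh y + (-1:ℝ) * y^0 * Real.sinh y) ?_ ?_ h3
    · intro y
      exact HasDerivAt.congr_deriv (((((hasDerivAt_pow 0 y).const_mul (2:ℝ)).fun_mul (hasDerivAt_const y (1:ℝ))).fun_add (((hasDerivAt_pow 0 y).const_mul (-2:ℝ)).fun_mul (Real.hasDerivAt_cosh y))).fun_add (((hasDerivAt_pow 1 y).const_mul (1:ℝ)).fun_mul (Real.hasDerivAt_sinh y))) (by push_cast; ring)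
    · norm_num
  have h1 : ∀ y : ℝ, 0 < y → 0 < (2:ℝ) * y^1 * 1 + (1:ℝ) * y^1 * Real.cosh y + (-3:ℝ) * y^0 * Real.sinh y := by
    refine chainPos (f := fun y : ℝ => (2:ℝ) * y^1 * 1 + (1:ℝ) * y^1 * Real.cosh y + (-3:ℝ) * y^0 * Real.sinh y) (f' := fun y : ℝ => (2:ℝ) * y^0 * 1 + (-2:ℝ) * y^0 * Real.cosh y + (1:ℝ) * y^1 * Real.sinh y) ?_ ?_ h2
    · intro y
      exact HasDerivAt.congr_deriv (((((hasDerivAt_pow 1 y).const_mul (2:ℝ)).fun_mul (hasDerivAt_const y (1:ℝ))).fun_add (((hasDerivAt_pow 1 y).const_mul (1:ℝ)).fun_mul (Real.hasDerivAt_cosh y))).fun_add (((hasDerivAt_pow 0 y).const_mul (-3:ℝ)).fun_mul (Real.hasDerivAt_sinh y))) (by push_cast; ring)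
    · norm_num
  have h0 : ∀ y : ℝ, 0 < y → 0 < (4:ℝ) * y^0 * 1 + (1:ℝ) * y^2 * 1 + (-4:ℝ) * y^0 * Real.cosh y + (1:ℝ) * y^1 * Real.sinh y := by
    refine chainPos (f := fun y : ℝ => (4:ℝ) * y^0 * 1 + (1:ℝ) * y^2 * 1 + (-4:ℝ) * y^0 * Real.cosh y + (1:ℝ) * y^1 * Real.sinh y) (f' := fun y : ℝ => (2:ℝ) * y^1 * 1 + (1:ℝ) * y^1 * Real.cosh y + (-3:ℝ) * y^0 * Real.sinh y) ?_ ?_ h1
    · intro y
      exact HasDerivAt.congr_deriv ((((((hasDerivAt_pow 0 y).const_mul (4:ℝ)).fun_mul (hasDerivAt_const y (1:ℝ))).fun_add (((hasDerivAt_pow 2 y).const_mul (1:ℝ)).fun_mul (hasDerivAt_const y (1:ℝ)))).fun_add (((hasDerivAt_pow 0 y).const_mul (-4:ℝ)).fun_mul (Real.hasDerivAt_cosh y))).fun_add (((hasDerivAt_pow 1 y).const_mul (1:ℝ)).fun_mul (Real.hasDerivAt_sinh y))) (by push_cast; ring)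
    · norm_num
  exact h0

theorem ch_vt : ∀ y : ℝ, 0 < y → 0 < (-3:ℝ) * y^1 * Real.cosh y + (3:ℝ) * y^0 * Real.sinh y + (1:ℝ) * y^2 * Real.sinh y := by
  have h3 : ∀ y : ℝ, 0 < y → 0 < (1:ℝ) * y^2 * Real.cosh y + (3:ℝ) * y^1 * Real.sinh y := by
    intro y hy
    have hs : 0 < Real.sinh y := Real.sinh_pos_iff.mpr hy
    have hc : 0 < Real.cosh y := Real.cosh_pos y
    positivity
  have h2 : ∀ y : ℝ, 0 < y → 0 < (1:ℝ) * y^1 * Real.cosh y + (-1:ℝ) * y^0 * Real.sinh y + (1:ℝ) * y^2 * Real.sinh y := by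
    refine chainPos (f := fun y : ℝ => (1:ℝ) * y^1 * Real.cosh y + (-1:ℝ) * y^0 * Real.sinh y + (1:ℝ) * y^2 * Real.sinh y) (f' := fun y : ℝ => (1:ℝ) * y^2 * Real.cosh y + (3:ℝ) * y^1 * Real.sinh y) ?_ ?_ h3
    · intro y
      exact HasDerivAt.congr_deriv (((((hasDerivAt_pow 1 y).const_mul (1:ℝ)).fun_mul (Real.hasDerivAt_cosh y)).fun_add (((hasDerivAt_pow 0 y).const_mul (-1:ℝ)).fun_mul (Real.hasDerivAt_sinh y))).fun_add (((hasDerivAt_pow 2 y).const_mul (1:ℝ)).fun_mul (Real.hasDerivAt_sinh y))) (by push_cast; ring)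
    · norm_num
  have h1 : ∀ y : ℝ, 0 < y → 0 < (1:ℝ) * y^2 * Real.cosh y + (-1:ℝ) * y^1 * Real.sinh y := by
    refine chainPos (f := fun y : ℝ => (1:ℝ) * y^2 * Real.cosh y + (-1:ℝ) * y^1 * Real.sinh y) (f' := fun y : ℝ => (1:ℝ) * y^1 * Real.cosh y + (-1:ℝ) * y^0 * Real.sinh y + (1:ℝ) * y^2 * Real.sinh y) ?_ ?_ h2
    · intro y
      exact HasDerivAt.congr_deriv ((((hasDerivAt_pow 2 y).const_mul (1:ℝ)).fun_mul (Real.hasDerivAt_cosh y)).fun_add (((hasDerivAt_pow 1 y).const_mul (-1:ℝ)).fun_mul (Real.hasDerivAt_sinh y))) (by push_cast; ring)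
    · norm_num
  have h0 : ∀ y : ℝ, 0 < y → 0 < (-3:ℝ) * y^1 * Real.cosh y + (3:ℝ) * y^0 * Real.sinh y + (1:ℝ) * y^2 * Real.sinh y := by
    refine chainPos (f := fun y : ℝ => (-3:ℝ) * y^1 * Real.cosh y + (3:ℝ) * y^0 * Real.sinh y + (1:ℝ) * y^2 * Real.sinh y) (f' := fun y : ℝ => (1:ℝ) * y^2 * Real.cosh y + (-1:ℝ) * y^1 * Real.sinh y) ?_ ?_ h1
    · intro y
      exact HasDerivAt.congr_deriv (((((hasDerivAt_pow 1 y).const_mul (-3:ℝ)).fun_mul (Real.hasDerivAt_cosh y)).fun_add (((hasDerivAt_pow 0 y).const_mul (3:ℝ)).fun_mul (Real.hasDerivAt_sinh y))).fun_add (((hasDerivAt_pow 2 y).const_mul (1:ℝ)).fun_mul (Real.hasDerivAt_sinh y))) (by push_cast; ring)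
    · norm_num
  exact h0

theorem ch_om : ∀ y : ℝ, 0 < y → 0 < (15:ℝ) * y^1 * Real.cosh y + (1:ℝ) * y^3 * Real.cosh y + (-15:ℝ) * y^0 * Real.sinh y + (-6:ℝ) * y^2 * Real.sinh y := by
  have h6 : ∀ y : ℝ, 0 < y → 0 < (33:ℝ) * y^1 * Real.cosh y + (1:ℝ) * y^3 * Real.cosh y + (15:ℝ) * y^0 * Real.sinh y + (12:ℝ) * y^2 * Real.sinh y := by
    intro y hy
    have hs : 0 < Real.sinh y := Real.sinh_pos_iff.mpr hy
    have hc : 0 < Real.cosh y := Real.cosh_pos y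
    positivity
  have h5 : ∀ y : ℝ, 0 < y → 0 < (9:ℝ) * y^2 * Real.cosh y + (15:ℝ) * y^1 * Real.sinh y + (1:ℝ) * y^3 * Real.sinh y := by
    refine chainPos (f := fun y : ℝ => (9:ℝ) * y^2 * Real.cosh y + (15:ℝ) * y^1 * Real.sinh y + (1:ℝ) * y^3 * Real.sinh y) (f' := fun y : ℝ => (33:ℝ) * y^1 * Real.cosh y + (1:ℝ) * y^3 * Real.cosh y + (15:ℝ) * y^0 * Real.sinh y + (12:ℝ) * y^2 * Real.sinh y) ?_ ?_ h6
    · intro y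
      exact HasDerivAt.congr_deriv (((((hasDerivAt_pow 2 y).const_mul (9:ℝ)).fun_mul (Real.hasDerivAt_cosh y)).fun_add (((hasDerivAt_pow 1 y).const_mul (15:ℝ)).fun_mul (Real.hasDerivAt_sinh y))).fun_add (((hasDerivAt_pow 3 y).const_mul (1:ℝ)).fun_mul (Real.hasDerivAt_sinh y))) (by push_cast; ring)
    · norm_num
  have h4 : ∀ y : ℝ, 0 < y → 0 < (3:ℝ) * y^1 * Real.cosh y + (1:ℝ) * y^3 * Real.cosh y + (-3:ℝ) * y^0 * Real.sinh y + (6:ℝ) * y^2 * Real.sinh y := by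
    refine chainPos (f := fun y : ℝ => (3:ℝ) * y^1 * Real.cosh y + (1:ℝ) * y^3 * Real.cosh y + (-3:ℝ) * y^0 * Real.sinh y + (6:ℝ) * y^2 * Real.sinh y) (f' := fun y : ℝ => (9:ℝ) * y^2 * Real.cosh y + (15:ℝ) * y^1 * Real.sinh y + (1:ℝ) * y^3 * Real.sinh y) ?_ ?_ h5
    · intro y
      exact HasDerivAt.congr_deriv ((((((hasDerivAt_pow 1 y).const_mul (3:ℝ)).fun_mul (Real.hasDerivAt_cosh y)).fun_add (((hasDerivAt_pow 3 y).const_mul (1:ℝ)).fun_mul (Real.hasDerivAt_cosh y))).fun_add (((hasDerivAt_pow 0 y).const_mul (-3:ℝ)).fun_mul (Real.hasDerivAt_sinh y))).fun_add (((hasDerivAt_pow 2 y).const_mul (6:ℝ)).fun_mul (Real.hasDerivAt_sinh y))) (by push_cast; ring)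
    · norm_num
  have h3 : ∀ y : ℝ, 0 < y → 0 < (3:ℝ) * y^2 * Real.cosh y + (-3:ℝ) * y^1 * Real.sinh y + (1:ℝ) * y^3 * Real.sinh y := by
    refine chainPos (f := fun y : ℝ => (3:ℝ) * y^2 * Real.cosh y + (-3:ℝ) * y^1 * Real.sinh y + (1:ℝ) * y^3 * Real.sinh y) (f' := fun y : ℝ => (3:ℝ) * y^1 * Real.cosh y + (1:ℝ) * y^3 * Real.cosh y + (-3:ℝ) * y^0 * Real.sinh y + (6:ℝ) * y^2 * Real.sinh y) ?_ ?_ h4
    · intro y
      exact HasDerivAt.congr_deriv (((((hasDerivAt_pow 2 y).const_mul (3:ℝ)).fun_mul (Real.hasDerivAt_cosh y)).fun_add (((hasDerivAt_pow 1 y).const_mul (-3:ℝ)).fun_mul (Real.hasDerivAt_sinh y))).fun_add (((hasDerivAt_pow 3 y).const_mul (1:ℝ)).fun_mul (Real.hasDerivAt_sinh y))) (by push_cast; ring)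
    · norm_num
  have h2 : ∀ y : ℝ, 0 < y → 0 < (-3:ℝ) * y^1 * Real.cosh y + (1:ℝ) * y^3 * Real.cosh y + (3:ℝ) * y^0 * Real.sinh y := by
    refine chainPos (f := fun y : ℝ => (-3:ℝ) * y^1 * Real.cosh y + (1:ℝ) * y^3 * Real.cosh y + (3:ℝ) * y^0 * Real.sinh y) (f' := fun y : ℝ => (3:ℝ) * y^2 * Real.cosh y + (-3:ℝ) * y^1 * Real.sinh y + (1:ℝ) * y^3 * Real.sinh y) ?_ ?_ h3
    · intro y
      exact HasDerivAt.congr_deriv (((((hasDerivAt_pow 1 y).const_mul (-3:ℝ)).fun_mul (Real.hasDerivAt_cosh y)).fun_add (((hasDerivAt_pow 3 y).const_mul (1:ℝ)).fun_mul (Real.hasDerivAt_cosh y))).fun_add (((hasDerivAt_pow 0 y).const_mul (3:ℝ)).fun_mul (Real.hasDerivAt_sinh y))) (by push_cast; ring)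
    · norm_num
  have h1 : ∀ y : ℝ, 0 < y → 0 < (-3:ℝ) * y^2 * Real.cosh y + (3:ℝ) * y^1 * Real.sinh y + (1:ℝ) * y^3 * Real.sinh y := by
    refine chainPos (f := fun y : ℝ => (-3:ℝ) * y^2 * Real.cosh y + (3:ℝ) * y^1 * Real.sinh y + (1:ℝ) * y^3 * Real.sinh y) (f' := fun y : ℝ => (-3:ℝ) * y^1 * Real.cosh y + (1:ℝ) * y^3 * Real.cosh y + (3:ℝ) * y^0 * Real.sinh y) ?_ ?_ h2
    · intro y
      exact HasDerivAt.congr_deriv (((((hasDerivAt_pow 2 y).const_mul (-3:ℝ)).fun_mul (Real.hasDerivAt_cosh y)).fun_add (((hasDerivAt_pow 1 y).const_mul (3:ℝ)).fun_mul (Real.hasDerivAt_sinh y))).fun_add (((hasDerivAt_pow 3 y).const_mul (1:ℝ)).fun_mul (Real.hasDerivAt_sinh y))) (by push_cast; ring)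
    · norm_num
  have h0 : ∀ y : ℝ, 0 < y → 0 < (15:ℝ) * y^1 * Real.cosh y + (1:ℝ) * y^3 * Real.cosh y + (-15:ℝ) * y^0 * Real.sinh y + (-6:ℝ) * y^2 * Real.sinh y := by
    refine chainPos (f := fun y : ℝ => (15:ℝ) * y^1 * Real.cosh y + (1:ℝ) * y^3 * Real.cosh y + (-15:ℝ) * y^0 * Real.sinh y + (-6:ℝ) * y^2 * Real.sinh y) (f' := fun y : ℝ => (-3:ℝ) * y^2 * Real.cosh y + (3:ℝ) * y^1 * Real.sinh y + (1:ℝ) * y^3 * Real.sinh y) ?_ ?_ h1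
    · intro y
      exact HasDerivAt.congr_deriv ((((((hasDerivAt_pow 1 y).const_mul (15:ℝ)).fun_mul (Real.hasDerivAt_cosh y)).fun_add (((hasDerivAt_pow 3 y).const_mul (1:ℝ)).fun_mul (Real.hasDerivAt_cosh y))).fun_add (((hasDerivAt_pow 0 y).const_mul (-15:ℝ)).fun_mul (Real.hasDerivAt_sinh y))).fun_add (((hasDerivAt_pow 2 y).const_mul (-6:ℝ)).fun_mul (Real.hasDerivAt_sinh y))) (by push_cast; ring)
    · norm_num
  exact h0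

theorem ch_omp : ∀ y : ℝ, 0 < y → 0 < (48:ℝ) * y^0 * 1 + (-12:ℝ) * y^2 * 1 + (-1:ℝ) * y^4 * 1 + (-48:ℝ) * y^0 * Real.cosh y + (-12:ℝ) * y^2 * Real.cosh y + (48:ℝ) * y^1 * Real.sinh y + (1:ℝ) * y^3 * Real.sinh y := by
  have h9 : ∀ y : ℝ, 0 < y → 0 < (48:ℝ) * y^1 * Real.cosh y + (1:ℝ) * y^3 * Real.cosh y + (24:ℝ) * y^0 * Real.sinh y + (15:ℝ) * y^2 * Real.sinh y := by
    intro y hy
    have hs : 0 < Real.sinh y := Real.sinh_pos_iff.mpr hy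
    have hc : 0 < Real.cosh y := Real.cosh_pos y
    positivity
  have h8 : ∀ y : ℝ, 0 < y → 0 < (12:ℝ) * y^2 * Real.cosh y + (24:ℝ) * y^1 * Real.sinh y + (1:ℝ) * y^3 * Real.sinh y := by
    refine chainPos (f := fun y : ℝ => (12:ℝ) * y^2 * Real.cosh y + (24:ℝ) * y^1 * Real.sinh y + (1:ℝ) * y^3 * Real.sinh y) (f' := fun y : ℝ => (48:ℝ) * y^1 * Real.cosh y + (1:ℝ) * y^3 * Real.cosh y + (24:ℝ) * y^0 * Real.sinh y + (15:ℝ) * y^2 * Real.sinh y) ?_ ?_ h9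
    · intro y
      exact HasDerivAt.congr_deriv (((((hasDerivAt_pow 2 y).const_mul (12:ℝ)).fun_mul (Real.hasDerivAt_cosh y)).fun_add (((hasDerivAt_pow 1 y).const_mul (24:ℝ)).fun_mul (Real.hasDerivAt_sinh y))).fun_add (((hasDerivAt_pow 3 y).const_mul (1:ℝ)).fun_mul (Real.hasDerivAt_sinh y))) (by push_cast; ring)
    · norm_num
  have h7 : ∀ y : ℝ, 0 < y → 0 < (6:ℝ) * y^1 * Real.cosh y + (1:ℝ) * y^3 * Real.cosh y + (-6:ℝ) * y^0 * Real.sinh y + (9:ℝ) * y^2 * Real.sinh y := by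
    refine chainPos (f := fun y : ℝ => (6:ℝ) * y^1 * Real.cosh y + (1:ℝ) * y^3 * Real.cosh y + (-6:ℝ) * y^0 * Real.sinh y + (9:ℝ) * y^2 * Real.sinh y) (f' := fun y : ℝ => (12:ℝ) * y^2 * Real.cosh y + (24:ℝ) * y^1 * Real.sinh y + (1:ℝ) * y^3 * Real.sinh y) ?_ ?_ h8
    · intro y
      exact HasDerivAt.congr_deriv ((((((hasDerivAt_pow 1 y).const_mul (6:ℝ)).fun_mul (Real.hasDerivAt_cosh y)).fun_add (((hasDerivAt_pow 3 y).const_mul (1:ℝ)).fun_mul (Real.hasDerivAt_cosh y))).fun_add (((hasDerivAt_pow 0 y).const_mul (-6:ℝ)).fun_mul (Real.hasDerivAt_sinh y))).fun_add (((hasDerivAt_pow 2 y).const_mul (9:ℝ)).fun_mul (Real.hasDerivAt_sinh y))) (by push_cast; ring)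
    · norm_num
  have h6 : ∀ y : ℝ, 0 < y → 0 < (6:ℝ) * y^2 * Real.cosh y + (-6:ℝ) * y^1 * Real.sinh y + (1:ℝ) * y^3 * Real.sinh y := by
    refine chainPos (f := fun y : ℝ => (6:ℝ) * y^2 * Real.cosh y + (-6:ℝ) * y^1 * Real.sinh y + (1:ℝ) * y^3 * Real.sinh y) (f' := fun y : ℝ => (6:ℝ) * y^1 * Real.cosh y + (1:ℝ) * y^3 * Real.cosh y + (-6:ℝ) * y^0 * Real.sinh y + (9:ℝ) * y^2 * Real.sinh y) ?_ ?_ h7
    · intro y
      exact HasDerivAt.congr_deriv (((((hasDerivAt_pow 2 y).const_mul (6:ℝ)).fun_mul (Real.hasDerivAt_cosh y)).fun_add (((hasDerivAt_pow 1 y).const_mul (-6:ℝ)).fun_mul (Real.hasDerivAt_sinh y))).fun_add (((hasDerivAt_pow 3 y).const_mul (1:ℝ)).fun_mul (Real.hasDerivAt_sinh y))) (by push_cast; ring)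
    · norm_num
  have h5 : ∀ y : ℝ, 0 < y → 0 < (-12:ℝ) * y^1 * Real.cosh y + (1:ℝ) * y^3 * Real.cosh y + (12:ℝ) * y^0 * Real.sinh y + (3:ℝ) * y^2 * Real.sinh y := by
    refine chainPos (f := fun y : ℝ => (-12:ℝ) * y^1 * Real.cosh y + (1:ℝ) * y^3 * Real.cosh y + (12:ℝ) * y^0 * Real.sinh y + (3:ℝ) * y^2 * Real.sinh y) (f' := fun y : ℝ => (6:ℝ) * y^2 * Real.cosh y + (-6:ℝ) * y^1 * Real.sinh y + (1:ℝ) * y^3 * Real.sinh y) ?_ ?_ h6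
    · intro y
      exact HasDerivAt.congr_deriv ((((((hasDerivAt_pow 1 y).const_mul (-12:ℝ)).fun_mul (Real.hasDerivAt_cosh y)).fun_add (((hasDerivAt_pow 3 y).const_mul (1:ℝ)).fun_mul (Real.hasDerivAt_cosh y))).fun_add (((hasDerivAt_pow 0 y).const_mul (12:ℝ)).fun_mul (Real.hasDerivAt_sinh y))).fun_add (((hasDerivAt_pow 2 y).const_mul (3:ℝ)).fun_mul (Real.hasDerivAt_sinh y))) (by push_cast; ring)
    · norm_num
  have h4 : ∀ y : ℝ, 0 < y → 0 < (-24:ℝ) * y^0 * 1 + (24:ℝ) * y^0 * Real.cosh y + (-12:ℝ) * y^1 * Real.sinh y + (1:ℝ) * y^3 * Real.sinh y := by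
    refine chainPos (f := fun y : ℝ => (-24:ℝ) * y^0 * 1 + (24:ℝ) * y^0 * Real.cosh y + (-12:ℝ) * y^1 * Real.sinh y + (1:ℝ) * y^3 * Real.sinh y) (f' := fun y : ℝ => (-12:ℝ) * y^1 * Real.cosh y + (1:ℝ) * y^3 * Real.cosh y + (12:ℝ) * y^0 * Real.sinh y + (3:ℝ) * y^2 * Real.sinh y) ?_ ?_ h5
    · intro y
      exact HasDerivAt.congr_deriv ((((((hasDerivAt_pow 0 y).const_mul (-24:ℝ)).fun_mul (hasDerivAt_const y (1:ℝ))).fun_add (((hasDerivAt_pow 0 y).const_mul (24:ℝ)).fun_mul (Real.hasDerivAt_cosh y))).fun_add (((hasDerivAt_pow 1 y).const_mul (-12:ℝ)).fun_mul (Real.hasDerivAt_sinh y))).fun_add (((hasDerivAt_pow 3 y).const_mul (1:ℝ)).fun_mul (Real.hasDerivAt_sinh y))) (by push_cast; ring)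
    · norm_num
  have h3 : ∀ y : ℝ, 0 < y → 0 < (-24:ℝ) * y^1 * 1 + (-6:ℝ) * y^1 * Real.cosh y + (1:ℝ) * y^3 * Real.cosh y + (30:ℝ) * y^0 * Real.sinh y + (-3:ℝ) * y^2 * Real.sinh y := by
    refine chainPos (f := fun y : ℝ => (-24:ℝ) * y^1 * 1 + (-6:ℝ) * y^1 * Real.cosh y + (1:ℝ) * y^3 * Real.cosh y + (30:ℝ) * y^0 * Real.sinh y + (-3:ℝ) * y^2 * Real.sinh y) (f' := fun y : ℝ => (-24:ℝ) * y^0 * 1 + (24:ℝ) * y^0 * Real.cosh y + (-12:ℝ) * y^1 * Real.sinh y + (1:ℝ) * y^3 * Real.sinh y) ?_ ?_ h4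
    · intro y
      exact HasDerivAt.congr_deriv (((((((hasDerivAt_pow 1 y).const_mul (-24:ℝ)).fun_mul (hasDerivAt_const y (1:ℝ))).fun_add (((hasDerivAt_pow 1 y).const_mul (-6:ℝ)).fun_mul (Real.hasDerivAt_cosh y))).fun_add (((hasDerivAt_pow 3 y).const_mul (1:ℝ)).fun_mul (Real.hasDerivAt_cosh y))).fun_add (((hasDerivAt_pow 0 y).const_mul (30:ℝ)).fun_mul (Real.hasDerivAt_sinh y))).fun_add (((hasDerivAt_pow 2 y).const_mul (-3:ℝ)).fun_mul (Real.hasDerivAt_sinh y))) (by push_cast; ring)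
    · norm_num
  have h2 : ∀ y : ℝ, 0 < y → 0 < (-24:ℝ) * y^0 * 1 + (-12:ℝ) * y^2 * 1 + (24:ℝ) * y^0 * Real.cosh y + (-6:ℝ) * y^2 * Real.cosh y + (6:ℝ) * y^1 * Real.sinh y + (1:ℝ) * y^3 * Real.sinh y := by
    refine chainPos (f := fun y : ℝ => (-24:ℝ) * y^0 * 1 + (-12:ℝ) * y^2 * 1 + (24:ℝ) * y^0 * Real.cosh y + (-6:ℝ) * y^2 * Real.cosh y + (6:ℝ) * y^1 * Real.sinh y + (1:ℝ) * y^3 * Real.sinh y) (f' := fun y : ℝ => (-24:ℝ) * y^1 * 1 + (-6:ℝ) * y^1 * Real.cosh y + (1:ℝ) * y^3 * Real.cosh y + (30:ℝ) * y^0 * Real.sinh y + (-3:ℝ) * y^2 * Real.sinh y) ?_ ?_ h3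
    · intro y
      exact HasDerivAt.congr_deriv ((((((((hasDerivAt_pow 0 y).const_mul (-24:ℝ)).fun_mul (hasDerivAt_const y (1:ℝ))).fun_add (((hasDerivAt_pow 2 y).const_mul (-12:ℝ)).fun_mul (hasDerivAt_const y (1:ℝ)))).fun_add (((hasDerivAt_pow 0 y).const_mul (24:ℝ)).fun_mul (Real.hasDerivAt_cosh y))).fun_add (((hasDerivAt_pow 2 y).const_mul (-6:ℝ)).fun_mul (Real.hasDerivAt_cosh y))).fun_add (((hasDerivAt_pow 1 y).const_mul (6:ℝ)).fun_mul (Real.hasDerivAt_sinh y))).fun_add (((hasDerivAt_pow 3 y).const_mul (1:ℝ)).fun_mul (Real.hasDerivAt_sinh y))) (by push_cast; ring)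
    · norm_num
  have h1 : ∀ y : ℝ, 0 < y → 0 < (-24:ℝ) * y^1 * 1 + (-4:ℝ) * y^3 * 1 + (24:ℝ) * y^1 * Real.cosh y + (1:ℝ) * y^3 * Real.cosh y + (-9:ℝ) * y^2 * Real.sinh y := by
    refine chainPos (f := fun y : ℝ => (-24:ℝ) * y^1 * 1 + (-4:ℝ) * y^3 * 1 + (24:ℝ) * y^1 * Real.cosh y + (1:ℝ) * y^3 * Real.cosh y + (-9:ℝ) * y^2 * Real.sinh y) (f' := fun y : ℝ => (-24:ℝ) * y^0 * 1 + (-12:ℝ) * y^2 * 1 + (24:ℝ) * y^0 * Real.cosh y + (-6:ℝ) * y^2 * Real.cosh y + (6:ℝ) * y^1 * Real.sinh y + (1:ℝ) * y^3 * Real.sinh y) ?_ ?_ h2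
    · intro y
      exact HasDerivAt.congr_deriv (((((((hasDerivAt_pow 1 y).const_mul (-24:ℝ)).fun_mul (hasDerivAt_const y (1:ℝ))).fun_add (((hasDerivAt_pow 3 y).const_mul (-4:ℝ)).fun_mul (hasDerivAt_const y (1:ℝ)))).fun_add (((hasDerivAt_pow 1 y).const_mul (24:ℝ)).fun_mul (Real.hasDerivAt_cosh y))).fun_add (((hasDerivAt_pow 3 y).const_mul (1:ℝ)).fun_mul (Real.hasDerivAt_cosh y))).fun_add (((hasDerivAt_pow 2 y).const_mul (-9:ℝ)).fun_mul (Real.hasDerivAt_sinh y))) (by push_cast; ring)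
    · norm_num
  have h0 : ∀ y : ℝ, 0 < y → 0 < (48:ℝ) * y^0 * 1 + (-12:ℝ) * y^2 * 1 + (-1:ℝ) * y^4 * 1 + (-48:ℝ) * y^0 * Real.cosh y + (-12:ℝ) * y^2 * Real.cosh y + (48:ℝ) * y^1 * Real.sinh y + (1:ℝ) * y^3 * Real.sinh y := by
    refine chainPos (f := fun y : ℝ => (48:ℝ) * y^0 * 1 + (-12:ℝ) * y^2 * 1 + (-1:ℝ) * y^4 * 1 + (-48:ℝ) * y^0 * Real.cosh y + (-12:ℝ) * y^2 * Real.cosh y + (48:ℝ) * y^1 * Real.sinh y + (1:ℝ) * y^3 * Real.sinh y) (f' := fun y : ℝ => (-24:ℝ) * y^1 * 1 + (-4:ℝ) * y^3 * 1 + (24:ℝ) * y^1 * Real.cosh y + (1:ℝ) * y^3 * Real.cosh y + (-9:ℝ) * y^2 * Real.sinh y) ?_ ?_ h1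
    · intro y
      exact HasDerivAt.congr_deriv (((((((((hasDerivAt_pow 0 y).const_mul (48:ℝ)).fun_mul (hasDerivAt_const y (1:ℝ))).fun_add (((hasDerivAt_pow 2 y).const_mul (-12:ℝ)).fun_mul (hasDerivAt_const y (1:ℝ)))).fun_add (((hasDerivAt_pow 4 y).const_mul (-1:ℝ)).fun_mul (hasDerivAt_const y (1:ℝ)))).fun_add (((hasDerivAt_pow 0 y).const_mul (-48:ℝ)).fun_mul (Real.hasDerivAt_cosh y))).fun_add (((hasDerivAt_pow 2 y).const_mul (-12:ℝ)).fun_mul (Real.hasDerivAt_cosh y))).fun_add (((hasDerivAt_pow 1 y).const_mul (48:ℝ)).fun_mul (Real.hasDerivAt_sinh y))).fun_add (((hasDerivAt_pow 3 y).const_mul (1:ℝ)).fun_mul (Real.hasDerivAt_sinh y))) (by push_cast; ring)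
    · norm_num
  exact h0

theorem ch_chi : ∀ y : ℝ, 0 < y → 0 < (-120:ℝ) * y^0 * 1 + (-28:ℝ) * y^2 * 1 + (120:ℝ) * y^0 * Real.cosh y + (-2:ℝ) * y^2 * Real.cosh y + (-30:ℝ) * y^1 * Real.sinh y + (1:ℝ) * y^3 * Real.sinh y := by
  have h8 : ∀ y : ℝ, 0 < y → 0 < (104:ℝ) * y^0 * Real.cosh y + (22:ℝ) * y^2 * Real.cosh y + (106:ℝ) * y^1 * Real.sinh y + (1:ℝ) * y^3 * Real.sinh y := by
    intro y hy
    have hs : 0 < Real.sinh y := Real.sinh_pos_iff.mpr hy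
    have hc : 0 < Real.cosh y := Real.cosh_pos y
    positivity
  have h7 : ∀ y : ℝ, 0 < y → 0 < (68:ℝ) * y^1 * Real.cosh y + (1:ℝ) * y^3 * Real.cosh y + (36:ℝ) * y^0 * Real.sinh y + (19:ℝ) * y^2 * Real.sinh y := by
    refine chainPos (f := fun y : ℝ => (68:ℝ) * y^1 * Real.cosh y + (1:ℝ) * y^3 * Real.cosh y + (36:ℝ) * y^0 * Real.sinh y + (19:ℝ) * y^2 * Real.sinh y) (f' := fun y : ℝ => (104:ℝ) * y^0 * Real.cosh y + (22:ℝ) * y^2 * Real.cosh y + (106:ℝ) * y^1 * Real.sinh y + (1:ℝ) * y^3 * Real.sinh y) ?_ ?_ h8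
    · intro y
      exact HasDerivAt.congr_deriv ((((((hasDerivAt_pow 1 y).const_mul (68:ℝ)).fun_mul (Real.hasDerivAt_cosh y)).fun_add (((hasDerivAt_pow 3 y).const_mul (1:ℝ)).fun_mul (Real.hasDerivAt_cosh y))).fun_add (((hasDerivAt_pow 0 y).const_mul (36:ℝ)).fun_mul (Real.hasDerivAt_sinh y))).fun_add (((hasDerivAt_pow 2 y).const_mul (19:ℝ)).fun_mul (Real.hasDerivAt_sinh y))) (by push_cast; ring)
    · norm_num
  have h6 : ∀ y : ℝ, 0 < y → 0 < (16:ℝ) * y^2 * Real.cosh y + (36:ℝ) * y^1 * Real.sinh y + (1:ℝ) * y^3 * Real.sinh y := by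
    refine chainPos (f := fun y : ℝ => (16:ℝ) * y^2 * Real.cosh y + (36:ℝ) * y^1 * Real.sinh y + (1:ℝ) * y^3 * Real.sinh y) (f' := fun y : ℝ => (68:ℝ) * y^1 * Real.cosh y + (1:ℝ) * y^3 * Real.cosh y + (36:ℝ) * y^0 * Real.sinh y + (19:ℝ) * y^2 * Real.sinh y) ?_ ?_ h7
    · intro y
      exact HasDerivAt.congr_deriv (((((hasDerivAt_pow 2 y).const_mul (16:ℝ)).fun_mul (Real.hasDerivAt_cosh y)).fun_add (((hasDerivAt_pow 1 y).const_mul (36:ℝ)).fun_mul (Real.hasDerivAt_sinh y))).fun_add (((hasDerivAt_pow 3 y).const_mul (1:ℝ)).fun_mul (Real.hasDerivAt_sinh y))) (by push_cast; ring)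
    · norm_num
  have h5 : ∀ y : ℝ, 0 < y → 0 < (10:ℝ) * y^1 * Real.cosh y + (1:ℝ) * y^3 * Real.cosh y + (-10:ℝ) * y^0 * Real.sinh y + (13:ℝ) * y^2 * Real.sinh y := by
    refine chainPos (f := fun y : ℝ => (10:ℝ) * y^1 * Real.cosh y + (1:ℝ) * y^3 * Real.cosh y + (-10:ℝ) * y^0 * Real.sinh y + (13:ℝ) * y^2 * Real.sinh y) (f' := fun y : ℝ => (16:ℝ) * y^2 * Real.cosh y + (36:ℝ) * y^1 * Real.sinh y + (1:ℝ) * y^3 * Real.sinh y) ?_ ?_ h6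
    · intro y
      exact HasDerivAt.congr_deriv ((((((hasDerivAt_pow 1 y).const_mul (10:ℝ)).fun_mul (Real.hasDerivAt_cosh y)).fun_add (((hasDerivAt_pow 3 y).const_mul (1:ℝ)).fun_mul (Real.hasDerivAt_cosh y))).fun_add (((hasDerivAt_pow 0 y).const_mul (-10:ℝ)).fun_mul (Real.hasDerivAt_sinh y))).fun_add (((hasDerivAt_pow 2 y).const_mul (13:ℝ)).fun_mul (Real.hasDerivAt_sinh y))) (by push_cast; ring)
    · norm_num
  have h4 : ∀ y : ℝ, 0 < y → 0 < (10:ℝ) * y^2 * Real.cosh y + (-10:ℝ) * y^1 * Real.sinh y + (1:ℝ) * y^3 * Real.sinh y := by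
    refine chainPos (f := fun y : ℝ => (10:ℝ) * y^2 * Real.cosh y + (-10:ℝ) * y^1 * Real.sinh y + (1:ℝ) * y^3 * Real.sinh y) (f' := fun y : ℝ => (10:ℝ) * y^1 * Real.cosh y + (1:ℝ) * y^3 * Real.cosh y + (-10:ℝ) * y^0 * Real.sinh y + (13:ℝ) * y^2 * Real.sinh y) ?_ ?_ h5
    · intro y
      exact HasDerivAt.congr_deriv (((((hasDerivAt_pow 2 y).const_mul (10:ℝ)).fun_mul (Real.hasDerivAt_cosh y)).fun_add (((hasDerivAt_pow 1 y).const_mul (-10:ℝ)).fun_mul (Real.hasDerivAt_sinh y))).fun_add (((hasDerivAt_pow 3 y).const_mul (1:ℝ)).fun_mul (Real.hasDerivAt_sinh y))) (by push_cast; ring)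
    · norm_num
  have h3 : ∀ y : ℝ, 0 < y → 0 < (-24:ℝ) * y^1 * Real.cosh y + (1:ℝ) * y^3 * Real.cosh y + (24:ℝ) * y^0 * Real.sinh y + (7:ℝ) * y^2 * Real.sinh y := by
    refine chainPos (f := fun y : ℝ => (-24:ℝ) * y^1 * Real.cosh y + (1:ℝ) * y^3 * Real.cosh y + (24:ℝ) * y^0 * Real.sinh y + (7:ℝ) * y^2 * Real.sinh y) (f' := fun y : ℝ => (10:ℝ) * y^2 * Real.cosh y + (-10:ℝ) * y^1 * Real.sinh y + (1:ℝ) * y^3 * Real.sinh y) ?_ ?_ h4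
    · intro y
      exact HasDerivAt.congr_deriv ((((((hasDerivAt_pow 1 y).const_mul (-24:ℝ)).fun_mul (Real.hasDerivAt_cosh y)).fun_add (((hasDerivAt_pow 3 y).const_mul (1:ℝ)).fun_mul (Real.hasDerivAt_cosh y))).fun_add (((hasDerivAt_pow 0 y).const_mul (24:ℝ)).fun_mul (Real.hasDerivAt_sinh y))).fun_add (((hasDerivAt_pow 2 y).const_mul (7:ℝ)).fun_mul (Real.hasDerivAt_sinh y))) (by push_cast; ring)
    · norm_num
  have h2 : ∀ y : ℝ, 0 < y → 0 < (-56:ℝ) * y^0 * 1 + (56:ℝ) * y^0 * Real.cosh y + (4:ℝ) * y^2 * Real.cosh y + (-32:ℝ) * y^1 * Real.sinh y + (1:ℝ) * y^3 * Real.sinh y := by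
    refine chainPos (f := fun y : ℝ => (-56:ℝ) * y^0 * 1 + (56:ℝ) * y^0 * Real.cosh y + (4:ℝ) * y^2 * Real.cosh y + (-32:ℝ) * y^1 * Real.sinh y + (1:ℝ) * y^3 * Real.sinh y) (f' := fun y : ℝ => (-24:ℝ) * y^1 * Real.cosh y + (1:ℝ) * y^3 * Real.cosh y + (24:ℝ) * y^0 * Real.sinh y + (7:ℝ) * y^2 * Real.sinh y) ?_ ?_ h3
    · intro y
      exact HasDerivAt.congr_deriv (((((((hasDerivAt_pow 0 y).const_mul (-56:ℝ)).fun_mul (hasDerivAt_const y (1:ℝ))).fun_add (((hasDerivAt_pow 0 y).const_mul (56:ℝ)).fun_mul (Real.hasDerivAt_cosh y))).fun_add (((hasDerivAt_pow 2 y).const_mul (4:ℝ)).fun_mul (Real.hasDerivAt_cosh y))).fun_add (((hasDerivAt_pow 1 y).const_mul (-32:ℝ)).fun_mul (Real.hasDerivAt_sinh y))).fun_add (((hasDerivAt_pow 3 y).const_mul (1:ℝ)).fun_mul (Real.hasDerivAt_sinh y))) (by push_cast; ring)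
    · norm_num
  have h1 : ∀ y : ℝ, 0 < y → 0 < (-56:ℝ) * y^1 * 1 + (-34:ℝ) * y^1 * Real.cosh y + (1:ℝ) * y^3 * Real.cosh y + (90:ℝ) * y^0 * Real.sinh y + (1:ℝ) * y^2 * Real.sinh y := by
    refine chainPos (f := fun y : ℝ => (-56:ℝ) * y^1 * 1 + (-34:ℝ) * y^1 * Real.cosh y + (1:ℝ) * y^3 * Real.cosh y + (90:ℝ) * y^0 * Real.sinh y + (1:ℝ) * y^2 * Real.sinh y) (f' := fun y : ℝ => (-56:ℝ) * y^0 * 1 + (56:ℝ) * y^0 * Real.cosh y + (4:ℝ) * y^2 * Real.cosh y + (-32:ℝ) * y^1 * Real.sinh y + (1:ℝ) * y^3 * Real.sinh y) ?_ ?_ h2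
    · intro y
      exact HasDerivAt.congr_deriv (((((((hasDerivAt_pow 1 y).const_mul (-56:ℝ)).fun_mul (hasDerivAt_const y (1:ℝ))).fun_add (((hasDerivAt_pow 1 y).const_mul (-34:ℝ)).fun_mul (Real.hasDerivAt_cosh y))).fun_add (((hasDerivAt_pow 3 y).const_mul (1:ℝ)).fun_mul (Real.hasDerivAt_cosh y))).fun_add (((hasDerivAt_pow 0 y).const_mul (90:ℝ)).fun_mul (Real.hasDerivAt_sinh y))).fun_add (((hasDerivAt_pow 2 y).const_mul (1:ℝ)).fun_mul (Real.hasDerivAt_sinh y))) (by push_cast; ring)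
    · norm_num
  have h0 : ∀ y : ℝ, 0 < y → 0 < (-120:ℝ) * y^0 * 1 + (-28:ℝ) * y^2 * 1 + (120:ℝ) * y^0 * Real.cosh y + (-2:ℝ) * y^2 * Real.cosh y + (-30:ℝ) * y^1 * Real.sinh y + (1:ℝ) * y^3 * Real.sinh y := by
    refine chainPos (f := fun y : ℝ => (-120:ℝ) * y^0 * 1 + (-28:ℝ) * y^2 * 1 + (120:ℝ) * y^0 * Real.cosh y + (-2:ℝ) * y^2 * Real.cosh y + (-30:ℝ) * y^1 * Real.sinh y + (1:ℝ) * y^3 * Real.sinh y) (f' := fun y : ℝ => (-56:ℝ) * y^1 * 1 + (-34:ℝ) * y^1 * Real.cosh y + (1:ℝ) * y^3 * Real.cosh y + (90:ℝ) * y^0 * Real.sinh y + (1:ℝ) * y^2 * Real.sinh y) ?_ ?_ h1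
    · intro y
      exact HasDerivAt.congr_deriv ((((((((hasDerivAt_pow 0 y).const_mul (-120:ℝ)).fun_mul (hasDerivAt_const y (1:ℝ))).fun_add (((hasDerivAt_pow 2 y).const_mul (-28:ℝ)).fun_mul (hasDerivAt_const y (1:ℝ)))).fun_add (((hasDerivAt_pow 0 y).const_mul (120:ℝ)).fun_mul (Real.hasDerivAt_cosh y))).fun_add (((hasDerivAt_pow 2 y).const_mul (-2:ℝ)).fun_mul (Real.hasDerivAt_cosh y))).fun_add (((hasDerivAt_pow 1 y).const_mul (-30:ℝ)).fun_mul (Real.hasDerivAt_sinh y))).fun_add (((hasDerivAt_pow 3 y).const_mul (1:ℝ)).fun_mul (Real.hasDerivAt_sinh y))) (by push_cast; ring)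
    · norm_num
  exact h0

theorem ch_e3 : ∀ y : ℝ, 0 < y → 0 < (-1:ℝ) * y^0 * (Real.exp y)^0 + (-1:ℝ) * y^1 * (Real.exp y)^0 + (-1/2:ℝ) * y^2 * (Real.exp y)^0 + (-1/6:ℝ) * y^3 * (Real.exp y)^0 + (1:ℝ) * y^0 * (Real.exp y)^1 := by
  have h4 : ∀ y : ℝ, 0 < y → 0 < (1:ℝ) * y^0 * (Real.exp y)^1 := by
    intro y hy
    have he := Real.exp_pos y
    positivity
  have h3 : ∀ y : ℝ, 0 < y → 0 < (-1:ℝ) * y^0 * (Real.exp y)^0 + (1:ℝ) * y^0 * (Real.exp y)^1 := by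
    refine chainPos (f := fun y : ℝ => (-1:ℝ) * y^0 * (Real.exp y)^0 + (1:ℝ) * y^0 * (Real.exp y)^1) (f' := fun y : ℝ => (1:ℝ) * y^0 * (Real.exp y)^1) ?_ ?_ h4
    · intro y
      exact HasDerivAt.congr_deriv ((((hasDerivAt_pow 0 y).const_mul (-1:ℝ)).fun_mul ((Real.hasDerivAt_exp y).fun_pow 0)).fun_add (((hasDerivAt_pow 0 y).const_mul (1:ℝ)).fun_mul ((Real.hasDerivAt_exp y).fun_pow 1))) (by push_cast; ring)
    · norm_num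
  have h2 : ∀ y : ℝ, 0 < y → 0 < (-1:ℝ) * y^0 * (Real.exp y)^0 + (-1:ℝ) * y^1 * (Real.exp y)^0 + (1:ℝ) * y^0 * (Real.exp y)^1 := by
    refine chainPos (f := fun y : ℝ => (-1:ℝ) * y^0 * (Real.exp y)^0 + (-1:ℝ) * y^1 * (Real.exp y)^0 + (1:ℝ) * y^0 * (Real.exp y)^1) (f' := fun y : ℝ => (-1:ℝ) * y^0 * (Real.exp y)^0 + (1:ℝ) * y^0 * (Real.exp y)^1) ?_ ?_ h3
    · intro y
      exact HasDerivAt.congr_deriv (((((hasDerivAt_pow 0 y).const_mul (-1:ℝ)).fun_mul ((Real.hasDerivAt_exp y).fun_pow 0)).fun_add (((hasDerivAt_pow 1 y).const_mul (-1:ℝ)).fun_mul ((Real.hasDerivAt_exp y).fun_pow 0))).fun_add (((hasDerivAt_pow 0 y).const_mul (1:ℝ)).fun_mul ((Real.hasDerivAt_exp y).fun_pow 1))) (by push_cast; ring)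
    · norm_num
  have h1 : ∀ y : ℝ, 0 < y → 0 < (-1:ℝ) * y^0 * (Real.exp y)^0 + (-1:ℝ) * y^1 * (Real.exp y)^0 + (-1/2:ℝ) * y^2 * (Real.exp y)^0 + (1:ℝ) * y^0 * (Real.exp y)^1 := by
    refine chainPos (f := fun y : ℝ => (-1:ℝ) * y^0 * (Real.exp y)^0 + (-1:ℝ) * y^1 * (Real.exp y)^0 + (-1/2:ℝ) * y^2 * (Real.exp y)^0 + (1:ℝ) * y^0 * (Real.exp y)^1) (f' := fun y : ℝ => (-1:ℝ) * y^0 * (Real.exp y)^0 + (-1:ℝ) * y^1 * (Real.exp y)^0 + (1:ℝ) * y^0 * (Real.exp y)^1) ?_ ?_ h2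
    · intro y
      exact HasDerivAt.congr_deriv ((((((hasDerivAt_pow 0 y).const_mul (-1:ℝ)).fun_mul ((Real.hasDerivAt_exp y).fun_pow 0)).fun_add (((hasDerivAt_pow 1 y).const_mul (-1:ℝ)).fun_mul ((Real.hasDerivAt_exp y).fun_pow 0))).fun_add (((hasDerivAt_pow 2 y).const_mul (-1/2:ℝ)).fun_mul ((Real.hasDerivAt_exp y).fun_pow 0))).fun_add (((hasDerivAt_pow 0 y).const_mul (1:ℝ)).fun_mul ((Real.hasDerivAt_exp y).fun_pow 1))) (by push_cast; ring)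
    · norm_num
  have h0 : ∀ y : ℝ, 0 < y → 0 < (-1:ℝ) * y^0 * (Real.exp y)^0 + (-1:ℝ) * y^1 * (Real.exp y)^0 + (-1/2:ℝ) * y^2 * (Real.exp y)^0 + (-1/6:ℝ) * y^3 * (Real.exp y)^0 + (1:ℝ) * y^0 * (Real.exp y)^1 := by
    refine chainPos (f := fun y : ℝ => (-1:ℝ) * y^0 * (Real.exp y)^0 + (-1:ℝ) * y^1 * (Real.exp y)^0 + (-1/2:ℝ) * y^2 * (Real.exp y)^0 + (-1/6:ℝ) * y^3 * (Real.exp y)^0 + (1:ℝ) * y^0 * (Real.exp y)^1) (f' := fun y : ℝ => (-1:ℝ) * y^0 * (Real.exp y)^0 + (-1:ℝ) * y^1 * (Real.exp y)^0 + (-1/2:ℝ) * y^2 * (Real.exp y)^0 + (1:ℝ) * y^0 * (Real.exp y)^1) ?_ ?_ h1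
    · intro y
      exact HasDerivAt.congr_deriv (((((((hasDerivAt_pow 0 y).const_mul (-1:ℝ)).fun_mul ((Real.hasDerivAt_exp y).fun_pow 0)).fun_add (((hasDerivAt_pow 1 y).const_mul (-1:ℝ)).fun_mul ((Real.hasDerivAt_exp y).fun_pow 0))).fun_add (((hasDerivAt_pow 2 y).const_mul (-1/2:ℝ)).fun_mul ((Real.hasDerivAt_exp y).fun_pow 0))).fun_add (((hasDerivAt_pow 3 y).const_mul (-1/6:ℝ)).fun_mul ((Real.hasDerivAt_exp y).fun_pow 0))).fun_add (((hasDerivAt_pow 0 y).const_mul (1:ℝ)).fun_mul ((Real.hasDerivAt_exp y).fun_pow 1))) (by push_cast; ring)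
    · norm_num
  exact h0

theorem exp_cubic (y : ℝ) (hy : 0 < y) : 1 + y + y^2/2 + y^3/6 < Real.exp y := by
  have := ch_e3 y hy
  nlinarith [this]

theorem ch_xD : ∀ y : ℝ, 0 < y → 0 < (2:ℝ) * y^0 * (Real.exp y)^0 + (4:ℝ) * y^1 * (Real.exp y)^0 + (1:ℝ) * y^2 * (Real.exp y)^0 + (-4:ℝ) * y^0 * (Real.exp y)^1 + (-4:ℝ) * y^1 * (Real.exp y)^1 + (1:ℝ) * y^2 * (Real.exp y)^1 + (-1:ℝ) * y^3 * (Real.exp y)^1 + (2:ℝ) * y^0 * (Real.exp y)^2 := by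
  have h3 : ∀ y : ℝ, 0 < y → 0 < (-16:ℝ) * y^0 * (Real.exp y)^1 + (-16:ℝ) * y^1 * (Real.exp y)^1 + (-8:ℝ) * y^2 * (Real.exp y)^1 + (-1:ℝ) * y^3 * (Real.exp y)^1 + (16:ℝ) * y^0 * (Real.exp y)^2 := by
    intro y hy
    have he := Real.exp_pos y
    have h3 := exp_cubic y hy
    have h5 : 0 < Real.exp y * (16 * Real.exp y - (y^3 + 8*y^2 + 16*y + 16)) := by
      apply mul_pos he
      nlinarith [pow_pos hy 3, pow_pos hy 2]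
    nlinarith [h5]
  have h2 : ∀ y : ℝ, 0 < y → 0 < (2:ℝ) * y^0 * (Real.exp y)^0 + (-10:ℝ) * y^0 * (Real.exp y)^1 + (-6:ℝ) * y^1 * (Real.exp y)^1 + (-5:ℝ) * y^2 * (Real.exp y)^1 + (-1:ℝ) * y^3 * (Real.exp y)^1 + (8:ℝ) * y^0 * (Real.exp y)^2 := by
    refine chainPos (f := fun y : ℝ => (2:ℝ) * y^0 * (Real.exp y)^0 + (-10:ℝ) * y^0 * (Real.exp y)^1 + (-6:ℝ) * y^1 * (Real.exp y)^1 + (-5:ℝ) * y^2 * (Real.exp y)^1 + (-1:ℝ) * y^3 * (Real.exp y)^1 + (8:ℝ) * y^0 * (Real.exp y)^2) (f' := fun y : ℝ => (-16:ℝ) * y^0 * (Real.exp y)^1 + (-16:ℝ) * y^1 * (Real.exp y)^1 + (-8:ℝ) * y^2 * (Real.exp y)^1 + (-1:ℝ) * y^3 * (Real.exp y)^1 + (16:ℝ) * y^0 * (Real.exp y)^2) ?_ ?_ h3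
    · intro y
      exact HasDerivAt.congr_deriv ((((((((hasDerivAt_pow 0 y).const_mul (2:ℝ)).fun_mul ((Real.hasDerivAt_exp y).fun_pow 0)).fun_add (((hasDerivAt_pow 0 y).const_mul (-10:ℝ)).fun_mul ((Real.hasDerivAt_exp y).fun_pow 1))).fun_add (((hasDerivAt_pow 1 y).const_mul (-6:ℝ)).fun_mul ((Real.hasDerivAt_exp y).fun_pow 1))).fun_add (((hasDerivAt_pow 2 y).const_mul (-5:ℝ)).fun_mul ((Real.hasDerivAt_exp y).fun_pow 1))).fun_add (((hasDerivAt_pow 3 y).const_mul (-1:ℝ)).fun_mul ((Real.hasDerivAt_exp y).fun_pow 1))).fun_add (((hasDerivAt_pow 0 y).const_mul (8:ℝ)).fun_mul ((Real.hasDerivAt_exp y).fun_pow 2))) (by push_cast; ring)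
    · norm_num
  have h1 : ∀ y : ℝ, 0 < y → 0 < (4:ℝ) * y^0 * (Real.exp y)^0 + (2:ℝ) * y^1 * (Real.exp y)^0 + (-8:ℝ) * y^0 * (Real.exp y)^1 + (-2:ℝ) * y^1 * (Real.exp y)^1 + (-2:ℝ) * y^2 * (Real.exp y)^1 + (-1:ℝ) * y^3 * (Real.exp y)^1 + (4:ℝ) * y^0 * (Real.exp y)^2 := by
    refine chainPos (f := fun y : ℝ => (4:ℝ) * y^0 * (Real.exp y)^0 + (2:ℝ) * y^1 * (Real.exp y)^0 + (-8:ℝ) * y^0 * (Real.exp y)^1 + (-2:ℝ) * y^1 * (Real.exp y)^1 + (-2:ℝ) * y^2 * (Real.exp y)^1 + (-1:ℝ) * y^3 * (Real.exp y)^1 + (4:ℝ) * y^0 * (Real.exp y)^2) (f' := fun y : ℝ => (2:ℝ) * y^0 * (Real.exp y)^0 + (-10:ℝ) * y^0 * (Real.exp y)^1 + (-6:ℝ) * y^1 * (Real.exp y)^1 + (-5:ℝ) * y^2 * (Real.exp y)^1 + (-1:ℝ) * y^3 * (Real.exp y)^1 + (8:ℝ) * y^0 * (Real.exp y)^2) ?_ ?_ h2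
    · intro y
      exact HasDerivAt.congr_deriv (((((((((hasDerivAt_pow 0 y).const_mul (4:ℝ)).fun_mul ((Real.hasDerivAt_exp y).fun_pow 0)).fun_add (((hasDerivAt_pow 1 y).const_mul (2:ℝ)).fun_mul ((Real.hasDerivAt_exp y).fun_pow 0))).fun_add (((hasDerivAt_pow 0 y).const_mul (-8:ℝ)).fun_mul ((Real.hasDerivAt_exp y).fun_pow 1))).fun_add (((hasDerivAt_pow 1 y).const_mul (-2:ℝ)).fun_mul ((Real.hasDerivAt_exp y).fun_pow 1))).fun_add (((hasDerivAt_pow 2 y).const_mul (-2:ℝ)).fun_mul ((Real.hasDerivAt_exp y).fun_pow 1))).fun_add (((hasDerivAt_pow 3 y).const_mul (-1:ℝ)).fun_mul ((Real.hasDerivAt_exp y).fun_pow 1))).fun_add (((hasDerivAt_pow 0 y).const_mul (4:ℝ)).fun_mul ((Real.hasDerivAt_exp y).fun_pow 2))) (by push_cast; ring)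
    · norm_num
  have h0 : ∀ y : ℝ, 0 < y → 0 < (2:ℝ) * y^0 * (Real.exp y)^0 + (4:ℝ) * y^1 * (Real.exp y)^0 + (1:ℝ) * y^2 * (Real.exp y)^0 + (-4:ℝ) * y^0 * (Real.exp y)^1 + (-4:ℝ) * y^1 * (Real.exp y)^1 + (1:ℝ) * y^2 * (Real.exp y)^1 + (-1:ℝ) * y^3 * (Real.exp y)^1 + (2:ℝ) * y^0 * (Real.exp y)^2 := by
    refine chainPos (f := fun y : ℝ => (2:ℝ) * y^0 * (Real.exp y)^0 + (4:ℝ) * y^1 * (Real.exp y)^0 + (1:ℝ) * y^2 * (Real.exp y)^0 + (-4:ℝ) * y^0 * (Real.exp y)^1 + (-4:ℝ) * y^1 * (Real.exp y)^1 + (1:ℝ) * y^2 * (Real.exp y)^1 + (-1:ℝ) * y^3 * (Real.exp y)^1 + (2:ℝ) * y^0 * (Real.exp y)^2) (f' := fun y : ℝ => (4:ℝ) * y^0 * (Real.exp y)^0 + (2:ℝ) * y^1 * (Real.exp y)^0 + (-8:ℝ) * y^0 * (Real.exp y)^1 + (-2:ℝ) * y^1 * (Real.exp y)^1 + (-2:ℝ) * y^2 * (Real.exp y)^1 + (-1:ℝ) * y^3 * (Real.exp y)^1 + (4:ℝ) * y^0 * (Real.exp y)^2) ?_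 ?_ h1
    · intro y
      exact HasDerivAt.congr_deriv ((((((((((hasDerivAt_pow 0 y).const_mul (2:ℝ)).fun_mul ((Real.hasDerivAt_exp y).fun_pow 0)).fun_add (((hasDerivAt_pow 1 y).const_mul (4:ℝ)).fun_mul ((Real.hasDerivAt_exp y).fun_pow 0))).fun_add (((hasDerivAt_pow 2 y).const_mul (1:ℝ)).fun_mul ((Real.hasDerivAt_exp y).fun_pow 0))).fun_add (((hasDerivAt_pow 0 y).const_mul (-4:ℝ)).fun_mul ((Real.hasDerivAt_exp y).fun_pow 1))).fun_add (((hasDerivAt_pow 1 y).const_mul (-4:ℝ)).fun_mul ((Real.hasDerivAt_exp y).fun_pow 1))).fun_add (((hasDerivAt_pow 2 y).const_mul (1:ℝ)).fun_mul ((Real.hasDerivAt_exp y).fun_pow 1))).fun_add (((hasDerivAt_pow 3 y).const_mul (-1:ℝ)).fun_mul ((Real.hasDerivAt_exp y).fun_pow 1))).fun_add (((hasDerivAt_pow 0 y).const_mul (2:ℝ)).fun_mul ((Real.hasDerivAt_exp y).fun_pow 2))) (by push_cast; ring)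
    · norm_num
  exact h0

theorem ch_nu : ∀ y : ℝ, 0 < y → 0 < (1:ℝ) * y^0 * (Real.exp y)^0 + (-1:ℝ) * y^1 * (Real.exp y)^0 + (-1:ℝ) * y^2 * (Real.exp y)^0 + (-1/4:ℝ) * y^3 * (Real.exp y)^0 + (-2:ℝ) * y^0 * (Real.exp y)^1 + (1:ℝ) * y^1 * (Real.exp y)^1 + (-1:ℝ) * y^2 * (Real.exp y)^1 + (-1/4:ℝ) * y^3 * (Real.exp y)^1 + (1:ℝ) * y^0 * (Real.exp y)^2 := by
  have h4 : ∀ y : ℝ, 0 < y → 0 < (-16:ℝ) * y^0 * (Real.exp y)^1 + (-16:ℝ) * y^1 * (Real.exp y)^1 + (-4:ℝ) * y^2 * (Real.exp y)^1 + (-1/4:ℝ) * y^3 * (Real.exp y)^1 + (16:ℝ) * y^0 * (Real.exp y)^2 := by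
    intro y hy
    have he := Real.exp_pos y
    have h3 := exp_cubic y hy
    have h5 : 0 < Real.exp y * (16 * Real.exp y - (y^3/4 + 4*y^2 + 16*y + 16)) := by
      apply mul_pos he
      nlinarith [pow_pos hy 3, pow_pos hy 2]
    nlinarith [h5]
  have h3 : ∀ y : ℝ, 0 < y → 0 < (-3/2:ℝ) * y^0 * (Real.exp y)^0 + (-13/2:ℝ) * y^0 * (Real.exp y)^1 + (-19/2:ℝ) * y^1 * (Real.exp y)^1 + (-13/4:ℝ) * y^2 * (Real.exp y)^1 + (-1/4:ℝ) * y^3 * (Real.exp y)^1 + (8:ℝ) * y^0 * (Real.exp y)^2 := by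
    refine chainPos (f := fun y : ℝ => (-3/2:ℝ) * y^0 * (Real.exp y)^0 + (-13/2:ℝ) * y^0 * (Real.exp y)^1 + (-19/2:ℝ) * y^1 * (Real.exp y)^1 + (-13/4:ℝ) * y^2 * (Real.exp y)^1 + (-1/4:ℝ) * y^3 * (Real.exp y)^1 + (8:ℝ) * y^0 * (Real.exp y)^2) (f' := fun y : ℝ => (-16:ℝ) * y^0 * (Real.exp y)^1 + (-16:ℝ) * y^1 * (Real.exp y)^1 + (-4:ℝ) * y^2 * (Real.exp y)^1 + (-1/4:ℝ) * y^3 * (Real.exp y)^1 + (16:ℝ) * y^0 * (Real.exp y)^2) ?_ ?_ h4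
    · intro y
      exact HasDerivAt.congr_deriv ((((((((hasDerivAt_pow 0 y).const_mul (-3/2:ℝ)).fun_mul ((Real.hasDerivAt_exp y).fun_pow 0)).fun_add (((hasDerivAt_pow 0 y).const_mul (-13/2:ℝ)).fun_mul ((Real.hasDerivAt_exp y).fun_pow 1))).fun_add (((hasDerivAt_pow 1 y).const_mul (-19/2:ℝ)).fun_mul ((Real.hasDerivAt_exp y).fun_pow 1))).fun_add (((hasDerivAt_pow 2 y).const_mul (-13/4:ℝ)).fun_mul ((Real.hasDerivAt_exp y).fun_pow 1))).fun_add (((hasDerivAt_pow 3 y).const_mul (-1/4:ℝ)).fun_mul ((Real.hasDerivAt_exp y).fun_pow 1))).fun_add (((hasDerivAt_pow 0 y).const_mul (8:ℝ)).fun_mul ((Real.hasDerivAt_exp y).fun_pow 2))) (by push_cast; ring)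
    · norm_num
  have h2 : ∀ y : ℝ, 0 < y → 0 < (-2:ℝ) * y^0 * (Real.exp y)^0 + (-3/2:ℝ) * y^1 * (Real.exp y)^0 + (-2:ℝ) * y^0 * (Real.exp y)^1 + (-9/2:ℝ) * y^1 * (Real.exp y)^1 + (-5/2:ℝ) * y^2 * (Real.exp y)^1 + (-1/4:ℝ) * y^3 * (Real.exp y)^1 + (4:ℝ) * y^0 * (Real.exp y)^2 := by
    refine chainPos (f := fun y : ℝ => (-2:ℝ) * y^0 * (Real.exp y)^0 + (-3/2:ℝ) * y^1 * (Real.exp y)^0 + (-2:ℝ) * y^0 * (Real.exp y)^1 + (-9/2:ℝ) * y^1 * (Real.exp y)^1 + (-5/2:ℝ) * y^2 * (Real.exp y)^1 + (-1/4:ℝ) * y^3 * (Real.exp y)^1 + (4:ℝ) * y^0 * (Real.exp y)^2) (f' := fun y : ℝ => (-3/2:ℝ) * y^0 * (Real.exp y)^0 + (-13/2:ℝ) * y^0 * (Real.exp y)^1 + (-19/2:ℝ) * y^1 * (Real.exp y)^1 + (-13/4:ℝ) * y^2 * (Real.exp y)^1 + (-1/4:ℝ) * y^3 * (Real.exp y)^1 + (8:ℝ) * y^0 * (Real.exp y)^2) ?_ ?_ h3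
    · intro y
      exact HasDerivAt.congr_deriv (((((((((hasDerivAt_pow 0 y).const_mul (-2:ℝ)).fun_mul ((Real.hasDerivAt_exp y).fun_pow 0)).fun_add (((hasDerivAt_pow 1 y).const_mul (-3/2:ℝ)).fun_mul ((Real.hasDerivAt_exp y).fun_pow 0))).fun_add (((hasDerivAt_pow 0 y).const_mul (-2:ℝ)).fun_mul ((Real.hasDerivAt_exp y).fun_pow 1))).fun_add (((hasDerivAt_pow 1 y).const_mul (-9/2:ℝ)).fun_mul ((Real.hasDerivAt_exp y).fun_pow 1))).fun_add (((hasDerivAt_pow 2 y).const_mul (-5/2:ℝ)).fun_mul ((Real.hasDerivAt_exp y).fun_pow 1))).fun_add (((hasDerivAt_pow 3 y).const_mul (-1/4:ℝ)).fun_mul ((Real.hasDerivAt_exp y).fun_pow 1))).fun_add (((hasDerivAt_pow 0 y).const_mul (4:ℝ)).fun_mul ((Real.hasDerivAt_exp y).fun_pow 2))) (by push_cast; ring)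
    · norm_num
  have h1 : ∀ y : ℝ, 0 < y → 0 < (-1:ℝ) * y^0 * (Real.exp y)^0 + (-2:ℝ) * y^1 * (Real.exp y)^0 + (-3/4:ℝ) * y^2 * (Real.exp y)^0 + (-1:ℝ) * y^0 * (Real.exp y)^1 + (-1:ℝ) * y^1 * (Real.exp y)^1 + (-7/4:ℝ) * y^2 * (Real.exp y)^1 + (-1/4:ℝ) * y^3 * (Real.exp y)^1 + (2:ℝ) * y^0 * (Real.exp y)^2 := by
    refine chainPos (f := fun y : ℝ => (-1:ℝ) * y^0 * (Real.exp y)^0 + (-2:ℝ) * y^1 * (Real.exp y)^0 + (-3/4:ℝ) * y^2 * (Real.exp y)^0 + (-1:ℝ) * y^0 * (Real.exp y)^1 + (-1:ℝ) * y^1 * (Real.exp y)^1 + (-7/4:ℝ) * y^2 * (Real.exp y)^1 + (-1/4:ℝ) * y^3 * (Real.exp y)^1 + (2:ℝ) * y^0 * (Real.exp y)^2) (f' := fun y : ℝ => (-2:ℝ) * y^0 * (Real.exp y)^0 + (-3/2:ℝ) * y^1 * (Real.exp y)^0 + (-2:ℝ) * y^0 * (Real.exp y)^1 + (-9/2:ℝ) * y^1 * (Real.exp y)^1 + (-5/2:ℝ) * y^2 * (Real.exp y)^1 + (-1/4:ℝ) * y^3 * (Real.exp y)^1 + (4:ℝ)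 * y^0 * (Real.exp y)^2) ?_ ?_ h2
    · intro y
      exact HasDerivAt.congr_deriv ((((((((((hasDerivAt_pow 0 y).const_mul (-1:ℝ)).fun_mul ((Real.hasDerivAt_exp y).fun_pow 0)).fun_add (((hasDerivAt_pow 1 y).const_mul (-2:ℝ)).fun_mul ((Real.hasDerivAt_exp y).fun_pow 0))).fun_add (((hasDerivAt_pow 2 y).const_mul (-3/4:ℝ)).fun_mul ((Real.hasDerivAt_exp y).fun_pow 0))).fun_add (((hasDerivAt_pow 0 y).const_mul (-1:ℝ)).fun_mul ((Real.hasDerivAt_exp y).fun_pow 1))).fun_add (((hasDerivAt_pow 1 y).const_mul (-1:ℝ)).fun_mul ((Real.hasDerivAt_exp y).fun_pow 1))).fun_add (((hasDerivAt_pow 2 y).const_mul (-7/4:ℝ)).fun_mul ((Real.hasDerivAt_exp y).fun_pow 1))).fun_add (((hasDerivAt_pow 3 y).const_mul (-1/4:ℝ)).fun_mul ((Real.hasDerivAt_exp y).fun_pow 1))).fun_add (((hasDerivAt_pow 0 y).const_mul (2:ℝ)).fun_mul ((Real.hasDerivAt_exp y).fun_pow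 2))) (by push_cast; ring)
    · norm_num
  have h0 : ∀ y : ℝ, 0 < y → 0 < (1:ℝ) * y^0 * (Real.exp y)^0 + (-1:ℝ) * y^1 * (Real.exp y)^0 + (-1:ℝ) * y^2 * (Real.exp y)^0 + (-1/4:ℝ) * y^3 * (Real.exp y)^0 + (-2:ℝ) * y^0 * (Real.exp y)^1 + (1:ℝ) * y^1 * (Real.exp y)^1 + (-1:ℝ) * y^2 * (Real.exp y)^1 + (-1/4:ℝ) * y^3 * (Real.exp y)^1 + (1:ℝ) * y^0 * (Real.exp y)^2 := by
    refine chainPos (f := fun y : ℝ => (1:ℝ) * y^0 * (Real.exp y)^0 + (-1:ℝ) * y^1 * (Real.exp y)^0 + (-1:ℝ) * y^2 * (Real.exp y)^0 + (-1/4:ℝ) * y^3 * (Real.exp y)^0 + (-2:ℝ) * y^0 * (Real.exp y)^1 + (1:ℝ) * y^1 * (Real.exp y)^1 + (-1:ℝ) * y^2 * (Real.exp y)^1 + (-1/4:ℝ) * y^3 * (Real.exp y)^1 + (1:ℝ) * y^0 * (Real.exp y)^2) (f' := fun y : ℝ => (-1:ℝ) * y^0 * (Real.exp y)^0 + (-2:ℝ) * y^1 * (Real.exp y)^0 + (-3/4:ℝ) * y^2 * (Real.exp y)^0 + (-1:ℝ) * y^0 * (Real.exp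 y)^1 + (-1:ℝ) * y^1 * (Real.exp y)^1 + (-7/4:ℝ) * y^2 * (Real.exp y)^1 + (-1/4:ℝ) * y^3 * (Real.exp y)^1 + (2:ℝ) * y^0 * (Real.exp y)^2) ?_ ?_ h1
    · intro y
      exact HasDerivAt.congr_deriv (((((((((((hasDerivAt_pow 0 y).const_mul (1:ℝ)).fun_mul ((Real.hasDerivAt_exp y).fun_pow 0)).fun_add (((hasDerivAt_pow 1 y).const_mul (-1:ℝ)).fun_mul ((Real.hasDerivAt_exp y).fun_pow 0))).fun_add (((hasDerivAt_pow 2 y).const_mul (-1:ℝ)).fun_mul ((Real.hasDerivAt_exp y).fun_pow 0))).fun_add (((hasDerivAt_pow 3 y).const_mul (-1/4:ℝ)).fun_mul ((Real.hasDerivAt_exp y).fun_pow 0))).fun_add (((hasDerivAt_pow 0 y).const_mul (-2:ℝ)).fun_mul ((Real.hasDerivAt_exp y).fun_pow 1))).fun_add (((hasDerivAt_pow 1 y).const_mul (1:ℝ)).fun_mul ((Real.hasDerivAt_exp y).fun_pow 1))).fun_add (((hasDerivAt_pow 2 y).const_mul (-1:ℝ)).fun_mul ((Real.hasDerivAt_exp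 y).fun_pow 1))).fun_add (((hasDerivAt_pow 3 y).const_mul (-1/4:ℝ)).fun_mul ((Real.hasDerivAt_exp y).fun_pow 1))).fun_add (((hasDerivAt_pow 0 y).const_mul (1:ℝ)).fun_mul ((Real.hasDerivAt_exp y).fun_pow 2))) (by push_cast; ring)
    · norm_num
  exact h0

end Pool.Agent.MPb5407d
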