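import Pool.Agent.Work.MP_b5407d_gt.OneVar

/-!
# MP_b5407d_gt: one-variable facts II: the roots `Ux`, `Uy`, inequality (N) (helper13)
-/

namespace Pool.Agent.MPb5407d

open Real

noncomputable def bb (x : ℝ) : ℝ := th x + vt x - 3
noncomputable def Uy (x : ℝ) : ℝ := (Real.sqrt (8 * th x + bb x ^ 2) + bb x) / 2
noncomputable def Ux (x : ℝ) : ℝ := (Real.sqrt (8 * th x + bb x ^ 2) - bb x) / 2

section U
variable {x : ℝ} (hx : 0 < x)
include hx

theorem bb_pos : 0 < bb x := by
  have h1 := th_pos hx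
  have h2 := vt_gt hx
  unfold bb; linarith

theorem Uy_sub_Ux : Uy x - Ux x = bb x := by unfold Uy Ux; ring

theorem Ux_add_Uy : Ux x + Uy x = Real.sqrt (8 * th x + bb x ^ 2) := by unfold Uy Ux; ring

theorem Ux_mul_Uy : Ux x * Uy x = 2 * th x := by
  have h1 := th_pos hx
  have h : Real.sqrt (8 * th x + bb x ^ 2) ^ 2 = 8 * th x + bb x ^ 2 :=
    Real.sq_sqrt (by positivity)
  unfold Uy Ux; nlinarith

theorem Uy_pos : 0 < Uy x := by
  have h1 := th_pos hx
  have h2 := bb_pos hx
  unfold Uy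
  have : 0 < Real.sqrt (8 * th x + bb x ^ 2) := Real.sqrt_pos.mpr (by positivity)
  linarith

theorem Ux_pos : 0 < Ux x := by
  have h1 := th_pos hx
  have h2 := Uy_pos hx
  have h3 := Ux_mul_Uy hx
  by_contra h
  push Not at h
  nlinarith

theorem one_sub_Ux_mul : (1 - Ux x) * (1 + Uy x) = Lam x := by
  have h3 := Ux_mul_Uy hx
  have h4 := Uy_sub_Ux hx
  unfold bb at h4; unfold Lam; nlinarith

theorem Uy_lt : Uy x < x + th x := by
  have h1 := th_pos hx
  have h2 := Uy_pos hx
  have h2' := Ux_pos hx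
  have h3 := Ux_mul_Uy hx
  have h4 := Uy_sub_Ux hx
  have h5 := vt_mul_th hx
  have h6 := Lam_lt_one hx
  -- z² - bb z - 2 th = x (1 - Lam) + th
  have e : (x + th x) ^ 2 - bb x * (x + th x) - 2 * th x = x * (1 - Lam x) + th x := by
    unfold bb Lam; nlinarith
  have h7 : 0 < (x + th x) ^ 2 - bb x * (x + th x) - 2 * th x := by
    rw [e]; nlinarith [mul_pos hx (sub_pos.mpr h6)]
  have e2 : (x + th x) ^ 2 - bb x * (x + th x) - 2 * th x
      = ((x + th x) - Uy x) * ((x + th x) + Ux x) := by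
    rw [← h3, ← h4]; ring
  rw [e2] at h7
  have := pos_of_mul_pos_left h7 (by positivity)
  linarith

theorem th_lt : th x < x := by
  have h1 := th_pos hx
  have h2 := th_upper hx
  nlinarith

theorem Ux_lt : Ux x < x - th x := by
  have h1 := th_pos hx
  have h2 := Uy_pos hx
  have h2' := Ux_pos hx
  have h3 := Ux_mul_Uy hx
  have h4 := Uy_sub_Ux hx
  have h5 := vt_mul_th hx
  have h6 := x_mul_one_sub_Lam_lt hx
  have h7' := th_lt hx
  have e : (x - th x) ^ 2 + bb x * (x - th x) - 2 * th x = th x - x * (1 - Lam x) := by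
    unfold bb Lam; nlinarith
  have h7 : 0 < (x - th x) ^ 2 + bb x * (x - th x) - 2 * th x := by
    rw [e]; linarith
  have e2 : (x - th x) ^ 2 + bb x * (x - th x) - 2 * th x
      = ((x - th x) - Ux x) * ((x - th x) + Uy x) := by
    rw [← h3, ← h4]; ring
  rw [e2] at h7
  have := pos_of_mul_pos_left h7 (by linarith)
  linarith

theorem Ux_lt_one : Ux x < 1 := by
  have h1 := Ux_lt hx
  have h2 := lt_th_add_one hx
  linarith

theorem two_th_lt : 2 * th x < Ux x * (x + th x) := by
  have h1 := Ux_pos hx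
  have h2 := Uy_lt hx
  have h3 := Ux_mul_Uy hx
  nlinarith

/-- `x (coth x + 1) = x (coth x - 1) e^{2x}`. -/
theorem coth_exp : x + th x + 1 = (th x + 1 - x) * Real.exp (2 * x) := by
  have hs := sinh_pos' hx
  have h2 := th_mul_sinh hx
  have he := Real.exp_pos x
  have hE : Real.exp (2 * x) = Real.exp x ^ 2 := by
    rw [← Real.exp_nat_mul]; norm_num
  have hsE : Real.sinh x = (Real.exp x ^ 2 - 1) / (2 * Real.exp x) := by
    rw [Real.sinh_eq, Real.exp_neg]; field_simp
  have hcE : Real.cosh x = (Real.exp x ^ 2 + 1) / (2 * Real.exp x) := by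
    rw [Real.cosh_eq, Real.exp_neg]; field_simp
  have h3 : Real.sinh x * (x + th x + 1) = Real.sinh x * ((th x + 1 - x) * Real.exp (2 * x)) := by
    have e1 : Real.sinh x * (x + th x + 1) = x * (Real.sinh x + Real.cosh x) := by
      linear_combination h2
    have e2 : Real.sinh x * ((th x + 1 - x) * Real.exp (2 * x))
        = x * (Real.cosh x - Real.sinh x) * Real.exp (2 * x) := by
      linear_combination (Real.exp (2 * x)) * h2
    rw [e1, e2, hE, hsE, hcE]
    field_simp; ring
  exact mul_left_cancel₀ hs.ne' h3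

theorem slope_cond : 1 + Uy x < (1 - Ux x) * Real.exp (2 * x) := by
  have h1 := Uy_lt hx
  have h2 := Ux_lt hx
  have h3 := coth_exp hx
  have he := Real.exp_pos (2 * x)
  nlinarith

theorem U_unique {p q : ℝ} (hpq : p * q = 2 * th x) (hd : q - p = bb x) :
    (p = Ux x ∧ q = Uy x) ∨ (p = - Uy x ∧ q = - Ux x) := by
  have h3 := Ux_mul_Uy hx
  have h4 := Uy_sub_Ux hx
  have e : (q - Uy x) * (q + Ux x) = 0 := by
    have : p = q - bb x := by linarith
    rw [this] at hpq
    linear_combination hpq - h3 - q * h4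
  rcases mul_eq_zero.mp e with h | h
  · left; constructor <;> linarith
  · right; constructor <;> linarith

/-- (N), polynomial core -/
theorem N_core : x * (x - th x) * (x ^ 2 + th x ^ 2 - th x) < 2 * th x ^ 2 * (3 + th x) := by
  have h1 := th_pos hx
  have h2 := lt_th_add_one hx
  have h3 := th_lower hx
  have h4 := th_upper hx
  have h5 := th_lt hx
  set t := th x with ht
  by_cases hc : 1 ≤ t
  · have a1 : x * (x - t) < (t + 1) * 1 := mul_lt_mul'' h2 (by linarith) hx.le (by linarith)
    have a2 : x ^ 2 + t ^ 2 - t < 2 * t ^ 2 + t + 1 := by nlinarith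
    have a3 : x * (x - t) * (x ^ 2 + t ^ 2 - t) < ((t + 1) * 1) * (2 * t ^ 2 + t + 1) :=
      mul_lt_mul'' a1 a2 (mul_nonneg hx.le (by linarith)) (by nlinarith)
    nlinarith
  · push Not at hc
    set X := Real.sqrt (t ^ 2 + 3 * t) with hX
    have hX2 : X ^ 2 = t ^ 2 + 3 * t := Real.sq_sqrt (by positivity)
    have hXpos : 0 < X := Real.sqrt_pos.mpr (by positivity)
    have hxX : x < X := by
      apply lt_of_pow_lt_pow_left₀ 2 hXpos.le
      rw [hX2]; exact h3
    have hXt : X < t + 1 := by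
      apply lt_of_pow_lt_pow_left₀ 2 (by positivity)
      rw [hX2]; nlinarith
    have a1 : x * (x - t) < X * (X - t) :=
      mul_lt_mul'' hxX (by linarith) hx.le (by linarith)
    have a2 : x ^ 2 + t ^ 2 - t < 2 * t ^ 2 + 2 * t := by nlinarith
    have a3 : x * (x - t) * (x ^ 2 + t ^ 2 - t) < (X * (X - t)) * (2 * t ^ 2 + 2 * t) :=
      mul_lt_mul'' a1 a2 (mul_nonneg hx.le (by linarith)) (by nlinarith)
    have a4 : (X * (X - t)) * (2 * t ^ 2 + 2 * t) < 2 * t ^ 2 * (3 + t) := by
      -- X² - tX = t (t+3-X)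
      have e1 : X * (X - t) = t * (t + 3 - X) := by nlinarith
      rw [e1]
      have e2 : (t + 3 - X) * (t + 1) < 3 + t := by nlinarith
      nlinarith [mul_pos h1 h1, mul_lt_mul_of_pos_left e2 (mul_pos h1 h1)]
    linarith

/-- (N) of note 1887. -/
theorem N_ineq : 2 * Ux x * (1 + 1 / x)
    < 1 + vt x - th x - x * (vt x - 1 - th x) / th x + 6 / x := by
  have h1 := th_pos hx
  have h2 := Ux_lt hx
  have h3 := N_core hx
  have a1 : 2 * Ux x * (1 + 1 / x) < 2 * (x - th x) * (1 + 1 / x) := by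
    have : 0 < 1 + 1 / x := by positivity
    nlinarith
  have a2 : 2 * (x - th x) * (1 + 1 / x)
      < 1 + vt x - th x - x * (vt x - 1 - th x) / th x + 6 / x := by
    have e : 1 + vt x - th x - x * (vt x - 1 - th x) / th x + 6 / x
        - 2 * (x - th x) * (1 + 1 / x)
        = (2 * th x ^ 2 * (3 + th x) - x * (x - th x) * (x ^ 2 + th x ^ 2 - th x))
          / (x * th x ^ 2) := by
      unfold vt
      field_simp
      ring
    have : 0 < 1 + vt x - th x - x * (vt x - 1 - th x) / th x + 6 / x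
        - 2 * (x - th x) * (1 + 1 / x) := by
      rw [e]
      apply div_pos (by linarith) (by positivity)
    linarith
  linarith

end U

end Pool.Agent.MPb5407d
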