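import Pool.Agent.Work.MP_b5407d_gt.OneVar2

/-!
# MP_b5407d_gt: one-variable facts III: all real `η`, the function `T` (section 4 of note 1887),
the lemma (SE) (section 2) (helper13)
-/

namespace Pool.Agent.MPb5407d

open Real

noncomputable def PsiE (η : ℝ) : ℝ := if η = 0 then 1 / 6 else psi (|η| / 2)
noncomputable def OmE (η : ℝ) : ℝ := if η = 0 then 1 / 10 else om (|η| / 2)
/-- `Om1E η = η * (d OmE / dη)`. -/
noncomputable def Om1E (η : ℝ) : ℝ := if η = 0 then 0 else om1 (|η| / 2)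
noncomputable def LamE (η : ℝ) : ℝ := 1 - η ^ 2 * (PsiE η - OmE η) / 2
noncomputable def nuE (η : ℝ) : ℝ :=
  if η = 0 then 1 / 3 else ((Real.exp η - 1) / η * LamE η - 1) / η - PsiE η
/-- `kE η = ∫₀¹ e^{-ηt} dt` -/
noncomputable def kE (η : ℝ) : ℝ := if η = 0 then 1 else (1 - Real.exp (-η)) / η
/-- `k2E η = ∫₀¹ (1 - kE...) = (1 - kE η)/η`, `1/2` at `0` -/
noncomputable def k2E (η : ℝ) : ℝ := if η = 0 then 1 / 2 else (1 - kE η) / η

theorem half_abs_pos {η : ℝ} (h : η ≠ 0) : 0 < |η| / 2 := by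
  have := abs_pos.mpr h
  linarith

theorem PsiE_neg (η : ℝ) : PsiE (-η) = PsiE η := by simp [PsiE]
theorem OmE_neg (η : ℝ) : OmE (-η) = OmE η := by simp [OmE]
theorem Om1E_neg (η : ℝ) : Om1E (-η) = Om1E η := by simp [Om1E]
theorem LamE_neg (η : ℝ) : LamE (-η) = LamE η := by simp [LamE, PsiE_neg, OmE_neg]

theorem PsiE_pos (η : ℝ) : 0 < PsiE η := by
  unfold PsiE; split_ifs with h
  · norm_num
  · exact psi_pos (half_abs_pos h)

theorem PsiE_le (η : ℝ) : PsiE η ≤ 1 / 6 := by
  unfold PsiE; split_ifs with h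
  · norm_num
  · exact (psi_lt (half_abs_pos h)).le

theorem OmE_pos (η : ℝ) : 0 < OmE η := by
  unfold OmE; split_ifs with h
  · norm_num
  · exact om_pos (half_abs_pos h)

theorem OmE_le (η : ℝ) : OmE η ≤ 1 / 10 := by
  unfold OmE; split_ifs with h
  · norm_num
  · exact (om_lt (half_abs_pos h)).le

theorem OmE_lt_PsiE (η : ℝ) : OmE η < PsiE η := by
  unfold OmE PsiE; split_ifs with h
  · norm_num
  · exact om_lt_psi (half_abs_pos h)

theorem chiE_le (η : ℝ) : (PsiE η - OmE η) / 2 ≤ 1 / 30 := by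
  unfold OmE PsiE; split_ifs with h
  · norm_num
  · exact (chi_lt (half_abs_pos h)).le

theorem Om1E_nonpos (η : ℝ) : Om1E η ≤ 0 := by
  unfold Om1E; split_ifs with h
  · exact le_rfl
  · exact (om1_neg (half_abs_pos h)).le

theorem PsiE_OmE_Om1E_pos (η : ℝ) : 0 < PsiE η + OmE η + Om1E η := by
  unfold OmE PsiE Om1E; split_ifs with h
  · norm_num
  · exact psi_om_om1_pos (half_abs_pos h)

theorem LamE_eq {η : ℝ} (h : η ≠ 0) : LamE η = Lam (|η| / 2) := by
  have h1 := four_sq_chi (half_abs_pos h)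
  unfold LamE PsiE OmE
  simp only [h, if_false]
  unfold chi at h1
  have : (|η| / 2) ^ 2 = η ^ 2 / 4 := by rw [div_pow, sq_abs]; norm_num
  rw [this] at h1
  linarith

theorem LamE_zero : LamE 0 = 1 := by simp [LamE]

theorem LamE_pos (η : ℝ) : 0 < LamE η := by
  by_cases h : η = 0
  · rw [h, LamE_zero]; norm_num
  · rw [LamE_eq h]; exact Lam_pos (half_abs_pos h)

theorem LamE_le_one (η : ℝ) : LamE η ≤ 1 := by
  by_cases h : η = 0
  · rw [h, LamE_zero]
  · rw [LamE_eq h]; exact (Lam_lt_one (half_abs_pos h)).le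

theorem PsiE_lt_one (η : ℝ) : PsiE η < 1 := by
  have := PsiE_le η; linarith

/-- for `x = |η|/2`: `2x² PsiE = th` etc. -/
theorem sq_PsiE {η : ℝ} (h : η ≠ 0) : η ^ 2 * PsiE η = 2 * th (|η| / 2) := by
  have h1 := two_sq_psi (half_abs_pos h)
  have : (|η| / 2) ^ 2 = η ^ 2 / 4 := by rw [div_pow, sq_abs]; norm_num
  rw [this] at h1
  unfold PsiE; simp only [h, if_false]
  linarith

theorem sq_OmE {η : ℝ} (h : η ≠ 0) : η ^ 2 * OmE η = 2 * (vt (|η| / 2) - 3) := by
  have h1 := two_sq_om (half_abs_pos h)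
  have : (|η| / 2) ^ 2 = η ^ 2 / 4 := by rw [div_pow, sq_abs]; norm_num
  rw [this] at h1
  unfold OmE; simp only [h, if_false]
  linarith

theorem sq_Om1E {η : ℝ} (h : η ≠ 0) : η ^ 2 * Om1E η
    = 2 * ((|η| / 2) ^ 2 - (vt (|η| / 2) - 3) * (vt (|η| / 2) + 2)) := by
  have h1 := two_sq_om1 (half_abs_pos h)
  have : (|η| / 2) ^ 2 = η ^ 2 / 4 := by rw [div_pow, sq_abs]; norm_num
  rw [this] at h1 ⊢
  unfold Om1E; simp only [h, if_false]
  linarith

/-- `η² (PsiE + OmE)/2 = bb`. -/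
theorem sq_PsiE_OmE {η : ℝ} (h : η ≠ 0) : η ^ 2 * (PsiE η + OmE η) / 2 = bb (|η| / 2) := by
  have h1 := sq_PsiE h
  have h2 := sq_OmE h
  unfold bb; linarith

/-! ### `ν` -/

theorem nuE_ge {η : ℝ} (h : 0 ≤ η) : 1 / 3 ≤ nuE η := by
  rcases h.eq_or_lt with h0 | h0
  · rw [← h0]; simp [nuE]
  · have hne : η ≠ 0 := h0.ne'
    unfold nuE
    simp only [hne, if_false]
    rw [LamE_eq hne, abs_of_pos h0]
    set x := η / 2 with hx
    have hxp : 0 < x := by positivity
    have hη : η = 2 * x := by rw [hx]; ring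
    have h1 := nu_aux hxp
    have h2 := Lam_mul_th hxp
    have h3 := th_pos hxp
    have hs := sinh_pos' hxp
    have h4 := th_mul_sinh hxp
    have h5 := sq_rel hxp
    have h6 := PsiE_le η
    have hE : Real.exp (2 * x) - 1 = 2 * Real.exp x * Real.sinh x := by
      have e0 : Real.exp (2 * x) = Real.exp x ^ 2 := by
        rw [← Real.exp_nat_mul]; norm_num
      rw [e0, Real.sinh_eq, Real.exp_neg]
      have := Real.exp_pos x
      field_simp
    -- Lam * A = s² - x², A = th s, times s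
    have h7 : Real.sinh x * (Lam x * (th x * Real.sinh x)) = Real.sinh x ^ 2 - x ^ 2 := by
      have : Real.sinh x * (Lam x * (th x * Real.sinh x)) = Real.sinh x ^ 2 * (Lam x * th x) := by
        ring
      rw [this, h2]; nlinarith [h5]
    -- goal: 1/3 ≤ ((e^η - 1)/η Λ - 1)/η - ψ
    have h8 : 1 + x ≤ (Real.exp (2 * x) - 1) / (2 * x) * Lam x := by
      rw [hE]
      have hA : 0 < th x * Real.sinh x := mul_pos h3 hs
      rw [show 2 * Real.exp x * Real.sinh x / (2 * x) * Lam x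
        = (Real.exp x * Real.sinh x * Lam x) / x by field_simp, le_div_iff₀ hxp]
      rw [← h4] at h1
      have h9 : (1 + x) * x * (th x * Real.sinh x)
          < Real.exp x * Real.sinh x * Lam x * (th x * Real.sinh x) := by
        have : Real.exp x * Real.sinh x * Lam x * (th x * Real.sinh x)
            = Real.exp x * (Real.sinh x * (Lam x * (th x * Real.sinh x))) := by ring
        rw [this, h7]; linarith
      exact (lt_of_mul_lt_mul_right h9 hA.le).le
    have h10 : 1 / 2 ≤ ((Real.exp η - 1) / η * Lam x - 1) / η := by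
      rw [le_div_iff₀ h0, hη]; linarith
    linarith

theorem nuE_neg_pos {η : ℝ} (h : 0 < η) : 0 < nuE (-η) := by
  have hne : -η ≠ 0 := by
    intro hh; linarith
  unfold nuE
  simp only [hne, if_false]
  rw [LamE_neg, PsiE_neg]
  have h1 := LamE_le_one η
  have h0 := LamE_pos η
  have hne' : η ≠ 0 := h.ne'
  have h2 := sq_PsiE hne'
  rw [abs_of_pos h] at h2
  have hxp : 0 < η / 2 := by positivity
  have h3 := coth_exp hxp
  have h4 : Real.exp (2 * (η / 2)) = Real.exp η := by ring_nf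
  rw [h4] at h3
  have he := Real.exp_pos η
  have he' := Real.exp_pos (-η)
  have hee : Real.exp η * Real.exp (-η) = 1 := by rw [← Real.exp_add]; simp
  -- th = η/2 - 1 + η/(e^η-1)
  have h5 := Real.add_one_lt_exp hne'
  -- sinh η > η
  have h6 : η < Real.sinh η := Real.self_lt_sinh_iff.mpr h
  rw [Real.sinh_eq] at h6
  -- goal  0 < ((exp (-η) - 1)/(-η) * Λ - 1)/(-η) - ψ
  have hk : 0 < 1 - Real.exp (-η) := by
    have := Real.exp_lt_one_iff.mpr (show -η < 0 by linarith)
    linarith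
  have goal2 : 0 < η - (1 - Real.exp (-η)) * LamE η - 2 * th (η / 2) := by
    have a1 : (1 - Real.exp (-η)) * LamE η ≤ (1 - Real.exp (-η)) := by nlinarith
    have a2 : 0 < η - (1 - Real.exp (-η)) - 2 * th (η / 2) := by
      have e1 : th (η / 2) * (Real.exp η - 1) = η / 2 * (Real.exp η + 1) - (Real.exp η - 1) := by
        linear_combination (-1) * h3
      have : 0 < (η - (1 - Real.exp (-η)) - 2 * th (η / 2)) * (Real.exp η - 1) := by
        have e2 : (η - (1 - Real.exp (-η)) - 2 * th (η / 2)) * (Real.exp η - 1)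
          = Real.exp η - Real.exp (-η) - 2 * η := by
          linear_combination (-2) * e1 + hee
        rw [e2]; linarith
      exact pos_of_mul_pos_left this (by linarith)
    linarith
  have e3 : ((Real.exp (-η) - 1) / -η * LamE η - 1) / -η - PsiE η
      = (η - (1 - Real.exp (-η)) * LamE η - η ^ 2 * PsiE η) / η ^ 2 := by
    field_simp
    ring
  rw [e3, h2]
  positivity

theorem nuE_pos (η : ℝ) : 0 < nuE η := by
  rcases le_or_gt 0 η with h | h
  · have := nuE_ge h; linarith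
  · have := nuE_neg_pos (show 0 < -η by linarith)
    rwa [neg_neg] at this

/-! ### The function `T` -/

noncomputable def Tf (η M S : ℝ) : ℝ :=
  2 * M * (S + PsiE η + OmE η + Om1E η) - (4 + 2 * S + η ^ 2 * OmE η)

/-- The root relation of `Σ = ux + uy`. -/
def SigRel (η S : ℝ) : Prop := S ^ 2 = 4 * PsiE η + η ^ 2 * (PsiE η + OmE η) ^ 2 / 4

theorem SigRel_abs {η S : ℝ} (hne : η ≠ 0) (hS : 0 < S) (h : SigRel η S) :
    |η| * S = 2 * Ux (|η| / 2) + bb (|η| / 2) := by
  have hx := half_abs_pos hne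
  have h1 := sq_PsiE hne
  have h2 := sq_PsiE_OmE hne
  have h3 := th_pos hx
  have h4 : (|η| * S) ^ 2 = 8 * th (|η| / 2) + bb (|η| / 2) ^ 2 := by
    unfold SigRel at h
    rw [mul_pow, sq_abs, h, ← h2]
    linear_combination 4 * h1
  have h5 : |η| * S = Real.sqrt (8 * th (|η| / 2) + bb (|η| / 2) ^ 2) := by
    rw [← h4, Real.sqrt_sq (by positivity)]
  rw [h5]; unfold Ux; ring

theorem S_gt_two_psi {η S : ℝ} (hS : 0 < S) (h : SigRel η S) : 2 * PsiE η < S := by
  have h1 := PsiE_pos η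
  have h2 := PsiE_lt_one η
  unfold SigRel at h
  by_contra hc
  push Not at hc
  have : S ^ 2 ≤ (2 * PsiE η) ^ 2 := by nlinarith
  have h3 : 0 ≤ η ^ 2 * (PsiE η + OmE η) ^ 2 / 4 := by positivity
  nlinarith

/-- section 4, branch (-): `T < 0` for `M ≥ -|η|/2`. -/
theorem Tf_neg_minus {η M S : ℝ} (hS : 0 < S) (h : SigRel η S) (hM : -(|η| / 2) ≤ M) :
    Tf η M (-S) < 0 := by
  have h1 := S_gt_two_psi hS h
  have h2 := OmE_lt_PsiE η
  have h3 := Om1E_nonpos η
  have hk : -S + PsiE η + OmE η + Om1E η < 0 := by linarith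
  by_cases hne : η = 0
  · subst hne
    have hM' : 0 ≤ M := by simpa using hM
    unfold Tf
    have hS2 : S < 1 := by
      unfold SigRel at h
      have h4 := PsiE_le 0
      nlinarith
    have := mul_nonpos_of_nonneg_of_nonpos hM' hk.le
    nlinarith
  · set x := |η| / 2 with hx
    have hxp : 0 < x := half_abs_pos hne
    have hηx : |η| = 2 * x := by rw [hx]; ring
    have hη2 : η ^ 2 = 4 * x ^ 2 := by rw [← sq_abs, hηx]; ring
    have e0 := SigRel_abs hne hS h
    rw [← hx, hηx] at e0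
    have e1 := sq_OmE hne
    have e2 := sq_Om1E hne
    have e3 := sq_PsiE_OmE hne
    rw [← hx] at e1 e2 e3
    have hN := N_ineq hxp
    have hvt := vt_mul_th hxp
    have hth := th_pos hxp
    -- bound by value at M = -x
    have b1 : Tf η M (-S) ≤ Tf η (-x) (-S) := by
      unfold Tf
      nlinarith
    have b2 : x * Tf η (-x) (-S)
        = 2 * Ux x * (x + 1) + x * (th x - vt x - 1) + vt x ^ 2 - vt x - 6 - x ^ 2 := by
      unfold Tf
      rw [hη2] at e1 e2 e3 ⊢
      unfold bb at e0 e3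
      have e4 : x * S = Ux x + (th x + vt x - 3) / 2 := by linarith
      have e4' : x ^ 2 * S = x * (Ux x + (th x + vt x - 3) / 2) := by
        rw [← e4]; ring
      linear_combination (-x) * e1 - (1 / 2) * e2 + 2 * e4' + 2 * e4 - e3
    have b3 : 2 * Ux x * (x + 1) + x * (th x - vt x - 1) + vt x ^ 2 - vt x - 6 - x ^ 2 < 0 := by
      have e5 : x * (2 * Ux x * (1 + 1 / x)) = 2 * Ux x * (x + 1) := by field_simp
      have e6 : x * (1 + vt x - th x - x * (vt x - 1 - th x) / th x + 6 / x)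
          = x * (1 + vt x - th x) - vt x * (vt x - 1 - th x) + 6 := by
        unfold vt; field_simp
      have e7 := mul_lt_mul_of_pos_left hN hxp
      rw [e5, e6] at e7
      nlinarith
    have b4 : x * Tf η (-x) (-S) < 0 := by rw [b2]; exact b3
    have b5 : Tf η (-x) (-S) < 0 := by
      by_contra hc
      push Not at hc
      nlinarith [mul_nonneg hxp.le hc]
    linarith

/-- section 4, branch (+) with `min(al, be) ≤ 0`: `T < 0` for `M ≤ |η|/2`. -/
theorem Tf_neg_plus {η M S : ℝ} (hS : 0 < S) (h : SigRel η S) (hM : M ≤ |η| / 2) :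
    Tf η M S < 0 := by
  have h0 := PsiE_OmE_Om1E_pos η
  have hk : 0 < S + PsiE η + OmE η + Om1E η := by linarith
  by_cases hne : η = 0
  · subst hne
    have hM' : M ≤ 0 := by simpa using hM
    unfold Tf
    have := mul_nonpos_of_nonpos_of_nonneg hM' hk.le
    nlinarith
  · set x := |η| / 2 with hx
    have hxp : 0 < x := half_abs_pos hne
    have hηx : |η| = 2 * x := by rw [hx]; ring
    have hη2 : η ^ 2 = 4 * x ^ 2 := by rw [← sq_abs, hηx]; ring
    have e0 := SigRel_abs hne hS h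
    rw [← hx, hηx] at e0
    have e1 := sq_OmE hne
    have e2 := sq_Om1E hne
    have e3 := sq_PsiE_OmE hne
    rw [← hx] at e1 e2 e3
    have hth := th_pos hxp
    have hUx := Ux_lt_one hxp
    have hUx0 := Ux_pos hxp
    have hLam := Lam_pos hxp
    have hom1 := Om1E_nonpos η
    have b1 : Tf η M S ≤ Tf η x S := by
      unfold Tf
      nlinarith
    have b2 : x * Tf η x S
        = 2 * Ux x * (x - 1) + 2 * x ^ 2 * Om1E η - x * (3 + Lam x) := by
      unfold Tf Lam
      rw [hη2] at e1 e2 e3 ⊢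
      unfold bb at e0 e3
      have e4 : x * S = Ux x + (th x + vt x - 3) / 2 := by linarith
      have e4' : x ^ 2 * S = x * (Ux x + (th x + vt x - 3) / 2) := by
        rw [← e4]; ring
      linear_combination (-x) * e1 + 2 * e4' - 2 * e4 + e3
    have b4 : x * Tf η x S < 0 := by
      rw [b2]
      nlinarith [mul_nonneg (sq_nonneg x) (neg_nonneg.mpr hom1), mul_pos hxp hLam]
    have b5 : Tf η x S < 0 := by
      by_contra hc
      push Not at hc
      nlinarith [mul_nonneg hxp.le hc]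
    linarith

theorem M_pos_of_Tf {η M S : ℝ} (hS : 0 < S) (hT : 0 ≤ Tf η M S) : 0 < M := by
  have h0 := PsiE_OmE_Om1E_pos η
  have hk : 0 < S + PsiE η + OmE η + Om1E η := by linarith
  have hom := OmE_pos η
  unfold Tf at hT
  by_contra hc
  push Not at hc
  have := mul_nonpos_of_nonpos_of_nonneg hc hk.le
  nlinarith [mul_nonneg (sq_nonneg η) hom.le]

/-- from `T ≥ 0`: `4 + 2S + η² ω ≤ 2M (S + ψ + ω)`. -/
theorem Tf_use {η M S : ℝ} (hS : 0 < S) (hT : 0 ≤ Tf η M S) :
    4 + 2 * S + η ^ 2 * OmE η ≤ 2 * M * (S + PsiE η + OmE η) := by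
  have h1 := M_pos_of_Tf hS hT
  have h2 := Om1E_nonpos η
  unfold Tf at hT
  nlinarith

/-- section 4, branch (+), `|η| ≤ 5/2`: `μ ≥ 1`, i.e. `2 + η²(ψ+ω)/4 ≤ M Σ`. -/
theorem mu_ge_one {η M S : ℝ} (hη : |η| ≤ 5 / 2) (hS : 0 < S) (h : SigRel η S)
    (hT : 0 ≤ Tf η M S) : 2 + η ^ 2 * (PsiE η + OmE η) / 4 ≤ M * S := by
  have h1 := Tf_use hS hT
  have p1 := PsiE_pos η
  have p2 := PsiE_le η
  have p3 := OmE_pos η
  have p4 := OmE_le η
  have p5 := OmE_lt_PsiE η
  have hη2 : η ^ 2 ≤ 25 / 4 := by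
    rw [← sq_abs]; nlinarith [abs_nonneg η]
  unfold SigRel at h
  have hq : (PsiE η + OmE η) ^ 2 ≤ (4 / 15) ^ 2 := by
    apply pow_le_pow_left₀ (by positivity); linarith
  have hS2 : S ^ 2 ≤ 7 / 9 := by
    have : η ^ 2 * (PsiE η + OmE η) ^ 2 ≤ 25 / 4 * (4 / 15) ^ 2 :=
      mul_le_mul hη2 hq (by positivity) (by norm_num)
    nlinarith
  have hS3 : S ≤ 9 / 10 := by nlinarith
  have hS4 : η ^ 2 * S ≤ 8 := by
    have : η ^ 2 * S ≤ 25 / 4 * (9 / 10) := mul_le_mul hη2 hS3 hS.le (by norm_num)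
    linarith
  have key : (S + PsiE η + OmE η) * (2 + η ^ 2 * (PsiE η + OmE η) / 4)
      ≤ S * (4 + 2 * S + η ^ 2 * OmE η) / 2 := by
    have e : S * (4 + 2 * S + η ^ 2 * OmE η) / 2
        - (S + PsiE η + OmE η) * (2 + η ^ 2 * (PsiE η + OmE η) / 4)
        = (PsiE η - OmE η) * (2 - η ^ 2 * S / 4) := by
      linear_combination h
    have : 0 ≤ (PsiE η - OmE η) * (2 - η ^ 2 * S / 4) :=
      mul_nonneg (by linarith) (by linarith)
    linarith
  have hpos : 0 < S + PsiE η + OmE η := by linarith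
  have h3 : (S + PsiE η + OmE η) * (2 + η ^ 2 * (PsiE η + OmE η) / 4)
      ≤ (S + PsiE η + OmE η) * (M * S) := by
    nlinarith [mul_le_mul_of_nonneg_left h1 hS.le]
  exact le_of_mul_le_mul_left h3 hpos

/-- section 4, branch (+), `|η| ≥ 5/2`: `μ ≥ 2 - |η|/2`. -/
theorem mu_ge_two {η M S : ℝ} (hη : 5 / 2 ≤ |η|) (hS : 0 < S) (h : SigRel η S)
    (hT : 0 ≤ Tf η M S) : 4 - |η| + η ^ 2 * (PsiE η + OmE η) / 4 ≤ M * S := by
  have h1 := Tf_use hS hT
  have p1 := PsiE_pos η
  have p3 := OmE_pos η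
  have p5 := OmE_lt_PsiE η
  have p6 := LamE_pos η
  unfold LamE at p6
  unfold SigRel at h
  have key : (S + PsiE η + OmE η) * (4 - |η| + η ^ 2 * (PsiE η + OmE η) / 4)
      ≤ S * (4 + 2 * S + η ^ 2 * OmE η) / 2 := by
    have e : S * (4 + 2 * S + η ^ 2 * OmE η) / 2
        - (S + PsiE η + OmE η) * (4 - |η| + η ^ 2 * (PsiE η + OmE η) / 4)
        = (4 * PsiE η - (PsiE η + OmE η) * (4 - |η|))
          + S * (|η| - 2 - η ^ 2 * (PsiE η - OmE η) / 4) := by
      linear_combination h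
    have a1 : 0 ≤ 4 * PsiE η - (PsiE η + OmE η) * (4 - |η|) := by nlinarith
    have a2 : 0 ≤ S * (|η| - 2 - η ^ 2 * (PsiE η - OmE η) / 4) := by
      apply mul_nonneg hS.le; linarith
    linarith
  have hpos : 0 < S + PsiE η + OmE η := by linarith
  have h3 : (S + PsiE η + OmE η) * (4 - |η| + η ^ 2 * (PsiE η + OmE η) / 4)
      ≤ (S + PsiE η + OmE η) * (M * S) := by
    nlinarith [mul_le_mul_of_nonneg_left h1 hS.le]
  exact le_of_mul_le_mul_left h3 hpos

/-- section 4, branch (+), `|η| ≤ 2`: `M ≥ 5/2`. -/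
theorem M_ge {η M S : ℝ} (hη : |η| ≤ 2) (hS : 0 < S) (h : SigRel η S)
    (hT : 0 ≤ Tf η M S) : 5 / 2 ≤ M := by
  have h1 := Tf_use hS hT
  have h0 := M_pos_of_Tf hS hT
  have p1 := PsiE_pos η
  have p2 := PsiE_le η
  have p3 := OmE_pos η
  have p4 := OmE_le η
  have hη2 : η ^ 2 ≤ 4 := by
    rw [← sq_abs]; nlinarith [abs_nonneg η]
  unfold SigRel at h
  have hq : (PsiE η + OmE η) ^ 2 ≤ (4 / 15) ^ 2 := by
    apply pow_le_pow_left₀ (by positivity); linarith
  have hS2 : S ^ 2 ≤ (8 / 9) ^ 2 := by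
    have : η ^ 2 * (PsiE η + OmE η) ^ 2 ≤ 4 * (4 / 15) ^ 2 :=
      mul_le_mul hη2 hq (by positivity) (by norm_num)
    nlinarith
  have hS3 : S ≤ 8 / 9 := by
    exact le_of_sq_le_sq hS2 (by norm_num)
  have h5 : 4 + 2 * S ≤ 2 * M * (S + 4 / 15) := by
    have : 0 ≤ η ^ 2 * OmE η := by positivity
    have : 2 * M * (S + PsiE η + OmE η) ≤ 2 * M * (S + 4 / 15) := by
      apply mul_le_mul_of_nonneg_left _ (by positivity); linarith
    linarith
  by_contra hc
  push Not at hc
  have : 2 * M * (S + 4 / 15) < 2 * (5 / 2) * (S + 4 / 15) := by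
    apply mul_lt_mul_of_pos_right _ (by positivity); linarith
  linarith

/-! ### (SE) -/

theorem SE_core {x : ℝ} (hx : 0 < x) {B B' : ℝ} (hB : 0 ≤ B)
    (hrel : (1 + B) * (1 - B') = Lam x) (hc : B * B' ≤ 2 * th x) :
    2 * th x - B * B' ≤ 2 * x - (1 - Real.exp (-(2 * x))) * (1 + B) ∧
    2 * th x - B * B' ≤ (Real.exp (2 * x) - 1) * (1 - B') - 2 * x := by
  have hL := Lam_pos hx
  have hUx := Ux_pos hx
  have hUy := Uy_pos hx
  have hUx1 := Ux_lt_one hx
  have hprod := Ux_mul_Uy hx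
  have hrel1 := one_sub_Ux_mul hx
  have hslope := slope_cond hx
  have hUylt := Uy_lt hx
  have hUxlt := Ux_lt hx
  have hcoth := coth_exp hx
  have he := Real.exp_pos (2 * x)
  have hee : Real.exp (2 * x) * Real.exp (-(2 * x)) = 1 := by rw [← Real.exp_add]; simp
  have he' := Real.exp_pos (-(2 * x))
  set Z := 1 + B with hZ
  set Y := 1 - B' with hY
  set Z1 := 1 + Uy x with hZ1
  set Y1 := 1 - Ux x with hY1
  have hZpos : 0 < Z := by linarith
  have hZ1pos : 0 < Z1 := by linarith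
  have hY1pos : 0 < Y1 := by linarith
  have hYpos : 0 < Y := by
    by_contra hcc
    push Not at hcc
    nlinarith
  -- Z ≤ Z1
  have hZZ : Z ≤ Z1 := by
    by_contra hcc
    push Not at hcc
    -- Y < Y1
    have hYY : Y < Y1 := by
      by_contra h2
      push Not at h2
      nlinarith
    -- B B' > Ux Uy
    have hB1 : Uy x < B := by linarith
    have hB2 : Ux x < B' := by linarith
    nlinarith
  have hYY : Y1 ≤ Y := by
    by_contra hcc
    push Not at hcc
    nlinarith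
  have hBB : B * B' = Z + Y - Lam x - 1 + 0 * Z := by
    have : B * B' = (Z - 1) * (1 - Y) := by rw [hZ, hY]; ring
    rw [this, ← hrel]; ring
  have hUU : 2 * th x = Z1 + Y1 - Lam x - 1 := by
    rw [← hprod, ← hrel1, hZ1, hY1]; ring
  constructor
  · -- e^{-η} Z + Y + η - 2th - Λ - 1 ≥ 0
    have g1 : 0 ≤ 2 * x - (1 - Real.exp (-(2 * x))) * Z1 := by
      -- Z1 ≤ x + th + 1 and (x+th+1)(1 - e^{-2x}) = 2x
      have e1 : (x + th x + 1) * (1 - Real.exp (-(2 * x))) = 2 * x := by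
        have : (x + th x + 1) * Real.exp (-(2 * x)) = th x + 1 - x := by
          rw [hcoth, mul_assoc, hee]; ring
        linear_combination (-1) * this
      have e2 : 0 ≤ 1 - Real.exp (-(2 * x)) := by
        have := Real.exp_lt_one_iff.mpr (show -(2 * x) < 0 by linarith)
        linarith
      nlinarith
    have g2 : 0 ≤ (Z1 - Z) * (Y1 - Real.exp (-(2 * x)) * Z) := by
      apply mul_nonneg (by linarith)
      have : Real.exp (-(2 * x)) * Z1 ≤ Y1 := by
        have := mul_le_mul_of_nonneg_right hslope.le he'.le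
        calc Real.exp (-(2 * x)) * Z1 = Z1 * Real.exp (-(2 * x)) := by ring
          _ ≤ Y1 * Real.exp (2 * x) * Real.exp (-(2 * x)) := this
          _ = Y1 := by rw [mul_assoc, hee]; ring
      nlinarith
    -- (Z1 - Z)(Y1 - e^{-η} Z) = Z (Y - Y1) + ... using Z Y = Z1 Y1
    have e3 : (Z1 - Z) * (Y1 - Real.exp (-(2 * x)) * Z)
        = Z * ((Y - Y1) + Real.exp (-(2 * x)) * (Z - Z1)) := by
      have : Z * Y = Z1 * Y1 := by rw [hrel, ← hrel1]; ring
      linear_combination (-1) * this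
    rw [e3] at g2
    have g3 : 0 ≤ (Y - Y1) + Real.exp (-(2 * x)) * (Z - Z1) := nonneg_of_mul_nonneg_right g2 hZpos
    rw [hBB, hUU]
    nlinarith
  · have g1 : 0 ≤ (Real.exp (2 * x) - 1) * Y1 - 2 * x := by
      have e1 : (th x + 1 - x) * (Real.exp (2 * x) - 1) = 2 * x := by
        linear_combination (-1) * hcoth
      have e2 : 0 ≤ Real.exp (2 * x) - 1 := by
        have := Real.one_lt_exp_iff.mpr (show 0 < 2 * x by linarith)
        linarith
      nlinarith
    have g2 : 0 ≤ (Y - Y1) * (Real.exp (2 * x) * Y1 - Z) := by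
      apply mul_nonneg (by linarith)
      nlinarith
    have e3 : (Y - Y1) * (Real.exp (2 * x) * Y1 - Z)
        = Y1 * (Real.exp (2 * x) * (Y - Y1) - (Z1 - Z)) := by
      have : Z * Y = Z1 * Y1 := by rw [hrel, ← hrel1]; ring
      linear_combination (-1) * this
    rw [e3] at g2
    have g3 : 0 ≤ Real.exp (2 * x) * (Y - Y1) - (Z1 - Z) := nonneg_of_mul_nonneg_right g2 hY1pos
    rw [hBB, hUU]
    nlinarith

/-- (SE) for all `η`, `p`-integral: if `ux, uy ≤ 0`, `ux uy = ψ + c`, `c ≤ 0` and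
`uy - ux = η ((ψ+ω)/2 + c)` then `-c ≤ k2E η + kE η * ux` (`= ∫₀¹ p/a dt`). -/
theorem SE_p {η ux uy c : ℝ} (hux : ux ≤ 0) (huy : uy ≤ 0) (hc : c ≤ 0)
    (h1 : ux * uy = PsiE η + c) (h2 : uy - ux = η * ((PsiE η + OmE η) / 2 + c)) :
    -c ≤ k2E η + kE η * ux := by
  by_cases hne : η = 0
  · subst hne
    have e : uy = ux := by linarith
    rw [e] at h1
    have h3 : PsiE 0 = 1 / 6 := by simp [PsiE]
    have h4 : k2E 0 = 1 / 2 := by simp [k2E]
    have h5 : kE 0 = 1 := by simp [kE]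
    rw [h3] at h1
    rw [h4, h5]
    nlinarith [sq_nonneg (ux + 1 / 2)]
  · have hψ := sq_PsiE hne
    have hΛ := LamE_eq hne
    have hrel : (1 - η * ux) * (1 + η * uy) = LamE η := by
      unfold LamE
      linear_combination η * h2 - η ^ 2 * h1
    have hk : η * kE η = 1 - Real.exp (-η) := by
      unfold kE; simp only [hne, if_false]; field_simp
    have hk2 : η ^ 2 * k2E η = η - (1 - Real.exp (-η)) := by
      rw [← hk]; unfold k2E; simp only [hne, if_false]; field_simp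
    have hη2 : 0 < η ^ 2 := by positivity
    suffices hh : η ^ 2 * (-c) ≤ η ^ 2 * (k2E η + kE η * ux) from le_of_mul_le_mul_left hh hη2
    have e1 : η ^ 2 * (k2E η + kE η * ux) = η - (1 - Real.exp (-η)) * (1 - η * ux) := by
      rw [mul_add, hk2]
      linear_combination (η * ux) * hk
    rw [e1]
    rcases lt_or_gt_of_ne hne with hneg | hpos
    · -- η < 0 : x = -η/2, B = -(−η) uy... roles exchanged
      have habs : |η| / 2 = -η / 2 := by rw [abs_of_neg hneg]
      rw [habs] at hψ hΛ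
      have hxp : 0 < -η / 2 := by linarith
      have hB : 0 ≤ η * uy := by nlinarith
      have hSE := (SE_core hxp (B := η * uy) (B' := η * ux) hB
        (by rw [← hΛ, ← hrel]; ring) (by rw [← hψ]; nlinarith)).2
      have e2 : 2 * (-η / 2) = -η := by ring
      rw [e2, ← hψ] at hSE
      nlinarith
    · have habs : |η| / 2 = η / 2 := by rw [abs_of_pos hpos]
      rw [habs] at hψ hΛ
      have hxp : 0 < η / 2 := by linarith
      have hB : 0 ≤ -(η * ux) := by nlinarith
      have hSE := (SE_core hxp (B := -(η * ux)) (B' := -(η * uy)) hB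
        (by rw [← hΛ, ← hrel]; ring) (by rw [← hψ]; nlinarith)).1
      have e2 : 2 * (η / 2) = η := by ring
      rw [e2, ← hψ] at hSE
      nlinarith

/-- (SE), `r`-integral. -/
theorem SE_r {η ux uy c : ℝ} (hux : ux ≤ 0) (huy : uy ≤ 0) (hc : c ≤ 0)
    (h1 : ux * uy = PsiE η + c) (h2 : uy - ux = η * ((PsiE η + OmE η) / 2 + c)) :
    -c ≤ k2E (-η) + kE (-η) * uy := by
  apply SE_p (η := -η) (ux := uy) (uy := ux) huy hux hc
  · rw [PsiE_neg]; linarith
  · rw [PsiE_neg, OmE_neg]; linarith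

end Pool.Agent.MPb5407d
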