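import Pool.Agent.Work.MP_b5407d_gt.Slc

/-!
# MP_b5407d_gt: section 5 of note 1887, scaled coordinates (`v = w = 1`), sets (helper13)
-/

namespace Pool.Agent.MPb5407d

open Real MeasureTheory Set

/-! ### (a) the scaling inequality -/

/-- for compact convex `K`, `z0 ∈ K`: `∫_K (s - s0) e^{-s} ≤ 2 ∫_K e^{-s}`, `s = v x + w y`. -/
theorem scaling_ineq {K : Set (ℝ × ℝ)} (hK : IsCompact K) (hKc : Convex ℝ K) {z0 : ℝ × ℝ}
    (hz0 : z0 ∈ K) (v w : ℝ) :
    ∫ z in K, ((v * z.1 + w * z.2) - (v * z0.1 + w * z0.2)) * Real.exp (-(v * z.1 + w * z.2))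
      ≤ 2 * ∫ z in K, Real.exp (-(v * z.1 + w * z.2)) := by
  set s : ℝ × ℝ → ℝ := fun z => v * z.1 + w * z.2 with hs
  have hsc : Continuous s := by rw [hs]; fun_prop
  set J := ∫ z in K, Real.exp (-(s z)) with hJ
  set I := ∫ z in K, (s z - s z0) * Real.exp (-(s z)) with hI
  change I ≤ 2 * J
  have hcont1 : Continuous fun z => Real.exp (-(s z)) := by fun_prop
  have hcont2 : Continuous fun z => (s z - s z0) * Real.exp (-(s z)) := by fun_prop
  have hi1 : IntegrableOn (fun z => Real.exp (-(s z))) K :=
    hcont1.continuousOn.integrableOn_compact hK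
  have hi2 : IntegrableOn (fun z => (s z - s z0) * Real.exp (-(s z))) K :=
    hcont2.continuousOn.integrableOn_compact hK
  have key : ∀ t : ℝ, 0 < t → t < 1 → t ^ 2 * I ≤ (1 + t) * J := by
    intro t ht0 ht1
    set T : ℝ × ℝ → ℝ × ℝ := fun z => (1 - t) • z0 + t • z with hT
    have hTK : ∀ z ∈ K, T z ∈ K := by
      intro z hz
      exact hKc hz0 hz (by linarith) ht0.le (by ring)
    set g : ℝ × ℝ → ℝ := K.indicator fun z => Real.exp (-(s z)) with hg
    have hg0 : ∀ z, 0 ≤ g z := fun z => indicator_nonneg (fun _ _ => (Real.exp_pos _).le) z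
    have hgi : Integrable g := by
      rw [hg, integrable_indicator_iff hK.measurableSet]; exact hi1
    -- ∫ g (T z) = t⁻² J
    have h1 : ∫ z, g (T z) = (t ^ 2)⁻¹ * J := by
      have e1 : ∫ z : ℝ × ℝ, g ((1 - t) • z0 + t • z)
          = |(t ^ Module.finrank ℝ (ℝ × ℝ))⁻¹| • ∫ z : ℝ × ℝ, g ((1 - t) • z0 + z) :=
        Measure.integral_comp_smul volume (fun z => g ((1 - t) • z0 + z)) t
      rw [hT]
      rw [e1, integral_add_left_eq_self (μ := volume) g ((1 - t) • z0)]
      have e2 : Module.finrank ℝ (ℝ × ℝ) = 2 := by simp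
      rw [e2, abs_of_pos (by positivity), smul_eq_mul]
      congr 1
      rw [hg, integral_indicator hK.measurableSet]
    have hgTi : Integrable fun z => g (T z) := by
      have e1 : Integrable fun z : ℝ × ℝ => g ((1 - t) • z0 + z) :=
        hgi.comp_add_left _
      exact (integrable_comp_smul_iff volume (fun z => g ((1 - t) • z0 + z)) ht0.ne').mpr e1
    -- lower bound
    have h2 : J + (1 - t) * I ≤ ∫ z, g (T z) := by
      have e1 : J + (1 - t) * I
          = ∫ z in K, (Real.exp (-(s z)) + (1 - t) * ((s z - s z0) * Real.exp (-(s z)))) := by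
        rw [integral_add hi1 (hi2.const_mul _), integral_const_mul]
      rw [e1, ← integral_indicator hK.measurableSet]
      apply integral_mono
      · rw [integrable_indicator_iff hK.measurableSet]
        exact hi1.add (hi2.const_mul _)
      · exact hgTi
      · intro z
        by_cases hz : z ∈ K
        · rw [indicator_of_mem hz]
          have : g (T z) = Real.exp (-(s (T z))) := by
            rw [hg, indicator_of_mem (hTK z hz)]
          simp only
          rw [this]
          have e2 : s (T z) = (1 - t) * s z0 + t * s z := by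
            rw [hs, hT]; simp only [Prod.fst_add, Prod.snd_add, Prod.smul_fst, Prod.smul_snd,
              smul_eq_mul]; ring
          have e3 : -(s (T z)) = -(s z) + (1 - t) * (s z - s z0) := by rw [e2]; ring
          rw [e3, Real.exp_add]
          have h3 := Real.add_one_le_exp ((1 - t) * (s z - s z0))
          have h4 := mul_le_mul_of_nonneg_left h3 (Real.exp_pos (-(s z))).le
          linarith
        · rw [indicator_of_notMem hz]
          exact hg0 _
    rw [h1] at h2
    have h3 : t ^ 2 * (J + (1 - t) * I) ≤ J := by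
      have := mul_le_mul_of_nonneg_left h2 (show 0 ≤ t ^ 2 by positivity)
      rwa [← mul_assoc, mul_inv_cancel₀ (by positivity : t ^ 2 ≠ 0), one_mul] at this
    have h4 : (1 - t) * (t ^ 2 * I) ≤ (1 - t) * ((1 + t) * J) := by nlinarith
    exact le_of_mul_le_mul_left h4 (by linarith)
  have hlim1 : Filter.Tendsto (fun t : ℝ => t ^ 2 * I) (nhdsWithin 1 (Iio 1)) (nhds (1 ^ 2 * I)) :=
    ((continuous_id.pow 2).mul continuous_const).continuousAt.continuousWithinAt
  have hlim2 : Filter.Tendsto (fun t : ℝ => (1 + t) * J) (nhdsWithin 1 (Iio 1))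
      (nhds ((1 + 1) * J)) :=
    ((continuous_const.add continuous_id).mul continuous_const).continuousAt.continuousWithinAt
  have hev : ∀ᶠ t : ℝ in nhdsWithin 1 (Iio 1), t ^ 2 * I ≤ (1 + t) * J := by
    have : Ioo (0:ℝ) 1 ∈ nhdsWithin (1:ℝ) (Iio 1) := Ioo_mem_nhdsLT (by norm_num)
    filter_upwards [this] with t ht
    exact key t ht.1 ht.2
  have := le_of_tendsto_of_tendsto hlim1 hlim2 hev
  linarith

/-! ### the triangle -/

def Tri (al be : ℝ) : Set (ℝ × ℝ) := {z | 0 ≤ z.1 ∧ 0 ≤ z.2 ∧ be * z.1 + al * z.2 ≤ al * be}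

theorem Tri_compact {al be : ℝ} (hbe : 0 < be) (hle : be ≤ al) : IsCompact (Tri al be) := by
  have hal : 0 < al := lt_of_lt_of_le hbe hle
  have hclosed : IsClosed (Tri al be) := by
    have h1 : IsClosed {z : ℝ × ℝ | 0 ≤ z.1} := isClosed_le continuous_const continuous_fst
    have h2 : IsClosed {z : ℝ × ℝ | 0 ≤ z.2} := isClosed_le continuous_const continuous_snd
    have h3 : IsClosed {z : ℝ × ℝ | be * z.1 + al * z.2 ≤ al * be} :=
      isClosed_le (by fun_prop) continuous_const
    exact h1.inter (h2.inter h3)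
  apply (isCompact_Icc (a := ((0:ℝ), (0:ℝ))) (b := (al, be))).of_isClosed_subset hclosed
  rintro ⟨x, y⟩ ⟨h1, h2, h3⟩
  simp only at h1 h2 h3
  constructor
  · exact ⟨h1, h2⟩
  · constructor
    · have : be * x ≤ be * al := by nlinarith [mul_nonneg hal.le h2]
      exact le_of_mul_le_mul_left this hbe
    · have : al * y ≤ al * be := by nlinarith [mul_nonneg hbe.le h1]
      exact le_of_mul_le_mul_left this hal

theorem Tri_sum_le {al be : ℝ} (hbe : 0 < be) (hle : be ≤ al) {z : ℝ × ℝ} (hz : z ∈ Tri al be) :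
    z.1 + z.2 ≤ al := by
  obtain ⟨h1, h2, h3⟩ := hz
  have hal : 0 < al := lt_of_lt_of_le hbe hle
  have : be * (z.1 + z.2) ≤ be * al := by nlinarith
  exact le_of_mul_le_mul_left this hbe

theorem slc_Tri_low {al be s : ℝ} (hbe : 0 < be) (hle : be ≤ al) (h0 : 0 ≤ s) (h1 : s ≤ be) :
    slc (Tri al be) s = s := by
  have e : slcSet (Tri al be) s = Icc 0 s := by
    ext X
    constructor
    · rintro ⟨h2, h3, h4⟩
      simp only at h2 h3 h4
      exact ⟨h2, by linarith⟩
    · rintro ⟨h2, h3⟩
      refine ⟨h2, by simp only; linarith, ?_⟩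
      simp only
      have hal : 0 < al := lt_of_lt_of_le hbe hle
      have h5 : al * s ≤ al * be := mul_le_mul_of_nonneg_left h1 hal.le
      have h6 : 0 ≤ (al - be) * X := mul_nonneg (by linarith) h2
      linarith
  rw [slc_of_Icc e h0]; ring

theorem slc_Tri_high {al be s : ℝ} (hbe : 0 < be) (hle : be ≤ al) (h1 : be < s) :
    slc (Tri al be) s = triR al be s := by
  have hal : 0 < al := lt_of_lt_of_le hbe hle
  rcases hle.eq_or_lt with h | h
  · -- al = be
    have e : slcSet (Tri al be) s = ∅ := by
      ext X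
      simp only [mem_empty_iff_false, iff_false]
      rintro ⟨h2, h3, h4⟩
      simp only at h2 h3 h4
      rw [← h] at h4
      have : be * s ≤ be * be := by nlinarith
      have := le_of_mul_le_mul_left this hbe
      linarith
    unfold slc triR
    rw [e, ← h]; simp
  · have hd : 0 < al - be := by linarith
    rcases le_or_gt s al with hs | hs
    · have e : slcSet (Tri al be) s = Icc (al * (s - be) / (al - be)) s := by
        ext X
        constructor
        · rintro ⟨h2, h3, h4⟩
          simp only at h2 h3 h4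
          refine ⟨?_, by linarith⟩
          rw [div_le_iff₀ hd]
          nlinarith
        · rintro ⟨h2, h3⟩
          rw [div_le_iff₀ hd] at h2
          have hX : 0 ≤ X := by
            have : 0 ≤ al * (s - be) := by
              have : 0 ≤ s - be := by linarith
              positivity
            have h5 : 0 ≤ X * (al - be) := by linarith
            exact nonneg_of_mul_nonneg_left h5 hd
          refine ⟨hX, by simp only; linarith, ?_⟩
          simp only
          nlinarith
      have hab : al * (s - be) / (al - be) ≤ s := by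
        rw [div_le_iff₀ hd]; nlinarith
      rw [slc_of_Icc e hab]
      unfold triR
      have h5 : 0 ≤ be * (al - s) / (al - be) := by
        apply div_nonneg (mul_nonneg hbe.le (by linarith)) hd.le
      rw [max_eq_right h5]
      field_simp
      ring
    · have e : slcSet (Tri al be) s = ∅ := by
        ext X
        simp only [mem_empty_iff_false, iff_false]
        intro hX
        have := Tri_sum_le hbe hle hX
        simp only at this
        linarith
      unfold slc
      rw [e]
      unfold triR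
      have h5 : be * (al - s) / (al - be) ≤ 0 := by
        apply div_nonpos_of_nonpos_of_nonneg _ hd.le
        nlinarith
      rw [max_eq_left h5]; simp

/-- Hypotheses of section 5. -/
structure S5Hyp (K K' : Set (ℝ × ℝ)) (al be μ : ℝ) : Prop where
  hK'c : IsCompact K'
  hK'v : Convex ℝ K'
  hquad : ∀ z ∈ K', 0 ≤ z.1 ∧ 0 ≤ z.2
  hO : ((0:ℝ), (0:ℝ)) ∈ K'
  hKc : IsCompact K
  hKv : Convex ℝ K
  hsub : K ⊆ K'
  hdiff : K' \ K ⊆ Tri al be
  hT : (al, (0:ℝ)) ∈ K
  hS : ((0:ℝ), be) ∈ K
  hbe : 0 < be
  hle : be ≤ al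
  hmu : 1 < μ
  hmean : 0 ≤ ∫ z in K, (z.1 + z.2 - (al + be) / 2 - μ) * Real.exp (-(z.1 + z.2))
  hJ : 0 < ∫ z in K, Real.exp (-(z.1 + z.2))

namespace S5Hyp

variable {K K' : Set (ℝ × ℝ)} {al be μ : ℝ} (h : S5Hyp K K' al be μ)
include h

/-- (a) -/
theorem C1 : al - be + 2 * μ ≤ 4 := by
  have h1 := scaling_ineq h.hKc h.hKv h.hS 1 1
  simp only [one_mul, zero_add] at h1
  have hcont : Continuous fun z : ℝ × ℝ => Real.exp (-(z.1 + z.2)) := by fun_prop
  have hi1 : IntegrableOn (fun z : ℝ × ℝ => Real.exp (-(z.1 + z.2))) K :=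
    hcont.continuousOn.integrableOn_compact h.hKc
  have hi2 : IntegrableOn (fun z : ℝ × ℝ => (z.1 + z.2 - be) * Real.exp (-(z.1 + z.2))) K :=
    (by fun_prop : Continuous fun z : ℝ × ℝ =>
      (z.1 + z.2 - be) * Real.exp (-(z.1 + z.2))).continuousOn.integrableOn_compact h.hKc
  have h2 := h.hmean
  have e : ∫ z in K, (z.1 + z.2 - (al + be) / 2 - μ) * Real.exp (-(z.1 + z.2))
      = (∫ z in K, (z.1 + z.2 - be) * Real.exp (-(z.1 + z.2)))
        - ((al - be) / 2 + μ) * ∫ z in K, Real.exp (-(z.1 + z.2)) := by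
    rw [← integral_const_mul, ← integral_sub hi2 (hi1.const_mul _)]
    congr 1
    funext z
    ring
  rw [e] at h2
  have hJ := h.hJ
  set J := ∫ z in K, Real.exp (-(z.1 + z.2))
  have h3 : ((al - be) / 2 + μ) * J ≤ 2 * J := by linarith
  have := le_of_mul_le_mul_right h3 hJ
  linarith

theorem hal : 0 < al := lt_of_lt_of_le h.hbe h.hle

theorem tri_sub : Tri al be ⊆ K' := by
  rintro z ⟨h1, h2, h3⟩
  have hal := h.hal
  have hbe := h.hbe
  -- z = (z1/al) (al,0) + (z2/be) (0,be) + rest * O
  set p := z.1 / al with hp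
  set q := z.2 / be with hq
  have hp0 : 0 ≤ p := div_nonneg h1 hal.le
  have hq0 : 0 ≤ q := div_nonneg h2 hbe.le
  have hpq : p + q ≤ 1 := by
    rw [hp, hq, div_add_div _ _ hal.ne' hbe.ne', div_le_one (by positivity)]
    linarith
  have hT' := h.hsub h.hT
  have hS' := h.hsub h.hS
  -- first combination of T and O
  rcases hq0.eq_or_lt with h0 | h0
  · have hz2 : z.2 = 0 := by
      have : z.2 = q * be := by rw [hq]; field_simp
      rw [this, ← h0]; ring
    have := h.hK'v hT' h.hO hp0 (show 0 ≤ 1 - p by linarith) (by ring)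
    have e : p • (al, (0:ℝ)) + (1 - p) • ((0:ℝ), (0:ℝ)) = z := by
      ext
      · simp [hp]; field_simp
      · simp [hz2]
    rwa [e] at this
  · have h4 : 0 < p + q := by linarith
    have h5 : p / (p + q) + q / (p + q) = 1 := by field_simp
    have h6 := h.hK'v hT' hS' (div_nonneg hp0 h4.le) (div_nonneg hq0 h4.le) h5
    have h7 := h.hK'v h6 h.hO h4.le (show 0 ≤ 1 - (p + q) by linarith) (by ring)
    have e : (p + q) • ((p / (p + q)) • (al, (0:ℝ)) + (q / (p + q)) • ((0:ℝ), be))
        + (1 - (p + q)) • ((0:ℝ), (0:ℝ)) = z := by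
      ext
      · simp only [Prod.fst_add, Prod.smul_fst, smul_eq_mul, mul_zero, add_zero]
        have : z.1 = p * al := by rw [hp]; field_simp
        rw [this]; field_simp
      · simp only [Prod.snd_add, Prod.smul_snd, smul_eq_mul, mul_zero, add_zero, zero_add]
        have : z.2 = q * be := by rw [hq]; field_simp
        rw [this]; field_simp
    rwa [e] at h7

theorem slc_le {s : ℝ} (hs : 0 ≤ s) : slc K' s ≤ s := by
  unfold slc
  have hsub : slcSet K' s ⊆ Icc 0 s := by
    intro X hX
    have := h.hquad _ hX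
    simp only at this
    exact ⟨this.1, by linarith [this.2]⟩
  have h1 : (volume (slcSet K' s)).toReal ≤ (volume (Icc 0 s)).toReal := by
    apply ENNReal.toReal_mono _ (measure_mono hsub)
    rw [Real.volume_Icc]; exact ENNReal.ofReal_ne_top
  rw [Real.volume_Icc, ENNReal.toReal_ofReal (by linarith)] at h1
  linarith

theorem slc_neg {s : ℝ} (hs : s < 0) : slc K' s = 0 := by
  have e : slcSet K' s = ∅ := by
    ext X
    simp only [mem_empty_iff_false, iff_false]
    intro hX
    have := h.hquad _ hX
    simp only at this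
    linarith [this.1, this.2]
  unfold slc; rw [e]; simp

/-- the top. -/
theorem exists_top : ∃ H, al ≤ H ∧ (∀ z ∈ K', z.1 + z.2 ≤ H) ∧
    ∀ s, 0 ≤ s → s ≤ H → (slcSet K' s).Nonempty := by
  have hcont : Continuous fun z : ℝ × ℝ => z.1 + z.2 := by fun_prop
  obtain ⟨z, hz, hmax⟩ := h.hK'c.exists_isMaxOn ⟨_, h.hO⟩ hcont.continuousOn
  refine ⟨z.1 + z.2, ?_, fun w hw => hmax hw, ?_⟩
  · have := hmax (h.hsub h.hT)
    simp only [mem_setOf_eq] at this
    linarith
  · intro s hs0 hs1
    have hal := h.hal
    have hH : 0 < z.1 + z.2 := by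
      have := hmax (h.hsub h.hT)
      simp only [mem_setOf_eq] at this
      linarith
    have h1 := h.hK'v hz h.hO (div_nonneg hs0 hH.le)
      (show 0 ≤ 1 - s / (z.1 + z.2) by
        have : s / (z.1 + z.2) ≤ 1 := by rw [div_le_one hH]; exact hs1
        linarith) (by ring)
    refine ⟨s / (z.1 + z.2) * z.1, ?_⟩
    have e : (s / (z.1 + z.2)) • z + (1 - s / (z.1 + z.2)) • ((0:ℝ), (0:ℝ))
        = (s / (z.1 + z.2) * z.1, -(s / (z.1 + z.2) * z.1) + s) := by
      ext
      · simp
      · simp only [Prod.snd_add, Prod.smul_snd, smul_eq_mul, mul_zero, add_zero]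
        field_simp
        ring
    rw [e] at h1
    exact h1

/-- difference of the slice functions. -/
theorem slc_sub_eq {H : ℝ} (hH : ∀ z ∈ K', z.1 + z.2 ≤ H) (φ : ℝ → ℝ) :
    (fun s => φ s * slc K' s - φ s * slc (Tri al be) s)
      = (Ioc be H).indicator fun s => (slc K' s - triR al be s) * φ s := by
  funext s
  have hbe := h.hbe
  by_cases hs : s ∈ Ioc be H
  · rw [indicator_of_mem hs, slc_Tri_high hbe h.hle hs.1]; ring
  · rw [indicator_of_notMem hs]
    rcases lt_or_ge s 0 with h1 | h1
    · have h2 := slc_mono h.hK'c h.tri_sub s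
      rw [h.slc_neg h1] at h2 ⊢
      have h3 : slc (Tri al be) s = 0 := le_antisymm h2 (slc_nonneg _ _)
      rw [h3]; ring
    · rcases le_or_gt s be with h2 | h2
      · have h3 := slc_Tri_low hbe h.hle h1 h2
        have h4 := slc_mono h.hK'c h.tri_sub s
        have h5 := h.slc_le h1
        rw [h3] at h4 ⊢
        have : slc K' s = s := le_antisymm h5 h4
        rw [this]; ring
      · have h3 : H < s := by
          by_contra hc
          push Not at hc
          exact hs ⟨h2, hc⟩
        have e : slcSet K' s = ∅ := by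
          ext X
          simp only [mem_empty_iff_false, iff_false]
          intro hX
          have := hH _ hX
          simp only at this
          linarith
        have h4 : slc K' s = 0 := by unfold slc; rw [e]; simp
        have h5 := slc_mono h.hK'c h.tri_sub s
        rw [h4] at h5 ⊢
        have h6 : slc (Tri al be) s = 0 := le_antisymm h5 (slc_nonneg _ _)
        rw [h6]; ring

/-- `∫_{K'} φ - ∫_{Tri} φ = ∫_be^H (k - triR) φ`. -/
theorem int_sub {H : ℝ} (hbeH : be ≤ H) (hH : ∀ z ∈ K', z.1 + z.2 ≤ H) {φ : ℝ → ℝ}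
    (hφ : Continuous φ) :
    (∫ z in K', φ (z.1 + z.2)) - ∫ z in Tri al be, φ (z.1 + z.2)
      = ∫ s in be..H, (slc K' s - triR al be s) * φ s := by
  have hTc := Tri_compact h.hbe h.hle
  rw [slice_integral h.hK'c hφ, slice_integral hTc hφ,
    ← integral_sub (slice_integrable h.hK'c hφ) (slice_integrable hTc hφ)]
  rw [h.slc_sub_eq hH φ, integral_indicator measurableSet_Ioc,
    intervalIntegral.integral_of_le hbeH]

/-- `∫_K φ` against `∫_{K'} φ - ∫_{Tri} φ`. -/
theorem int_K {φ : ℝ → ℝ} (hφ : Continuous φ) :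
    ∫ z in K, φ (z.1 + z.2) = ((∫ z in K', φ (z.1 + z.2)) - ∫ z in Tri al be, φ (z.1 + z.2))
      + ∫ z in K ∩ Tri al be, φ (z.1 + z.2) := by
  have hTc := Tri_compact h.hbe h.hle
  have hc : Continuous fun z : ℝ × ℝ => φ (z.1 + z.2) := by fun_prop
  have hi : IntegrableOn (fun z : ℝ × ℝ => φ (z.1 + z.2)) K' :=
    hc.continuousOn.integrableOn_compact h.hK'c
  have e1 : ∫ z in K' \ Tri al be, φ (z.1 + z.2)
      = (∫ z in K', φ (z.1 + z.2)) - ∫ z in Tri al be, φ (z.1 + z.2) :=
    integral_diff hTc.measurableSet hi h.tri_sub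
  have e2 : K \ Tri al be = K' \ Tri al be := by
    ext z
    constructor
    · rintro ⟨h1, h2⟩; exact ⟨h.hsub h1, h2⟩
    · rintro ⟨h1, h2⟩
      refine ⟨?_, h2⟩
      by_contra h3
      exact h2 (h.hdiff ⟨h1, h3⟩)
  have e3 := integral_inter_add_diff (s := K) (t := Tri al be)
    (f := fun z : ℝ × ℝ => φ (z.1 + z.2)) (μ := volume) hTc.measurableSet
    (hi.mono_set h.hsub)
  rw [e2, e1] at e3
  linarith

/-- the hypothesis of `slice_main`. -/
theorem slice_hyp {H : ℝ} (hbeH : be ≤ H) (hH : ∀ z ∈ K', z.1 + z.2 ≤ H) :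
    0 < ∫ s in be..H, (slc K' s - triR al be s)
      * ((s - (al + be) / 2 - 1) * Real.exp (-s)) := by
  have hφ : Continuous fun s : ℝ => (s - (al + be) / 2 - 1) * Real.exp (-s) := by fun_prop
  have h1 := h.int_sub hbeH hH hφ
  rw [← h1]
  have h2 := h.int_K hφ
  have h3 : ∫ z in K ∩ Tri al be, ((z.1 + z.2) - (al + be) / 2 - 1) * Real.exp (-(z.1 + z.2))
      ≤ 0 := by
    apply setIntegral_nonpos (h.hKc.measurableSet.inter (Tri_compact h.hbe h.hle).measurableSet)
    rintro z ⟨_, hz⟩
    have h4 := Tri_sum_le h.hbe h.hle hz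
    have h5 := h.C1
    have h6 := h.hmu
    apply mul_nonpos_of_nonpos_of_nonneg _ (Real.exp_pos _).le
    linarith
  have h4 : 0 < ∫ z in K, ((z.1 + z.2) - (al + be) / 2 - 1) * Real.exp (-(z.1 + z.2)) := by
    have hi1 : IntegrableOn (fun z : ℝ × ℝ => Real.exp (-(z.1 + z.2))) K :=
      (by fun_prop : Continuous fun z : ℝ × ℝ =>
        Real.exp (-(z.1 + z.2))).continuousOn.integrableOn_compact h.hKc
    have hi2 : IntegrableOn (fun z : ℝ × ℝ =>
        (z.1 + z.2 - (al + be) / 2 - μ) * Real.exp (-(z.1 + z.2))) K :=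
      (by fun_prop : Continuous fun z : ℝ × ℝ =>
        (z.1 + z.2 - (al + be) / 2 - μ)
          * Real.exp (-(z.1 + z.2))).continuousOn.integrableOn_compact h.hKc
    have e : ∫ z in K, ((z.1 + z.2) - (al + be) / 2 - 1) * Real.exp (-(z.1 + z.2))
        = (∫ z in K, (z.1 + z.2 - (al + be) / 2 - μ) * Real.exp (-(z.1 + z.2)))
          + (μ - 1) * ∫ z in K, Real.exp (-(z.1 + z.2)) := by
      rw [← integral_const_mul, ← integral_add hi2 (hi1.const_mul _)]
      congr 1
      funext z
      ring
    rw [e]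
    have h5 := h.hmean
    have h6 : 0 < (μ - 1) * ∫ z in K, Real.exp (-(z.1 + z.2)) :=
      mul_pos (by linarith [h.hmu]) h.hJ
    linarith
  linarith

theorem slc_ge_low {s : ℝ} (h0 : 0 ≤ s) (h1 : s ≤ be) : s ≤ slc K' s := by
  have h3 := slc_Tri_low h.hbe h.hle h0 h1
  have h4 := slc_mono h.hK'c h.tri_sub s
  linarith

theorem slice_concl {H : ℝ} (halH : al ≤ H) (hH : ∀ z ∈ K', z.1 + z.2 ≤ H)
    (hne : ∀ s, 0 ≤ s → s ≤ H → (slcSet K' s).Nonempty) :
    be * Real.exp (-be) ≤ ∫ s in be..H, slc K' s * Real.exp (-s) := by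
  have hbeH : be ≤ H := h.hle.trans halH
  apply slice_main h.hbe h.hle halH rfl
  · exact slc_concave h.hK'c h.hK'v fun s hs => hne s (by linarith [hs.1, h.hbe]) hs.2
  · exact h.slc_ge_low h.hbe.le le_rfl
  · intro s hs
    rcases hs.1.eq_or_lt with h1 | h1
    · rw [← h1]
      have h2 := h.slc_ge_low h.hbe.le le_rfl
      have h3 : triR al be be ≤ be := by
        unfold triR
        apply max_le h.hbe.le
        rcases h.hle.eq_or_lt with h4 | h4
        · rw [← h4]; simp [h.hbe.le]
        · have : 0 < al - be := by linarith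
          apply le_of_eq; field_simp
      linarith
    · have h2 := slc_Tri_high h.hbe h.hle h1
      have h3 := slc_mono h.hK'c h.tri_sub s
      linarith
  · exact (slc_integrable h.hK'c).intervalIntegrable
  · exact h.slice_hyp hbeH hH

/-- `∫_{K'} e^{-s}` split. -/
theorem J'_eq {H : ℝ} (hH0 : 0 ≤ H) (hH : ∀ z ∈ K', z.1 + z.2 ≤ H) :
    ∫ z in K', Real.exp (-(z.1 + z.2)) = ∫ s in (0:ℝ)..H, slc K' s * Real.exp (-s) := by
  have hφ : Continuous fun s : ℝ => Real.exp (-s) := by fun_prop
  rw [slice_integral h.hK'c hφ, intervalIntegral.integral_of_le hH0,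
    ← integral_indicator measurableSet_Ioc]
  apply integral_congr_ae
  have h0 : ∀ᵐ s : ℝ, s ≠ 0 := by
    simp [ae_iff, measure_singleton]
  filter_upwards [h0] with s hs0
  by_cases hs : s ∈ Ioc 0 H
  · rw [indicator_of_mem hs]; ring
  · rw [indicator_of_notMem hs]
    have : slc K' s = 0 := by
      rcases lt_or_gt_of_ne hs0 with h1 | h1
      · exact h.slc_neg h1
      · have h3 : H < s := by
          by_contra hc
          push Not at hc
          exact hs ⟨h1, hc⟩
        have e : slcSet K' s = ∅ := by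
          ext X
          simp only [mem_empty_iff_false, iff_false]
          intro hX
          have := hH _ hX
          simp only at this
          linarith
        unfold slc; rw [e]; simp
    rw [this]; ring

theorem int_s_exp (u z : ℝ) : ∫ s in u..z, s * Real.exp (-s)
    = (1 + u) * Real.exp (-u) - (1 + z) * Real.exp (-z) := by
  clear h
  have hd : ∀ s ∈ Set.uIcc u z, HasDerivAt (fun s : ℝ => -((1 + s) * Real.exp (-s)))
      (s * Real.exp (-s)) s := by
    intro s _
    have h1 : HasDerivAt (fun s : ℝ => 1 + s) 1 s := (hasDerivAt_id s).const_add 1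
    have h2 : HasDerivAt (fun s : ℝ => Real.exp (-s)) (Real.exp (-s) * (-1)) s :=
      ((hasDerivAt_id s).fun_neg).exp
    refine HasDerivAt.congr_deriv (h1.fun_mul h2).fun_neg ?_
    ring
  rw [intervalIntegral.integral_eq_sub_of_hasDerivAt hd
    (by apply Continuous.intervalIntegrable; fun_prop)]
  ring

/-- (b) -/
theorem C2 : 1 - Real.exp (-be) ≤ ∫ z in K', Real.exp (-(z.1 + z.2)) := by
  obtain ⟨H, halH, hH, hne⟩ := h.exists_top
  have hbe := h.hbe
  have hbeH : be ≤ H := h.hle.trans halH
  have h1 := h.slice_concl halH hH hne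
  have hexp : Continuous fun s : ℝ => Real.exp (-s) := by fun_prop
  rw [h.J'_eq (by linarith) hH]
  have hi : ∀ u z : ℝ, IntervalIntegrable (fun s => slc K' s * Real.exp (-s)) volume u z :=
    fun u z => ((slc_integrable h.hK'c).intervalIntegrable).mul_continuousOn hexp.continuousOn
  rw [← intervalIntegral.integral_add_adjacent_intervals (hi 0 be) (hi be H)]
  have h2 : ∫ s in (0:ℝ)..be, s * Real.exp (-s) ≤ ∫ s in (0:ℝ)..be, slc K' s * Real.exp (-s) := by
    apply intervalIntegral.integral_mono_on hbe.le _ (hi 0 be)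
    · intro s hs
      exact mul_le_mul_of_nonneg_right (h.slc_ge_low hs.1 hs.2) (Real.exp_pos _).le
    · apply Continuous.intervalIntegrable; fun_prop
  rw [h.int_s_exp] at h2
  simp only [neg_zero, Real.exp_zero] at h2
  linarith

/-- `J' < 1` -/
theorem C5 : ∫ z in K', Real.exp (-(z.1 + z.2)) < 1 := by
  obtain ⟨H, halH, hH, hne⟩ := h.exists_top
  have hal := h.hal
  have hH0 : 0 < H := by linarith
  have hexp : Continuous fun s : ℝ => Real.exp (-s) := by fun_prop
  rw [h.J'_eq hH0.le hH]
  have h2 : ∫ s in (0:ℝ)..H, slc K' s * Real.exp (-s) ≤ ∫ s in (0:ℝ)..H, s * Real.exp (-s) := by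
    apply intervalIntegral.integral_mono_on hH0.le
    · exact ((slc_integrable h.hK'c).intervalIntegrable).mul_continuousOn hexp.continuousOn
    · apply Continuous.intervalIntegrable; fun_prop
    · intro s hs
      exact mul_le_mul_of_nonneg_right (h.slc_le hs.1) (Real.exp_pos _).le
  rw [h.int_s_exp] at h2
  simp only [neg_zero, Real.exp_zero] at h2
  have := Real.exp_pos (-H)
  nlinarith

/-- `J_K ≥ be e^{-M} sinh x/x`. -/
theorem C3 : be * Real.exp (-((al + be) / 2)) * shc ((al - be) / 2)
    ≤ ∫ z in K, Real.exp (-(z.1 + z.2)) := by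
  obtain ⟨H, halH, hH, hne⟩ := h.exists_top
  have hbe := h.hbe
  have hbeH : be ≤ H := h.hle.trans halH
  have h1 := h.slice_concl halH hH hne
  have hexp : Continuous fun s : ℝ => Real.exp (-s) := by fun_prop
  have h2 := h.int_K (φ := fun s => Real.exp (-s)) hexp
  have h3 : 0 ≤ ∫ z in K ∩ Tri al be, Real.exp (-(z.1 + z.2)) :=
    integral_nonneg fun _ => (Real.exp_pos _).le
  have h4 := h.int_sub hbeH hH (φ := fun s => Real.exp (-s)) hexp
  have htc := triR_cont al be
  have i1 : IntervalIntegrable (fun s => slc K' s * Real.exp (-s)) volume be H :=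
    ((slc_integrable h.hK'c).intervalIntegrable).mul_continuousOn hexp.continuousOn
  have i2 : ∀ u z : ℝ, IntervalIntegrable (fun s => triR al be s * Real.exp (-s)) volume u z :=
    fun u z => (htc.mul hexp).intervalIntegrable _ _
  have h5 : ∫ s in be..H, (slc K' s - triR al be s) * Real.exp (-s)
      = (∫ s in be..H, slc K' s * Real.exp (-s)) - ∫ s in be..H, triR al be s * Real.exp (-s) := by
    rw [← intervalIntegral.integral_sub i1 (i2 _ _)]
    congr 1; funext s; ring
  -- ∫ triR e^{-s}
  have h6 : ∫ s in be..H, triR al be s * Real.exp (-s)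
      ≤ be * Real.exp (-be) - be * Real.exp (-((al + be) / 2)) * shc ((al - be) / 2) := by
    rcases h.hle.eq_or_lt with he | he
    · have e : ∀ s, triR al be s * Real.exp (-s) = 0 := by
        intro s; unfold triR; rw [← he]; simp
      simp_rw [e]
      rw [← he]
      have e1 : (be + be) / 2 = be := by ring
      rw [e1]
      simp [shc]
    · have hd : 0 < al - be := by linarith
      rw [← intervalIntegral.integral_add_adjacent_intervals (i2 be al) (i2 al H)]
      have e2 : ∫ s in al..H, triR al be s * Real.exp (-s) = 0 := by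
        have : ∫ s in al..H, triR al be s * Real.exp (-s) = ∫ s in al..H, (0:ℝ) := by
          apply intervalIntegral.integral_congr
          intro s hs
          rw [Set.uIcc_of_le halH] at hs
          have h1 : triR al be s = 0 := by
            unfold triR
            apply max_eq_left
            apply div_nonpos_of_nonpos_of_nonneg _ hd.le
            nlinarith [hs.1]
          simp only [h1]; ring
        rw [this]; simp
      have e1 : ∫ s in be..al, triR al be s * Real.exp (-s)
          = be / (al - be) * ((al - be - 1) * Real.exp (-be) + Real.exp (-al)) := by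
        have hd1 : ∀ s ∈ Set.uIcc be al, HasDerivAt
            (fun s : ℝ => be / (al - be) * (-((al - s - 1) * Real.exp (-s))))
            (be * (al - s) / (al - be) * Real.exp (-s)) s := by
          intro s _
          have h1 : HasDerivAt (fun s : ℝ => al - s - 1) (-1) s := by
            simpa using ((hasDerivAt_id s).const_sub al).sub_const 1
          have h2 : HasDerivAt (fun s : ℝ => Real.exp (-s)) (Real.exp (-s) * (-1)) s :=
            ((hasDerivAt_id s).fun_neg).exp
          refine HasDerivAt.congr_deriv ((h1.fun_mul h2).fun_neg.const_mul _) ?_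
          field_simp
          ring
        have h7 : ∫ s in be..al, triR al be s * Real.exp (-s)
            = ∫ s in be..al, be * (al - s) / (al - be) * Real.exp (-s) := by
          apply intervalIntegral.integral_congr
          intro s hs
          rw [Set.uIcc_of_le h.hle] at hs
          have h1 : triR al be s = be * (al - s) / (al - be) := by
            unfold triR
            apply max_eq_right
            apply div_nonneg (mul_nonneg hbe.le (by linarith [hs.2])) hd.le
          simp only [h1]
        rw [h7, intervalIntegral.integral_eq_sub_of_hasDerivAt hd1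
          (by apply Continuous.intervalIntegrable; fun_prop)]
        ring
      rw [e1, e2, add_zero]
      unfold shc
      have hx : (al - be) / 2 ≠ 0 := by positivity
      simp only [hx, if_false]
      have e3 : Real.exp (-((al + be) / 2)) * Real.sinh ((al - be) / 2)
          = (Real.exp (-be) - Real.exp (-al)) / 2 := by
        rw [Real.sinh_eq]
        have e4 : Real.exp (-be) = Real.exp (-((al + be) / 2)) * Real.exp ((al - be) / 2) := by
          rw [← Real.exp_add]; ring_nf
        have e5 : Real.exp (-al) = Real.exp (-((al + be) / 2)) * Real.exp (-((al - be) / 2)) := by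
          rw [← Real.exp_add]; ring_nf
        rw [e4, e5]; ring
      have e6 : be * Real.exp (-((al + be) / 2)) * (Real.sinh ((al - be) / 2) / ((al - be) / 2))
          = be / (al - be) * (Real.exp (-be) - Real.exp (-al)) := by
        have : be * Real.exp (-((al + be) / 2)) * (Real.sinh ((al - be) / 2) / ((al - be) / 2))
            = be * (Real.exp (-((al + be) / 2)) * Real.sinh ((al - be) / 2)) / ((al - be) / 2) := by
          ring
        rw [this, e3]; field_simp
      rw [e6]
      apply le_of_eq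
      field_simp
      ring
  rw [h5] at h4
  linarith

/-- (c) -/
theorem C4 (hc : Real.exp ((al - be) / 2) ≤ be * Real.exp 2 * shc ((al - be) / 2)) :
    Real.exp al ≤ ∫ z in K, Real.exp (z.1 + z.2) := by
  have h3 := h.C3
  set m := (al + be) / 2 + μ with hm
  have hi1 : IntegrableOn (fun z : ℝ × ℝ => Real.exp (-(z.1 + z.2))) K :=
    (by fun_prop : Continuous fun z : ℝ × ℝ =>
      Real.exp (-(z.1 + z.2))).continuousOn.integrableOn_compact h.hKc
  have hi2 : IntegrableOn (fun z : ℝ × ℝ =>
      (z.1 + z.2 - (al + be) / 2 - μ) * Real.exp (-(z.1 + z.2))) K :=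
    (by fun_prop : Continuous fun z : ℝ × ℝ =>
      (z.1 + z.2 - (al + be) / 2 - μ)
        * Real.exp (-(z.1 + z.2))).continuousOn.integrableOn_compact h.hKc
  have hi3 : IntegrableOn (fun z : ℝ × ℝ => Real.exp (z.1 + z.2)) K :=
    (by fun_prop : Continuous fun z : ℝ × ℝ =>
      Real.exp (z.1 + z.2)).continuousOn.integrableOn_compact h.hKc
  have h4 : Real.exp (2 * m) * ∫ z in K, Real.exp (-(z.1 + z.2))
      ≤ ∫ z in K, Real.exp (z.1 + z.2) := by
    have h5 : ∫ z in K, (Real.exp (2 * m) * Real.exp (-(z.1 + z.2)) + 2 * Real.exp (2 * m)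
        * ((z.1 + z.2 - (al + be) / 2 - μ) * Real.exp (-(z.1 + z.2))))
        ≤ ∫ z in K, Real.exp (z.1 + z.2) := by
      apply setIntegral_mono_on ((hi1.const_mul _).add (hi2.const_mul _)) hi3 h.hKc.measurableSet
      intro z _
      have h6 := Real.add_one_le_exp (2 * (z.1 + z.2 - m))
      have h7 : Real.exp (z.1 + z.2)
          = Real.exp (2 * m) * Real.exp (-(z.1 + z.2)) * Real.exp (2 * (z.1 + z.2 - m)) := by
        rw [← Real.exp_add, ← Real.exp_add]; ring_nf
      rw [h7]
      have h8 : 0 < Real.exp (2 * m) * Real.exp (-(z.1 + z.2)) := by positivity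
      have h9 := mul_le_mul_of_nonneg_left h6 h8.le
      have e : z.1 + z.2 - (al + be) / 2 - μ = z.1 + z.2 - m := by rw [hm]; ring
      change Real.exp (2 * m) * Real.exp (-(z.1 + z.2)) + 2 * Real.exp (2 * m)
        * ((z.1 + z.2 - (al + be) / 2 - μ) * Real.exp (-(z.1 + z.2))) ≤ _
      rw [e]
      linarith
    rw [integral_add (hi1.const_mul _) (hi2.const_mul _), integral_const_mul,
      integral_const_mul] at h5
    have h6 : 0 ≤ 2 * Real.exp (2 * m) * ∫ z in K,
        (z.1 + z.2 - (al + be) / 2 - μ) * Real.exp (-(z.1 + z.2)) :=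
      mul_nonneg (by positivity) h.hmean
    linarith
  have h5 : Real.exp (2 * ((al + be) / 2) + 2) ≤ Real.exp (2 * m) := by
    apply Real.exp_le_exp.mpr
    have := h.hmu
    rw [hm]; linarith
  have h6 : Real.exp (2 * ((al + be) / 2) + 2) * (be * Real.exp (-((al + be) / 2))
      * shc ((al - be) / 2)) ≤ ∫ z in K, Real.exp (z.1 + z.2) := by
    have hJ := h.hJ
    calc Real.exp (2 * ((al + be) / 2) + 2) * (be * Real.exp (-((al + be) / 2))
          * shc ((al - be) / 2))
        ≤ Real.exp (2 * ((al + be) / 2) + 2) * ∫ z in K, Real.exp (-(z.1 + z.2)) :=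
          mul_le_mul_of_nonneg_left h3 (Real.exp_pos _).le
      _ ≤ Real.exp (2 * m) * ∫ z in K, Real.exp (-(z.1 + z.2)) :=
          mul_le_mul_of_nonneg_right h5 hJ.le
      _ ≤ _ := h4
  have h7 : Real.exp (2 * ((al + be) / 2) + 2) * (be * Real.exp (-((al + be) / 2))
      * shc ((al - be) / 2))
      = Real.exp ((al + be) / 2) * (be * Real.exp 2 * shc ((al - be) / 2)) := by
    have : Real.exp (2 * ((al + be) / 2) + 2) * Real.exp (-((al + be) / 2))
        = Real.exp ((al + be) / 2) * Real.exp 2 := by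
      rw [← Real.exp_add, ← Real.exp_add]; ring_nf
    linear_combination (be * shc ((al - be) / 2)) * this
  rw [h7] at h6
  have h8 : Real.exp al ≤ Real.exp ((al + be) / 2) * (be * Real.exp 2 * shc ((al - be) / 2)) := by
    have : Real.exp al = Real.exp ((al + be) / 2) * Real.exp ((al - be) / 2) := by
      rw [← Real.exp_add]; ring_nf
    rw [this]
    exact mul_le_mul_of_nonneg_left hc (Real.exp_pos _).le
  linarith

end S5Hyp

/-- (d), pure algebra: `δ'(1 + J' - X' - Y') = J'` and `(b)`, `(c)` exclude doubly thin. -/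
theorem five_d {al be J' δ' X' Y' : ℝ} (hJ1 : J' < 1) (hδ : Real.exp al ≤ δ')
    (hb : 1 - Real.exp (-be) ≤ J') (hid : δ' * (1 + J' - X' - Y') = J') :
    1 - Real.exp (-al) ≤ X' ∨ 1 - Real.exp (-be) ≤ Y' := by
  by_contra hc
  push Not at hc
  obtain ⟨h1, h2⟩ := hc
  have hδ0 : 0 < δ' := lt_of_lt_of_le (Real.exp_pos _) hδ
  have h3 : Real.exp (-al) < 1 + J' - X' - Y' := by linarith
  have h4 : δ' * Real.exp (-al) < J' := by
    rw [← hid]; exact mul_lt_mul_of_pos_left h3 hδ0
  have h5 : 1 ≤ δ' * Real.exp (-al) := by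
    have h6 := mul_le_mul_of_nonneg_right hδ (Real.exp_pos (-al)).le
    have h7 : Real.exp al * Real.exp (-al) = 1 := by rw [← Real.exp_add]; simp
    linarith
  linarith

end Pool.Agent.MPb5407d
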