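import Pool.Agent.Work.MP_b5407d_gt.Slice5

/-!
# MP_b5407d_gt: slices of planar sets along `X + Y = s` (helper13)
-/

namespace Pool.Agent.MPb5407d

open Real MeasureTheory Set

/-- the slice `{X | (X, s - X) ∈ K}` -/
def slcSet (K : Set (ℝ × ℝ)) (s : ℝ) : Set ℝ := {X | (X, -X + s) ∈ K}

/-- the length of the slice -/
noncomputable def slc (K : Set (ℝ × ℝ)) (s : ℝ) : ℝ := (volume (slcSet K s)).toReal

def shearMap (z : ℝ × ℝ) : ℝ × ℝ := (z.2, -z.2 + z.1)

theorem shear_mp : MeasurePreserving shearMap (volume : Measure (ℝ × ℝ)) volume := by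
  have := measurePreserving_prod_neg_add_swap (volume : Measure ℝ) (volume : Measure ℝ)
  exact this

theorem shear_emb : MeasurableEmbedding shearMap := by
  apply Continuous.measurableEmbedding
  · unfold shearMap; fun_prop
  · intro z w h
    unfold shearMap at h
    rw [Prod.mk.injEq] at h
    obtain ⟨h1, h2⟩ := h
    ext
    · linarith
    · exact h1

theorem slcSet_isCompact {K : Set (ℝ × ℝ)} (hK : IsCompact K) (s : ℝ) :
    IsCompact (slcSet K s) := by
  have hclosed : IsClosed (slcSet K s) := by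
    have : Continuous fun X : ℝ => (X, -X + s) := by fun_prop
    exact hK.isClosed.preimage this
  have hsub : slcSet K s ⊆ Prod.fst '' K := fun X hX => ⟨(X, -X + s), hX, rfl⟩
  exact (hK.image continuous_fst).of_isClosed_subset hclosed hsub

theorem slcSet_measurable {K : Set (ℝ × ℝ)} (hK : IsCompact K) (s : ℝ) :
    MeasurableSet (slcSet K s) := (slcSet_isCompact hK s).measurableSet

theorem slc_nonneg (K : Set (ℝ × ℝ)) (s : ℝ) : 0 ≤ slc K s := ENNReal.toReal_nonneg

theorem slc_mono {K K' : Set (ℝ × ℝ)} (hK' : IsCompact K') (h : K ⊆ K') (s : ℝ) :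
    slc K s ≤ slc K' s := by
  unfold slc
  apply ENNReal.toReal_mono
  · exact (slcSet_isCompact hK' s).measure_lt_top.ne
  · exact measure_mono fun X hX => h hX

theorem integrable_ind {K : Set (ℝ × ℝ)} (hK : IsCompact K) {φ : ℝ → ℝ} (hφ : Continuous φ) :
    Integrable (K.indicator fun z : ℝ × ℝ => φ (z.1 + z.2)) := by
  rw [integrable_indicator_iff hK.measurableSet]
  apply ContinuousOn.integrableOn_compact hK
  exact (by fun_prop : Continuous fun z : ℝ × ℝ => φ (z.1 + z.2)).continuousOn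

theorem integrable_ind_shear {K : Set (ℝ × ℝ)} (hK : IsCompact K) {φ : ℝ → ℝ}
    (hφ : Continuous φ) :
    Integrable (fun z : ℝ × ℝ => (K.indicator fun z : ℝ × ℝ => φ (z.1 + z.2)) (shearMap z)) :=
  (shear_mp.integrable_comp_emb shear_emb).mpr (integrable_ind hK hφ)

theorem inner_eq {K : Set (ℝ × ℝ)} (hK : IsCompact K) (φ : ℝ → ℝ) (s : ℝ) :
    ∫ X : ℝ, (K.indicator fun z : ℝ × ℝ => φ (z.1 + z.2)) (shearMap (s, X)) = φ s * slc K s := by
  have h1 : (fun X : ℝ => (K.indicator fun z : ℝ × ℝ => φ (z.1 + z.2)) (shearMap (s, X)))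
      = (slcSet K s).indicator fun _ => φ s := by
    funext X
    unfold shearMap
    by_cases h : (X, -X + s) ∈ K
    · have h2 : X ∈ slcSet K s := h
      rw [indicator_of_mem h, indicator_of_mem h2]
      congr 1; ring
    · have h2 : X ∉ slcSet K s := h
      rw [indicator_of_notMem h, indicator_of_notMem h2]
  rw [h1, integral_indicator (slcSet_measurable hK s), setIntegral_const, smul_eq_mul, mul_comm]
  rfl

/-- slice formula -/
theorem slice_integral {K : Set (ℝ × ℝ)} (hK : IsCompact K) {φ : ℝ → ℝ} (hφ : Continuous φ) :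
    ∫ z in K, φ (z.1 + z.2) = ∫ s, φ s * slc K s := by
  rw [← integral_indicator hK.measurableSet]
  have h1 := shear_mp.integral_comp shear_emb (K.indicator fun z : ℝ × ℝ => φ (z.1 + z.2))
  rw [← h1]
  have h2 := integrable_ind_shear hK hφ
  have h3 : ∫ z : ℝ × ℝ, (K.indicator fun z : ℝ × ℝ => φ (z.1 + z.2)) (shearMap z)
      = ∫ s : ℝ, ∫ X : ℝ, (K.indicator fun z : ℝ × ℝ => φ (z.1 + z.2)) (shearMap (s, X)) :=
    integral_prod _ h2
  rw [h3]
  congr 1
  funext s
  exact inner_eq hK φ s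

theorem slice_integrable {K : Set (ℝ × ℝ)} (hK : IsCompact K) {φ : ℝ → ℝ} (hφ : Continuous φ) :
    Integrable fun s => φ s * slc K s := by
  have h2 := integrable_ind_shear hK hφ
  have h3 := h2.integral_prod_left
  refine h3.congr (Filter.Eventually.of_forall fun s => ?_)
  exact inner_eq hK φ s

theorem slc_integrable {K : Set (ℝ × ℝ)} (hK : IsCompact K) : Integrable (slc K) := by
  have := slice_integrable hK (φ := fun _ => (1:ℝ)) continuous_const
  simpa using this

theorem slcSet_convex {K : Set (ℝ × ℝ)} (hK : Convex ℝ K) (s : ℝ) : Convex ℝ (slcSet K s) := by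
  intro X hX Y hY a b ha hb hab
  have h := hK hX hY ha hb hab
  have e : a • (X, -X + s) + b • (Y, -Y + s) = (a • X + b • Y, -(a • X + b • Y) + s) := by
    ext
    · simp
    · simp only [Prod.snd_add, Prod.smul_snd, smul_eq_mul]
      have : s = a * s + b * s := by rw [← add_mul, hab, one_mul]
      linear_combination (-1) * this
  rw [e] at h
  exact h

/-- a nonempty compact convex slice is an interval. -/
theorem slcSet_eq_Icc {K : Set (ℝ × ℝ)} (hK : IsCompact K) (hKc : Convex ℝ K) {s : ℝ}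
    (hne : (slcSet K s).Nonempty) : ∃ α β, α ≤ β ∧ slcSet K s = Icc α β := by
  have hconn : IsConnected (slcSet K s) := ⟨hne, (slcSet_convex hKc s).isPreconnected⟩
  have h := eq_Icc_of_connected_compact hconn (slcSet_isCompact hK s)
  refine ⟨sInf (slcSet K s), sSup (slcSet K s), ?_, h⟩
  rw [h] at hne
  exact nonempty_Icc.mp hne

theorem slc_of_Icc {K : Set (ℝ × ℝ)} {s α β : ℝ} (h : slcSet K s = Icc α β) (hab : α ≤ β) :
    slc K s = β - α := by
  unfold slc
  rw [h, Real.volume_Icc, ENNReal.toReal_ofReal (by linarith)]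

theorem slc_ge_of_Icc_subset {K : Set (ℝ × ℝ)} (hK : IsCompact K) {s α β : ℝ}
    (h : Icc α β ⊆ slcSet K s) : β - α ≤ slc K s := by
  unfold slc
  have h1 : (volume (Icc α β)).toReal ≤ (volume (slcSet K s)).toReal := by
    apply ENNReal.toReal_mono
    · exact (slcSet_isCompact hK s).measure_lt_top.ne
    · exact measure_mono h
  rw [Real.volume_Icc] at h1
  have h2 : β - α ≤ (ENNReal.ofReal (β - α)).toReal := by
    rw [ENNReal.toReal_ofReal']; exact le_max_left _ _
  linarith

/-- concavity of the slice function where the slices are nonempty. -/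
theorem slc_concave {K : Set (ℝ × ℝ)} (hK : IsCompact K) (hKc : Convex ℝ K) {u H : ℝ}
    (hne : ∀ s ∈ Icc u H, (slcSet K s).Nonempty) : ConcaveOn ℝ (Icc u H) (slc K) := by
  refine ⟨convex_Icc _ _, ?_⟩
  intro s0 h0 s1 h1 a b ha hb hab
  obtain ⟨α0, β0, hab0, e0⟩ := slcSet_eq_Icc hK hKc (hne s0 h0)
  obtain ⟨α1, β1, hab1, e1⟩ := slcSet_eq_Icc hK hKc (hne s1 h1)
  rw [slc_of_Icc e0 hab0, slc_of_Icc e1 hab1]
  simp only [smul_eq_mul]
  have hmem : ∀ X0 ∈ slcSet K s0, ∀ X1 ∈ slcSet K s1,
      a * X0 + b * X1 ∈ slcSet K (a * s0 + b * s1) := by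
    intro X0 hX0 X1 hX1
    have h := hKc hX0 hX1 ha hb hab
    have e : a • (X0, -X0 + s0) + b • (X1, -X1 + s1)
        = (a * X0 + b * X1, -(a * X0 + b * X1) + (a * s0 + b * s1)) := by
      ext
      · simp
      · simp only [Prod.snd_add, Prod.smul_snd, smul_eq_mul]
        ring
    rw [e] at h
    exact h
  have hα0 : α0 ∈ slcSet K s0 := by rw [e0]; exact left_mem_Icc.mpr hab0
  have hβ0 : β0 ∈ slcSet K s0 := by rw [e0]; exact right_mem_Icc.mpr hab0
  have hα1 : α1 ∈ slcSet K s1 := by rw [e1]; exact left_mem_Icc.mpr hab1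
  have hβ1 : β1 ∈ slcSet K s1 := by rw [e1]; exact right_mem_Icc.mpr hab1
  have hl := hmem α0 hα0 α1 hα1
  have hr := hmem β0 hβ0 β1 hβ1
  have hsub : Icc (a * α0 + b * α1) (a * β0 + b * β1) ⊆ slcSet K (a * s0 + b * s1) :=
    (slcSet_convex hKc _).ordConnected.out hl hr
  have := slc_ge_of_Icc_subset hK hsub
  linarith

end Pool.Agent.MPb5407d
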