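import Pool.Agent.Work.MP_b5407d_gt.OneVar4

/-!
# MP_b5407d_gt: section 5 (b) of note 1887, the one-dimensional part (helper13)

`k` = slice function of `K'` (length of the slice `{X+Y = s}`), concave on `[be,H]`,
`triR` = slice function of the triangle for `s ≥ be`, `M = (al+be)/2`.
If `∫ (k - triR)(s-M-1)e^{-s} > 0` over `[be,H]` then `be e^{-be} ≤ ∫_be^H k e^{-s}`.
-/

namespace Pool.Agent.MPb5407d

open Real intervalIntegral MeasureTheory

noncomputable def triR (al be s : ℝ) : ℝ := max 0 (be * (al - s) / (al - be))

theorem triR_nonneg (al be s : ℝ) : 0 ≤ triR al be s := le_max_left _ _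

theorem triR_cont (al be : ℝ) : Continuous fun s => triR al be s := by
  unfold triR; fun_prop

theorem triR_convex (al be : ℝ) (S : Set ℝ) (hS : Convex ℝ S) :
    ConvexOn ℝ S fun s => triR al be s := by
  unfold triR
  have h1 : ConvexOn ℝ S fun _ : ℝ => (0:ℝ) := convexOn_const 0 hS
  have h2 : ConvexOn ℝ S fun s : ℝ => be * (al - s) / (al - be) := by
    refine ⟨hS, ?_⟩
    intro x _ y _ a b ha hb hab
    simp only [smul_eq_mul]
    have : be * (al - (a * x + b * y)) / (al - be)
        = a * (be * (al - x) / (al - be)) + b * (be * (al - y) / (al - be)) := by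
      have h3 : al = a * al + b * al := by rw [← add_mul, hab, one_mul]
      have h4 : be * (al - (a * x + b * y)) = a * (be * (al - x)) + b * (be * (al - y)) := by
        nth_rewrite 1 [h3]; ring
      rw [h4]; ring
    rw [this]
  exact h1.sup h2

/-- concave function against a line through `(u,y0)` and `(p, f p)`. -/
theorem conc_line {f : ℝ → ℝ} {u H p y0 : ℝ} (hf : ConcaveOn ℝ (Set.Icc u H) f)
    (hup : u < p) (hpH : p ≤ H) (hy : y0 ≤ f u) :
    (∀ s ∈ Set.Icc u p, y0 + (f p - y0) / (p - u) * (s - u) ≤ f s) ∧
    (∀ s ∈ Set.Icc p H, f s ≤ y0 + (f p - y0) / (p - u) * (s - u)) := by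
  have hpu : 0 < p - u := by linarith
  have huM : u ∈ Set.Icc u H := ⟨le_rfl, by linarith⟩
  have hpM : p ∈ Set.Icc u H := ⟨hup.le, hpH⟩
  constructor
  · intro s hs
    -- s = (1-t) u + t p, t = (s-u)/(p-u)
    set t := (s - u) / (p - u) with ht
    have ht0 : 0 ≤ t := div_nonneg (by linarith [hs.1]) hpu.le
    have ht1 : t ≤ 1 := by rw [ht, div_le_one hpu]; linarith [hs.2]
    have h1 := hf.2 huM hpM (show 0 ≤ 1 - t by linarith) ht0 (by ring)
    simp only [smul_eq_mul] at h1
    have h2 : (1 - t) * u + t * p = s := by
      have : t * (p - u) = s - u := by rw [ht]; field_simp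
      linarith
    rw [h2] at h1
    have h3 : (f p - y0) / (p - u) * (s - u) = (f p - y0) * t := by rw [ht]; ring
    rw [h3]
    nlinarith [mul_le_mul_of_nonneg_left hy (show 0 ≤ 1 - t by linarith)]
  · intro s hs
    have hsM : s ∈ Set.Icc u H := ⟨by linarith [hs.1], hs.2⟩
    have hsu : 0 < s - u := by linarith [hs.1]
    -- p = (1-t) u + t s, t = (p-u)/(s-u)
    set t := (p - u) / (s - u) with ht
    have ht0 : 0 < t := div_pos hpu hsu
    have ht1 : t ≤ 1 := by rw [ht, div_le_one hsu]; linarith [hs.1]
    have h1 := hf.2 huM hsM (show 0 ≤ 1 - t by linarith) ht0.le (by ring)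
    simp only [smul_eq_mul] at h1
    have h2 : (1 - t) * u + t * s = p := by
      have : t * (s - u) = p - u := by rw [ht]; field_simp
      linarith
    rw [h2] at h1
    have h3 : t * f s ≤ t * (y0 + (f p - y0) / (p - u) * (s - u)) := by
      have h4 : t * ((f p - y0) / (p - u) * (s - u)) = f p - y0 := by
        rw [ht]; field_simp
      nlinarith [mul_le_mul_of_nonneg_left hy (show 0 ≤ 1 - t by linarith)]
    exact le_of_mul_le_mul_left h3 ht0

theorem int_c (M u z : ℝ) :
    ∫ s in u..z, (s - M - 1) * Real.exp (-s)
      = (u - M) * Real.exp (-u) - (z - M) * Real.exp (-z) := by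
  have hd : ∀ s ∈ Set.uIcc u z, HasDerivAt (fun s : ℝ => -((s - M) * Real.exp (-s)))
      ((s - M - 1) * Real.exp (-s)) s := by
    intro s _
    have h1 : HasDerivAt (fun s : ℝ => s - M) 1 s := (hasDerivAt_id s).sub_const M
    have h2 : HasDerivAt (fun s : ℝ => Real.exp (-s)) (Real.exp (-s) * (-1)) s :=
      ((hasDerivAt_id s).fun_neg).exp
    refine HasDerivAt.congr_deriv (h1.fun_mul h2).fun_neg ?_
    ring
  rw [integral_eq_sub_of_hasDerivAt hd (by apply Continuous.intervalIntegrable; fun_prop)]
  ring

theorem int_l (c M u z : ℝ) :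
    ∫ s in u..z, (s - c) * ((s - M - 1) * Real.exp (-s))
      = ((u - c) * (u - M) + (u - M + 1)) * Real.exp (-u)
        - ((z - c) * (z - M) + (z - M + 1)) * Real.exp (-z) := by
  have hd : ∀ s ∈ Set.uIcc u z, HasDerivAt
      (fun s : ℝ => -(((s - c) * (s - M) + (s - M + 1)) * Real.exp (-s)))
      ((s - c) * ((s - M - 1) * Real.exp (-s))) s := by
    intro s _
    have h1 : HasDerivAt (fun s : ℝ => s - M) 1 s := (hasDerivAt_id s).sub_const M
    have h1' : HasDerivAt (fun s : ℝ => s - c) 1 s := (hasDerivAt_id s).sub_const c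
    have h2 : HasDerivAt (fun s : ℝ => Real.exp (-s)) (Real.exp (-s) * (-1)) s :=
      ((hasDerivAt_id s).fun_neg).exp
    refine HasDerivAt.congr_deriv
      (((h1'.fun_mul h1).fun_add (h1.add_const 1)).fun_mul h2).fun_neg ?_
    ring
  rw [integral_eq_sub_of_hasDerivAt hd (by apply Continuous.intervalIntegrable; fun_prop)]
  ring

/-- `∫_be^H (be - triR)(s-M-1)e^{-s} ≤ -be (H-M) e^{-H}`. -/
theorem F0_bound {al be H M : ℝ} (hbe : 0 < be) (hle : be ≤ al) (hH : al ≤ H)
    (hM : M = (al + be) / 2) :
    ∫ s in be..H, (be - triR al be s) * ((s - M - 1) * Real.exp (-s))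
      ≤ -(be * (H - M) * Real.exp (-H)) := by
  rcases hle.eq_or_lt with h | h
  · -- al = be
    have hMbe : M = be := by rw [hM, ← h]; ring
    have e : ∀ s, (be - triR al be s) * ((s - M - 1) * Real.exp (-s))
        = be * ((s - M - 1) * Real.exp (-s)) := by
      intro s; unfold triR; rw [← h]; simp
    simp_rw [e]
    rw [intervalIntegral.integral_const_mul, int_c, hMbe]
    apply le_of_eq; ring
  · have hd : 0 < al - be := by linarith
    have hcont : Continuous fun s => (be - triR al be s) * ((s - M - 1) * Real.exp (-s)) := by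
      have := triR_cont al be
      fun_prop
    rw [← intervalIntegral.integral_add_adjacent_intervals (b := al)
      (hcont.intervalIntegrable _ _) (hcont.intervalIntegrable _ _)]
    have e1 : ∫ s in be..al, (be - triR al be s) * ((s - M - 1) * Real.exp (-s))
        = be / (al - be) * ∫ s in be..al, (s - be) * ((s - M - 1) * Real.exp (-s)) := by
      rw [← intervalIntegral.integral_const_mul]
      apply intervalIntegral.integral_congr
      intro s hs
      rw [Set.uIcc_of_le hle] at hs
      have h1 : triR al be s = be * (al - s) / (al - be) := by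
        unfold triR
        apply max_eq_right
        apply div_nonneg (mul_nonneg hbe.le (by linarith [hs.2])) hd.le
      simp only [h1]
      field_simp
      ring
    have e2 : ∫ s in al..H, (be - triR al be s) * ((s - M - 1) * Real.exp (-s))
        = be * ∫ s in al..H, ((s - M - 1) * Real.exp (-s)) := by
      rw [← intervalIntegral.integral_const_mul]
      apply intervalIntegral.integral_congr
      intro s hs
      rw [Set.uIcc_of_le hH] at hs
      have h1 : triR al be s = 0 := by
        unfold triR
        apply max_eq_left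
        apply div_nonpos_of_nonpos_of_nonneg _ hd.le
        nlinarith [hs.1]
      simp only [h1]; ring
    rw [e1, e2, int_l, int_c]
    -- key : (be-M+1)e^{-be} ≤ (al-M+1)e^{-al}
    have key : (be - M + 1) * Real.exp (-be) ≤ (al - M + 1) * Real.exp (-al) := by
      obtain ⟨x, hx⟩ : ∃ x, x = (al - be) / 2 := ⟨_, rfl⟩
      have hx0 : 0 < x := by rw [hx]; linarith
      have hb : be = M - x := by rw [hM, hx]; ring
      have ha : al = M + x := by rw [hM, hx]; ring
      have h1 := ch_th x hx0
      rw [hb, ha]
      have e3 : Real.exp (-(M - x)) = Real.exp (-M) * Real.exp x := by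
        rw [← Real.exp_add]; ring_nf
      have e4 : Real.exp (-(M + x)) = Real.exp (-M) * Real.exp (-x) := by
        rw [← Real.exp_add]; ring_nf
      rw [e3, e4]
      rw [Real.sinh_eq, Real.cosh_eq] at h1
      have h2 : (1 - x) * Real.exp x ≤ (1 + x) * Real.exp (-x) := by nlinarith
      have h3 := mul_le_mul_of_nonneg_left h2 (Real.exp_pos (-M)).le
      nlinarith
    have h3 : be / (al - be) * (((be - be) * (be - M) + (be - M + 1)) * Real.exp (-be)
        - ((al - be) * (al - M) + (al - M + 1)) * Real.exp (-al))
        = be / (al - be) * ((be - M + 1) * Real.exp (-be) - (al - M + 1) * Real.exp (-al))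
          - be * (al - M) * Real.exp (-al) := by
      field_simp; ring
    rw [h3]
    have h4 : be / (al - be) * ((be - M + 1) * Real.exp (-be) - (al - M + 1) * Real.exp (-al))
        ≤ 0 := by
      apply mul_nonpos_of_nonneg_of_nonpos (by positivity)
      linarith
    linarith

/-- The one-dimensional part of section 5 (b). -/
theorem slice_main {al be H M : ℝ} {k : ℝ → ℝ} (hbe : 0 < be) (hle : be ≤ al) (hH : al ≤ H)
    (hM : M = (al + be) / 2) (hk : ConcaveOn ℝ (Set.Icc be H) k) (hkbe : be ≤ k be)
    (htri : ∀ s ∈ Set.Icc be H, triR al be s ≤ k s)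
    (hint : IntervalIntegrable k volume be H)
    (hyp : 0 < ∫ s in be..H, (k s - triR al be s) * ((s - M - 1) * Real.exp (-s))) :
    be * Real.exp (-be) ≤ ∫ s in be..H, k s * Real.exp (-s) := by
  have hbeH : be ≤ H := hle.trans hH
  have hg : Continuous fun s : ℝ => (s - M - 1) * Real.exp (-s) := by fun_prop
  have hexp : Continuous fun s : ℝ => Real.exp (-s) := by fun_prop
  have i1 : IntervalIntegrable (fun s => k s * ((s - M - 1) * Real.exp (-s))) volume be H :=
    hint.mul_continuousOn hg.continuousOn
  have i2 : IntervalIntegrable (fun s => triR al be s * ((s - M - 1) * Real.exp (-s)))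
      volume be H := by
    apply Continuous.intervalIntegrable
    have := triR_cont al be
    fun_prop
  have i3 : IntervalIntegrable (fun s => (k s - be) * ((s - M - 1) * Real.exp (-s)))
      volume be H :=
    (hint.sub intervalIntegrable_const).mul_continuousOn hg.continuousOn
  have i4 : IntervalIntegrable (fun s => (k s - be) * Real.exp (-s)) volume be H :=
    (hint.sub intervalIntegrable_const).mul_continuousOn hexp.continuousOn
  have i5 : IntervalIntegrable (fun s => (k s - triR al be s) * ((s - M - 1) * Real.exp (-s)))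
      volume be H :=
    (hint.sub ((triR_cont al be).intervalIntegrable _ _)).mul_continuousOn hg.continuousOn
  have i6 : IntervalIntegrable (fun s => (be - triR al be s) * ((s - M - 1) * Real.exp (-s)))
      volume be H := by
    apply Continuous.intervalIntegrable
    have := triR_cont al be
    fun_prop
  -- A(k) := ∫ (k-be)(s-M-1)e^{-s} > be (H-M) e^{-H}
  have hA : be * (H - M) * Real.exp (-H)
      < ∫ s in be..H, (k s - be) * ((s - M - 1) * Real.exp (-s)) := by
    have h1 := F0_bound hbe hle hH hM
    have h2 : ∫ s in be..H, (k s - triR al be s) * ((s - M - 1) * Real.exp (-s))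
        = (∫ s in be..H, (k s - be) * ((s - M - 1) * Real.exp (-s)))
          + ∫ s in be..H, (be - triR al be s) * ((s - M - 1) * Real.exp (-s)) := by
      rw [← intervalIntegral.integral_add i3 i6]
      apply intervalIntegral.integral_congr
      intro s _
      ring
    rw [h2] at hyp
    linarith
  have hMal : M ≤ al := by rw [hM]; linarith
  have hbeM : be ≤ M := by rw [hM]; linarith
  -- H > M + 1
  have hH1 : M + 1 < H := by
    by_contra hc
    push Not at hc
    have : ∫ s in be..H, (k s - triR al be s) * ((s - M - 1) * Real.exp (-s)) ≤ 0 := by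
      have h0 : 0 ≤ ∫ s in be..H, -((k s - triR al be s) * ((s - M - 1) * Real.exp (-s))) := by
        apply intervalIntegral.integral_nonneg hbeH
        intro s hs
        have h1 := htri s hs
        have h2 := Real.exp_pos (-s)
        have h3 : (s - M - 1) * Real.exp (-s) ≤ 0 :=
          mul_nonpos_of_nonpos_of_nonneg (by linarith [hs.2]) h2.le
        have := mul_nonpos_of_nonneg_of_nonpos (sub_nonneg.mpr h1) h3
        linarith
      rw [intervalIntegral.integral_neg] at h0
      linarith
    linarith
  have hp : be < M + 1 := by linarith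
  -- W > 0
  set W := ∫ s in be..H, (s - be) * ((s - M - 1) * Real.exp (-s)) with hW
  have iW : IntervalIntegrable (fun s => (s - be) * ((s - M - 1) * Real.exp (-s))) volume be H := by
    apply Continuous.intervalIntegrable; fun_prop
  have hWpos : 0 < W := by
    by_contra hc
    push Not at hc
    have hconc : ConcaveOn ℝ (Set.Icc be H) fun s => k s - triR al be s :=
      hk.sub (triR_convex al be _ (convex_Icc _ _))
    have h0 : (0:ℝ) ≤ (fun s => k s - triR al be s) be := by
      have := htri be ⟨le_rfl, hbeH⟩
      simp only; linarith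
    obtain ⟨hl1, hl2⟩ := conc_line hconc hp hH1.le h0
    set c := (((fun s => k s - triR al be s) (M + 1)) - 0) / (M + 1 - be) with hcdef
    have hc0 : 0 ≤ c := by
      apply div_nonneg _ (by linarith)
      have := htri (M + 1) ⟨by linarith, hH1.le⟩
      simp only; linarith
    have hle2 : ∫ s in be..H, (k s - triR al be s) * ((s - M - 1) * Real.exp (-s))
        ≤ ∫ s in be..H, c * ((s - be) * ((s - M - 1) * Real.exp (-s))) := by
      apply intervalIntegral.integral_mono_on hbeH i5 (iW.const_mul c)
      intro s hs
      have h2 := Real.exp_pos (-s)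
      rcases le_total s (M + 1) with h3 | h3
      · have h4 := hl1 s ⟨hs.1, h3⟩
        simp only [zero_add] at h4
        have h5 : (s - M - 1) * Real.exp (-s) ≤ 0 :=
          mul_nonpos_of_nonpos_of_nonneg (by linarith) h2.le
        have h6 := mul_le_mul_of_nonpos_right h4 h5
        linarith
      · have h4 := hl2 s ⟨h3, hs.2⟩
        simp only [zero_add] at h4
        have h5 : 0 ≤ (s - M - 1) * Real.exp (-s) := mul_nonneg (by linarith) h2.le
        have h6 := mul_le_mul_of_nonneg_right h4 h5
        linarith
    rw [intervalIntegral.integral_const_mul] at hle2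
    have := mul_nonpos_of_nonneg_of_nonpos hc0 hc
    linarith
  -- k (M+1) > be
  have hkM : be < k (M + 1) := by
    by_contra hc
    push Not at hc
    obtain ⟨hl1, hl2⟩ := conc_line hk hp hH1.le hkbe
    set κ := (k (M + 1) - be) / (M + 1 - be) with hκ
    have hκ0 : κ ≤ 0 := div_nonpos_of_nonpos_of_nonneg (by linarith) (by linarith)
    have hle2 : ∫ s in be..H, (k s - be) * ((s - M - 1) * Real.exp (-s))
        ≤ ∫ s in be..H, κ * ((s - be) * ((s - M - 1) * Real.exp (-s))) := by
      apply intervalIntegral.integral_mono_on hbeH i3 (iW.const_mul κ)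
      intro s hs
      have h2 := Real.exp_pos (-s)
      rcases le_total s (M + 1) with h3 | h3
      · have h4 := hl1 s ⟨hs.1, h3⟩
        have h5 : (s - M - 1) * Real.exp (-s) ≤ 0 :=
          mul_nonpos_of_nonpos_of_nonneg (by linarith) h2.le
        have h6 := mul_le_mul_of_nonpos_right h4 h5
        linarith
      · have h4 := hl2 s ⟨h3, hs.2⟩
        have h5 : 0 ≤ (s - M - 1) * Real.exp (-s) := mul_nonneg (by linarith) h2.le
        have h6 := mul_le_mul_of_nonneg_right h4 h5
        linarith
    rw [intervalIntegral.integral_const_mul] at hle2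
    have h7 := mul_nonpos_of_nonpos_of_nonneg hκ0 hWpos.le
    have h8 : 0 ≤ be * (H - M) * Real.exp (-H) := by
      have : 0 ≤ H - M := by linarith
      positivity
    linarith
  -- crossing point
  have hne : (M + 1) ∈ {s | s ∈ Set.Icc be H ∧ be ≤ k s} :=
    ⟨⟨hp.le, hH1.le⟩, hkM.le⟩
  have hbdd : BddAbove {s | s ∈ Set.Icc be H ∧ be ≤ k s} := ⟨H, fun s hs => hs.1.2⟩
  set σ := sSup {s | s ∈ Set.Icc be H ∧ be ≤ k s} with hσ
  have hσ1 : M + 1 ≤ σ := le_csSup hbdd hne
  have hσH : σ ≤ H := csSup_le ⟨_, hne⟩ fun s hs => hs.1.2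
  have hcross : ∀ s ∈ Set.Icc be H, (k s - be) * (s - σ) ≤ 0 := by
    intro s hs
    rcases lt_trichotomy s σ with h | h | h
    · obtain ⟨s1, hs1, hss1⟩ := exists_lt_of_lt_csSup ⟨_, hne⟩ h
      -- k s ≥ be by concavity
      have hbs : be < s1 := lt_of_le_of_lt hs.1 hss1
      have h2 := (conc_line hk hbs hs1.1.2 hkbe).1 s ⟨hs.1, hss1.le⟩
      have h3 : 0 ≤ (k s1 - be) / (s1 - be) * (s - be) :=
        mul_nonneg (div_nonneg (by linarith [hs1.2]) (by linarith)) (by linarith [hs.1])
      have h4 : 0 ≤ k s - be := by linarith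
      exact mul_nonpos_of_nonneg_of_nonpos h4 (by linarith)
    · rw [h]; simp
    · have h4 : k s - be ≤ 0 := by
        by_contra hc
        push Not at hc
        have : s ≤ σ := le_csSup hbdd ⟨hs, by linarith⟩
        linarith
      exact mul_nonpos_of_nonpos_of_nonneg h4 (by linarith)
  -- A(k) ≤ (σ-M-1) ∫ (k-be)e^{-s}
  have hA2 : ∫ s in be..H, (k s - be) * ((s - M - 1) * Real.exp (-s))
      ≤ (σ - M - 1) * ∫ s in be..H, (k s - be) * Real.exp (-s) := by
    rw [← intervalIntegral.integral_const_mul]
    apply intervalIntegral.integral_mono_on hbeH i3 (i4.const_mul _)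
    intro s hs
    have h2 := Real.exp_pos (-s)
    have h3 := mul_le_mul_of_nonneg_right (hcross s hs) h2.le
    linarith
  set I := ∫ s in be..H, (k s - be) * Real.exp (-s) with hI
  have hI1 : be * Real.exp (-H) ≤ I := by
    have h1 : be * (H - M) * Real.exp (-H) < (σ - M - 1) * I := lt_of_lt_of_le hA hA2
    have h2 : 0 < be * Real.exp (-H) := by positivity
    by_contra hc
    push Not at hc
    rcases le_or_gt I 0 with h3 | h3
    · have : (σ - M - 1) * I ≤ 0 := mul_nonpos_of_nonneg_of_nonpos (by linarith) h3
      have h4 : 0 ≤ be * (H - M) * Real.exp (-H) := by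
        have : 0 ≤ H - M := by linarith
        positivity
      linarith
    · have h5 : (σ - M - 1) * I ≤ (H - M) * I := by nlinarith
      have h6 : (H - M) * I ≤ (H - M) * (be * Real.exp (-H)) :=
        mul_le_mul_of_nonneg_left hc.le (by linarith)
      nlinarith
  have hI2 : I = (∫ s in be..H, k s * Real.exp (-s)) - be * (Real.exp (-be) - Real.exp (-H)) := by
    have h1 : ∫ s in be..H, be * Real.exp (-s) = be * (Real.exp (-be) - Real.exp (-H)) := by
      rw [intervalIntegral.integral_const_mul]
      congr 1
      have hd : ∀ s ∈ Set.uIcc be H, HasDerivAt (fun s : ℝ => -Real.exp (-s))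
          (Real.exp (-s)) s := by
        intro s _
        have h2 : HasDerivAt (fun s : ℝ => Real.exp (-s)) (Real.exp (-s) * (-1)) s :=
          ((hasDerivAt_id s).fun_neg).exp
        refine HasDerivAt.congr_deriv h2.fun_neg ?_
        ring
      rw [integral_eq_sub_of_hasDerivAt hd (hexp.intervalIntegrable _ _)]
      ring
    rw [← h1, ← intervalIntegral.integral_sub
      (hint.mul_continuousOn hexp.continuousOn) ((hexp.intervalIntegrable _ _).const_mul be)]
    apply intervalIntegral.integral_congr
    intro s _
    ring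
  rw [hI2] at hI1
  linarith

end Pool.Agent.MPb5407d
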